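import Pool.Agent.TH133.DefsCancel

/-!
# Nilpotence on Chow groups: definitions
-/

open CategoryTheory AlgebraicGeometry

universe u v w

namespace Pool.Agent.TH133

open Pool.Agent.H914 Pool.Agent.H914.VarClass Pool.Agent.H914.VarClass.Obj Pool.Agent.W492.BB
  Pool.Agent.W550.Corr

variable {k : Type u} [Field k] {𝒱 : VarClass k} {C : TheoryData.{u, v, 0} 𝒱 ℚ} {K : Type w}
  [Field K]

/-- If a self-correspondence `γ` of degree zero of `X` acts as zero on `H^j(X)` for all `j` with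
`i ≤ j ≤ 2 i`, then its action on `CH^i(X)` is locally nilpotent. -/
def NilpotentOnChow (H : WeilTheoryData.{u, v, w} C K) (X : 𝒱.Obj) (i : ℕ) : Prop :=
  ∀ γ : C.A (X.prod X), C.Deg X.dim γ → (∀ j : ℤ, i ≤ j → j ≤ 2 * i → Kills H γ j) →
    ∀ z : C.A X, C.Deg i z → ∃ m : ℕ, (C.act γ)^[m] z = 0

/-- Homologically trivial self-correspondences of degree zero of `X` are nilpotent. -/
def HomTrivialNilpotent (H : WeilTheoryData.{u, v, w} C K) (X : 𝒱.Obj) : Prop :=
  ∀ γ : C.A (X.prod X), C.Deg X.dim γ → H.cl γ = 0 → ∃ m : ℕ, corPow C γ m = 0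

end Pool.Agent.TH133
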