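import Pool.Agent.TH133.Defs

/-!
# Nilpotence and vanishing of products of correspondences: definitions
-/

open CategoryTheory AlgebraicGeometry

universe u v w

namespace Pool.Agent.TH133

open Pool.Agent.H914 Pool.Agent.H914.VarClass Pool.Agent.H914.VarClass.Obj Pool.Agent.W492.BB
  Pool.Agent.W550.Corr

variable {k : Type u} [Field k] {𝒱 : VarClass k} {C : TheoryData.{u, v, 0} 𝒱 ℚ} {K : Type w}
  [Field K]

/-- If a self-correspondence `γ` of degree zero of `X` acts as zero on `H^j(X)` for all `j` with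
`i ≤ j < 2 i`, then its action on the group of homologically trivial classes in `CH^i(X)` is locally
nilpotent. -/
def NilpotentOnHom (H : WeilTheoryData.{u, v, w} C K) (X : 𝒱.Obj) (i : ℕ) : Prop :=
  ∀ γ : C.A (X.prod X), C.Deg X.dim γ → (∀ j : ℤ, i ≤ j → j < 2 * i → Kills H γ j) →
    ∀ z : C.A X, C.Deg i z → H.cl z = 0 → ∃ m : ℕ, (C.act γ)^[m] z = 0

/-- The class `(γ_{n-1})_* ⋯ (γ_1)_* (γ_0)_* z`. -/
noncomputable def actSeq (C : TheoryData.{u, v, 0} 𝒱 ℚ) {X : 𝒱.Obj} (γ : ℕ → C.A (X.prod X))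
    (z : C.A X) : ℕ → C.A X
  | 0 => z
  | n + 1 => C.act (γ n) (actSeq C γ z n)

/-- If the self-correspondences `γ_0, …, γ_{i-1}` of degree zero of `X` are such that `γ_n` acts as
zero on `H^(2i-(n+1))(X)`, then their composition `γ_{i-1} ∘ ⋯ ∘ γ_0` acts as zero on the group of
homologically trivial classes in `CH^i(X)`. -/
def ProductsVanish (H : WeilTheoryData.{u, v, w} C K) (X : 𝒱.Obj) (i : ℕ) : Prop :=
  ∀ γ : ℕ → C.A (X.prod X), (∀ n < i, C.Deg X.dim (γ n)) →
    (∀ n : ℕ, n < i → Kills H (γ n) (2 * i - (n + 1))) →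
      ∀ z : C.A X, C.Deg i z → H.cl z = 0 → actSeq C γ z i = 0

end Pool.Agent.TH133
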