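import Pool.Agent.TH133.Murre

/-!
# Murre's conjecture (D) and homologically trivial correspondences
-/

open CategoryTheory AlgebraicGeometry

universe u v w

namespace Pool.Agent.TH133

open Pool.Agent.H914 Pool.Agent.H914.VarClass Pool.Agent.H914.VarClass.Obj Pool.Agent.W492.BB
  Pool.Agent.W550.Corr

set_option linter.unusedSectionVars false

variable {k : Type u} [Field k] {𝒱 : VarClass k} {C : TheoryData.{u, v, 0} 𝒱 ℚ}
  [hC : IsChowProj C] {K : Type w} [Field K]
  {H : WeilTheoryData.{u, v, w} C K} [hH : IsWeilProj H] {X Y Z W : 𝒱.Obj}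

include hC hH

lemma cl_act_self {π : ℕ → C.A (X.prod X)} (h : IsCK H X π) {i : ℕ} {x : C.A X}
    (hx : x ∈ C.gr X i) : H.cl (C.act (π (2 * i)) x) = H.cl x := by
  rw [cl_act H]
  have h3 := H.cl_mem hx
  exact h.act_self (2 * i) _ (by exact_mod_cast h3)

theorem murreB0_of_D (X : 𝒱.Obj) (hX : MurreD H X) : MurreB0 H X := by
  rw [murreB0_iff]
  intro π hπ i j x hx hj
  have h1 : x - C.act (π (2 * i)) x ∈ ckFil C π i 1 := by
    rw [hX π hπ]
    refine ⟨Submodule.sub_mem _ hx (act_mem0 C (hπ.deg _) hx), ?_⟩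
    rw [map_sub, cl_act_self hπ hx, sub_self]
  rw [hπ.mem_ckFil] at h1
  have h2 := h1.2 j (by omega)
  rw [act_map_sub, ← C.act_comp, hπ.orth _ _ (by omega), TheoryData.act_zero, sub_zero] at h2
  exact h2

lemma comp_zero_of_D (hXZ : MurreD H (X.prod Z)) {π : ℕ → C.A (X.prod X)}
    {ρ : ℕ → C.A (Z.prod Z)} (h : IsCK H X π) (h' : IsCK H Z ρ) {i j b : ℕ}
    {γ : C.A (X.prod Z)} (hγ : γ ∈ C.gr (X.prod Z) i) (hγ' : H.cl γ = 0)
    (hij : 2 * i + j ≤ 2 * X.dim + b) : C.comp (C.comp (π j) γ) (ρ b) = 0 := by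
  by_cases hj : j ≤ 2 * X.dim
  · apply comp_zero_of_prod (H := H) h h' hj
    have h1 : γ ∈ ckFil C (prodCK C (dualCK C π) ρ) i 1 := by
      rw [hXZ _ (h.dual.prod h')]
      exact ⟨hγ, hγ'⟩
    rw [(h.dual.prod h').mem_ckFil] at h1
    exact h1.2 _ (by omega)
  · rw [h.out j (by omega), zero_comp, zero_comp]

theorem strictlyLowers_of_D (X : 𝒱.Obj) (hX : MurreD H (X.prod X)) : StrictlyLowers H X :=
  fun _ hπ _ hγ hγ' _ _ hab => comp_zero_of_D hX hπ hπ hγ hγ' (by omega)

theorem murreD_of_strictlyLowers (X : 𝒱.Obj) (hX : StrictlyLowers H X) : MurreD H X := by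
  intro π hπ l z
  rw [hπ.mem_ckFil]
  constructor
  · rintro ⟨hz, hz'⟩
    refine ⟨hz, ?_⟩
    rw [← cl_act_self hπ hz, hz' (2 * l) (by omega), map_zero]
  · rintro ⟨hz, hz'⟩
    refine ⟨hz, fun i hi => ?_⟩
    by_cases hld : X.dim < l
    · rw [hπ.out i (by omega), TheoryData.act_zero]
    obtain ⟨u0, hu0, v0, hv0, huv⟩ := exists_dual_pair (C := C) (H := H) X (l := l) (by omega)
    have h1 : C.Deg (X := X.prod X) X.dim (C.ext v0 z) := by
      have := ext_mem (C := C) (H := H) hv0 hz
      rwa [sub_add_cancel] at this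
    have h2 : H.cl (C.ext v0 z) = 0 := by
      rw [TheoryData.ext, map_mul, H.cl_pull, H.cl_pull, hz', map_zero, mul_zero]
    have h3 := hX π hπ _ h1 h2 (2 * l) i (by omega)
    have h4 : C.act (C.comp (C.comp (π (2 * l)) (C.ext v0 z)) (π i)) u0 = 0 := by
      rw [h3, TheoryData.act_zero]
    rw [C.act_comp, C.act_comp, act_ext (H := H)] at h4
    have h5 : C.push (snd X X) (C.pull (fst X X) (v0 * C.act (π (2 * l)) u0)) = 1 := by
      rw [← huv]
      apply deg_eq_of_cl (H := H)
      · have := C.mul_mem hv0 (act_mem0 C (hπ.deg (2 * l)) hu0)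
        rwa [sub_add_cancel] at this
      · have := C.mul_mem hv0 hu0
        rwa [sub_add_cancel] at this
      · rw [map_mul, map_mul, cl_act_self hπ hu0]
    rwa [h5, one_mul] at h4

variable (H) in
lemma homTrivial_iff (a : Cor C X) : H.cl (X := X.prod X) a = 0 ↔ actH C X H a = 0 := by
  constructor
  · intro h
    apply LinearMap.ext
    intro x
    rw [actH_apply, h, TheoryData.act_zero]
    rfl
  · intro h
    apply hom_zero_of_act H (X := X) (Y := X)
    intro x
    exact LinearMap.congr_fun h x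

/-- `StrictlyLowers` in terms of the ring of correspondences. -/
lemma StrictlyLowers.mul_eq (hX : StrictlyLowers H X) {P : ℕ → Cor C X} (hP : IsCK H X P)
    {γ : Cor C X} (hγ : γ ∈ cor0 C X) (h : actH C X H γ = 0) {a b : ℕ} (hab : a ≤ b) :
    P b * γ * P a = 0 := by
  rw [mul_assoc]
  exact hX P hP γ hγ ((homTrivial_iff H γ).2 h) a b hab

lemma actH_sub_CK {P Q : ℕ → Cor C X} (hP : IsCK H X P) (hQ : IsCK H X Q) (i : ℕ) :
    actH C X H (Q i - P i) = 0 := by
  apply ext_gr H
  intro m a ha
  rw [map_sub, LinearMap.sub_apply, hP.actH_eq' i m ha, hQ.actH_eq' i m ha, sub_self,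
    LinearMap.zero_apply]

lemma mul_zero_of_strictlyLowers (hX : StrictlyLowers H X) {P Q : ℕ → Cor C X}
    (hP : IsCK H X P) (hQ : IsCK H X Q) (i : ℕ) : ∀ j < i, Q i * P j = 0 := by
  intro j
  induction j using Nat.strong_induction_on with
  | _ j ih =>
    intro hj
    have h1 : ∀ b ∈ Finset.range (2 * X.dim + 1), Q i * (P b * (Q i * P j)) = 0 := by
      intro b _
      by_cases hb : b < j
      · rw [← mul_assoc (Q i) (P b), ih b hb (by omega), zero_mul]
      · have h2 := hX.mul_eq hP (γ := Q i - P i) ((cor0 C X).sub_mem (hQ.deg i) (hP.deg i))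
          (actH_sub_CK hP hQ i) (a := j) (b := b) (by omega)
        rw [mul_sub, sub_mul, mul_assoc (P b) (P i), hP.mul_eq i j, if_neg (by omega), mul_zero,
          sub_zero] at h2
        rw [← mul_assoc (P b), h2, mul_zero]
    have h2 : Q i * P j = Q i * ((∑ b ∈ Finset.range (2 * X.dim + 1), P b) * (Q i * P j)) := by
      rw [hP.sum_eq, one_mul, ← mul_assoc, hQ.mul_eq, if_pos rfl]
    rw [h2, Finset.sum_mul, Finset.mul_sum]
    exact Finset.sum_eq_zero h1

theorem murreC_of_strictlyLowers (X : 𝒱.Obj) (hX : StrictlyLowers H X) : MurreC H X := by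
  have key : ∀ π π', IsCK H X π → IsCK H X π' → ∀ i n : ℕ, ckFil C π i n ≤ ckFil C π' i n := by
    intro π π' h h' i n x hx
    rw [h.mem_ckFil] at hx
    rw [h'.mem_ckFil]
    refine ⟨hx.1, fun m hm => ?_⟩
    have h1 : x = ∑ j ∈ Finset.range (2 * X.dim + 1), C.act (π j) x := by
      rw [← act_sum, h.sum, act_dg]
    rw [h1, act_map_sum]
    apply Finset.sum_eq_zero
    intro j _
    by_cases hj : 2 * i + 1 - n ≤ j
    · rw [hx.2 j hj, TheoryData.act_map_zero]
    · have h2 : C.comp (π j) (π' m) = 0 :=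
        mul_zero_of_strictlyLowers hX (P := π) (Q := π') h h' m j (by omega)
      rw [← C.act_comp, h2, TheoryData.act_zero]
  intro π π' h h' i n
  exact le_antisymm (key π π' h h' i n) (key π' π h' h i n)

/-- A list of homologically trivial correspondences. -/
lemma list_prod_zero (hX : StrictlyLowers H X) {P : ℕ → Cor C X} (hP : IsCK H X P)
    (l : List (Cor C X)) (hl : ∀ γ ∈ l, γ ∈ cor0 C X ∧ actH C X H γ = 0) :
    ∀ a b : ℕ, a < b + l.length → P b * l.prod * P a = 0 ∨ l = [] := by
  induction l with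
  | nil => exact fun _ _ _ => Or.inr rfl
  | cons γ l ih =>
    intro a b hab
    left
    have hγ := hl γ (by simp)
    have ih' := ih (fun δ hδ => hl δ (by simp [hδ]))
    rw [List.prod_cons]
    have h1 : P b * (γ * l.prod) * P a =
        ∑ c ∈ Finset.range (2 * X.dim + 1), P b * γ * P c * (P c * l.prod * P a) := by
      have h2 : ∀ c ∈ Finset.range (2 * X.dim + 1), P b * γ * P c * (P c * l.prod * P a) =
          P b * γ * (P c * (l.prod * P a)) := by
        intro c _
        have h3 : P c * P c = P c := by rw [hP.mul_eq, if_pos rfl]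
        calc P b * γ * P c * (P c * l.prod * P a) = P b * γ * ((P c * P c) * (l.prod * P a)) := by
              simp only [mul_assoc]
          _ = _ := by rw [h3]
      rw [Finset.sum_congr rfl h2, ← Finset.mul_sum, ← Finset.sum_mul, hP.sum_eq, one_mul]
      simp only [mul_assoc]
    rw [h1]
    apply Finset.sum_eq_zero
    intro c _
    by_cases hcb : c ≤ b
    · rw [hX.mul_eq hP hγ.1 hγ.2 hcb, zero_mul]
    · by_cases hl0 : l = []
      · subst hl0
        rw [List.prod_nil, mul_one, hP.mul_eq c a, if_neg, mul_zero]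
        rw [List.length_cons, List.length_nil] at hab
        omega
      · rw [List.length_cons] at hab
        rcases ih' a c (by omega) with h2 | h2
        · rw [h2, mul_zero]
        · exact absurd h2 hl0

theorem prod_zero_of_strictlyLowers (hX : StrictlyLowers H X) {P : ℕ → Cor C X}
    (hP : IsCK H X P) (l : List (Cor C X)) (hl : ∀ γ ∈ l, γ ∈ cor0 C X ∧ actH C X H γ = 0)
    (hlen : 2 * X.dim + 1 ≤ l.length) : l.prod = 0 := by
  have h1 : l.prod = (∑ b ∈ Finset.range (2 * X.dim + 1), P b) * l.prod *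
      (∑ a ∈ Finset.range (2 * X.dim + 1), P a) := by
    rw [hP.sum_eq, one_mul, mul_one]
  rw [h1, Finset.mul_sum]
  apply Finset.sum_eq_zero
  intro a ha
  rw [Finset.sum_mul, Finset.sum_mul]
  apply Finset.sum_eq_zero
  intro b _
  rw [Finset.mem_range] at ha
  rcases list_prod_zero hX hP l hl a b (by omega) with h2 | h2
  · exact h2
  · rw [h2, List.length_nil] at hlen
    omega

omit hH in
lemma compList_eq (l : List (Cor C X)) :
    compList C X l = (l.reverse.prod : Cor C X) := by
  induction l with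
  | nil => rfl
  | cons γ l ih =>
    rw [List.reverse_cons, List.prod_append, List.prod_singleton]
    change C.comp γ (compList C X l) = _
    rw [ih]
    rfl

theorem nilpotent_of_strictlyLowers (X : 𝒱.Obj) (hX : StrictlyLowers H X)
    (hCK : ∃ π, IsCK H X π) : NilpotentOfIndex H X (2 * X.dim + 1) := by
  obtain ⟨π, hπ⟩ := hCK
  have main : ∀ l : List (Cor C X), l.length = 2 * X.dim + 1 →
      (∀ γ ∈ l, γ ∈ cor0 C X ∧ H.cl (X := X.prod X) γ = 0) → l.reverse.prod = 0 := by
    intro l hl hl'
    apply prod_zero_of_strictlyLowers hX (P := π) hπ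
    · intro γ hγ
      rw [List.mem_reverse] at hγ
      have := hl' γ hγ
      exact ⟨this.1, (homTrivial_iff H γ).1 this.2⟩
    · rw [List.length_reverse, hl]
  intro l hl hl'
  rw [compList_eq (C := C) (X := X) l]
  exact main l hl hl'

theorem unique_of_strictlyLowers (X : 𝒱.Obj) (hX : StrictlyLowers H X) :
    UniqueUpToConjugation H X := by
  have main : ∀ P Q : ℕ → Cor C X, IsCK H X P → IsCK H X Q → ∃ s t : Cor C X, s ∈ cor0 C X ∧
      t ∈ cor0 C X ∧ t * s = 1 ∧ s * t = 1 ∧ actH C X H s = 1 ∧ ∀ i, Q i = s * (P i * t) := by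
    intro P Q hP hQ
    let s : Cor C X := ∑ i ∈ Finset.range (2 * X.dim + 1), Q i * P i
    have hs : s ∈ cor0 C X := (cor0 C X).sum_mem fun i _ => (cor0 C X).mul_mem (hQ.deg i) (hP.deg i)
    have hsH : actH C X H s = 1 := by
      apply ext_gr H
      intro m a ha
      simp only [s]
      rw [map_sum, LinearMap.sum_apply]
      have h1 : ∀ i ∈ Finset.range (2 * X.dim + 1), actH C X H (Q i * P i) a =
          actH C X H (P i) a := by
        intro i _
        rw [map_mul, Module.End.mul_apply, hP.actH_eq' i m ha]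
        split_ifs with hm
        · rw [hQ.actH_eq' i m ha, if_pos hm]
        · rw [map_zero]
      rw [Finset.sum_congr rfl h1, ← LinearMap.sum_apply, ← map_sum, hP.sum_eq, map_one]
    let ν : Cor C X := 1 - s
    have hν : ν ∈ cor0 C X := (cor0 C X).sub_mem (cor0 C X).one_mem hs
    have hνH : actH C X H ν = 0 := by
      simp only [ν]
      rw [map_sub, map_one, hsH, sub_self]
    have hνn : ν ^ (2 * X.dim + 1) = 0 := by
      have := prod_zero_of_strictlyLowers hX hP (List.replicate (2 * X.dim + 1) ν)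
        (fun γ hγ => by
          rw [List.mem_replicate] at hγ
          rw [hγ.2]
          exact ⟨hν, hνH⟩) (by rw [List.length_replicate])
      rwa [List.prod_replicate] at this
    let t : Cor C X := ∑ i ∈ Finset.range (2 * X.dim + 1), ν ^ i
    have hs1 : s = 1 - ν := by simp only [ν]; abel
    have hts : t * s = 1 := by
      rw [hs1]
      simp only [t]
      rw [geom_sum_mul_neg, hνn, sub_zero]
    have hst : s * t = 1 := by
      rw [hs1]
      simp only [t]
      rw [mul_neg_geom_sum, hνn, sub_zero]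
    have ht : t ∈ cor0 C X := (cor0 C X).sum_mem fun i _ => (cor0 C X).pow_mem hν i
    refine ⟨s, t, hs, ht, hts, hst, hsH, fun i => ?_⟩
    have h1 : s * P i = Q i * s := by
      simp only [s]
      rw [Finset.sum_mul, Finset.mul_sum]
      by_cases hi : i ∈ Finset.range (2 * X.dim + 1)
      · rw [Finset.sum_eq_single i, Finset.sum_eq_single i]
        · rw [mul_assoc, hP.mul_eq, if_pos rfl, ← mul_assoc, hQ.mul_eq, if_pos rfl]
        · intro j _ hj
          rw [← mul_assoc, hQ.mul_eq, if_neg (Ne.symm hj), zero_mul]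
        · intro h; exact absurd hi h
        · intro j _ hj
          rw [mul_assoc, hP.mul_eq, if_neg hj, mul_zero]
        · intro h; exact absurd hi h
      · rw [Finset.mem_range] at hi
        have e1 : P i = 0 := hP.out i (by omega)
        have e2 : Q i = 0 := hQ.out i (by omega)
        rw [e1, e2]
        simp
    rw [← mul_assoc, h1, mul_assoc, hst, mul_one]
  intro π π' h h'
  obtain ⟨s, t, hs, ht, hts, hst, hsH, h1⟩ := main π π' h h'
  exact ⟨s, t, hs, ht, hts, hst, fun a => LinearMap.congr_fun hsH a, h1⟩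

end Pool.Agent.TH133
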