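import Pool.Agent.TH133.AlgEq
import Pool.Agent.TH133.MurreD
import Pool.Agent.TH133.DefsBB
import Mathlib.RingTheory.Idempotents

/-!
# Bloch-Beilinson filtrations and nilpotence
-/

open CategoryTheory AlgebraicGeometry

universe u v w

namespace Pool.Agent.TH133

open Pool.Agent.H914 Pool.Agent.H914.VarClass Pool.Agent.H914.VarClass.Obj Pool.Agent.W492.BB
  Pool.Agent.W550.Corr

set_option linter.unusedSectionVars false

variable {k : Type u} [Field k] {𝒱 : VarClass k} {C : TheoryData.{u, v, 0} 𝒱 ℚ}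
  [hC : IsChowProj C] {K : Type w} [Field K]
  {H : WeilTheoryData.{u, v, w} C K} [hH : IsWeilProj H] {X Y Z W : 𝒱.Obj}

include hC hH

/-- The Kunneth components of the diagonal lift to a Chow-Kunneth decomposition if homologically
trivial correspondences are nilpotent. -/
theorem exists_CK_of_nil (X : 𝒱.Obj)
    (hK : ∀ m : ℕ, ∃ p : Cor C X, p ∈ cor0 C X ∧ ∀ (l : ℤ) (a : H.A X), a ∈ H.gr X l →
      actH C X H p a = if l = m then a else 0)
    (hN : ∀ γ : Cor C X, γ ∈ cor0 C X → actH C X H γ = 0 → IsNilpotent γ) :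
    ∃ π : ℕ → C.A (X.prod X), IsCK H X π := by
  choose p hp hact using hK
  let f : cor0 C X →+* Module.End K (H.A X) := (actH C X H).comp (cor0 C X).val.toRingHom
  have hf : ∀ a : cor0 C X, f a = actH C X H (a : Cor C X) := fun _ => rfl
  let e : Fin (2 * X.dim + 1) → Module.End K (H.A X) := fun m => actH C X H (p m)
  have hmul : ∀ m n : ℕ, actH C X H (p m) * actH C X H (p n) =
      if m = n then actH C X H (p m) else 0 := by
    intro m n
    apply ext_gr H
    intro i a ha
    rw [Module.End.mul_apply, hact n i a ha]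
    by_cases hmn : m = n
    · subst hmn
      rw [if_pos rfl]
      split_ifs with h1
      · rfl
      · rw [map_zero, hact m i a ha, if_neg h1]
    · rw [if_neg hmn]
      split_ifs with h1
      · rw [hact m i a ha, if_neg (by omega)]
        rfl
      · rw [map_zero]
        rfl
  have he : CompleteOrthogonalIdempotents e := by
    refine ⟨⟨fun i => ?_, fun i j hij => ?_⟩, ?_⟩
    · have := hmul i i
      rw [if_pos rfl] at this
      exact this
    · have := hmul i j
      rw [if_neg (fun h => hij (Fin.ext h))] at this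
      exact this
    · apply ext_gr H
      intro i a ha
      have h1 : (∑ m : Fin (2 * X.dim + 1), e m) a = ∑ m : Fin (2 * X.dim + 1), e m a :=
        LinearMap.sum_apply _ _ _
      rw [h1]
      by_cases ha0 : a = 0
      · subst ha0
        simp
      have h2 := nonneg_of_mem H ha ha0
      have h3 : i ≤ 2 * X.dim := by
        by_contra hcon
        rw [gr_top H (by omega)] at ha
        exact ha0 ((Submodule.mem_bot _).1 ha)
      obtain ⟨i, rfl⟩ := Int.eq_ofNat_of_zero_le h2
      rw [Finset.sum_eq_single (⟨i, by omega⟩ : Fin (2 * X.dim + 1))]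
      · change actH C X H (p i) a = a
        rw [hact i i a ha, if_pos rfl]
      · intro b _ hb
        change actH C X H (p b) a = 0
        rw [hact b i a ha, if_neg]
        intro h4
        exact hb (Fin.ext (by simpa using (by exact_mod_cast h4.symm : (b : ℕ) = i)))
      · intro h4
        exact absurd (Finset.mem_univ _) h4
  have hnil : ∀ x ∈ RingHom.ker f, IsNilpotent x := by
    intro x hx
    obtain ⟨n, hn⟩ := hN x x.2 hx
    refine ⟨n, Subtype.ext ?_⟩
    rw [SubmonoidClass.coe_pow, hn]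
    rfl
  obtain ⟨e', he', hfe⟩ := CompleteOrthogonalIdempotents.lift_of_isNilpotent_ker f hnil he
    (fun i => ⟨⟨p i, hp i⟩, rfl⟩)
  let π : ℕ → Cor C X := fun n => if h : n < 2 * X.dim + 1 then (e' ⟨n, h⟩ : Cor C X) else 0
  have hπ1 : ∀ n (h : n < 2 * X.dim + 1), π n = (e' ⟨n, h⟩ : Cor C X) := fun n h => dif_pos h
  have hπ0 : ∀ n, 2 * X.dim < n → π n = 0 := fun n h => dif_neg (by omega)
  refine ⟨π, isCK_of ?_ hπ0 ?_ ?_ ?_⟩
  · intro n
    by_cases h : n < 2 * X.dim + 1
    · rw [hπ1 n h]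
      exact (e' ⟨n, h⟩).2
    · rw [hπ0 n (by omega)]
      exact (cor0 C X).zero_mem
  · intro m n
    by_cases hm : m < 2 * X.dim + 1
    · by_cases hn : n < 2 * X.dim + 1
      · rw [hπ1 m hm, hπ1 n hn, ← MulMemClass.coe_mul, he'.1.mul_eq]
        by_cases hmn : m = n
        · subst hmn
          rw [if_pos rfl, if_pos rfl]
        · rw [if_neg hmn, if_neg (fun h => hmn (by simpa using h))]
          rfl
      · rw [hπ0 n (by omega), mul_zero, if_neg (by omega)]
    · rw [hπ0 m (by omega), zero_mul]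
      split_ifs <;> rfl
  · rw [Finset.sum_range]
    have h1 : ∀ n : Fin (2 * X.dim + 1), π n = (e' n : Cor C X) := fun n => hπ1 n n.2
    rw [Finset.sum_congr rfl fun n _ => h1 n, ← AddSubmonoidClass.coe_finsetSum, he'.complete]
    rfl
  · intro n m a ha
    by_cases hn : n < 2 * X.dim + 1
    · rw [hπ1 n hn]
      have h1 : f (e' ⟨n, hn⟩) = actH C X H (p n) := congrFun hfe ⟨n, hn⟩
      rw [hf] at h1
      rw [h1]
      exact hact n m a ha
    · rw [hπ0 n (by omega), map_zero, LinearMap.zero_apply]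
      split_ifs with h1
      · rw [gr_top H (by omega)] at ha
        exact ((Submodule.mem_bot _).1 ha).symm
      · rfl

/-- The correspondence `Δ × γ` of `X × X` acts on `CH(X × X)` by composition with `γ`. -/
lemma act_tens_dg (γ z : C.A (X.prod X)) :
    C.act (tens C (dg C X) γ) z = C.comp z γ := by
  rw [act_tens C (ch_comm C), tp_dg, dg_comp]

omit hH in
lemma iterate_mul (γ : Cor C X) (f : Cor C X → Cor C X) (hf : ∀ z, f z = γ * z) (m : ℕ) :
    f^[m] γ = γ ^ (m + 1) := by
  induction m with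
  | zero =>
    rw [zero_add, pow_one]
    rfl
  | succ m ih => rw [Function.iterate_succ_apply', ih, hf, pow_succ' γ (m + 1)]

lemma cl_tens_zero {Γ : C.A (X.prod Y)} {Δ : C.A (Z.prod W)} (h : H.cl Δ = 0) :
    H.cl (tens C Γ Δ) = 0 := by
  rw [tens, map_mul, H.cl_pull (prodMap (snd X Z) (snd Y W)) Δ, h, map_zero, mul_zero]

/-- A class killed by an iterate of an idempotent correspondence is killed by it. -/
lemma act_zero_of_iterate {p : C.A (X.prod X)} (hp : C.comp p p = p) {x : C.A X} {m : ℕ}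
    (h : (C.act p)^[m] x = 0) : C.act p x = 0 := by
  have h1 : ∀ n : ℕ, (C.act p)^[n + 1] x = C.act p x := by
    intro n
    induction n with
    | zero => rfl
    | succ n ih => rw [Function.iterate_succ_apply', ih, ← C.act_comp, hp]
  rcases m with _ | m
  · have h2 : x = 0 := h
    rw [h2, TheoryData.act_map_zero]
  · rw [← h1 m, h]

/-! ### From the conjectures of Murre to a Bloch-Beilinson filtration -/

lemma kills_iff {Γ : C.A (X.prod Y)} {m : ℤ} : Kills H Γ m ↔ ∀ a ∈ H.gr X m,
    H.act (H.cl Γ) a = 0 := Iff.rfl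

/-- External products respect the filtrations. -/
lemma ext_mem_ckFil {π : ℕ → C.A (X.prod X)} {ρ : ℕ → C.A (Z.prod Z)} (h : IsCK H X π)
    (h' : IsCK H Z ρ) {i j m n : ℕ} {x : C.A X} {z : C.A Z} (hx : x ∈ ckFil C π i m)
    (hz : z ∈ ckFil C ρ j n) : C.ext x z ∈ ckFil C (prodCK C π ρ) (i + j) (m + n) := by
  rw [h.mem_ckFil] at hx
  rw [h'.mem_ckFil] at hz
  rw [(h.prod h').mem_ckFil]
  refine ⟨?_, fun q hq => ?_⟩
  · have := ext_mem' hx.1 hz.1
    exact_mod_cast this
  · unfold prodCK
    rw [act_sum]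
    apply Finset.sum_eq_zero
    intro p hp
    rw [Finset.mem_range] at hp
    rw [act_tens_ext']
    by_cases h1 : 2 * i + 1 - m ≤ p
    · rw [hx.2 p h1, TheoryData.ext_zero_left]
    · rw [hz.2 (q - p) (by omega), TheoryData.ext_zero_right]

/-- **(A), (D) and the second half of (B) imply the existence of a Bloch-Beilinson filtration.** -/
theorem exists_isBB (hA : ∀ X : 𝒱.Obj, ∃ π : ℕ → C.A (X.prod X), IsCK H X π)
    (hD : ∀ X : 𝒱.Obj, MurreD H X) (hB : ∀ X : 𝒱.Obj, MurreB1 H X) :
    ∃ F : Filtration C, IsBB H F := by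
  choose π hπ using hA
  have hB0 : ∀ X : 𝒱.Obj, MurreB0 H X := fun X => murreB0_of_D X (hD X)
  have hS : ∀ X : 𝒱.Obj, StrictlyLowers H X := fun X => strictlyLowers_of_D X (hD _)
  refine ⟨⟨fun X i n => ckFil C (π X) i n, ?_, ?_⟩, ⟨⟨?_, ?_, ?_⟩, ⟨?_, ?_, ?_⟩, ?_⟩⟩
  · intro X i n x hx
    rw [(hπ X).mem_ckFil] at hx
    exact hx.1
  · intro X i n x hx
    rw [(hπ X).mem_ckFil] at hx ⊢
    exact ⟨hx.1, fun j hj => hx.2 j (by omega)⟩
  · intro X i x
    have h1 := hB0 X (π X) (hπ X) i
    change x ∈ ckFil C (π X) i 0 ↔ _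
    rw [h1]
  · intro X i x
    exact hD X (π X) (hπ X) i x
  · intro X i x hx
    have h1 := hB X (π X) (hπ X) i
    change x ∈ ckFil C (π X) i (i + 1) at hx
    rw [h1] at hx
    exact (Submodule.mem_bot _).1 hx
  · intro X i j m n x y hx hy
    have h1 := ext_mem_ckFil (hπ X) (hπ X) hx hy
    have h2 : C.mul x y = C.act (C.cograph (Obj.lift (𝟙 X) (𝟙 X))) (C.ext x y) := by
      rw [C.act_cograph, TheoryData.ext, map_mul, ← C.pull_comp, ← C.pull_comp, lift_fst,
        lift_snd, C.pull_id, C.pull_id]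
    change C.mul x y ∈ ckFil C (π X) (i + j) (m + n)
    rw [h2]
    apply act_mem_ckFil (hB0 _) ((hπ X).prod (hπ X)) (hπ X) (g := (X.prod X).dim) ?_ h1 rfl
    have h := C.push_mem (Obj.lift (Obj.lift (𝟙 X) (𝟙 X)) (𝟙 X)) (C.one_mem X)
    have e1 : (0 : ℤ) + 1 * (((( X.prod X).prod X).dim : ℤ) - (X.dim : ℤ)) =
        ((X.prod X).dim : ℕ) := by
      rw [dim_prod (X.prod X) X]; push_cast; ring
    rwa [e1] at h
  · intro X Y f i n y hy
    change C.up f y ∈ ckFil C (π X) i n
    have h2 : C.up f y = C.act (C.cograph f) y := (C.act_cograph f y).symm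
    rw [h2]
    apply act_mem_ckFil (hB0 _) (hπ Y) (hπ X) (g := Y.dim) ?_ hy rfl
    have h := C.push_mem (Obj.lift f (𝟙 X)) (C.one_mem X)
    have e1 : (0 : ℤ) + 1 * (((Y.prod X).dim : ℤ) - (X.dim : ℤ)) = (Y.dim : ℕ) := by
      rw [dim_prod]; push_cast; ring
    rwa [e1] at h
  · intro X Y f i j n x hij hx
    change C.down f x ∈ ckFil C (π Y) j n
    have h2 : C.down f x = C.act (C.graph f) x := (C.act_graph f x).symm
    rw [h2]
    apply act_mem_ckFil (hB0 _) (hπ X) (hπ Y) (g := Y.dim) ?_ hx (by omega)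
    have h := C.push_mem (Obj.lift (𝟙 X) f) (C.one_mem X)
    have e1 : (0 : ℤ) + 1 * (((X.prod Y).dim : ℤ) - (X.dim : ℤ)) = (Y.dim : ℕ) := by
      rw [dim_prod]; push_cast; ring
    rwa [e1] at h
  · intro _ X i n Γ hΓ hkill x hx
    change C.act Γ x ∈ ckFil C (π X) i (n + 1)
    have h1 := act_mem_ckFil (hB0 (X.prod X)) (hπ X) (hπ X) (g := X.dim) hΓ hx rfl
    change x ∈ ckFil C (π X) i n at hx
    rw [(hπ X).mem_ckFil] at h1 hx ⊢
    refine ⟨h1.1, fun b hb => ?_⟩
    by_cases hb' : 2 * i + 1 - n ≤ b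
    · exact h1.2 b hb'
    have hbn : b + n = 2 * i := by omega
    have h3 : x = ∑ j ∈ Finset.range (2 * X.dim + 1), C.act (π X j) x := by
      rw [← act_sum, (hπ X).sum, act_dg]
    rw [h3, act_map_sum, act_map_sum]
    apply Finset.sum_eq_zero
    intro j _
    rw [← C.act_comp (π X j) Γ, ← C.act_comp]
    rcases lt_trichotomy j b with hjb | hjb | hjb
    · rw [comp_zero_of_B0 (hB0 _) (hπ X) (hπ X) (i := X.dim) hΓ (by omega), TheoryData.act_zero]
    · subst hjb
      let P : ℕ → Cor C X := π X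
      have hP : IsCK H X P := hπ X
      let G : Cor C X := Γ
      have h4 : P j * (P j * G * P j) * P j = 0 := by
        refine (hS X).mul_eq hP ?_ ?_ le_rfl
        · exact (cor0 C X).mul_mem ((cor0 C X).mul_mem (hP.deg j) hΓ) (hP.deg j)
        · apply ext_gr H
          intro m a ha
          rw [map_mul, map_mul, Module.End.mul_apply, Module.End.mul_apply, hP.actH_eq' j m ha,
            LinearMap.zero_apply]
          split_ifs with hm
          · have h5 : actH C X H G a = 0 := hkill a (by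
              have e2 : (2 * i - n : ℤ) = m := by omega
              change a ∈ H.gr X _
              rw [e2]
              exact ha)
            rw [h5, map_zero]
          · rw [map_zero, map_zero]
      have h6 : P j * (P j * G * P j) * P j = P j * G * P j := by
        have h7 : P j * P j = P j := by rw [hP.mul_eq, if_pos rfl]
        calc P j * (P j * G * P j) * P j = (P j * P j) * G * (P j * P j) := by
              simp only [mul_assoc]
          _ = _ := by rw [h7]
      rw [h6] at h4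
      have h8 : C.comp (C.comp (π X j) Γ) (π X j) = 0 := by
        rw [mul_assoc] at h4
        exact h4
      rw [h8, TheoryData.act_zero]
    · rw [C.act_comp, C.act_comp, hx.2 j (by omega), TheoryData.act_map_zero,
        TheoryData.act_map_zero]

/-! ### Nilpotence -/

lemma isNilpotent_of_cond (hX : NilpotentOnHom H (X.prod X) X.dim) {γ : Cor C X}
    (hγ : γ ∈ cor0 C X) (h0 : actH C X H γ = 0) : IsNilpotent γ := by
  have hcl : H.cl (X := X.prod X) γ = 0 := (homTrivial_iff H γ).2 h0
  have hG : H.cl (tens C (dg C X) γ) = 0 := cl_tens_zero (Y := X) (W := X) hcl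
  obtain ⟨m, hm⟩ := hX (tens C (dg C X) γ) (by
      have := tens_mem C (dg_mem C X) hγ
      have e1 : ((X.prod X).dim : ℤ) = X.dim + X.dim := by rw [dim_prod]; push_cast; ring
      change _ ∈ C.gr _ _
      rw [e1]
      exact this)
    (fun j _ _ a _ => by rw [hG, TheoryData.act_zero]) γ hγ hcl
  refine ⟨m + 1, ?_⟩
  rw [← iterate_mul γ (fun z => C.act (tens C (dg C X) γ) z) (fun z => act_tens_dg (H := H) γ z)]
  exact hm

theorem exists_CK_of_cond (hK : KunnethConjecture H) (hX : NilpotentOnHom H (X.prod X) X.dim) :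
    ∃ π : ℕ → C.A (X.prod X), IsCK H X π := by
  apply exists_CK_of_nil X
  · intro m
    obtain ⟨p, hp, hp'⟩ := hK X m
    exact ⟨p, hp, hp'⟩
  · exact fun γ hγ h0 => isNilpotent_of_cond hX hγ h0

theorem murreD_of_cond (hX : ∀ i, NilpotentOnHom H X i) : MurreD H X := by
  intro π hπ i x
  rw [hπ.mem_ckFil]
  constructor
  · rintro ⟨hx, hx'⟩
    refine ⟨hx, ?_⟩
    rw [← cl_act_self hπ hx, hx' (2 * i) (by omega), map_zero]
  · rintro ⟨hx, hx'⟩
    refine ⟨hx, fun j hj => ?_⟩
    obtain ⟨m, hm⟩ := hX i (π j) (hπ.deg j) (fun l _ hl a ha => hπ.act_ne j l a (by omega) ha) x hx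
      hx'
    exact act_zero_of_iterate (H := H) (hπ.idem j) hm

theorem murreB1_of_cond (hX : ∀ i, NilpotentOnHom H X i) : MurreB1 H X := by
  intro π hπ i
  rw [eq_bot_iff]
  intro x hx
  rw [hπ.mem_ckFil] at hx
  rw [Submodule.mem_bot]
  have h1 : x = ∑ j ∈ Finset.range (2 * X.dim + 1), C.act (π j) x := by
    rw [← act_sum, hπ.sum, act_dg]
  rw [h1]
  apply Finset.sum_eq_zero
  intro j _
  by_cases hj : i ≤ j
  · exact hx.2 j (by omega)
  · have h2 : H.cl (C.act (π j) x) = 0 := by
      rw [cl_act H]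
      exact hπ.act_ne j (2 * i) _ (by omega) (H.cl_mem hx.1)
    obtain ⟨m, hm⟩ := hX i (π j) (hπ.deg j) (fun l _ _ a ha => hπ.act_ne j l a (by omega) ha)
      (C.act (π j) x) (act_mem0 C (hπ.deg j) hx.1) h2
    have h3 := act_zero_of_iterate (H := H) (hπ.idem j) hm
    rwa [← C.act_comp, hπ.idem] at h3

/-- The existence of a Bloch-Beilinson filtration implies the vanishing of products. -/
theorem actSeq_eq_zero_of_isBB (hK : KunnethConjecture H) {F : Filtration C} (hF : IsBB H F)
    (X : 𝒱.Obj) (i : ℕ) : ProductsVanish H X i := by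
  intro γ hγ hkill z hz hz0
  have h1 : ∀ m ≤ i, F.Mem i (m + 1) (actSeq C γ z m) := by
    intro m
    induction m with
    | zero =>
      intro _
      exact (hF.bounded.one X i z).2 ⟨hz, hz0⟩
    | succ m ih =>
      intro hm
      have h2 := hkill m (by omega)
      have e1 : (2 * i - (m + 1) : ℤ) = 2 * i - ((m + 1 : ℕ) : ℤ) := by push_cast; ring
      rw [e1] at h2
      exact hF.motivic hK X i (m + 1) (γ m) (hγ m (by omega)) h2 _ (ih (by omega))
  exact hF.bounded.top X i _ (h1 i le_rfl)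

omit hC hH in
lemma actSeq_const (γ : C.A (X.prod X)) (z : C.A X) (m : ℕ) :
    actSeq C (fun _ => γ) z m = (C.act γ)^[m] z := by
  induction m with
  | zero => rfl
  | succ m ih => rw [Function.iterate_succ_apply', ← ih]; rfl

omit hC hH in
lemma nilpotentOnHom_of_products {i : ℕ} (h : ProductsVanish H X i) : NilpotentOnHom H X i := by
  intro γ hγ hkill z hz hz0
  refine ⟨i, ?_⟩
  rw [← actSeq_const]
  exact h (fun _ => γ) (fun _ _ => hγ) (fun n hn => hkill _ (by omega) (by omega)) z hz hz0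

/-- **Bloch-Beilinson filtrations and nilpotence.** -/
theorem isBB_tfae (hK : KunnethConjecture H) :
    List.TFAE [∃ F : Filtration C, IsBB H F,
      ∀ (X : 𝒱.Obj) (i : ℕ), NilpotentOnHom H X i,
      ∀ (X : 𝒱.Obj) (i : ℕ), ProductsVanish H X i] := by
  tfae_have 1 → 3 := by
    rintro ⟨F, hF⟩
    exact fun X i => actSeq_eq_zero_of_isBB hK hF X i
  tfae_have 3 → 2 := fun h X i => nilpotentOnHom_of_products (h X i)
  tfae_have 2 → 1 := fun h => exists_isBB (fun X => exists_CK_of_cond hK (h _ _))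
    (fun X => murreD_of_cond (h X)) (fun X => murreB1_of_cond (h X))
  tfae_finish

end Pool.Agent.TH133
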