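import Pool.Agent.TH133.Defs
import Mathlib.Analysis.Complex.Basic

/-!
# Hodge structures and zero-cycles: definitions
-/

open CategoryTheory AlgebraicGeometry

universe u v w

namespace Pool.Agent.TH133

open Pool.Agent.H914 Pool.Agent.H914.VarClass Pool.Agent.H914.VarClass.Obj Pool.Agent.W492.BB
  Pool.Agent.W550.Corr

variable {k : Type u} [Field k] {𝒱 : VarClass k} {C : TheoryData.{u, v, 0} 𝒱 ℚ} {K : Type w}
  [Field K]

/-- The action on cohomology of a correspondence `Γ` from `X` to `Y`. -/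
noncomputable def actCoh (H : WeilTheoryData.{u, v, w} C K) {X Y : 𝒱.Obj} (Γ : C.A (X.prod Y))
    (a : H.A X) : H.A Y :=
  H.act (H.cl Γ) a

/-- The data of the Hodge structures on the cohomology `H(X)` with complex coefficients: the
rational classes, the classes of type `(p,q)`, and the complex conjugation. -/
structure HodgeData (H : WeilTheoryData.{u, v, 0} C ℂ) where
  /-- the class `a` is rational -/
  rat : ∀ X : 𝒱.Obj, H.A X → Prop
  /-- the class `a` lies in `H^{p,q}(X)` -/
  hodge : ∀ X : 𝒱.Obj, ℤ → ℤ → H.A X → Prop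
  /-- the complex conjugation -/
  conj : ∀ X : 𝒱.Obj, H.A X → H.A X

variable {H : WeilTheoryData.{u, v, 0} C ℂ}

/-- The class `a` is a complex linear combination of rational classes in `H^m(X)`. -/
def HodgeData.RatSpan (D : HodgeData H) {X : 𝒱.Obj} (m : ℕ) (a : H.A X) : Prop :=
  a ∈ Submodule.span ℂ {b : H.A X | D.rat X b ∧ H.Deg m b}

/-- The class `a` is a sum of classes in the `H^{p,m-p}(X)`, `0 ≤ p ≤ m`. -/
def HodgeData.HodgeSum (D : HodgeData H) {X : 𝒱.Obj} (m : ℕ) (a : H.A X) : Prop :=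
  ∃ f : ℕ → H.A X, (∀ p ≤ m, D.hodge X p (m - p) (f p)) ∧ a = ∑ p ∈ Finset.range (m + 1), f p

/-- The properties of the Hodge structures which do not involve correspondences: `H^m(X)` is
generated as a complex vector space by rational classes; it is the sum of the `H^{p,m-p}(X)`,
`0 ≤ p ≤ m`; the conjugation is an additive involution which fixes the rational classes and maps
`H^{p,q}(X)` to `H^{q,p}(X)`; and the theorem of Lefschetz on `(1,1)`-classes. -/
structure HodgeData.IsHodge (D : HodgeData H) : Prop where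
  span_rat : ∀ (X : 𝒱.Obj) (m : ℕ) (a : H.A X), H.Deg m a → D.RatSpan m a
  decomp : ∀ (X : 𝒱.Obj) (m : ℕ) (a : H.A X), H.Deg m a → D.HodgeSum m a
  conj_add : ∀ (X : 𝒱.Obj) (a b : H.A X), D.conj X (a + b) = D.conj X a + D.conj X b
  conj_conj : ∀ (X : 𝒱.Obj) (a : H.A X), D.conj X (D.conj X a) = a
  conj_rat : ∀ (X : 𝒱.Obj) (a : H.A X), D.rat X a → D.conj X a = a
  conj_hodge : ∀ (X : 𝒱.Obj) (p q : ℤ) (a : H.A X), D.hodge X p q a →
    D.hodge X q p (D.conj X a)
  lefschetz : ∀ (X : 𝒱.Obj) (a : H.A X), D.rat X a → D.hodge X 1 1 a → ∃ z : C.A X,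
    C.Deg 1 z ∧ H.cl z = a

/-- Correspondences are morphisms of Hodge structures: they preserve rational classes, commute
with the complex conjugation, and `Γ ∈ CH^l(X × Y)` maps `H^{p,q}(X)` to `H^{p+r,q+r}(Y)`,
`r = l - dim X`. -/
structure HodgeData.IsFunctorial (D : HodgeData H) : Prop where
  rat : ∀ (X Y : 𝒱.Obj) (Γ : C.A (X.prod Y)) (a : H.A X), D.rat X a → D.rat Y (actCoh H Γ a)
  conj : ∀ (X Y : 𝒱.Obj) (Γ : C.A (X.prod Y)) (a : H.A X),
    actCoh H Γ (D.conj X a) = D.conj Y (actCoh H Γ a)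
  hodge : ∀ (X Y : 𝒱.Obj) (l : ℤ) (Γ : C.A (X.prod Y)), C.Deg l Γ → ∀ (p q : ℤ) (a : H.A X),
    D.hodge X p q a → D.hodge Y (p + (l - X.dim)) (q + (l - X.dim)) (actCoh H Γ a)

/-- The map `[Γ]^* : H^{i,0}(Y) → H^{i,0}(X)` is zero, for a correspondence `Γ` from `X` to `Y`. -/
def HodgeData.KillsHolomorphic (D : HodgeData H) {X Y : 𝒱.Obj} (Γ : C.A (X.prod Y)) (i : ℕ) :
    Prop :=
  ∀ a : H.A Y, D.hodge Y i 0 a → actCoh H (tp C Γ) a = 0

/-- The conditions (i) to (iv) on a Bloch-Beilinson filtration: `F^0 CH^l(X) = CH^l(X)`,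
`F^1 CH^l(X) = CH^l(X)_hom`, `F^(l+1) CH^l(X) = 0` (`IsBounded`); all correspondences respect the
filtrations; homologically trivial correspondences act as zero on the graded groups. -/
structure IsBBHom {K : Type w} [Field K] (H : WeilTheoryData.{u, v, w} C K) (F : Filtration C) :
    Prop extends IsBounded H F where
  act : ∀ (X Y : 𝒱.Obj) (i j l : ℕ) (Γ : C.A (X.prod Y)), C.Deg l Γ → i + l = j + X.dim →
    ∀ (n : ℕ) (x : C.A X), F.Mem i n x → F.Mem j n (C.act Γ x)
  shift : ∀ (X Y : 𝒱.Obj) (i j l : ℕ) (Γ : C.A (X.prod Y)), C.Deg l Γ → i + l = j + X.dim →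
    H.cl Γ = 0 → ∀ (n : ℕ) (x : C.A X), F.Mem i n x → F.Mem j (n + 1) (C.act Γ x)

/-- The cycle `x` is homologically trivial of codimension `i`. -/
def HomTrivial {K : Type w} [Field K] (H : WeilTheoryData.{u, v, w} C K) (i : ℕ) {X : 𝒱.Obj}
    (x : C.A X) : Prop :=
  C.Deg i x ∧ H.cl x = 0

/-- The zero-cycle `x` on `X` has degree zero and lies in the kernel of the Albanese map (with
rational coefficients): it is killed by all correspondences `Γ ∈ CH^1(X × B)` to curves `B`. -/
def AlbaneseKer {K : Type w} [Field K] (H : WeilTheoryData.{u, v, w} C K) {X : 𝒱.Obj}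
    (x : C.A X) : Prop :=
  HomTrivial H X.dim x ∧ ∀ (B : 𝒱.Obj) (Γ : C.A (X.prod B)), B.dim = 1 → C.Deg 1 Γ →
    C.act Γ x = 0

/-- Facts on curves: a zero-cycle of degree zero on `X` comes from a curve (if `dim X ≥ 1`); and
(Poincare reducibility) if `c` is a zero-cycle of degree zero on the curve `B` whose image `Γ_* c`
is in the kernel of the Albanese map of `X`, then there is `e ∈ CH^1(B × B)` with `e_* c = c` such
that `Γ ∘ e` acts as zero on `H^1(B)` (`e` is a projector of the Jacobian of `B` onto the abelian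
subvariety attached to the kernel of the homomorphism to the Albanese variety of `X`). -/
structure HasCurves {K : Type w} [Field K] (H : WeilTheoryData.{u, v, w} C K) : Prop where
  support : ∀ X : 𝒱.Obj, 1 ≤ X.dim → ∀ x : C.A X, HomTrivial H X.dim x →
    ∃ (B : 𝒱.Obj) (c : C.A B) (Γ : C.A (B.prod X)), B.dim = 1 ∧ HomTrivial H 1 c ∧
      C.Deg X.dim Γ ∧ x = C.act Γ c
  poincare : ∀ (B X : 𝒱.Obj) (c : C.A B) (Γ : C.A (B.prod X)), B.dim = 1 → HomTrivial H 1 c →
    C.Deg X.dim Γ → AlbaneseKer H (C.act Γ c) → ∃ e : C.A (B.prod B), C.Deg 1 e ∧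
      C.act e c = c ∧ ∀ a : H.A B, H.Deg 1 a → actCoh H Γ (actCoh H e a) = 0

/-- Facts on surfaces: a zero-cycle in the kernel of the Albanese map of `X` comes from one on a
surface `S` (if `dim X ≥ 2`; for a complete intersection `S` in `X` this follows from the Lefschetz
hyperplane theorem); and each surface `S` has a projector `t ∈ CH^2(S × S)` onto the transcendental
part of its motive (Murre; Kahn, Murre and Pedrini): `t` acts as the identity on the kernel of the
Albanese map, its transpose acts as zero on `H^m(S)` for `m ≠ 2` and on the classes of divisors. -/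
structure HasSurfaces {K : Type w} [Field K] (H : WeilTheoryData.{u, v, w} C K) : Prop where
  support : ∀ X : 𝒱.Obj, 2 ≤ X.dim → ∀ x : C.A X, AlbaneseKer H x →
    ∃ (S : 𝒱.Obj) (y : C.A S) (Φ : C.A (S.prod X)), S.dim = 2 ∧ AlbaneseKer H y ∧
      C.Deg X.dim Φ ∧ x = C.act Φ y
  murre : ∀ S : 𝒱.Obj, S.dim = 2 → ∃ t : C.A (S.prod S), C.Deg 2 t ∧
    (∀ x : C.A S, AlbaneseKer H x → C.act t x = x) ∧
    (∀ (m : ℤ) (a : H.A S), m ≠ 2 → H.Deg m a → actCoh H (tp C t) a = 0) ∧
    ∀ z : C.A S, C.Deg 1 z → actCoh H (tp C t) (H.cl z) = 0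

/-- The classical facts on smooth projective complex varieties which are used. -/
structure IsComplex (D : HodgeData H) : Prop where
  hodge : D.IsHodge
  functorial : D.IsFunctorial
  curves : HasCurves H
  surfaces : HasSurfaces H

/-- For a correspondence `Z ∈ CH^n(X × Y)`, `dim X = dim Y = n`: if `[Z]^*` is zero on `H^{i,0}(Y)`
then `Z_*` is zero on `Gr_F^i CH_0(X)`. -/
def GenBloch (D : HodgeData H) (F : Filtration C) (n i : ℕ) : Prop :=
  ∀ X Y : 𝒱.Obj, X.dim = n → Y.dim = n → ∀ Z : C.A (X.prod Y), C.Deg n Z →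
    D.KillsHolomorphic Z i → ∀ x : C.A X, F.Mem n i x → F.Mem n (i + 1) (C.act Z x)

end Pool.Agent.TH133
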