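import Pool.Agent.TH133.Defs

/-!
# Varieties with algebraic cohomology: definitions
-/

open CategoryTheory AlgebraicGeometry

universe u v w

namespace Pool.Agent.TH133

open Pool.Agent.H914 Pool.Agent.H914.VarClass Pool.Agent.H914.VarClass.Obj Pool.Agent.W492.BB
  Pool.Agent.W550.Corr

variable {k : Type u} [Field k] {𝒱 : VarClass k}

/-- The cohomology of `X` is algebraic: there are classes `a s ∈ CH^(r s)(X)` and
`b s ∈ CH^(dim X - r s)(X)`, for `s` in a finite set, with intersection numbers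
`(a s, b t) = δ_{st}`, such that the cohomology of `X` is spanned by the classes of the `a s`. -/
def AlgebraicCohomology {C : TheoryData.{u, v, 0} 𝒱 ℚ} {K : Type w} [Field K]
    (H : WeilTheoryData.{u, v, w} C K) (X : 𝒱.Obj) : Prop :=
  ∃ (m : ℕ) (r : Fin m → ℕ) (a b : Fin m → C.A X),
    (∀ s, r s ≤ X.dim ∧ C.Deg (r s) (a s) ∧ C.Deg ((X.dim : ℤ) - r s) (b s)) ∧
    (∀ s t, HasDegree C (a s * b t) (if s = t then 1 else 0)) ∧
    Submodule.span K (Set.range fun s => H.cl (a s)) = ⊤

/-- Homologically trivial cycles on `X` are rationally trivial. -/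
def HomTrivialVanish {C : TheoryData.{u, v, 0} 𝒱 ℚ} {K : Type w} [Field K]
    (H : WeilTheoryData.{u, v, w} C K) (X : 𝒱.Obj) : Prop :=
  ∀ (i : ℕ) (z : C.A X), C.Deg i z → H.cl z = 0 → z = 0

end Pool.Agent.TH133
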