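import Pool.Agent.TH133.Hyper
import Pool.Agent.TH133.MurreD
import Pool.Agent.TH133.DefsAlg

/-!
# Varieties with algebraic cohomology
-/

open CategoryTheory AlgebraicGeometry

universe u v w

namespace Pool.Agent.TH133

open Pool.Agent.H914 Pool.Agent.H914.VarClass Pool.Agent.H914.VarClass.Obj Pool.Agent.W492.BB
  Pool.Agent.W550.Corr

set_option linter.unusedSectionVars false

variable {k : Type u} [Field k] {𝒱 : VarClass k} {C : TheoryData.{u, v, 0} 𝒱 ℚ}
  [hC : IsChowProj C] {K : Type w} [Field K]
  {H : WeilTheoryData.{u, v, w} C K} [hH : IsWeilProj H] {X Y Z W : 𝒱.Obj}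

include hC hH

/-- If the cohomology is algebraic, there is a homologically trivial idempotent `ε` acting as the
identity on homologically trivial cycles, and for each `p` a Chow-Kunneth decomposition with `ε` as a
part of the component of weight `p`. -/
theorem exists_CK_weight (hX : AlgebraicCohomology H X) (p : ℕ) (hp : p ≤ 2 * X.dim) :
    ∃ π : ℕ → C.A (X.prod X), IsCK H X π ∧ ∀ (i : ℕ) (z : C.A X), z ∈ C.gr X i → H.cl z = 0 →
      C.act (π p) z = z := by
  obtain ⟨m, r, a, b, hab, hdeg, hspan⟩ := hX
  let E : Fin m → Cor C X := fun s => C.ext (b s) (a s)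
  have hEm : ∀ s, E s ∈ cor0 C X := by
    intro s
    have := ext_mem' (hab s).2.2 (hab s).2.1
    rwa [sub_add_cancel] at this
  have hEE : ∀ s t, E s * E t = if s = t then E s else 0 := by
    intro s t
    have h1 : C.comp (C.ext (b t) (a t)) (C.ext (b s) (a s)) =
        (if t = s then (1 : ℚ) else 0) • C.ext (b t) (a s) := comp_ext_ext (hdeg t s)
    have h2 : E s * E t = (if t = s then (1 : ℚ) else 0) • (C.ext (b t) (a s) : Cor C X) := h1
    rw [h2]
    by_cases hst : s = t
    · subst hst
      rw [if_pos rfl, if_pos rfl, one_smul]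
    · rw [if_neg (Ne.symm hst), if_neg hst, zero_smul]
      rfl
  have hEcl : ∀ s t, actH C X H (E s) (H.cl (a t)) = if s = t then H.cl (a t) else 0 := by
    intro s t
    have h1 : C.act (C.ext (b s) (a s)) (a t) = (if t = s then (1 : ℚ) else 0) • a s :=
      act_ext' (by rw [ch_comm C]; exact hdeg t s)
    have h2 : actH C X H (E s) (H.cl (a t)) = H.cl (C.act (C.ext (b s) (a s)) (a t)) :=
      (cl_act H _ _).symm
    rw [h2, h1]
    by_cases hst : s = t
    · subst hst
      rw [if_pos rfl, if_pos rfl, one_smul]
    · rw [if_neg (Ne.symm hst), if_neg hst, zero_smul, map_zero]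
  let S : Cor C X := ∑ s, E s
  have hSm : S ∈ cor0 C X := (cor0 C X).sum_mem fun s _ => hEm s
  have hES : ∀ s, E s * S = E s := by
    intro s
    simp only [S]
    rw [Finset.mul_sum, Finset.sum_eq_single s]
    · rw [hEE, if_pos rfl]
    · intro t _ hts
      rw [hEE, if_neg (Ne.symm hts)]
    · intro h
      exact absurd (Finset.mem_univ _) h
  have hSE : ∀ s, S * E s = E s := by
    intro s
    simp only [S]
    rw [Finset.sum_mul, Finset.sum_eq_single s]
    · rw [hEE, if_pos rfl]
    · intro t _ hts
      rw [hEE, if_neg hts]
    · intro h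
      exact absurd (Finset.mem_univ _) h
  have hSS : S * S = S := by
    conv_lhs => rw [show S = ∑ s, E s from rfl]
    rw [Finset.sum_mul]
    exact Finset.sum_congr rfl fun s _ => hES s
  have hSact : actH C X H S = 1 := by
    have h1 : ∀ y ∈ Submodule.span K (Set.range fun s => H.cl (a s)), actH C X H S y = y := by
      intro y hy
      induction hy using Submodule.span_induction with
      | mem y hy =>
        obtain ⟨t, rfl⟩ := hy
        simp only [S]
        rw [map_sum, LinearMap.sum_apply, Finset.sum_eq_single t]
        · rw [hEcl, if_pos rfl]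
        · intro s _ hst
          rw [hEcl, if_neg hst]
        · intro h
          exact absurd (Finset.mem_univ _) h
      | zero => rw [map_zero]
      | add y z _ _ hy hz => rw [map_add, hy, hz]
      | smul c y _ hy => rw [map_smul, hy]
    apply LinearMap.ext
    intro y
    rw [h1 y (by rw [hspan]; trivial)]
    rfl
  let ε : Cor C X := 1 - S
  have hεm : ε ∈ cor0 C X := (cor0 C X).sub_mem (cor0 C X).one_mem hSm
  have hεε : ε * ε = ε := by
    change (1 - S) * (1 - S) = 1 - S
    rw [mul_sub, mul_one, sub_mul, one_mul, hSS]
    abel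
  have hεE : ∀ s, ε * E s = 0 := fun s => by
    change (1 - S) * E s = 0
    rw [sub_mul, one_mul, hSE, sub_self]
  have hEε : ∀ s, E s * ε = 0 := fun s => by
    change E s * (1 - S) = 0
    rw [mul_sub, mul_one, hES, sub_self]
  have hεact : actH C X H ε = 0 := by
    change actH C X H (1 - S) = 0
    rw [map_sub, map_one, hSact, sub_self]
  let G : ℕ → Cor C X := fun n => ∑ s, if 2 * r s = n then E s else 0
  let π : ℕ → Cor C X := fun n => G n + if n = p then ε else 0
  have hGm : ∀ n, G n ∈ cor0 C X := by
    intro n
    apply (cor0 C X).sum_mem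
    intro s _
    split_ifs
    · exact hEm s
    · exact (cor0 C X).zero_mem
  have hGG : ∀ i j, G i * G j = if i = j then G i else 0 := by
    intro i j
    simp only [G]
    rw [Finset.sum_mul]
    have h1 : ∀ s, (if 2 * r s = i then E s else 0) * ∑ t, (if 2 * r t = j then E t else 0) =
        if i = j then (if 2 * r s = i then E s else 0) else 0 := by
      intro s
      by_cases hs : 2 * r s = i
      · rw [if_pos hs, Finset.mul_sum, Finset.sum_eq_single s]
        · by_cases hj : 2 * r s = j
          · rw [if_pos hj, hEE, if_pos rfl, if_pos (by omega)]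
          · rw [if_neg hj, mul_zero, if_neg (by omega)]
        · intro t _ hts
          split_ifs
          · rw [hEE, if_neg (Ne.symm hts)]
          · rw [mul_zero]
        · intro h
          exact absurd (Finset.mem_univ _) h
      · rw [if_neg hs, zero_mul]
        split_ifs <;> rfl
    rw [Finset.sum_congr rfl fun s _ => h1 s]
    split_ifs
    · rfl
    · exact Finset.sum_const_zero
  have hεG : ∀ n, ε * G n = 0 := by
    intro n
    simp only [G]
    rw [Finset.mul_sum]
    apply Finset.sum_eq_zero
    intro s _
    split_ifs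
    · exact hεE s
    · exact mul_zero _
  have hGε : ∀ n, G n * ε = 0 := by
    intro n
    simp only [G]
    rw [Finset.sum_mul]
    apply Finset.sum_eq_zero
    intro s _
    split_ifs
    · exact hEε s
    · exact zero_mul _
  have hGsum : ∑ n ∈ Finset.range (2 * X.dim + 1), G n = S := by
    simp only [G]
    rw [Finset.sum_comm]
    refine Finset.sum_congr rfl fun s _ => ?_
    rw [Finset.sum_ite_eq, if_pos]
    rw [Finset.mem_range]
    have := (hab s).1
    omega
  have hCK : IsCK H X π := by
    apply isCK_of
    · intro n
      apply (cor0 C X).add_mem (hGm n)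
      split_ifs
      · exact hεm
      · exact (cor0 C X).zero_mem
    · intro n hn
      have h1 : G n = 0 := by
        apply Finset.sum_eq_zero
        intro s _
        rw [if_neg]
        have := (hab s).1
        omega
      change G n + _ = 0
      rw [h1, zero_add, if_neg (by omega)]
    · intro i j
      change (G i + _) * (G j + _) = if i = j then G i + _ else 0
      rw [add_mul, mul_add, mul_add, hGG]
      have h1 : G i * (if j = p then ε else 0) = 0 := by
        split_ifs
        · exact hGε i
        · exact mul_zero _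
      have h2 : (if i = p then ε else 0) * G j = 0 := by
        split_ifs
        · exact hεG j
        · exact zero_mul _
      have h3 : (if i = p then ε else 0) * (if j = p then ε else 0) =
          if i = j then (if i = p then ε else 0) else 0 := by
        by_cases hi : i = p
        · by_cases hj : j = p
          · rw [if_pos hi, if_pos hj, hεε, if_pos (by omega)]
          · rw [if_neg hj, mul_zero, if_neg (by omega)]
        · rw [if_neg hi, zero_mul]
          split_ifs <;> rfl
      rw [h1, h2, h3]
      by_cases hij : i = j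
      · rw [if_pos hij, if_pos hij, if_pos hij, add_zero, zero_add]
      · rw [if_neg hij, if_neg hij, if_neg hij, add_zero, add_zero]
    · change ∑ n ∈ Finset.range (2 * X.dim + 1), (G n + if n = p then ε else 0) = 1
      rw [Finset.sum_add_distrib, hGsum, Finset.sum_ite_eq', if_pos (by
        rw [Finset.mem_range]; omega)]
      change S + (1 - S) = 1
      abel
    · intro n l y hy
      have hact0 : ∀ s, l ≠ 2 * r s → actH C X H (E s) y = 0 := fun s hs =>
        act_ext_ne (hab s).2.1 (hab s).2.2 hs hy
      have h1 : actH C X H (∑ s, E s) y = y := by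
        have : actH C X H S y = y := by
          rw [hSact]
          rfl
        exact this
      have h2 : actH C X H (π n) y = ∑ s, if 2 * r s = n then actH C X H (E s) y else 0 := by
        change actH C X H (G n + _) y = _
        rw [map_add, LinearMap.add_apply]
        have h3 : actH C X H (if n = p then ε else 0) y = 0 := by
          split_ifs
          · rw [hεact]
            rfl
          · rw [map_zero]
            rfl
        rw [h3, add_zero]
        simp only [G]
        rw [map_sum, LinearMap.sum_apply]
        refine Finset.sum_congr rfl fun s _ => ?_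
        split_ifs
        · rfl
        · rw [map_zero]
          rfl
      rw [h2]
      split_ifs with hl
      · rw [map_sum, LinearMap.sum_apply] at h1
        conv_rhs => rw [← h1]
        refine Finset.sum_congr rfl fun s _ => ?_
        split_ifs with hs
        · rfl
        · exact (hact0 s (by omega)).symm
      · apply Finset.sum_eq_zero
        intro s _
        split_ifs with hs
        · exact hact0 s (by omega)
        · rfl
  refine ⟨π, hCK, fun i z hz hz0 => ?_⟩
  have hEz : ∀ s, actC C X (E s) z = 0 := by
    intro s
    change C.act (C.ext (b s) (a s)) z = 0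
    by_cases hi : (X.dim : ℤ) - r s + i = X.dim
    · have h1 : HasDegree C (b s * z) 0 := by
        apply hasDegree_zero_of_cl H
        · have := C.mul_mem (hab s).2.2 hz
          rwa [hi] at this
        · rw [map_mul, hz0, mul_zero]
      rw [act_ext' h1, zero_smul]
    · exact act_ext_zero_of_lt (C.mul_mem (hab s).2.2 hz) hi
  have hSz : actC C X S z = 0 := by
    simp only [S]
    rw [map_sum, LinearMap.sum_apply]
    exact Finset.sum_eq_zero fun s _ => hEz s
  have h1 : actC C X (π p) z = z := by
    change actC C X (G p + if p = p then ε else 0) z = z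
    rw [if_pos rfl, map_add, LinearMap.add_apply]
    have h2 : actC C X (G p) z = 0 := by
      simp only [G]
      rw [map_sum, LinearMap.sum_apply]
      apply Finset.sum_eq_zero
      intro s _
      split_ifs
      · exact hEz s
      · rw [map_zero]
        rfl
    rw [h2, zero_add]
    change actC C X (1 - S) z = z
    rw [map_sub, map_one, LinearMap.sub_apply, hSz, sub_zero]
    rfl
  exact h1

/-- Homologically trivial classes of codimension zero vanish. -/
lemma eq_zero_of_codim_zero {z : C.A X} (hz : z ∈ C.gr X 0) (h : H.cl z = 0) : z = 0 := by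
  obtain ⟨q, rfl⟩ := hC.gr_zero X z hz
  by_cases hq : q = 0
  · rw [hq, zero_smul]
  · exfalso
    have h3 : (1 : C.A X) = (q⁻¹ • (1 : C.A X)) * (q • (1 : C.A X)) := by
      rw [smul_mul_smul_comm, inv_mul_cancel₀ hq, one_smul, one_mul]
    have h4 : (1 : H.A X) = 0 := by rw [← map_one H.cl, h3, map_mul, h, mul_zero]
    exact hH.one_ne_zero X h4

/-- If homologically trivial cycles vanish then all the conjectures of Murre hold. -/
theorem murre_of_vanish (h : HomTrivialVanish H X) :
    MurreB0 H X ∧ MurreB1 H X ∧ MurreC H X ∧ MurreD H X := by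
  have hzero : ∀ π, IsCK H X π → ∀ (i j : ℕ) (x : C.A X), x ∈ C.gr X i → j ≠ 2 * i →
      C.act (π j) x = 0 := by
    intro π hπ i j x hx hj
    apply h i _ (act_mem0 C (hπ.deg j) hx)
    rw [cl_act H]
    exact hπ.act_ne j (2 * i) _ (by omega) (H.cl_mem hx)
  have hB0 : MurreB0 H X := by
    rw [murreB0_iff]
    exact fun π hπ i j x hx hj => hzero π hπ i j x hx (by omega)
  have hD : MurreD H X := by
    intro π hπ i x
    rw [hπ.mem_ckFil]
    constructor
    · rintro ⟨hx, hx'⟩
      refine ⟨hx, ?_⟩
      rw [← cl_act_self hπ hx, hx' (2 * i) (by omega), map_zero]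
    · rintro ⟨hx, hx'⟩
      rw [h i x hx hx']
      exact ⟨Submodule.zero_mem _, fun j _ => C.act_map_zero _⟩
  have hF : ∀ π, IsCK H X π → ∀ i n : ℕ, ckFil C π i (n + 1) = ⊥ := by
    intro π hπ i n
    rw [eq_bot_iff]
    intro x hx
    rw [hπ.mem_ckFil] at hx
    rw [Submodule.mem_bot]
    have h1 : x ∈ ckFil C π i 1 := by
      rw [hπ.mem_ckFil]
      exact ⟨hx.1, fun j hj => hx.2 j (by omega)⟩
    rw [hD π hπ] at h1
    exact h i x h1.1 h1.2
  refine ⟨hB0, fun π hπ i => hF π hπ i i, fun π π' hπ hπ' i n => ?_, hD⟩
  rcases n with _ | n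
  · rw [hB0 π hπ i, hB0 π' hπ' i]
  · rw [hF π hπ, hF π' hπ']

/-- **For varieties with algebraic cohomology, each one of the conjectures (B), (C), (D) of Murre,
and also the second half of (B), is equivalent to the vanishing of the homologically trivial
cycles.** -/
theorem murre_tfae (hX : AlgebraicCohomology H X) :
    List.TFAE [HomTrivialVanish H X, MurreB0 H X ∧ MurreB1 H X, MurreB1 H X, MurreC H X,
      MurreD H X] := by
  tfae_have 1 → 2 := fun h => ⟨(murre_of_vanish h).1, (murre_of_vanish h).2.1⟩
  tfae_have 1 → 4 := fun h => (murre_of_vanish h).2.2.1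
  tfae_have 1 → 5 := fun h => (murre_of_vanish h).2.2.2
  tfae_have 2 → 3 := fun h => h.2
  tfae_have 3 → 1 := by
    intro h i z hz hz0
    by_cases hi : i = 0
    · subst hi
      exact eq_zero_of_codim_zero hz hz0
    obtain ⟨π, hπ, hact⟩ := exists_CK_weight hX 0 (by omega)
    have h1 : z ∈ ckFil C π i (i + 1) := by
      rw [hπ.mem_ckFil]
      refine ⟨hz, fun j hj => ?_⟩
      rw [← hact i z hz hz0, ← C.act_comp, hπ.orth 0 j (by omega), TheoryData.act_zero]
    rw [h π hπ i] at h1
    exact (Submodule.mem_bot _).1 h1
  tfae_have 5 → 1 := by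
    intro h i z hz hz0
    by_cases hi : X.dim < i
    · exact hC.gr_top X i z hz (by exact_mod_cast hi)
    obtain ⟨π, hπ, hact⟩ := exists_CK_weight hX (2 * i) (by omega)
    have h1 : z ∈ ckFil C π i 1 := (h π hπ i z).2 ⟨hz, hz0⟩
    rw [hπ.mem_ckFil] at h1
    rw [← hact i z hz hz0]
    exact h1.2 (2 * i) (by omega)
  tfae_have 4 → 1 := by
    intro h i z hz hz0
    by_cases hi0 : i = 0
    · subst hi0
      exact eq_zero_of_codim_zero hz hz0
    by_cases hi : X.dim < i
    · exact hC.gr_top X i z hz (by exact_mod_cast hi)
    obtain ⟨π, hπ, hact⟩ := exists_CK_weight hX 0 (by omega)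
    obtain ⟨π', hπ', hact'⟩ := exists_CK_weight hX (2 * i) (by omega)
    have h1 : z ∈ ckFil C π i 1 := by
      rw [hπ.mem_ckFil]
      refine ⟨hz, fun j hj => ?_⟩
      rw [← hact i z hz hz0, ← C.act_comp, hπ.orth 0 j (by omega), TheoryData.act_zero]
    rw [h π π' hπ hπ' i 1, hπ'.mem_ckFil] at h1
    rw [← hact' i z hz hz0]
    exact h1.2 (2 * i) (by omega)
  tfae_finish

end Pool.Agent.TH133
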