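import Pool.Agent.TH133.DefsBB

/-!
# Abel-Jacobi maps and Bloch-Beilinson filtrations: definitions
-/

open CategoryTheory AlgebraicGeometry

universe u v w

namespace Pool.Agent.TH133

open Pool.Agent.H914 Pool.Agent.H914.VarClass Pool.Agent.H914.VarClass.Obj Pool.Agent.W492.BB
  Pool.Agent.W550.Corr

variable {k : Type u} [Field k] {𝒱 : VarClass k} {C : TheoryData.{u, v, 0} 𝒱 ℚ} {K : Type w}
  [Field K]

/-- The group `CH^i(X)_hom` of homologically trivial cycles of codimension `i` on `X`. -/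
def homTriv (H : WeilTheoryData.{u, v, w} C K) (X : 𝒱.Obj) (i : ℕ) : Submodule ℚ (C.A X) :=
  C.gr X i ⊓ Submodule.restrictScalars ℚ (RingHom.ker (H.cl (X := X)))

/-- The data of Abel-Jacobi maps: for all `X` and `i` a group `J^(2i-1)(X)` (in practice the
intermediate Jacobian tensored with the rational numbers) and a map with values in it, which is only
used on `CH^i(X)_hom`. -/
structure AbelJacobi (H : WeilTheoryData.{u, v, w} C K) where
  /-- the intermediate Jacobian, tensored with the rational numbers -/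
  J : 𝒱.Obj → ℕ → Type v
  [grp : ∀ X i, AddCommGroup (J X i)]
  /-- the Abel-Jacobi map on `CH^i(X)_hom`; its values on other classes are never used -/
  aj : ∀ (X : 𝒱.Obj) (i : ℕ), C.A X → J X i

attribute [instance] AbelJacobi.grp

variable {H : WeilTheoryData.{u, v, w} C K}

/-- The cycle `z ∈ CH^i(X)` is homologically trivial and in the kernel of the Abel-Jacobi map. -/
def AbelJacobi.Ker (T : AbelJacobi H) {X : 𝒱.Obj} (i : ℕ) (z : C.A X) : Prop :=
  z ∈ homTriv H X i ∧ T.aj X i z = 0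

/-- The Abel-Jacobi maps are additive on `CH^i(X)_hom` and functorial: for each correspondence
`Γ ∈ CH^l(X × Y)`, mapping `CH^i(X)` to `CH^j(Y)` with `j = i + l - dim X`, there is a homomorphism
`φ : J^(2i-1)(X) → J^(2j-1)(Y)` compatible with the action of `Γ` on homologically trivial cycles,
and one can take `φ = 0` if `Γ` acts as zero on `H^(2i-1)(X)`. -/
structure AbelJacobi.IsFunctorial (T : AbelJacobi H) : Prop where
  add : ∀ (X : 𝒱.Obj) (i : ℕ), ∀ a ∈ homTriv H X i, ∀ b ∈ homTriv H X i,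
    T.aj X i (a + b) = T.aj X i a + T.aj X i b
  act : ∀ (X Y : 𝒱.Obj) (i j l : ℕ) (Γ : C.A (X.prod Y)), C.Deg l Γ → i + l = j + X.dim →
    ∃ φ : T.J X i →+ T.J Y j, (∀ z ∈ homTriv H X i, T.aj Y j (C.act Γ z) = φ (T.aj X i z)) ∧
      (Kills H Γ (2 * i - 1) → φ = 0)

/-- All correspondences respect the filtrations. -/
def RespectsCorr (F : Filtration C) : Prop :=
  ∀ (X Y : 𝒱.Obj) (i j l : ℕ) (Γ : C.A (X.prod Y)), C.Deg l Γ → i + l = j + X.dim →
    ∀ (n : ℕ) (x : C.A X), F.Mem i n x → F.Mem j n (C.act Γ x)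

/-- A correspondence from `X` to `Y` acting as zero on `H^(2i-n)(X)` acts as zero on
`Gr_F^n CH^i(X)`. -/
def ShiftsCorr (H : WeilTheoryData.{u, v, w} C K) (F : Filtration C) : Prop :=
  ∀ (X Y : 𝒱.Obj) (i j l : ℕ) (Γ : C.A (X.prod Y)), C.Deg l Γ → i + l = j + X.dim →
    ∀ n : ℕ, Kills H Γ (2 * i - n) → ∀ x : C.A X, F.Mem i n x → F.Mem j (n + 1) (C.act Γ x)

/-- The conditions on a Bloch-Beilinson filtration other than `F^2 = ker AJ`: `F^0 CH^i(X) =
CH^i(X)`; `F^1 CH^i(X) = CH^i(X)_hom`; `F^(i+1) CH^i(X) = 0` (`IsBounded`); all correspondences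
respect the filtrations; a correspondence from `X` to `Y` acting as zero on `H^(2i-n)(X)` acts as
zero on `Gr_F^n CH^i(X)`. -/
structure IsBBCorr (H : WeilTheoryData.{u, v, w} C K) (F : Filtration C) : Prop extends
    IsBounded H F where
  act : RespectsCorr F
  shift : ShiftsCorr H F

/-- The conditions 1 to 4 on a Bloch-Beilinson filtration: those of `IsBBCorr`, and
`F^2 CH^i(X)` is the kernel of the Abel-Jacobi map. -/
structure IsBBAJ (T : AbelJacobi H) (F : Filtration C) : Prop where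
  corr : IsBBCorr H F
  two : ∀ (X : 𝒱.Obj) (i : ℕ) (x : C.A X), F.Mem i 2 x ↔ T.Ker i x

/-- If a self-correspondence `γ` of degree zero of `X` acts as zero on `H^m(X)` for all `m` with
`i ≤ m ≤ 2 i - 2`, then its action on the kernel of the Abel-Jacobi map in `CH^i(X)` is locally
nilpotent. -/
def NilpotentOnKer (T : AbelJacobi H) (X : 𝒱.Obj) (i : ℕ) : Prop :=
  ∀ γ : C.A (X.prod X), C.Deg X.dim γ → (∀ m : ℤ, i ≤ m → m ≤ 2 * i - 2 → Kills H γ m) →
    ∀ z : C.A X, T.Ker i z → ∃ m : ℕ, (C.act γ)^[m] z = 0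

/-- If the self-correspondences `γ_0, …, γ_{i-2}` of degree zero of `X` are such that `γ_n` acts as
zero on `H^(2i-2-n)(X)`, then their composition `γ_{i-2} ∘ ⋯ ∘ γ_0` acts as zero on the kernel of
the Abel-Jacobi map in `CH^i(X)`. -/
def ProductsVanishOnKer (T : AbelJacobi H) (X : 𝒱.Obj) (i : ℕ) : Prop :=
  ∀ γ : ℕ → C.A (X.prod X), (∀ n, n + 1 < i → C.Deg X.dim (γ n)) →
    (∀ n : ℕ, n + 1 < i → Kills H (γ n) (2 * i - 2 - n)) →
      ∀ z : C.A X, T.Ker i z → actSeq C γ z (i - 1) = 0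

/-- The cycle `z ∈ CH^i(X)` is algebraically equivalent to zero: it is zero, or `z = Γ_* c` for a
curve `B`, a zero-cycle `c` of degree zero on `B`, and some `Γ ∈ CH^i(B × X)`. -/
def AlgTrivial (C : TheoryData.{u, v, 0} 𝒱 ℚ) {X : 𝒱.Obj} (i : ℕ) (z : C.A X) : Prop :=
  z = 0 ∨ ∃ (B : 𝒱.Obj) (c : C.A B) (Γ : C.A (B.prod X)), B.dim = 1 ∧ C.Deg 1 c ∧
    HasDegree C c 0 ∧ C.Deg i Γ ∧ z = C.act Γ c

/-- Poincare reducibility: if `Γ_* c` lies in the kernel of the Abel-Jacobi map, where `c` is a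
zero-cycle of degree zero on the curve `B` and `Γ ∈ CH^i(B × X)`, then there is `e ∈ CH^1(B × B)`
such that `e_* c = c` and such that `Γ ∘ e` acts as zero on `H^1(B)`. (The point `c` of the Jacobian
`J(B)`, with rational coefficients, lies in the abelian subvariety attached to the kernel of
`Γ_* : J(B) → J^(2i-1)(X)`, and `e` is a projector of `J(B)` onto this abelian subvariety.) -/
def AbelJacobi.HasCurveProjectors (T : AbelJacobi H) : Prop :=
  ∀ (B X : 𝒱.Obj) (i : ℕ) (c : C.A B) (Γ : C.A (B.prod X)), B.dim = 1 → C.Deg 1 c →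
    HasDegree C c 0 → C.Deg i Γ → T.Ker i (C.act Γ c) →
      ∃ e : C.A (B.prod B), C.Deg 1 e ∧ C.act e c = c ∧ Kills H (C.comp e Γ) 1

/-- Every cycle in the kernel of an Abel-Jacobi map is the sum of an algebraically trivial cycle
and of an element of `F^2`. -/
def KerInAlgAddTwo (T : AbelJacobi H) (F : Filtration C) : Prop :=
  ∀ (X : 𝒱.Obj) (i : ℕ) (z : C.A X), T.Ker i z →
    ∃ a b : C.A X, AlgTrivial C i a ∧ F.Mem i 2 b ∧ z = a + b

/-- Every cycle in the kernel of the Abel-Jacobi map in `CH^i(X)` is the sum of an algebraically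
trivial cycle and of `γ_* b` for some `b ∈ CH^i(X)_hom` and some self-correspondence `γ` of degree
zero of `X` acting as zero on `H^(2i-1)(X)`. -/
def KerInAlgAddImage (T : AbelJacobi H) : Prop :=
  ∀ (X : 𝒱.Obj) (i : ℕ) (z : C.A X), T.Ker i z → ∃ (a b : C.A X) (γ : C.A (X.prod X)),
    AlgTrivial C i a ∧ b ∈ homTriv H X i ∧ C.Deg X.dim γ ∧ Kills H γ (2 * i - 1) ∧
      z = a + C.act γ b

end Pool.Agent.TH133
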