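import Pool.Agent.TH133.BBNil
import Pool.Agent.TH133.AlgCoh
import Pool.Agent.TH133.DefsAJ

/-!
# Bloch-Beilinson filtrations and the kernel of the Abel-Jacobi map
-/

open CategoryTheory AlgebraicGeometry

universe u v w

namespace Pool.Agent.TH133

open Pool.Agent.H914 Pool.Agent.H914.VarClass Pool.Agent.H914.VarClass.Obj Pool.Agent.W492.BB
  Pool.Agent.W550.Corr

set_option linter.unusedSectionVars false

variable {k : Type u} [Field k] {𝒱 : VarClass k} {C : TheoryData.{u, v, 0} 𝒱 ℚ}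
  [hC : IsChowProj C] {K : Type w} [Field K]
  {H : WeilTheoryData.{u, v, w} C K} [hH : IsWeilProj H] {X Y Z W : 𝒱.Obj}

include hC hH

lemma cl_act_zero {Γ : C.A (X.prod Y)} {x : C.A X} (hx : H.cl x = 0) :
    H.cl (C.act Γ x) = 0 := by
  rw [cl_act H, hx, TheoryData.act_map_zero]

lemma mem_homTriv {i : ℕ} {z : C.A X} : z ∈ homTriv H X i ↔ C.Deg i z ∧ H.cl z = 0 := Iff.rfl

/-- A correspondence maps `CH^i(X)_hom` to the kernel of the Abel-Jacobi map if it acts as zero on
`H^(2i-1)(X)`. -/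
lemma ker_of_kills {T : AbelJacobi H} (hT : T.IsFunctorial) {i j l : ℕ} {Γ : C.A (X.prod Y)}
    (hΓ : C.Deg l Γ) (hij : i + l = j + X.dim) (hkill : Kills H Γ (2 * i - 1)) {z : C.A X}
    (hz : z ∈ homTriv H X i) : T.Ker j (C.act Γ z) := by
  obtain ⟨φ, hφ, h0⟩ := hT.act X Y i j l Γ hΓ hij
  have h1 : C.act Γ z ∈ homTriv H Y j := by
    refine ⟨?_, cl_act_zero hz.2⟩
    have h2 : Γ ∈ C.gr (X.prod Y) (X.dim + ((l : ℤ) - X.dim)) := by
      have e1 : (X.dim : ℤ) + ((l : ℤ) - X.dim) = l := by ring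
      rw [e1]; exact hΓ
    have h3 := act_mem' C h2 hz.1
    have e2 : (i : ℤ) + ((l : ℤ) - X.dim) = j := by omega
    rwa [e2] at h3
  refine ⟨h1, ?_⟩
  rw [hφ z hz, h0 hkill, AddMonoidHom.zero_apply]

/-- Correspondences respect the kernels of the Abel-Jacobi maps. -/
lemma ker_act {T : AbelJacobi H} (hT : T.IsFunctorial) {i j l : ℕ} {Γ : C.A (X.prod Y)}
    (hΓ : C.Deg l Γ) (hij : i + l = j + X.dim) {z : C.A X} (hz : T.Ker i z) :
    T.Ker j (C.act Γ z) := by
  obtain ⟨φ, hφ, _⟩ := hT.act X Y i j l Γ hΓ hij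
  obtain ⟨hz, hz'⟩ := hz
  have h1 : C.act Γ z ∈ homTriv H Y j := by
    refine ⟨?_, cl_act_zero hz.2⟩
    have h2 : Γ ∈ C.gr (X.prod Y) (X.dim + ((l : ℤ) - X.dim)) := by
      have e1 : (X.dim : ℤ) + ((l : ℤ) - X.dim) = l := by ring
      rw [e1]; exact hΓ
    have h3 := act_mem' C h2 hz.1
    have e2 : (i : ℤ) + ((l : ℤ) - X.dim) = j := by omega
    rwa [e2] at h3
  refine ⟨h1, ?_⟩
  rw [hφ z hz, hz', map_zero]

/-- The shift property of the filtrations attached to Chow-Kunneth decompositions. -/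
theorem act_mem_ckFil_shift (hD : MurreD H (X.prod Y)) {π : ℕ → C.A (X.prod X)}
    {ρ : ℕ → C.A (Y.prod Y)} (hπ : IsCK H X π) (hρ : IsCK H Y ρ) {i j l n : ℕ}
    {Γ : C.A (X.prod Y)} (hΓ : Γ ∈ C.gr (X.prod Y) l) (hij : i + l = j + X.dim)
    (hkill : Kills H Γ (2 * i - n)) {x : C.A X} (hx : x ∈ ckFil C π i n) :
    C.act Γ x ∈ ckFil C ρ j (n + 1) := by
  have hB0 := murreB0_of_D _ hD
  have h1 := act_mem_ckFil hB0 hπ hρ (g := l) hΓ hx (l := j) (by omega)
  rw [hπ.mem_ckFil] at hx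
  rw [hρ.mem_ckFil] at h1 ⊢
  refine ⟨h1.1, fun b hb => ?_⟩
  by_cases hb' : 2 * j + 1 - n ≤ b
  · exact h1.2 b hb'
  have hbn : b + n = 2 * j := by omega
  have h3 : x = ∑ a ∈ Finset.range (2 * X.dim + 1), C.act (π a) x := by
    rw [← act_sum, hπ.sum, act_dg]
  rw [h3, act_map_sum, act_map_sum]
  apply Finset.sum_eq_zero
  intro a _
  by_cases ha : 2 * i + 1 - n ≤ a
  · rw [hx.2 a ha, TheoryData.act_map_zero, TheoryData.act_map_zero]
  rw [← C.act_comp (π a) Γ, ← C.act_comp]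
  rcases Nat.lt_or_ge (a + n) (2 * i) with han | han
  · rw [comp_zero_of_B0 hB0 hπ hρ (i := l) hΓ (by omega), TheoryData.act_zero]
  have han' : a + n = 2 * i := by omega
  have hG : C.comp (C.comp (π a) Γ) (ρ b) ∈ C.gr (X.prod Y) l := by
    have h5 : Γ ∈ C.gr (X.prod Y) (X.dim + ((l : ℤ) - X.dim)) := by
      have e1 : (X.dim : ℤ) + ((l : ℤ) - X.dim) = l := by ring
      rw [e1]; exact hΓ
    have h6 : π a ∈ C.gr (X.prod X) (X.dim + 0) := by rw [add_zero]; exact hπ.deg a
    have h7 : ρ b ∈ C.gr (Y.prod Y) (Y.dim + 0) := by rw [add_zero]; exact hρ.deg b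
    have h8 := comp_mem C (comp_mem C h6 h5) h7
    have e3 : (X.dim : ℤ) + (0 + ((l : ℤ) - X.dim) + 0) = l := by ring
    rwa [e3] at h8
  have hG0 : H.cl (C.comp (C.comp (π a) Γ) (ρ b)) = 0 := by
    apply hom_zero_of_act H
    have h9 : H.actL (H.cl (C.comp (C.comp (π a) Γ) (ρ b))) = 0 := by
      apply ext_gr H
      intro m c hc
      rw [TheoryData.actL_apply, actH_comp, actH_comp, hπ.actH_eq a m hc, LinearMap.zero_apply]
      split_ifs with hm
      · rw [hkill c (by
          have e2 : (2 * i - n : ℤ) = m := by omega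
          change c ∈ H.gr X _
          rw [e2]
          exact hc), TheoryData.act_map_zero]
      · rw [TheoryData.act_map_zero, TheoryData.act_map_zero]
    intro c
    exact LinearMap.congr_fun h9 c
  have h10 := comp_zero_of_D hD hπ hρ (i := l) (j := a) (b := b) hG hG0 (by omega)
  have h11 : C.comp (C.comp (π a) (C.comp (C.comp (π a) Γ) (ρ b))) (ρ b) =
      C.comp (C.comp (π a) Γ) (ρ b) := by
    rw [← comp_assoc, ← comp_assoc, hπ.idem, comp_assoc, hρ.idem]
  rw [h11] at h10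
  rw [h10, TheoryData.act_zero]

/-- The filtrations attached to Chow-Kunneth decompositions. -/
noncomputable def ckFiltration (C : TheoryData.{u, v, 0} 𝒱 ℚ) {K : Type w} [Field K]
    (H : WeilTheoryData.{u, v, w} C K) [IsChowProj C] [IsWeilProj H]
    (π : ∀ X : 𝒱.Obj, ℕ → C.A (X.prod X)) (hπ : ∀ X, IsCK H X (π X)) : Filtration C where
  F X i n := ckFil C (π X) i n
  le_gr X i n x hx := by
    rw [(hπ X).mem_ckFil] at hx
    exact hx.1
  anti X i n x hx := by
    rw [(hπ X).mem_ckFil] at hx ⊢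
    exact ⟨hx.1, fun j hj => hx.2 j (by omega)⟩

/-- **(D) and the second half of (B) imply that the filtrations attached to Chow-Kunneth
decompositions form a Bloch-Beilinson filtration.** -/
theorem isBBCorr_ck (π : ∀ X : 𝒱.Obj, ℕ → C.A (X.prod X)) (hπ : ∀ X, IsCK H X (π X))
    (hD : ∀ X : 𝒱.Obj, MurreD H X) (hB : ∀ X : 𝒱.Obj, MurreB1 H X) :
    IsBBCorr H (ckFiltration C H π hπ) where
  zero X i x := by
    have h1 := murreB0_of_D X (hD X) (π X) (hπ X) i
    change x ∈ ckFil C (π X) i 0 ↔ _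
    rw [h1]
  one X i x := hD X (π X) (hπ X) i x
  top X i x hx := by
    have h1 := hB X (π X) (hπ X) i
    change x ∈ ckFil C (π X) i (i + 1) at hx
    rw [h1] at hx
    exact (Submodule.mem_bot _).1 hx
  act X Y i j l Γ hΓ hij n x hx :=
    act_mem_ckFil (murreB0_of_D _ (hD _)) (hπ X) (hπ Y) hΓ hx (by omega)
  shift X Y i j l Γ hΓ hij n hkill x hx :=
    act_mem_ckFil_shift (hD _) (hπ X) (hπ Y) hΓ hij hkill hx

/-- The second step of the filtrations lies in the kernel of the Abel-Jacobi map. -/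
lemma ker_of_two {T : AbelJacobi H} (hT : T.IsFunctorial) (hD : MurreD H X)
    {π : ℕ → C.A (X.prod X)} (hπ : IsCK H X π) {i : ℕ} {x : C.A X} (hx : x ∈ ckFil C π i 2) :
    T.Ker i x := by
  rw [hπ.mem_ckFil] at hx
  have h1 : x ∈ ckFil C π i 1 := by
    rw [hπ.mem_ckFil]
    exact ⟨hx.1, fun j hj => hx.2 j (by omega)⟩
  rw [hD π hπ] at h1
  have h2 : C.act (∑ j ∈ Finset.range (2 * i - 1), π j) x = x := by
    have h3 : x = C.act (∑ j ∈ Finset.range (2 * X.dim + 1 + (2 * i - 1)), π j) x := by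
      rw [hπ.sum_of_le (by omega), act_dg]
    conv_rhs => rw [h3]
    rw [act_sum, act_sum]
    apply Finset.sum_subset
    · intro j hj
      rw [Finset.mem_range] at *
      omega
    · intro j _ hj
      rw [Finset.mem_range] at hj
      exact hx.2 j (by omega)
  rw [← h2]
  have h4 : C.Deg X.dim (∑ j ∈ Finset.range (2 * i - 1), π j) :=
    Submodule.sum_mem _ fun j _ => hπ.deg j
  refine ker_of_kills hT h4 rfl ?_ h1
  intro a ha
  have h5 : H.cl (∑ j ∈ Finset.range (2 * i - 1), π j) =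
      ∑ j ∈ Finset.range (2 * i - 1), H.cl (π j) := map_sum _ _ _
  have h6 : ∀ s : Finset ℕ, H.act (∑ j ∈ s, H.cl (π j)) a =
      ∑ j ∈ s, H.act (H.cl (π j)) a := by
    intro s
    induction s using Finset.induction_on with
    | empty => rw [Finset.sum_empty, Finset.sum_empty, TheoryData.act_zero]
    | insert j s hj ih => rw [Finset.sum_insert hj, Finset.sum_insert hj, TheoryData.act_add, ih]
  rw [h5, h6]
  apply Finset.sum_eq_zero
  intro j hj
  rw [Finset.mem_range] at hj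
  exact hπ.act_ne j _ a (by omega) ha

/-- The local nilpotence on the kernel of the Abel-Jacobi map implies the local nilpotence on the
homologically trivial cycles. -/
lemma nilpotentOnHom_of_ker {T : AbelJacobi H} (hT : T.IsFunctorial) {i : ℕ}
    (h : NilpotentOnKer T X i) : NilpotentOnHom H X i := by
  intro γ hγ hkill z hz hz0
  by_cases hi : i = 0
  · subst hi
    refine ⟨0, ?_⟩
    exact eq_zero_of_codim_zero (H := H) (by exact_mod_cast hz) hz0
  have h1 : T.Ker i (C.act γ z) :=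
    ker_of_kills hT hγ rfl (hkill _ (by omega) (by omega)) ⟨hz, hz0⟩
  obtain ⟨m, hm⟩ := h γ hγ (fun j hj hj' => hkill j hj (by omega)) _ h1
  refine ⟨m + 1, ?_⟩
  rw [Function.iterate_succ_apply]
  exact hm

/-- **Bloch-Beilinson filtrations and the kernel of the Abel-Jacobi map.** -/
theorem isBBAJ_tfae (hK : KunnethConjecture H) {T : AbelJacobi H} (hT : T.IsFunctorial) :
    List.TFAE [∃ F : Filtration C, IsBBAJ T F,
      ∀ (X : 𝒱.Obj) (i : ℕ), NilpotentOnKer T X i,
      ∀ (X : 𝒱.Obj) (i : ℕ), ProductsVanishOnKer T X i] := by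
  tfae_have 1 → 3 := by
    rintro ⟨F, hF⟩ X i γ hγ hkill z hz
    have h1 : ∀ m, m + 1 ≤ i → F.Mem i (m + 2) (actSeq C γ z m) := by
      intro m
      induction m with
      | zero =>
        intro _
        exact (hF.two X i z).2 hz
      | succ m ih =>
        intro hm
        have h2 := hkill m (by omega)
        have e1 : (2 * i - 2 - m : ℤ) = 2 * i - ((m + 2 : ℕ) : ℤ) := by push_cast; ring
        rw [e1] at h2
        exact hF.corr.shift X X i i X.dim (γ m) (hγ m (by omega)) rfl (m + 2) h2 _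
          (ih (by omega))
    by_cases hi : i = 0
    · subst hi
      have h2 : F.Mem 0 1 z := F.anti X 0 1 ((hF.two X 0 z).2 hz)
      exact hF.corr.top X 0 z h2
    · have h2 := h1 (i - 1) (by omega)
      have e2 : i - 1 + 2 = i + 1 := by omega
      rw [e2] at h2
      exact hF.corr.top X i _ h2
  tfae_have 3 → 2 := by
    intro h X i γ hγ hkill z hz
    refine ⟨i - 1, ?_⟩
    rw [← actSeq_const]
    exact h X i (fun _ => γ) (fun _ _ => hγ) (fun n hn => hkill _ (by omega) (by omega)) z hz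
  tfae_have 2 → 1 := by
    intro h
    have hN : ∀ (X : 𝒱.Obj) (i : ℕ), NilpotentOnHom H X i :=
      fun X i => nilpotentOnHom_of_ker hT (h X i)
    have hA : ∀ X : 𝒱.Obj, ∃ π : ℕ → C.A (X.prod X), IsCK H X π :=
      fun X => exists_CK_of_cond hK (hN _ _)
    choose π hπ using hA
    have hD : ∀ X : 𝒱.Obj, MurreD H X := fun X => murreD_of_cond (hN X)
    refine ⟨ckFiltration C H π hπ, isBBCorr_ck π hπ hD (fun X => murreB1_of_cond (hN X)), ?_⟩
    intro X i x
    change x ∈ ckFil C (π X) i 2 ↔ _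
    constructor
    · exact fun hx => ker_of_two hT (hD X) (hπ X) hx
    · intro hx
      have h1 : x ∈ ckFil C (π X) i 1 := (hD X (π X) (hπ X) i x).2 hx.1
      rw [(hπ X).mem_ckFil] at h1 ⊢
      refine ⟨h1.1, fun j hj => ?_⟩
      by_cases hj' : 2 * i + 1 - 1 ≤ j
      · exact h1.2 j hj'
      obtain ⟨m, hm⟩ := h X i (π X j) ((hπ X).deg j)
        (fun l _ hl a ha => (hπ X).act_ne j l a (by omega) ha) x hx
      exact act_zero_of_iterate (H := H) ((hπ X).idem j) hm
  tfae_finish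

end Pool.Agent.TH133
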