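import Pool.Agent.TH133.AJ

/-!
# The kernel of the Abel-Jacobi map and algebraic equivalence
-/

open CategoryTheory AlgebraicGeometry

universe u v w

namespace Pool.Agent.TH133

open Pool.Agent.H914 Pool.Agent.H914.VarClass Pool.Agent.H914.VarClass.Obj Pool.Agent.W492.BB
  Pool.Agent.W550.Corr

set_option linter.unusedSectionVars false

variable {k : Type u} [Field k] {𝒱 : VarClass k} {C : TheoryData.{u, v, 0} 𝒱 ℚ}
  [hC : IsChowProj C] {K : Type w} [Field K]
  {H : WeilTheoryData.{u, v, w} C K} [hH : IsWeilProj H] {X Y Z W : 𝒱.Obj}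

include hC hH

/-- A Bloch-Beilinson filtration forces single correspondences to be locally nilpotent. -/
lemma nilpotentOnHom_of_BBCorr {F : Filtration C} (hF : IsBBCorr H F) (X : 𝒱.Obj) (i : ℕ) :
    NilpotentOnHom H X i := by
  apply nilpotentOnHom_of_products
  intro γ hγ hkill z hz hz0
  have h1 : ∀ m ≤ i, F.Mem i (m + 1) (actSeq C γ z m) := by
    intro m
    induction m with
    | zero =>
      intro _
      exact (hF.one X i z).2 ⟨hz, hz0⟩
    | succ m ih =>
      intro hm
      have h2 := hkill m (by omega)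
      have e1 : (2 * i - (m + 1) : ℤ) = 2 * i - ((m + 1 : ℕ) : ℤ) := by push_cast; ring
      rw [e1] at h2
      exact hF.shift X X i i X.dim (γ m) (hγ m (by omega)) rfl (m + 1) h2 _ (ih (by omega))
  exact hF.top X i _ (h1 i le_rfl)

/-- Uniqueness of the Bloch-Beilinson filtration in the presence of a Chow-Kunneth
decomposition. -/
lemma mem_iff_of_BBCorr {F : Filtration C} (hF : IsBBCorr H F) {π : ℕ → C.A (X.prod X)}
    (hπ : IsCK H X π) (i n : ℕ) (x : C.A X) : F.Mem i n x ↔ x ∈ ckFil C π i n := by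
  have hanti : ∀ m n : ℕ, n ≤ m → ∀ y : C.A X, F.Mem i m y → F.Mem i n y := by
    intro m n hmn y
    induction m, hmn using Nat.le_induction with
    | base => exact id
    | succ m _ ih => exact fun h => ih (F.anti X i m h)
  rw [hπ.mem_ckFil]
  constructor
  · intro hx
    refine ⟨F.le_gr X i n hx, fun j hj => ?_⟩
    have h1 : ∀ m, n ≤ m → F.Mem i m (C.act (π j) x) := by
      intro m hm
      induction m, hm using Nat.le_induction with
      | base => exact hF.act X X i i X.dim (π j) (hπ.deg j) rfl n x hx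
      | succ m hm ih =>
        have h2 := hF.shift X X i i X.dim (π j) (hπ.deg j) rfl m
          (fun a ha => hπ.act_ne j _ a (by omega) ha) _ ih
        rwa [← C.act_comp, hπ.idem] at h2
    have h3 := h1 (max n (i + 1)) (le_max_left _ _)
    exact hF.top X i _ (hanti _ (i + 1) (le_max_right _ _) _ h3)
  · rintro ⟨hx, hx'⟩
    have h1 : x = ∑ j ∈ Finset.range (2 * X.dim + 1), C.act (π j) x := by
      rw [← act_sum, hπ.sum, act_dg]
    rw [h1]
    apply Submodule.sum_mem
    intro j _
    by_cases hj : 2 * i + 1 - n ≤ j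
    · rw [hx' j hj]
      exact Submodule.zero_mem _
    have h2 : ∀ m ≤ n, F.Mem i m (C.act (π j) x) := by
      intro m
      induction m with
      | zero => exact fun _ => (hF.zero X i _).2 (act_mem0 C (hπ.deg j) hx)
      | succ m ih =>
        intro hm
        have h3 := hF.shift X X i i X.dim (π j) (hπ.deg j) rfl m
          (fun a ha => hπ.act_ne j _ a (by omega) ha) _ (ih (by omega))
        rwa [← C.act_comp, hπ.idem] at h3
    exact h2 n le_rfl

/-- A zero-cycle of degree zero is homologically trivial. -/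
lemma cl_zero_of_degree {x : C.A X} (hx : x ∈ C.gr X X.dim) (h : HasDegree C x 0) :
    H.cl x = 0 := by
  obtain ⟨e, he, hd⟩ := exists_hasDegree_one (C := C) H X
  obtain ⟨a, ha⟩ := top_eq he hd (H.cl_mem hx)
  have h1 : H.cl (C.push (snd X X) (C.pull (fst X X) x)) = 0 := by
    rw [(h X).1, zero_smul, map_zero]
  have h2 : H.cl (C.push (snd X X) (C.pull (fst X X) e)) = 1 := by
    rw [(hd X).1, one_smul, map_one]
  rw [H.cl_push, H.cl_pull] at h1 h2
  rw [ha, map_smul, map_smul, h2] at h1
  rcases smul_eq_zero.1 h1 with h3 | h3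
  · rw [ha, h3, zero_smul]
  · exact absurd h3 (hH.one_ne_zero X)

/-- An algebraically trivial cycle in the kernel of the Abel-Jacobi map lies in `F^2`. -/
lemma two_of_algTrivial {F : Filtration C} (hF : IsBBCorr H F) {T : AbelJacobi H}
    (hT : T.HasCurveProjectors) {i : ℕ} {z : C.A X} (hz : AlgTrivial C i z) (hz' : T.Ker i z) :
    F.Mem i 2 z := by
  rcases hz with rfl | ⟨B, c, Γ, hB, hc, hd, hΓ, rfl⟩
  · exact Submodule.zero_mem _
  obtain ⟨e, he, hec, hkill⟩ := hT B X i c Γ hB hc hd hΓ hz'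
  have h1 : C.act (C.comp e Γ) c = C.act Γ c := by rw [C.act_comp, hec]
  rw [← h1]
  have h2 : C.comp e Γ ∈ C.gr (B.prod X) i := by
    have h5 : Γ ∈ C.gr (B.prod X) (B.dim + ((i : ℤ) - B.dim)) := by
      have e1 : (B.dim : ℤ) + ((i : ℤ) - B.dim) = i := by ring
      rw [e1]; exact hΓ
    have h6 : e ∈ C.gr (B.prod B) (B.dim + 0) := by
      rw [add_zero, hB]; exact_mod_cast he
    have h8 := comp_mem C h6 h5
    have e3 : (B.dim : ℤ) + (0 + ((i : ℤ) - B.dim)) = i := by ring
    rwa [e3] at h8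
  refine hF.shift B X 1 i i _ h2 (by rw [hB, add_comm]) 1 ?_ c ?_
  · have e4 : (2 * (1 : ℕ) - (1 : ℕ) : ℤ) = 1 := by norm_num
    rw [e4]
    exact hkill
  · refine (hF.one B 1 c).2 ⟨by exact_mod_cast hc, ?_⟩
    apply cl_zero_of_degree (H := H) _ hd
    rw [hB]
    exact_mod_cast hc

/-- **The kernel of the Abel-Jacobi map has to be checked only modulo algebraic equivalence.** -/
theorem isBBAJ_alg_tfae (hK : KunnethConjecture H) {T : AbelJacobi H} (hT : T.IsFunctorial)
    (hT' : T.HasCurveProjectors) :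
    List.TFAE [∃ F : Filtration C, IsBBAJ T F,
      ∃ F : Filtration C, IsBBCorr H F ∧ KerInAlgAddTwo T F,
      (∀ (X : 𝒱.Obj) (i : ℕ), NilpotentOnHom H X i) ∧ KerInAlgAddImage T] := by
  have hexist : (∀ (X : 𝒱.Obj) (i : ℕ), NilpotentOnHom H X i) →
      ∀ X : 𝒱.Obj, ∃ π : ℕ → C.A (X.prod X), IsCK H X π :=
    fun h X => exists_CK_of_cond hK (h _ _)
  tfae_have 1 → 2 := by
    rintro ⟨F, hF⟩
    refine ⟨F, hF.corr, fun X i z hz => ⟨0, z, Or.inl rfl, (hF.two X i z).2 hz, ?_⟩⟩
    rw [zero_add]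
  tfae_have 2 → 3 := by
    rintro ⟨F, hF, h⟩
    have hN : ∀ (X : 𝒱.Obj) (i : ℕ), NilpotentOnHom H X i := nilpotentOnHom_of_BBCorr hF
    refine ⟨hN, fun X i z hz => ?_⟩
    obtain ⟨a, b, ha, hb, rfl⟩ := h X i z hz
    obtain ⟨π, hπ⟩ := hexist hN X
    have hb' := (mem_iff_of_BBCorr hF hπ i 2 b).1 hb
    rw [hπ.mem_ckFil] at hb'
    have hb1 : b ∈ homTriv H X i := (hF.one X i b).1 (F.anti X i 1 hb)
    refine ⟨a, b, ∑ j ∈ Finset.range (2 * i - 1), π j, ha, hb1,
      Submodule.sum_mem _ fun j _ => hπ.deg j, ?_, ?_⟩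
    · intro y hy
      have h5 : H.cl (∑ j ∈ Finset.range (2 * i - 1), π j) =
          ∑ j ∈ Finset.range (2 * i - 1), H.cl (π j) := map_sum _ _ _
      have h6 : ∀ s : Finset ℕ, H.act (∑ j ∈ s, H.cl (π j)) y =
          ∑ j ∈ s, H.act (H.cl (π j)) y := by
        intro s
        induction s using Finset.induction_on with
        | empty => rw [Finset.sum_empty, Finset.sum_empty, TheoryData.act_zero]
        | insert j s hj ih =>
          rw [Finset.sum_insert hj, Finset.sum_insert hj, TheoryData.act_add, ih]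
      rw [h5, h6]
      apply Finset.sum_eq_zero
      intro j hj
      rw [Finset.mem_range] at hj
      exact hπ.act_ne j _ y (by omega) hy
    · congr 1
      have h3 : b = C.act (∑ j ∈ Finset.range (2 * X.dim + 1 + (2 * i - 1)), π j) b := by
        rw [hπ.sum_of_le (by omega), act_dg]
      conv_lhs => rw [h3]
      rw [act_sum, act_sum]
      symm
      apply Finset.sum_subset
      · intro j hj
        rw [Finset.mem_range] at *
        omega
      · intro j _ hj
        rw [Finset.mem_range] at hj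
        exact hb'.2 j (by omega)
  tfae_have 3 → 1 := by
    rintro ⟨hN, h⟩
    choose π hπ using hexist hN
    have hD : ∀ X : 𝒱.Obj, MurreD H X := fun X => murreD_of_cond (hN X)
    have hF := isBBCorr_ck π hπ hD (fun X => murreB1_of_cond (hN X))
    refine ⟨ckFiltration C H π hπ, hF, fun X i z => ?_⟩
    have h2 : ∀ x : C.A X, (ckFiltration C H π hπ).Mem i 2 x → T.Ker i x :=
      fun x hx => ker_of_two hT (hD X) (hπ X) hx
    refine ⟨h2 z, fun hz => ?_⟩
    obtain ⟨a, b, γ, ha, hb, hγ, hkill, rfl⟩ := h X i z hz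
    have h3 : (ckFiltration C H π hπ).Mem i 2 (C.act γ b) := by
      refine hF.shift X X i i X.dim γ hγ rfl 1 ?_ b ((hF.one X i b).2 hb)
      have e1 : (2 * i - (1 : ℕ) : ℤ) = 2 * i - 1 := by norm_num
      rw [e1]
      exact hkill
    have h4 : T.Ker i a := by
      obtain ⟨h5, h6⟩ := hz
      obtain ⟨h7, h8⟩ := h2 _ h3
      have h9 : a ∈ homTriv H X i := by
        have := Submodule.sub_mem _ h5 h7
        rwa [add_sub_cancel_right] at this
      refine ⟨h9, ?_⟩
      rw [hT.add X i a h9 _ h7, h8, add_zero] at h6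
      exact h6
    exact Submodule.add_mem _ (two_of_algTrivial hF hT' ha h4) h3
  tfae_finish

end Pool.Agent.TH133
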