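import Pool.Agent.TH133.Hyper

/-!
# Algebraic equivalence and the filtrations attached to Chow-Kunneth decompositions
-/

open CategoryTheory AlgebraicGeometry

universe u v w

namespace Pool.Agent.TH133

open Pool.Agent.H914 Pool.Agent.H914.VarClass Pool.Agent.H914.VarClass.Obj Pool.Agent.W492.BB
  Pool.Agent.W550.Corr

set_option linter.unusedSectionVars false

variable {k : Type u} [Field k] {𝒱 : VarClass k}

variable {C : TheoryData.{u, v, 0} 𝒱 ℚ} [hC : IsChowProj C] {K : Type w} [Field K]
  {H : WeilTheoryData.{u, v, w} C K} [hH : IsWeilProj H] {X Y Z W P : 𝒱.Obj}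

include hC

lemma hasDegree_of_ne {x : C.A X} {i : ℤ} (hx : x ∈ C.gr X i) (hi : i ≠ X.dim) :
    HasDegree C x 0 := by
  intro Y
  rcases lt_or_gt_of_ne hi with h | h
  · have h2 := C.push_mem (snd X Y) (C.pull_mem (fst X Y) hx)
    rw [C.gr_neg Y _ (by rw [dim_prod]; push_cast; omega)] at h2
    have h3 := C.push_mem (fst Y X) (C.pull_mem (snd Y X) hx)
    rw [C.gr_neg Y _ (by rw [dim_prod]; push_cast; omega)] at h3
    rw [(Submodule.mem_bot _).1 h2, (Submodule.mem_bot _).1 h3, zero_smul]
    exact ⟨rfl, rfl⟩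
  · rw [hC.gr_top X i _ hx h, map_zero, map_zero, map_zero, map_zero, zero_smul]
    exact ⟨rfl, rfl⟩

lemma act_tens_ext' (Γ : C.A (X.prod X)) (Δ : C.A (Z.prod Z)) (a : C.A X) (b : C.A Z) :
    C.act (tens C Γ Δ) (C.ext a b) = C.ext (C.act Γ a) (C.act Δ b) :=
  act_tens_ext C Γ Δ (fun _ _ => ch_comm C _ _) a b

include hH

omit hH in
/-- A zero-cycle of degree one. -/
lemma exists_hasDegree_one (H : WeilTheoryData.{u, v, w} C K) [hH : IsWeilProj H] (X : 𝒱.Obj) :
    ∃ e ∈ C.gr X X.dim, HasDegree C e 1 := by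
  obtain ⟨u, hu, v, hv, huv⟩ := exists_dual_pair (C := C) (H := H) X (l := X.dim) le_rfl
  have hvu : v * u ∈ C.gr X X.dim := by
    have := C.mul_mem hv hu
    rwa [sub_self, zero_add] at this
  obtain ⟨q, hq⟩ := exists_hasDegree hvu
  refine ⟨v * u, hvu, ?_⟩
  have h1 := (hq X).1
  rw [huv] at h1
  have h2 : q = 1 := by
    by_contra hne
    have h5 : (q - 1) • (1 : C.A X) = 0 := by rw [sub_smul, ← h1, one_smul, sub_self]
    have h3 : (1 : C.A X) = 0 := by
      rw [← one_smul ℚ (1 : C.A X), ← inv_mul_cancel₀ (sub_ne_zero.2 hne), mul_smul, h5,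
        smul_zero]
    have h4 : (1 : H.A X) = 0 := by rw [← map_one H.cl, h3, map_zero]
    exact hH.one_ne_zero X h4
  rwa [h2] at hq

/-- The top cohomology is spanned by the class of a zero-cycle of degree one. -/
lemma top_eq {e : C.A X} (he : e ∈ C.gr X X.dim) (hd : HasDegree C e 1) {y : H.A X}
    (hy : y ∈ H.gr X (2 * X.dim)) : ∃ c : K, y = c • H.cl e := by
  have h0 : ∀ z ∈ H.gr X (2 * X.dim), H.tr X z = 0 → z = 0 := by
    intro z hz hz0
    apply H.nondeg
    have h1 : H.tr X ∘ₗ LinearMap.mulLeft K z = 0 := by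
      apply ext_gr H
      intro j b hb
      rw [LinearMap.comp_apply, LinearMap.mulLeft_apply, LinearMap.zero_apply]
      by_cases hj : j = 0
      · subst hj
        obtain ⟨c, rfl⟩ := hH.gr_zero X b hb
        rw [mul_smul_comm, mul_one, map_smul, hz0, smul_zero]
      · exact tr_zero H (H.mul_mem hz hb) (by omega)
    intro b
    exact LinearMap.congr_fun h1 b
  have h1 : H.tr X (H.cl e) ≠ 0 := by
    intro h
    have h2 := h0 _ (H.cl_mem he) h
    have h3 := hasDegree_unique H hd (hasDegree_zero_of_cl H he h2)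
    exact one_ne_zero h3
  refine ⟨H.tr X y / H.tr X (H.cl e), ?_⟩
  rw [← sub_eq_zero]
  apply h0
  · exact Submodule.sub_mem _ hy (Submodule.smul_mem _ _ (H.cl_mem he))
  · rw [map_sub, map_smul, smul_eq_mul, div_mul_cancel₀ _ h1, sub_self]

omit hH in
/-- Curves have Chow-Kunneth decompositions, for which zero-cycles of degree zero have weight
one. -/
theorem exists_CK_curve (H : WeilTheoryData.{u, v, w} C K) [hH : IsWeilProj H] (T : 𝒱.Obj)
    (hT : T.dim = 1) : ∃ τ : ℕ → C.A (T.prod T), IsCK H T τ ∧ ∀ c : C.A T, c ∈ C.gr T 1 →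
      HasDegree C c 0 → ∀ j, C.act (τ j) c = if j = 1 then c else 0 := by
  obtain ⟨e, he, hd⟩ := exists_hasDegree_one (C := C) H T
  have he1 : e ∈ C.gr T 1 := by rw [hT] at he; exact_mod_cast he
  let R0 : Cor C T := C.ext e 1
  let R2 : Cor C T := C.ext 1 e
  have m0 : R0 ∈ cor0 C T := by
    have := ext_mem' he1 (C.one_mem T)
    rw [mem_cor0, hT]
    exact_mod_cast this
  have m2 : R2 ∈ cor0 C T := by
    have := ext_mem' (C.one_mem T) he1
    rw [mem_cor0, hT]
    exact_mod_cast this
  have h00 : R0 * R0 = R0 := by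
    have : C.comp (C.ext e (1 : C.A T)) (C.ext e (1 : C.A T)) = (1 : ℚ) • C.ext e (1 : C.A T) :=
      comp_ext_ext (by rwa [one_mul])
    rw [one_smul] at this
    exact this
  have h22 : R2 * R2 = R2 := by
    have : C.comp (C.ext (1 : C.A T) e) (C.ext (1 : C.A T) e) = (1 : ℚ) • C.ext (1 : C.A T) e :=
      comp_ext_ext (by rwa [mul_one])
    rw [one_smul] at this
    exact this
  have h20 : R2 * R0 = 0 := by
    have : C.comp (C.ext e (1 : C.A T)) (C.ext (1 : C.A T) e) = (0 : ℚ) • C.ext e e :=
      comp_ext_ext (by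
        rw [mul_one]
        exact hasDegree_of_ne (C.one_mem T) (by rw [hT]; norm_num))
    rw [zero_smul] at this
    exact this
  have h02 : R0 * R2 = 0 := by
    have : C.comp (C.ext (1 : C.A T) e) (C.ext e (1 : C.A T)) =
        (0 : ℚ) • C.ext (1 : C.A T) (1 : C.A T) :=
      comp_ext_ext (hasDegree_of_ne (C.mul_mem he1 he1) (by rw [hT]; norm_num))
    rw [zero_smul] at this
    exact this
  have a0 : ∀ (m : ℤ) (y : H.A T), y ∈ H.gr T m → actH C T H R0 y = if m = 0 then y else 0 := by
    intro m y hy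
    split_ifs with hm
    · subst hm
      obtain ⟨c, rfl⟩ := hH.gr_zero T y hy
      have h1 : C.act (C.ext e (1 : C.A T)) 1 = (1 : ℚ) • (1 : C.A T) :=
        act_ext' (by rwa [mul_one])
      have h2 := congrArg H.cl h1
      rw [cl_act H, one_smul, map_one] at h2
      rw [map_smul, actH_apply, h2]
    · exact act_ext_ne (r := 0) (C.one_mem T) (by rw [hT]; simpa using he1) (by simpa using hm) hy
  have a2 : ∀ (m : ℤ) (y : H.A T), y ∈ H.gr T m → actH C T H R2 y = if m = 2 then y else 0 := by
    intro m y hy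
    split_ifs with hm
    · subst hm
      obtain ⟨c, rfl⟩ := top_eq he hd (y := y) (by rw [hT]; exact_mod_cast hy)
      have h1 : C.act (C.ext (1 : C.A T) e) e = (1 : ℚ) • e := act_ext' (by rwa [one_mul])
      have h2 := congrArg H.cl h1
      rw [cl_act H, one_smul] at h2
      rw [map_smul, actH_apply, h2]
    · exact act_ext_ne (r := 1) (by exact_mod_cast he1) (by rw [hT]; simpa using C.one_mem T)
        (by simpa using hm) hy
  let τ : ℕ → Cor C T := fun n => if n = 0 then R0 else if n = 1 then 1 - R0 - R2 else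
    if n = 2 then R2 else 0
  have t0 : τ 0 = R0 := rfl
  have t1 : τ 1 = 1 - R0 - R2 := rfl
  have t2 : τ 2 = R2 := rfl
  have t3 : ∀ n, τ (n + 3) = 0 := fun n => rfl
  have hτ : IsCK H T τ := by
    apply isCK_of
    · intro n
      rcases n with _ | _ | _ | n
      · exact m0
      · exact (cor0 C T).sub_mem ((cor0 C T).sub_mem (cor0 C T).one_mem m0) m2
      · exact m2
      · exact (cor0 C T).zero_mem
    · intro n hn
      rw [hT] at hn
      rcases n with _ | _ | _ | n
      · omega
      · omega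
      · omega
      · rfl
    · have e1 : R0 * (1 - R0 - R2) = 0 := by
        rw [mul_sub, mul_sub, mul_one, h00, h02, sub_self, sub_zero]
      have e2 : (1 - R0 - R2) * R0 = 0 := by
        rw [sub_mul, sub_mul, one_mul, h00, h20, sub_self, sub_zero]
      have e3 : R2 * (1 - R0 - R2) = 0 := by
        rw [mul_sub, mul_sub, mul_one, h22, h20, sub_zero, sub_self]
      have e4 : (1 - R0 - R2) * R2 = 0 := by
        rw [sub_mul, sub_mul, one_mul, h22, h02, sub_zero, sub_self]
      have e5 : (1 - R0 - R2) * (1 - R0 - R2) = 1 - R0 - R2 := by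
        rw [mul_sub, mul_sub, mul_one, e2, e4, sub_zero, sub_zero]
      intro i j
      rcases i with _ | _ | _ | i
      · rcases j with _ | _ | _ | j
        · exact h00
        · exact e1
        · exact h02
        · exact mul_zero _
      · rcases j with _ | _ | _ | j
        · exact e2
        · exact e5
        · exact e4
        · exact mul_zero _
      · rcases j with _ | _ | _ | j
        · exact h20
        · exact e3
        · exact h22
        · exact mul_zero _
      · rw [t3, zero_mul]
        split_ifs <;> rfl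
    · rw [hT]
      rw [Finset.sum_range_succ, Finset.sum_range_succ, Finset.sum_range_one, t0, t1, t2]
      abel
    · intro i m a ha
      have hm : a ≠ 0 → 0 ≤ m ∧ m ≤ 2 := by
        intro ha0
        refine ⟨nonneg_of_mem H ha ha0, ?_⟩
        by_contra hcon
        rw [gr_top H (by rw [hT]; push_cast; omega)] at ha
        exact ha0 ((Submodule.mem_bot _).1 ha)
      by_cases ha0 : a = 0
      · subst ha0
        rw [map_zero]
        split_ifs <;> rfl
      have hm' := hm ha0
      rcases i with _ | _ | _ | i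
      · rw [t0, a0 m a ha]
        rfl
      · rw [t1, map_sub, map_sub, map_one, LinearMap.sub_apply, LinearMap.sub_apply,
          a0 m a ha, a2 m a ha]
        change a - _ - _ = _
        by_cases h1 : m = 1
        · subst h1
          simp
        · rw [if_neg (c := m = ((0 + 1 : ℕ) : ℤ)) (by simpa using h1)]
          by_cases h0 : m = 0
          · subst h0
            simp
          · have h2 : m = 2 := by omega
            subst h2
            simp
      · rw [t2, a2 m a ha]
        rfl
      · rw [t3, map_zero, LinearMap.zero_apply, if_neg]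
        push_cast
        omega
  refine ⟨τ, hτ, fun c hc hc0 j => ?_⟩
  have c0 : C.act (C.ext e (1 : C.A T)) c = 0 := by
    rw [act_ext' (q := 0), zero_smul]
    exact hasDegree_of_ne (C.mul_mem he1 hc) (by rw [hT]; norm_num)
  have c2 : C.act (C.ext (1 : C.A T) e) c = 0 := by
    rw [act_ext' (q := 0), zero_smul]
    rwa [one_mul]
  have c0' : actC C T R0 c = 0 := c0
  have c2' : actC C T R2 c = 0 := c2
  rcases j with _ | _ | _ | j
  · exact c0
  · have : actC C T (1 - R0 - R2) c = c := by
      rw [map_sub, map_sub, map_one, LinearMap.sub_apply, LinearMap.sub_apply, c0', c2', sub_zero,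
        sub_zero]
      rfl
    exact this
  · exact c2
  · exact C.act_zero c

/-- Under the first half of (B) for `Y × X`, correspondences from `Y` to `X` respect the
filtrations. -/
theorem act_mem_ckFil (hYX : MurreB0 H (Y.prod X)) {τ : ℕ → C.A (Y.prod Y)}
    {π : ℕ → C.A (X.prod X)} (hτ : IsCK H Y τ) (hπ : IsCK H X π) {g m n l : ℕ}
    {Γ : C.A (Y.prod X)} (hΓ : Γ ∈ C.gr (Y.prod X) g) {y : C.A Y} (hy : y ∈ ckFil C τ m n)
    (hl : l + Y.dim = m + g) : C.act Γ y ∈ ckFil C π l n := by
  rw [hτ.mem_ckFil] at hy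
  rw [hπ.mem_ckFil]
  constructor
  · have h1 : Γ ∈ C.gr (Y.prod X) (Y.dim + ((g : ℤ) - Y.dim)) := by
      rwa [add_sub_cancel]
    have h2 := act_mem' C h1 hy.1
    have e1 : (m : ℤ) + ((g : ℤ) - Y.dim) = l := by omega
    rwa [e1] at h2
  · intro b hb
    have h1 : y = ∑ j ∈ Finset.range (2 * Y.dim + 1), C.act (τ j) y := by
      rw [← act_sum, hτ.sum, act_dg]
    rw [h1, act_map_sum, act_map_sum]
    apply Finset.sum_eq_zero
    intro j _
    by_cases hj : 2 * m + 1 - n ≤ j
    · rw [hy.2 j hj, TheoryData.act_map_zero, TheoryData.act_map_zero]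
    · have h2 := comp_zero_of_B0 hYX hτ hπ (i := g) (j := j) (b := b) hΓ (by omega)
      rw [← C.act_comp (τ j) Γ, ← C.act_comp, h2, TheoryData.act_zero]

omit hH in
/-- Products of curves have decompositions for which the classes `c_1 × ⋯ × c_s` have weight
`s`. -/
theorem exists_CK_of_curveCycle (H : WeilTheoryData.{u, v, w} C K) [hH : IsWeilProj H] {s : ℕ}
    {Y : 𝒱.Obj} {y : C.A Y} (h : CurveCycle C s Y y) : Y.dim = s ∧ y ∈ C.gr Y s ∧
      ∃ τ : ℕ → C.A (Y.prod Y), IsCK H Y τ ∧ ∀ j, C.act (τ j) y = if j = s then y else 0 := by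
  induction h with
  | one T c hT hc hd =>
    obtain ⟨τ, hτ, h1⟩ := exists_CK_curve (C := C) H T hT
    exact ⟨hT, by exact_mod_cast hc, τ, hτ, h1 c hc hd⟩
  | cons s T Y c y hT hc hd hy ih =>
    obtain ⟨ihd, ihm, ρ, hρ, h2⟩ := ih
    obtain ⟨τ, hτ, h1⟩ := exists_CK_curve (C := C) H T hT
    refine ⟨by rw [dim_prod, hT, ihd, add_comm], ?_, prodCK C τ ρ, hτ.prod hρ, fun j => ?_⟩
    · have := ext_mem' hc ihm
      push_cast
      rwa [add_comm]
    · unfold prodCK
      rw [act_sum]
      simp_rw [act_tens_ext', h1 c hc hd, h2]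
      by_cases hj : j = s + 1
      · subst hj
        rw [if_pos rfl, Finset.sum_eq_single 1]
        · rw [if_pos rfl, if_pos (by omega)]
        · intro i _ hi
          rw [if_neg hi, TheoryData.ext_zero_left]
        · intro h
          exfalso; apply h; rw [Finset.mem_range]; omega
      · rw [if_neg hj]
        apply Finset.sum_eq_zero
        intro i hi
        rw [Finset.mem_range] at hi
        by_cases hi1 : i = 1
        · subst hi1
          rw [if_neg (c := j - 1 = s) (by omega), TheoryData.ext_zero_right]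
        · rw [if_neg hi1, TheoryData.ext_zero_left]

/-- **Under the independence of `F^0`, the `s`-th power of algebraic equivalence is contained in
`F^s`.** -/
theorem algPower_le (X : 𝒱.Obj) (hX : ∀ Y : 𝒱.Obj, MurreC0 H (Y.prod X))
    {π : ℕ → C.A (X.prod X)} (hπ : IsCK H X π) (s l : ℕ) : algPower C X s l ≤ ckFil C π l s := by
  unfold algPower
  rw [Submodule.span_le]
  rintro z ⟨Y, y, Γ, hy, hΓ, rfl⟩
  obtain ⟨hd, hm, τ, hτ, hact⟩ := exists_CK_of_curveCycle (C := C) H hy
  apply act_mem_ckFil (murreB0_of_C0 _ (hX Y)) hτ hπ hΓ (m := s) (n := s)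
  · rw [hτ.mem_ckFil]
    refine ⟨hm, fun j hj => ?_⟩
    rw [hact, if_neg (by omega)]
  · rw [hd, add_comm]

end Pool.Agent.TH133
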