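import Pool.Agent.W550.Corr.Basic

/-!
# External products of correspondences
-/

open CategoryTheory AlgebraicGeometry

universe u v w

namespace Pool.Agent.TH133

open Pool.Agent.H914 Pool.Agent.H914.VarClass Pool.Agent.H914.VarClass.Obj Pool.Agent.W492.BB
  Pool.Agent.W550.Corr

variable {k : Type u} [Field k] {𝒱 : VarClass k}

section maps

variable {X Y Z W X' Z' : 𝒱.Obj}

/-- The exchange of the two middle factors `(X × Z) × (Y × W) ⟶ (X × Y) × (Z × W)`. -/
noncomputable def mid (X Z Y W : 𝒱.Obj) :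
    (X.prod Z).prod (Y.prod W) ⟶ (X.prod Y).prod (Z.prod W) :=
  Obj.lift (prodMap (fst X Z) (fst Y W)) (prodMap (snd X Z) (snd Y W))

lemma mid_mid (X Z Y W : 𝒱.Obj) : mid X Z Y W ≫ mid X Y Z W = 𝟙 _ := by
  apply prod_ext
  · apply prod_ext <;> simp [mid, prodMap, comp_lift]
  · apply prod_ext <;> simp [mid, prodMap, comp_lift]

lemma lift_prodMap {V : 𝒱.Obj} (f : V ⟶ X) (g : V ⟶ Z) (f' : X ⟶ Y) (g' : Z ⟶ W) :
    Obj.lift f g ≫ prodMap f' g' = Obj.lift (f ≫ f') (g ≫ g') := by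
  apply prod_ext <;> simp

lemma prodMap_comp {X'' Z'' : 𝒱.Obj} (f : X ⟶ Y) (g : Z ⟶ W) (f' : Y ⟶ X'') (g' : W ⟶ Z'') :
    prodMap f g ≫ prodMap f' g' = prodMap (f ≫ f') (g ≫ g') := by
  apply prod_ext <;> simp

end maps

section theory

variable {F : Type w} [Field F] {δ : ℤ} (T : TheoryData.{u, v, w} 𝒱 F) [hT : IsTheory T δ]
  {X Y Z W X' Z' : 𝒱.Obj}

include hT

/-- External products are compatible with push-forwards. -/
lemma push_ext (f : X ⟶ Y) (g : Z ⟶ W) (a : T.A X) (b : T.A Z) :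
    T.push (prodMap f g) (T.ext a b) = T.ext (T.push f a) (T.push g b) := by
  have e1 : prodMap f g = prodMap f (𝟙 Z) ≫ prodMap (𝟙 Y) g := by
    rw [prodMap_comp, Category.comp_id, Category.id_comp]
  have h1 : T.push (prodMap f (𝟙 Z)) (T.ext a b) = T.ext (T.push f a) b := by
    rw [TheoryData.ext, TheoryData.ext, T.base_fst, ← T.proj_right, ← T.pull_comp, prodMap_snd,
      Category.comp_id]
  rw [e1, T.push_comp, h1, TheoryData.ext, TheoryData.ext, T.base_snd, ← T.proj_left,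
    ← T.pull_comp, prodMap_fst, Category.comp_id]

/-- External products are compatible with pull-backs. -/
lemma pull_ext (f : X ⟶ Y) (g : Z ⟶ W) (a : T.A Y) (b : T.A W) :
    T.pull (prodMap f g) (T.ext a b) = T.ext (T.pull f a) (T.pull g b) := by
  rw [TheoryData.ext, TheoryData.ext, map_mul, ← T.pull_comp, ← T.pull_comp, ← T.pull_comp,
    ← T.pull_comp, prodMap_fst, prodMap_snd]

omit hT in
/-- The external product of the correspondences `Γ` from `X` to `Y` and `Δ` from `Z` to `W`. -/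
noncomputable def tens (Γ : T.A (X.prod Y)) (Δ : T.A (Z.prod W)) :
    T.A ((X.prod Z).prod (Y.prod W)) :=
  T.pull (prodMap (fst X Z) (fst Y W)) Γ * T.pull (prodMap (snd X Z) (snd Y W)) Δ

lemma tens_eq (Γ : T.A (X.prod Y)) (Δ : T.A (Z.prod W)) :
    tens T Γ Δ = T.pull (mid X Z Y W) (T.ext Γ Δ) := by
  have e1 : mid X Z Y W ≫ fst (X.prod Y) (Z.prod W) = prodMap (fst X Z) (fst Y W) := lift_fst _ _
  have e2 : mid X Z Y W ≫ snd (X.prod Y) (Z.prod W) = prodMap (snd X Z) (snd Y W) := lift_snd _ _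
  rw [TheoryData.ext, map_mul, ← T.pull_comp, ← T.pull_comp, e1, e2, tens]

end theory

section comm

variable {F : Type w} [Field F] {δ : ℤ} (T : TheoryData.{u, v, w} 𝒱 F) [hT : IsTheory T δ]
  [hI : HasIso T] {X Y Z W X' Z' : 𝒱.Obj}

include hT hI

/-- Composition of external products. -/
lemma tens_comp (hc : ∀ {X : 𝒱.Obj} (a b : T.A X), a * b = b * a) (Γ : T.A (X.prod Y))
    (Δ : T.A (Z.prod W)) (Γ' : T.A (Y.prod X')) (Δ' : T.A (W.prod Z')) :
    T.comp (tens T Γ Δ) (tens T Γ' Δ') = tens T (T.comp Γ Γ') (T.comp Δ Δ') := by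
  -- the right hand side
  let κ : ((X.prod Z).prod (Y.prod W)).prod (X'.prod Z') ⟶
      ((X.prod Y).prod X').prod ((Z.prod W).prod Z') :=
    Obj.lift (prodMap (prodMap (fst X Z) (fst Y W)) (fst X' Z'))
      (prodMap (prodMap (snd X Z) (snd Y W)) (snd X' Z'))
  let κ' : ((X.prod Y).prod X').prod ((Z.prod W).prod Z') ⟶
      ((X.prod Z).prod (Y.prod W)).prod (X'.prod Z') :=
    Obj.lift (Obj.lift (prodMap (fst (X.prod Y) X' ≫ fst X Y) (fst (Z.prod W) Z' ≫ fst Z W))
      (prodMap (fst (X.prod Y) X' ≫ snd X Y) (fst (Z.prod W) Z' ≫ snd Z W)))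
      (prodMap (snd (X.prod Y) X') (snd (Z.prod W) Z'))
  have k1 : κ ≫ κ' = 𝟙 _ := by
    apply prod_ext
    · apply prod_ext
      · apply prod_ext <;> simp [κ, κ', prodMap, comp_lift]
      · apply prod_ext <;> simp [κ, κ', prodMap, comp_lift]
    · apply prod_ext <;> simp [κ, κ', prodMap, comp_lift]
  have k2 : κ' ≫ κ = 𝟙 _ := by
    apply prod_ext
    · apply prod_ext
      · apply prod_ext <;> simp [κ, κ', prodMap, comp_lift]
      · simp [κ, κ', prodMap, comp_lift]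
    · apply prod_ext
      · apply prod_ext <;> simp [κ, κ', prodMap, comp_lift]
      · simp [κ, κ', prodMap, comp_lift]
  have h1 : tens T (T.comp Γ Γ') (T.comp Δ Δ') =
      T.push (t13 (X.prod Z) (Y.prod W) (X'.prod Z'))
        (T.pull κ (T.ext (T.pull (t23 X Y X') Γ' * T.pull (fst (X.prod Y) X') Γ)
          (T.pull (t23 Z W Z') Δ' * T.pull (fst (Z.prod W) Z') Δ))) := by
    have e1 : t13 (X.prod Z) (Y.prod W) (X'.prod Z') =
        κ ≫ prodMap (t13 X Y X') (t13 Z W Z') ≫ mid X X' Z Z' := by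
      apply prod_ext
      · apply prod_ext <;> simp [κ, mid, t13, prodMap, comp_lift]
      · apply prod_ext <;> simp [κ, mid, t13, prodMap, comp_lift]
    rw [e1, ← push_model T κ κ' k1 k2, T.push_comp, push_ext T, tens_eq T,
      pull_iso T (mid X Z X' Z') (mid X X' Z Z') (mid_mid _ _ _ _) (mid_mid _ _ _ _)]
    rfl
  rw [h1, TheoryData.comp]
  congr 1
  rw [TheoryData.ext, map_mul, ← T.pull_comp, ← T.pull_comp, map_mul (T.pull (κ ≫ _)),
    map_mul (T.pull (κ ≫ _)), tens, tens, map_mul (T.pull (t23 _ _ _)),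
    map_mul (T.pull (fst _ _)), ← T.pull_comp, ← T.pull_comp, ← T.pull_comp, ← T.pull_comp,
    ← T.pull_comp, ← T.pull_comp, ← T.pull_comp, ← T.pull_comp]
  have e2 : t23 (X.prod Z) (Y.prod W) (X'.prod Z') ≫ prodMap (fst Y W) (fst X' Z') =
      (κ ≫ fst _ _) ≫ t23 X Y X' := by
    apply prod_ext <;> simp [κ, t23, prodMap, comp_lift]
  have e3 : t23 (X.prod Z) (Y.prod W) (X'.prod Z') ≫ prodMap (snd Y W) (snd X' Z') =
      (κ ≫ snd _ _) ≫ t23 Z W Z' := by
    apply prod_ext <;> simp [κ, t23, prodMap, comp_lift]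
  have e4 : fst ((X.prod Z).prod (Y.prod W)) (X'.prod Z') ≫ prodMap (fst X Z) (fst Y W) =
      (κ ≫ fst _ _) ≫ fst (X.prod Y) X' := by
    apply prod_ext <;> simp [κ, prodMap, comp_lift]
  have e5 : fst ((X.prod Z).prod (Y.prod W)) (X'.prod Z') ≫ prodMap (snd X Z) (snd Y W) =
      (κ ≫ snd _ _) ≫ fst (Z.prod W) Z' := by
    apply prod_ext <;> simp [κ, prodMap, comp_lift]
  rw [e2, e3, e4, e5]
  generalize T.pull _ Γ' = a
  generalize T.pull _ Δ' = b
  generalize T.pull _ Γ = c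
  generalize T.pull _ Δ = d
  rw [mul_assoc, mul_assoc, ← mul_assoc b c d, hc b c, mul_assoc]

/-- The external product of the diagonals is the diagonal. -/
lemma tens_dg (X Z : 𝒱.Obj) : tens T (dg T X) (dg T Z) = dg T (X.prod Z) := by
  have e0 : T.ext (X := X) (Y := Z) 1 1 = 1 := by rw [TheoryData.ext, map_one, map_one, one_mul]
  rw [tens_eq T, pull_iso T (mid X Z X Z) (mid X X Z Z) (mid_mid _ _ _ _) (mid_mid _ _ _ _), dg,
    dg, dg, TheoryData.graph, TheoryData.graph, TheoryData.graph, ← push_ext T, ← T.push_comp, e0]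
  congr 1
  have e1 : prodMap (Obj.lift (𝟙 X) (𝟙 X)) (Obj.lift (𝟙 Z) (𝟙 Z)) ≫ mid X X Z Z =
      Obj.lift (𝟙 (X.prod Z)) (𝟙 (X.prod Z)) := by
    apply prod_ext
    · apply prod_ext <;> simp [mid, prodMap, comp_lift]
    · apply prod_ext <;> simp [mid, prodMap, comp_lift]
  rw [e1]

end comm

end Pool.Agent.TH133
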