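import Pool.Agent.TH133.Defs
import Pool.Agent.TH133.Tens

/-!
# Transposition of correspondences, and the action of external products
-/

open CategoryTheory AlgebraicGeometry

universe u v w

namespace Pool.Agent.TH133

open Pool.Agent.H914 Pool.Agent.H914.VarClass Pool.Agent.H914.VarClass.Obj Pool.Agent.W492.BB
  Pool.Agent.W550.Corr

variable {k : Type u} [Field k] {𝒱 : VarClass k}

section defs

variable {F : Type w} [Field F] (T : TheoryData.{u, v, w} 𝒱 F) {X Y : 𝒱.Obj}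

lemma tp_add (Γ Δ : T.A (X.prod Y)) : tp T (Γ + Δ) = tp T Γ + tp T Δ := map_add _ _ _
lemma tp_sub (Γ Δ : T.A (X.prod Y)) : tp T (Γ - Δ) = tp T Γ - tp T Δ := map_sub _ _ _
lemma tp_smul (q : F) (Γ : T.A (X.prod Y)) : tp T (q • Γ) = q • tp T Γ := map_smul _ _ _
lemma tp_zero : tp T (0 : T.A (X.prod Y)) = 0 := map_zero _
lemma tp_sum {ι : Type*} (s : Finset ι) (Γ : ι → T.A (X.prod Y)) :
    tp T (∑ i ∈ s, Γ i) = ∑ i ∈ s, tp T (Γ i) := map_sum (T.pull (sw Y X)) Γ s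

end defs

section theory

variable {F : Type w} [Field F] {δ : ℤ} (T : TheoryData.{u, v, w} 𝒱 F) [hT : IsTheory T δ]
  {X Y Z W X' Z' : 𝒱.Obj}

include hT

lemma tp_tp (Γ : T.A (X.prod Y)) : tp T (tp T Γ) = Γ := by
  rw [tp, tp, ← T.pull_comp, sw_sw, T.pull_id]

variable [hI : HasIso T]

include hI

lemma tp_eq_push (Γ : T.A (X.prod Y)) : tp T Γ = T.push (sw X Y) Γ :=
  pull_iso T (sw Y X) (sw X Y) sw_sw sw_sw Γ

lemma tp_dg (X : 𝒱.Obj) : tp T (dg T X) = dg T X := by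
  rw [tp_eq_push, dg, TheoryData.graph, ← T.push_comp]
  congr 1
  have e1 : Obj.lift (𝟙 X) (𝟙 X) ≫ sw X X = Obj.lift (𝟙 X) (𝟙 X) := by
    apply prod_ext <;> simp [sw, comp_lift]
  rw [e1]

lemma tp_comp (hc : ∀ {X : 𝒱.Obj} (a b : T.A X), a * b = b * a) (Γ : T.A (X.prod Y))
    (Δ : T.A (Y.prod Z)) : tp T (T.comp Γ Δ) = T.comp (tp T Δ) (tp T Γ) := by
  let κ : (Z.prod Y).prod X ⟶ (X.prod Y).prod Z :=
    Obj.lift (Obj.lift (snd (Z.prod Y) X) (fst (Z.prod Y) X ≫ snd Z Y))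
      (fst (Z.prod Y) X ≫ fst Z Y)
  let κ' : (X.prod Y).prod Z ⟶ (Z.prod Y).prod X :=
    Obj.lift (Obj.lift (snd (X.prod Y) Z) (fst (X.prod Y) Z ≫ snd X Y))
      (fst (X.prod Y) Z ≫ fst X Y)
  have k1 : κ ≫ κ' = 𝟙 _ := by
    apply prod_ext
    · apply prod_ext <;> simp [κ, κ', comp_lift]
    · simp [κ, κ', comp_lift]
  have k2 : κ' ≫ κ = 𝟙 _ := by
    apply prod_ext
    · apply prod_ext <;> simp [κ, κ', comp_lift]
    · simp [κ, κ', comp_lift]
  have e1 : κ ≫ t13 X Y Z ≫ sw X Z = t13 Z Y X := by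
    apply prod_ext <;> simp [κ, sw, t13, prodMap, comp_lift]
  have e2 : κ ≫ t23 X Y Z = fst (Z.prod Y) X ≫ sw Z Y := by
    apply prod_ext <;> simp [κ, sw, t23, prodMap, comp_lift]
  have e3 : κ ≫ fst (X.prod Y) Z = t23 Z Y X ≫ sw Y X := by
    apply prod_ext <;> simp [κ, sw, t23, prodMap, comp_lift]
  rw [tp_eq_push, TheoryData.comp, ← T.push_comp, push_model T κ κ' k1 k2, e1, map_mul,
    ← T.pull_comp, ← T.pull_comp, e2, e3, TheoryData.comp, hc, T.pull_comp, T.pull_comp]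
  rfl

/-- The action of an external product on correspondences. -/
lemma act_tens (hc : ∀ {X : 𝒱.Obj} (a b : T.A X), a * b = b * a) (Γ : T.A (X.prod X'))
    (Δ : T.A (Z.prod Z')) (γ : T.A (X.prod Z)) :
    T.act (tens T Γ Δ) γ = T.comp (T.comp (tp T Γ) γ) Δ := by
  let κ : ((X'.prod X).prod Z).prod Z' ⟶ (X.prod Z).prod (X'.prod Z') :=
    Obj.lift (Obj.lift (fst ((X'.prod X).prod Z) Z' ≫ fst (X'.prod X) Z ≫ snd X' X)
      (fst ((X'.prod X).prod Z) Z' ≫ snd (X'.prod X) Z))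
      (Obj.lift (fst ((X'.prod X).prod Z) Z' ≫ fst (X'.prod X) Z ≫ fst X' X)
      (snd ((X'.prod X).prod Z) Z'))
  let κ' : (X.prod Z).prod (X'.prod Z') ⟶ ((X'.prod X).prod Z).prod Z' :=
    Obj.lift (Obj.lift (Obj.lift (snd (X.prod Z) (X'.prod Z') ≫ fst X' Z')
      (fst (X.prod Z) (X'.prod Z') ≫ fst X Z)) (fst (X.prod Z) (X'.prod Z') ≫ snd X Z))
      (snd (X.prod Z) (X'.prod Z') ≫ snd X' Z')
  have k1 : κ ≫ κ' = 𝟙 _ := by
    apply prod_ext
    · apply prod_ext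
      · apply prod_ext <;> simp [κ, κ', comp_lift]
      · simp [κ, κ', comp_lift]
    · simp [κ, κ', comp_lift]
  have k2 : κ' ≫ κ = 𝟙 _ := by
    apply prod_ext
    · apply prod_ext <;> simp [κ, κ', comp_lift]
    · apply prod_ext <;> simp [κ, κ', comp_lift]
  have e1 : κ ≫ snd (X.prod Z) (X'.prod Z') = prodMap (t13 X' X Z) (𝟙 Z') ≫ t13 X' Z Z' := by
    apply prod_ext <;> simp [κ, t13, prodMap, comp_lift]
  have e2 : κ ≫ prodMap (snd X Z) (snd X' Z') = prodMap (t13 X' X Z) (𝟙 Z') ≫ t23 X' Z Z' := by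
    apply prod_ext <;> simp [κ, t13, t23, prodMap, comp_lift]
  have e3 : κ ≫ prodMap (fst X Z) (fst X' Z') =
      fst ((X'.prod X).prod Z) Z' ≫ fst (X'.prod X) Z ≫ sw X' X := by
    apply prod_ext <;> simp [κ, sw, prodMap, comp_lift]
  have e4 : κ ≫ fst (X.prod Z) (X'.prod Z') = fst ((X'.prod X).prod Z) Z' ≫ t23 X' X Z := by
    apply prod_ext <;> simp [κ, t23, prodMap, comp_lift]
  rw [T.act_apply, push_model T κ κ' k1 k2, tens, map_mul (T.pull κ), map_mul (T.pull κ),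
    ← T.pull_comp, ← T.pull_comp,
    ← T.pull_comp, e1, e2, e3, e4, TheoryData.comp, TheoryData.comp, T.base_fst, ← T.proj_left,
    ← T.push_comp, ← T.pull_comp, map_mul (T.pull (fst ((X'.prod X).prod Z) Z')), ← T.pull_comp,
    ← T.pull_comp, tp, ← T.pull_comp]
  simp only [Category.assoc]
  generalize T.pull _ Γ = a
  generalize T.pull _ γ = b
  generalize T.pull _ Δ = c
  rw [hc a c, mul_assoc, hc a b]

/-- The action of external products on external products. -/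
lemma act_tens_ext (Γ : T.A (X.prod Y)) (Δ : T.A (Z.prod W))
    (hΔ : ∀ {V : 𝒱.Obj} (f : V ⟶ Z.prod W) (c : T.A V), T.pull f Δ * c = c * T.pull f Δ)
    (a : T.A X) (b : T.A Z) :
    T.act (tens T Γ Δ) (T.ext a b) = T.ext (T.act Γ a) (T.act Δ b) := by
  have e1 : mid X Y Z W ≫ snd (X.prod Z) (Y.prod W) = prodMap (snd X Y) (snd Z W) := lift_snd _ _
  have e2 : mid X Y Z W ≫ fst (X.prod Z) (Y.prod W) = prodMap (fst X Y) (fst Z W) := lift_fst _ _
  rw [T.act_apply, T.act_apply, T.act_apply, ← push_ext T,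
    push_model T (mid X Y Z W) (mid X Z Y W) (mid_mid _ _ _ _) (mid_mid _ _ _ _), e1, map_mul,
    ← T.pull_comp, e2, tens_eq, ← T.pull_comp, mid_mid, T.pull_id, pull_ext T]
  congr 1
  simp only [TheoryData.ext, map_mul]
  generalize T.pull _ Γ = x
  rw [mul_assoc, ← mul_assoc (T.pull (snd (X.prod Y) (Z.prod W)) Δ), hΔ]
  simp only [mul_assoc]

/-- The transpose in terms of the other projection. -/
lemma act_tp (Γ : T.A (X.prod Y)) (b : T.A Y) :
    T.act (tp T Γ) b = T.push (fst X Y) (Γ * T.pull (snd X Y) b) := by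
  rw [T.act_apply, push_model T (sw Y X) (sw X Y) sw_sw sw_sw (fst X Y),
    map_mul (T.pull (sw Y X)), ← T.pull_comp]
  have e1 : sw Y X ≫ fst X Y = snd Y X := lift_fst _ _
  have e2 : sw Y X ≫ snd X Y = fst Y X := lift_snd _ _
  rw [e1, e2]
  rfl

end theory

set_option linter.unusedSectionVars false

section weil

variable {C : TheoryData.{u, v, 0} 𝒱 ℚ} {K : Type w} [Field K]
  (H : WeilTheoryData.{u, v, w} C K) [hC : IsChow C] [hI : HasIso C] [hH : IsWeil H]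
  {X Y Z W : 𝒱.Obj}

instance : HasIso H.toTheoryData where
  push_one := by
    intro X Y f g h1 h2
    have h3 : C.push f 1 = 1 := hI.push_one f g h1 h2
    have h4 := H.cl_push f (1 : C.A X)
    rw [h3, map_one, map_one] at h4
    exact h4.symm

include hC hI hH

lemma cl_tens (Γ : C.A (X.prod Y)) (Δ : C.A (Z.prod W)) :
    H.cl (tens C Γ Δ) = tens H.toTheoryData (H.cl Γ) (H.cl Δ) := by
  rw [tens, tens, map_mul, H.cl_pull, H.cl_pull]

lemma cl_comp (Γ : C.A (X.prod Y)) (Δ : C.A (Y.prod Z)) :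
    H.cl (C.comp Γ Δ) = H.comp (H.cl Γ) (H.cl Δ) := by
  rw [TheoryData.comp, TheoryData.comp, H.cl_push, map_mul, H.cl_pull, H.cl_pull]

lemma cl_tp (Γ : C.A (X.prod Y)) : H.cl (tp C Γ) = tp H.toTheoryData (H.cl Γ) :=
  H.cl_pull _ _

lemma cl_dg (X : 𝒱.Obj) : H.cl (dg C X) = dg H.toTheoryData X := by
  rw [dg, dg, TheoryData.graph, TheoryData.graph, H.cl_push, map_one]

lemma actH_tens_ext (Γ : C.A (X.prod Y)) (Δ : C.A (Z.prod W)) (a : H.A X) (b : H.A Z) :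
    H.act (H.cl (tens C Γ Δ)) (H.ext a b) = H.ext (H.act (H.cl Γ) a) (H.act (H.cl Δ) b) := by
  rw [cl_tens]
  apply act_tens_ext
  intro V f c
  rw [← H.cl_pull, H.cl_central]

lemma actH_comp (Γ : C.A (X.prod Y)) (Δ : C.A (Y.prod Z)) (a : H.A X) :
    H.act (H.cl (C.comp Γ Δ)) a = H.act (H.cl Δ) (H.act (H.cl Γ) a) := by
  rw [cl_comp, H.act_comp]

lemma actH_dg (a : H.A X) : H.act (H.cl (dg C X)) a = a := by
  rw [cl_dg, act_dg]

/-- The transpose is the adjoint for the Poincare pairing. -/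
lemma tr_act (Γ : C.A (X.prod Y)) (a : H.A X) (b : H.A Y) :
    H.tr X (a * H.act (H.cl (tp C Γ)) b) = H.tr Y (H.act (H.cl Γ) a * b) := by
  rw [cl_tp, act_tp, ← H.proj_left, H.tr_push, TheoryData.act_apply, ← H.proj_right, H.tr_push,
    ← mul_assoc, ← H.cl_central]

lemma actH_zero (a : H.A X) : H.act (H.cl (0 : C.A (X.prod Y))) a = 0 := by
  rw [map_zero, TheoryData.act_zero]

end weil

end Pool.Agent.TH133
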