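import Pool.Agent.TH133.Defs
import Pool.Agent.TH133.Dual

/-!
# The ring of self-correspondences; dual and product of Chow-Kunneth decompositions
-/

open CategoryTheory AlgebraicGeometry

universe u v w

namespace Pool.Agent.TH133

open Pool.Agent.H914 Pool.Agent.H914.VarClass Pool.Agent.H914.VarClass.Obj Pool.Agent.W492.BB
  Pool.Agent.W550.Corr

set_option linter.unusedSectionVars false

variable {k : Type u} [Field k] {𝒱 : VarClass k}

section degrees

variable (C : TheoryData.{u, v, 0} 𝒱 ℚ) [hC : IsChowProj C] {X Y Z W : 𝒱.Obj}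

include hC

lemma ch_comm {X : 𝒱.Obj} (a b : C.A X) : a * b = b * a := chow_mul_comm a b

lemma comp_mem {e e' : ℤ} {Γ : C.A (X.prod Y)} {Δ : C.A (Y.prod Z)}
    (hΓ : Γ ∈ C.gr (X.prod Y) (X.dim + e)) (hΔ : Δ ∈ C.gr (Y.prod Z) (Y.dim + e')) :
    C.comp Γ Δ ∈ C.gr (X.prod Z) (X.dim + (e + e')) := by
  have h := C.push_mem (t13 X Y Z) (C.mul_mem (C.pull_mem (t23 X Y Z) hΔ)
    (C.pull_mem (fst (X.prod Y) Z) hΓ))
  have e1 : (Y.dim : ℤ) + e' + ((X.dim : ℤ) + e) +
      1 * (((X.prod Z).dim : ℤ) - (((X.prod Y).prod Z).dim : ℤ)) = X.dim + (e + e') := by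
    rw [dim_prod, dim_prod, dim_prod]; push_cast; ring
  rwa [e1] at h

lemma comp_mem0 {Γ : C.A (X.prod X)} {Δ : C.A (X.prod X)}
    (hΓ : Γ ∈ C.gr (X.prod X) X.dim) (hΔ : Δ ∈ C.gr (X.prod X) X.dim) :
    C.comp Γ Δ ∈ C.gr (X.prod X) X.dim := by
  have := comp_mem C (e := 0) (e' := 0) (Γ := Γ) (Δ := Δ) (by rwa [add_zero]) (by rwa [add_zero])
  rwa [add_zero, add_zero] at this

lemma dg_mem (X : 𝒱.Obj) : dg C X ∈ C.gr (X.prod X) X.dim := by
  have h := C.push_mem (Obj.lift (𝟙 X) (𝟙 X)) (C.one_mem X)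
  have e1 : (0 : ℤ) + 1 * (((X.prod X).dim : ℤ) - (X.dim : ℤ)) = X.dim := by
    rw [dim_prod]; push_cast; ring
  rwa [e1] at h

lemma tp_mem {e : ℤ} {Γ : C.A (X.prod Y)} (hΓ : Γ ∈ C.gr (X.prod Y) e) :
    tp C Γ ∈ C.gr (Y.prod X) e := C.pull_mem _ hΓ

lemma tens_mem {e e' : ℤ} {Γ : C.A (X.prod Y)} {Δ : C.A (Z.prod W)}
    (hΓ : Γ ∈ C.gr (X.prod Y) e) (hΔ : Δ ∈ C.gr (Z.prod W) e') :
    tens C Γ Δ ∈ C.gr ((X.prod Z).prod (Y.prod W)) (e + e') :=
  C.mul_mem (C.pull_mem _ hΓ) (C.pull_mem _ hΔ)

lemma act_mem' {e i : ℤ} {Γ : C.A (X.prod Y)} (hΓ : Γ ∈ C.gr (X.prod Y) (X.dim + e)) {x : C.A X}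
    (hx : x ∈ C.gr X i) : C.act Γ x ∈ C.gr Y (i + e) := by
  rw [TheoryData.act_apply]
  have h := C.push_mem (snd X Y) (C.mul_mem hΓ (C.pull_mem (fst X Y) hx))
  have e1 : (X.dim : ℤ) + e + i + 1 * ((Y.dim : ℤ) - ((X.prod Y).dim : ℤ)) = i + e := by
    rw [dim_prod]; push_cast; ring
  rwa [e1] at h

lemma act_mem0 {i : ℤ} {Γ : C.A (X.prod X)} (hΓ : Γ ∈ C.gr (X.prod X) X.dim) {x : C.A X}
    (hx : x ∈ C.gr X i) : C.act Γ x ∈ C.gr X i := by
  have := act_mem' C (e := 0) (by rwa [add_zero]) hx
  rwa [add_zero] at this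

end degrees

lemma sum_sum_range {M : Type*} [AddCommMonoid M] (f : ℕ → ℕ → M) (N : ℕ) :
    ∑ n ∈ Finset.range N, ∑ i ∈ Finset.range (n + 1), f i (n - i) =
      ∑ i ∈ Finset.range N, ∑ j ∈ Finset.range (N - i), f i j := by
  rw [Finset.sum_sigma', Finset.sum_sigma']
  refine Finset.sum_nbij' (fun p => ⟨p.2, p.1 - p.2⟩) (fun p => ⟨p.1 + p.2, p.1⟩) ?_ ?_ ?_ ?_ ?_
  · rintro ⟨n, i⟩ h
    simp only [Finset.mem_sigma, Finset.mem_range] at *
    omega
  · rintro ⟨n, i⟩ h
    simp only [Finset.mem_sigma, Finset.mem_range] at *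
    omega
  · rintro ⟨n, i⟩ h
    simp only [Finset.mem_sigma, Finset.mem_range] at h
    have : i + (n - i) = n := by omega
    simp only [this]
  · rintro ⟨n, i⟩ h
    have : n + i - n = i := by omega
    simp only [this]
  · rintro ⟨n, i⟩ h
    rfl

section tens

variable {C : TheoryData.{u, v, 0} 𝒱 ℚ} [hC : IsChowProj C] {X Y Z W : 𝒱.Obj}

include hC

lemma tens_comp' (Γ : C.A (X.prod X)) (Γ' : C.A (X.prod X)) (Δ : C.A (Z.prod Z))
    (Δ' : C.A (Z.prod Z)) : C.comp (tens C Γ Δ) (tens C Γ' Δ') =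
      tens C (C.comp Γ Γ') (C.comp Δ Δ') := tens_comp C (ch_comm C) _ _ _ _

lemma tens_zero_left (Δ : C.A (Z.prod W)) : tens C (0 : C.A (X.prod Y)) Δ = 0 := by
  rw [tens, map_zero, zero_mul]

lemma tens_zero_right (Γ : C.A (X.prod Y)) : tens C Γ (0 : C.A (Z.prod W)) = 0 := by
  rw [tens, map_zero, mul_zero]

/-- The external product as a bilinear map. -/
noncomputable def tensL : C.A (X.prod Y) →ₗ[ℚ] C.A (Z.prod W) →ₗ[ℚ]
    C.A ((X.prod Z).prod (Y.prod W)) :=
  LinearMap.mk₂ ℚ (tens C)
    (fun a b c => by rw [tens, map_add, add_mul]; rfl)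
    (fun q a c => by rw [tens, map_smul, smul_mul_assoc]; rfl)
    (fun a b c => by rw [tens, map_add, mul_add]; rfl)
    (fun q a c => by rw [tens, map_smul, mul_smul_comm]; rfl)

lemma tensL_apply (Γ : C.A (X.prod Y)) (Δ : C.A (Z.prod W)) : tensL Γ Δ = tens C Γ Δ := rfl


end tens

/-! ### The ring of correspondences -/

/-- The self-correspondences of `X`. -/
def Cor (C : TheoryData.{u, v, 0} 𝒱 ℚ) (X : 𝒱.Obj) : Type v := C.A (X.prod X)

noncomputable instance (C : TheoryData.{u, v, 0} 𝒱 ℚ) (X : 𝒱.Obj) : AddCommGroup (Cor C X) :=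
  inferInstanceAs (AddCommGroup (C.A (X.prod X)))

noncomputable instance (C : TheoryData.{u, v, 0} 𝒱 ℚ) (X : 𝒱.Obj) : Module ℚ (Cor C X) :=
  inferInstanceAs (Module ℚ (C.A (X.prod X)))

section ring

variable (C : TheoryData.{u, v, 0} 𝒱 ℚ) [hC : IsChowProj C] (X : 𝒱.Obj)

/-- The ring of self-correspondences, with the composition of operators as product. -/
noncomputable instance : Ring (Cor C X) :=
  { (inferInstance : AddCommGroup (Cor C X)) with
    mul := fun a b => C.comp (X := X) (Y := X) (Z := X) b a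
    one := dg C X
    mul_assoc := fun a b c =>
      (comp_assoc C (X := X) (Y := X) (Z := X) (W := X) c b a).symm
    one_mul := fun a => comp_dg C (X := X) (Y := X) a
    mul_one := fun a => dg_comp C (X := X) (Y := X) a
    left_distrib := fun a b c => add_comp C (X := X) (Y := X) (Z := X) b c a
    right_distrib := fun a b c => comp_add C (X := X) (Y := X) (Z := X) c a b
    zero_mul := fun a => comp_zero C (X := X) (Y := X) (Z := X) a
    mul_zero := fun a => zero_comp C (X := X) (Y := X) (Z := X) a }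

variable {C X}

lemma cor_mul (a b : Cor C X) : a * b = C.comp (X := X) (Y := X) (Z := X) b a := rfl
lemma cor_one : (1 : Cor C X) = dg C X := rfl

noncomputable instance : Algebra ℚ (Cor C X) :=
  Algebra.ofModule (fun q a b => by
      rw [cor_mul, cor_mul]
      exact map_smul (compL C (X := X) (Y := X) (Z := X) b) q a)
    (fun q a b => by
      rw [cor_mul, cor_mul]
      have := LinearMap.map_smul₂ (compL C (X := X) (Y := X) (Z := X)) q b a
      exact this)

variable (C X)

/-- The ring of self-correspondences of degree zero. -/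
noncomputable def cor0 : Subalgebra ℚ (Cor C X) where
  carrier := {a | (a : C.A (X.prod X)) ∈ C.gr (X.prod X) X.dim}
  mul_mem' {a b} ha hb := comp_mem0 C hb ha
  add_mem' {a b} ha hb := Submodule.add_mem (C.gr (X.prod X) X.dim) ha hb
  algebraMap_mem' q := by
    change (algebraMap ℚ (Cor C X) q : C.A (X.prod X)) ∈ C.gr (X.prod X) X.dim
    rw [Algebra.algebraMap_eq_smul_one]
    exact Submodule.smul_mem (C.gr (X.prod X) X.dim) q (dg_mem C X)

variable {C X}

lemma mem_cor0 {a : Cor C X} : a ∈ cor0 C X ↔ (a : C.A (X.prod X)) ∈ C.gr (X.prod X) X.dim :=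
  Iff.rfl

variable (C X)

/-- The action on the Chow groups. -/
noncomputable def actC : Cor C X →+* Module.End ℚ (C.A X) where
  toFun a := C.actL (X := X) (Y := X) a
  map_one' := LinearMap.ext fun x => act_dg C x
  map_mul' a b := LinearMap.ext fun x => C.act_comp (X := X) (Y := X) (Z := X) b a x
  map_zero' := LinearMap.ext fun x => C.act_zero x
  map_add' a b := LinearMap.ext fun x => C.act_add (X := X) (Y := X) a b x

lemma actC_apply (a : Cor C X) (x : C.A X) : actC C X a x = C.act (X := X) (Y := X) a x := rfl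

variable {K : Type w} [Field K] (H : WeilTheoryData.{u, v, w} C K) [hH : IsWeilProj H]

/-- The action on the cohomology. -/
noncomputable def actH : Cor C X →+* Module.End K (H.A X) where
  toFun a := H.actL (X := X) (Y := X) (H.cl (X := X.prod X) a)
  map_one' := LinearMap.ext fun x => actH_dg H x
  map_mul' a b := LinearMap.ext fun x => actH_comp H (X := X) (Y := X) (Z := X) b a x
  map_zero' := LinearMap.ext fun x => actH_zero H (X := X) (Y := X) x
  map_add' a b := LinearMap.ext fun x => by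
    have h1 := H.act_add (X := X) (Y := X) (H.cl (X := X.prod X) a) (H.cl (X := X.prod X) b) x
    have h2 : H.cl (X := X.prod X) ((a : C.A (X.prod X)) + (b : C.A (X.prod X))) =
      H.cl (X := X.prod X) a + H.cl (X := X.prod X) b := map_add _ _ _
    rw [← h2] at h1
    exact h1

lemma actH_apply (a : Cor C X) (x : H.A X) :
    actH C X H a x = H.act (X := X) (Y := X) (H.cl (X := X.prod X) a) x := rfl

end ring

section weil

variable {C : TheoryData.{u, v, 0} 𝒱 ℚ} [hC : IsChowProj C] {K : Type w} [Field K]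
  (H : WeilTheoryData.{u, v, w} C K) [hH : IsWeilProj H] {X Y Z W : 𝒱.Obj}

include hC hH

lemma span_gr (X : 𝒱.Obj) (a : H.A X) : a ∈ ⨆ i, H.gr X i := by
  rw [(H.isInternal X).submodule_iSup_eq_top]; trivial

/-- Linear maps agreeing on homogeneous classes agree. -/
lemma ext_gr {V : Type*} [AddCommGroup V] [Module K V] (f g : H.A X →ₗ[K] V)
    (h : ∀ i, ∀ a ∈ H.gr X i, f a = g a) : f = g := by
  apply LinearMap.ext
  intro a
  have h1 : ⨆ i, H.gr X i ≤ LinearMap.eqLocus f g := iSup_le fun i x hx => h i x hx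
  exact h1 (span_gr H X a)

lemma nonneg_of_mem {X : 𝒱.Obj} {i : ℤ} {a : H.A X} (ha : a ∈ H.gr X i) (h : a ≠ 0) : 0 ≤ i := by
  by_contra h'
  rw [H.gr_neg X i (by omega)] at ha
  exact h ((Submodule.mem_bot _).1 ha)

lemma tr_zero {X : 𝒱.Obj} {i : ℤ} {a : H.A X} (ha : a ∈ H.gr X i) (hi : i ≠ 2 * X.dim) :
    H.tr X a = 0 := hH.tr_eq_zero X i a ha hi

lemma gr_top {X : 𝒱.Obj} {i : ℤ} (hi : 2 * X.dim < i) : H.gr X i = ⊥ := by
  rw [eq_bot_iff]
  intro a ha
  rw [Submodule.mem_bot]
  apply H.nondeg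
  have h0 : (H.tr X ∘ₗ LinearMap.mulLeft K a) = 0 := by
    apply ext_gr H
    intro j b hb
    rw [LinearMap.comp_apply, LinearMap.mulLeft_apply, LinearMap.zero_apply]
    by_cases hb0 : b = 0
    · rw [hb0, mul_zero, map_zero]
    · have := nonneg_of_mem H hb hb0
      exact tr_zero H (H.mul_mem ha hb) (by omega)
  intro b
  exact LinearMap.congr_fun h0 b

/-- The transpose is the adjoint for the Poincare pairing (second form). -/
lemma tr_act' (Γ : C.A (X.prod Y)) (a : H.A X) (b : H.A Y) :
    H.tr X (H.act (H.cl (tp C Γ)) b * a) = H.tr Y (b * H.act (H.cl Γ) a) := by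
  rw [cl_tp, act_tp, ← H.proj_right, H.tr_push, TheoryData.act_apply, ← H.proj_left, H.tr_push,
    ← mul_assoc, ← H.cl_central]

lemma hom_zero_of_act {Γ : C.A (X.prod Y)} (h : ∀ a : H.A X, H.act (H.cl Γ) a = 0) :
    H.cl Γ = 0 := eq_zero_of_act H _ h

end weil

section CK

variable {C : TheoryData.{u, v, 0} 𝒱 ℚ} [hC : IsChowProj C] {K : Type w} [Field K]
  {H : WeilTheoryData.{u, v, w} C K} [hH : IsWeilProj H] {X Y Z W : 𝒱.Obj}

include hC hH

/-- The dual of a Chow-Kunneth decomposition. -/
noncomputable def dualCK (C : TheoryData.{u, v, 0} 𝒱 ℚ) {X : 𝒱.Obj} (π : ℕ → C.A (X.prod X)) :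
    ℕ → C.A (X.prod X) :=
  fun i => if i ≤ 2 * X.dim then tp C (π (2 * X.dim - i)) else 0

lemma IsCK.actH_eq {π : ℕ → C.A (X.prod X)} (h : IsCK H X π) (i : ℕ) (m : ℤ) {a : H.A X}
    (ha : a ∈ H.gr X m) : H.act (H.cl (π i)) a = if m = i then a else 0 := by
  split_ifs with h1
  · subst h1
    exact h.act_self i a ha
  · exact h.act_ne i m a h1 ha

lemma IsCK.dual {π : ℕ → C.A (X.prod X)} (h : IsCK H X π) : IsCK H X (dualCK C π) where
  deg i := by
    unfold dualCK
    split_ifs
    · exact tp_mem C (h.deg _)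
    · exact Submodule.zero_mem _
  out i hi := by
    unfold dualCK
    rw [if_neg (by omega)]
  idem i := by
    unfold dualCK
    split_ifs
    · rw [← tp_comp C (ch_comm C), h.idem]
    · exact comp_zero C _
  orth i j hij := by
    unfold dualCK
    split_ifs with h1 h2
    · rw [← tp_comp C (ch_comm C), h.orth _ _ (by omega), tp_zero]
    · exact comp_zero C _
    · exact zero_comp C _
    · exact comp_zero C _
  sum := by
    have h1 : ∀ i ∈ Finset.range (2 * X.dim + 1), dualCK C π i =
        (fun j => tp C (π j)) (2 * X.dim + 1 - 1 - i) := by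
      intro i hi
      rw [Finset.mem_range] at hi
      unfold dualCK
      rw [if_pos (by omega)]
      rfl
    rw [Finset.sum_congr rfl h1, Finset.sum_range_reflect (fun j => tp C (π j)), ← tp_sum, h.sum,
      tp_dg]
  act_self i b hb := by
    by_cases hi : i ≤ 2 * X.dim
    · have h1 : dualCK C π i = tp C (π (2 * X.dim - i)) := if_pos hi
      rw [h1, ← sub_eq_zero]
      apply H.nondeg
      have h2 : H.tr X ∘ₗ LinearMap.mulLeft K (H.act (H.cl (tp C (π (2 * X.dim - i)))) b) =
          H.tr X ∘ₗ LinearMap.mulLeft K b := by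
        apply ext_gr H
        intro m a ha
        rw [LinearMap.comp_apply, LinearMap.comp_apply, LinearMap.mulLeft_apply,
          LinearMap.mulLeft_apply, tr_act' H, h.actH_eq _ _ ha]
        split_ifs with h3
        · rfl
        · rw [mul_zero, map_zero]
          exact (tr_zero H (H.mul_mem hb ha) (by omega)).symm
      intro a
      have h3 := LinearMap.congr_fun h2 a
      rw [LinearMap.comp_apply, LinearMap.comp_apply, LinearMap.mulLeft_apply,
        LinearMap.mulLeft_apply] at h3
      rw [sub_mul, map_sub, h3, sub_self]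
    · have hb' : b ∈ H.gr X i := hb
      rw [gr_top H (by omega)] at hb'
      rw [(Submodule.mem_bot _).1 hb', TheoryData.act_map_zero]
  act_ne i m b hm hb := by
    by_cases hi : i ≤ 2 * X.dim
    · have h1 : dualCK C π i = tp C (π (2 * X.dim - i)) := if_pos hi
      rw [h1]
      apply H.nondeg
      have h2 : H.tr X ∘ₗ LinearMap.mulLeft K (H.act (H.cl (tp C (π (2 * X.dim - i)))) b) = 0 := by
        apply ext_gr H
        intro n a ha
        rw [LinearMap.comp_apply, LinearMap.mulLeft_apply, tr_act' H, h.actH_eq _ _ ha,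
          LinearMap.zero_apply]
        split_ifs with h3
        · exact tr_zero H (H.mul_mem hb ha) (by omega)
        · rw [mul_zero, map_zero]
      exact fun a => LinearMap.congr_fun h2 a
    · have h1 : dualCK C π i = 0 := if_neg hi
      rw [h1]
      exact actH_zero H b

lemma dualCK_dualCK {π : ℕ → C.A (X.prod X)} (h : IsCK H X π) : dualCK C (dualCK C π) = π := by
  funext i
  unfold dualCK
  split_ifs with h1 h2
  · rw [tp_tp]
    congr 1
    omega
  · omega
  · exact (h.out i (by omega)).symm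

/-- The product of Chow-Kunneth decompositions. -/
noncomputable def prodCK (C : TheoryData.{u, v, 0} 𝒱 ℚ) {X Z : 𝒱.Obj} (π : ℕ → C.A (X.prod X))
    (ρ : ℕ → C.A (Z.prod Z)) : ℕ → C.A ((X.prod Z).prod (X.prod Z)) :=
  fun n => ∑ i ∈ Finset.range (n + 1), tens C (π i) (ρ (n - i))

lemma IsCK.comp_eq {π : ℕ → C.A (X.prod X)} (h : IsCK H X π) (i j : ℕ) :
    C.comp (π i) (π j) = if i = j then π i else 0 := by
  split_ifs with h1
  · subst h1
    exact h.idem i
  · exact h.orth i j h1

/-- The sum of all `π i` over any sufficiently large range is the diagonal. -/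
lemma IsCK.sum_of_le {π : ℕ → C.A (X.prod X)} (h : IsCK H X π) {N : ℕ} (hN : 2 * X.dim + 1 ≤ N) :
    ∑ i ∈ Finset.range N, π i = dg C X := by
  rw [← h.sum]
  symm
  apply Finset.sum_subset
  · intro i hi
    rw [Finset.mem_range] at *
    omega
  · intro i _ hi
    rw [Finset.mem_range] at hi
    exact h.out i (by omega)

lemma IsCK.prod {π : ℕ → C.A (X.prod X)} {ρ : ℕ → C.A (Z.prod Z)} (h : IsCK H X π)
    (h' : IsCK H Z ρ) : IsCK H (X.prod Z) (prodCK C π ρ) := by
  have hcomp : ∀ i j, C.comp (prodCK C π ρ i) (prodCK C π ρ j) =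
      if i = j then prodCK C π ρ i else 0 := by
    intro i j
    unfold prodCK
    rw [comp_sum]
    simp_rw [sum_comp, tens_comp', h.comp_eq, h'.comp_eq]
    split_ifs with hij
    · subst hij
      apply Finset.sum_congr rfl
      intro p hp
      rw [Finset.sum_eq_single p]
      · rw [if_pos rfl, if_pos rfl]
      · intro q hq hqp
        rw [if_neg hqp, tens_zero_left]
      · intro h1
        exact absurd hp h1
    · apply Finset.sum_eq_zero
      intro p hp
      apply Finset.sum_eq_zero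
      intro q hq
      rw [Finset.mem_range] at hp hq
      by_cases h1 : q = p
      · rw [if_pos h1, if_neg (by omega), tens_zero_right]
      · rw [if_neg h1, tens_zero_left]
  have hact : ∀ (n : ℕ) (m : ℤ), ∀ c ∈ H.gr (X.prod Z) m,
      H.act (H.cl (prodCK C π ρ n)) c = if m = n then c else 0 := by
    intro n m c hc
    have h1 := H.kunneth X Z m hc
    clear hc
    induction h1 using Submodule.span_induction with
    | mem x hx =>
      obtain ⟨l, a, b, ha, hb, rfl⟩ := hx
      by_cases ha0 : a = 0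
      · subst ha0
        rw [map_zero, zero_mul, TheoryData.act_map_zero]
        split_ifs <;> rfl
      by_cases hb0 : b = 0
      · subst hb0
        rw [map_zero, mul_zero, TheoryData.act_map_zero]
        split_ifs <;> rfl
      have hl := nonneg_of_mem H ha ha0
      have hl' := nonneg_of_mem H hb hb0
      obtain ⟨l, rfl⟩ := Int.eq_ofNat_of_zero_le hl
      obtain ⟨l', hl'⟩ := Int.eq_ofNat_of_zero_le hl'
      obtain rfl : m = l + l' := by omega
      have e0 : H.pull (fst X Z) a * H.pull (snd X Z) b = H.ext a b := rfl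
      rw [e0]
      unfold prodCK
      rw [map_sum, act_sum]
      simp_rw [actH_tens_ext]
      rw [add_sub_cancel_left] at hb
      simp_rw [h.actH_eq _ _ ha, h'.actH_eq _ _ hb]
      by_cases hn : (l + l' : ℤ) = n
      · rw [if_pos hn, Finset.sum_eq_single l]
        · rw [if_pos rfl, if_pos (by omega)]
        · intro q hq hq'
          rw [if_neg (by omega), TheoryData.ext_zero_left]
        · intro h1
          rw [Finset.mem_range] at h1
          omega
      · rw [if_neg hn]
        apply Finset.sum_eq_zero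
        intro q hq
        rw [Finset.mem_range] at hq
        by_cases h1 : (l : ℤ) = q
        · rw [if_pos h1, if_neg (by omega), TheoryData.ext_zero_right]
        · rw [if_neg h1, TheoryData.ext_zero_left]
    | zero =>
      rw [TheoryData.act_map_zero]
      split_ifs <;> rfl
    | add x y _ _ hx hy =>
      rw [act_map_add, hx, hy]
      split_ifs
      · rfl
      · exact add_zero 0
    | smul r x _ hx =>
      rw [act_map_smul, hx]
      split_ifs
      · rfl
      · exact smul_zero r
  have hmem : ∀ i, prodCK C π ρ i ∈ C.gr ((X.prod Z).prod (X.prod Z)) (X.prod Z).dim := by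
    intro i
    unfold prodCK
    apply Submodule.sum_mem
    intro p _
    have := tens_mem C (h.deg p) (h'.deg (i - p))
    rw [dim_prod]
    push_cast
    exact this
  refine ⟨hmem, ?_, fun i => ?_, fun i j hij => ?_, ?_, fun i a ha => ?_, fun i m a hm ha => ?_⟩
  · intro i hi
    rw [dim_prod] at hi
    unfold prodCK
    apply Finset.sum_eq_zero
    intro p hp
    rw [Finset.mem_range] at hp
    by_cases h1 : 2 * X.dim < p
    · rw [h.out _ h1, tens_zero_left]
    · rw [h'.out _ (by omega), tens_zero_right]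
  · rw [hcomp, if_pos rfl]
  · rw [hcomp, if_neg hij]
  · rw [← tens_dg C, ← h.sum_of_le (N := 2 * (X.prod Z).dim + 1) (by rw [dim_prod]; omega),
      ← h'.sum_of_le (N := 2 * (X.prod Z).dim + 1) (by rw [dim_prod]; omega)]
    unfold prodCK
    rw [sum_sum_range (fun i j => tens C (π i) (ρ j)), ← tensL_apply, map_sum tensL,
      LinearMap.sum_apply]
    apply Finset.sum_congr rfl
    intro i hi
    rw [map_sum]
    apply Finset.sum_subset
    · intro j hj
      rw [Finset.mem_range] at *
      omega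
    · intro j hj hj'
      rw [Finset.mem_range] at *
      rw [dim_prod] at *
      by_cases h1 : 2 * X.dim < i
      · rw [h.out _ h1, tens_zero_left]
      · rw [h'.out _ (by omega), tens_zero_right]
  · rw [hact _ _ _ ha, if_pos rfl]
  · rw [hact _ _ _ ha, if_neg hm]

end CK

end Pool.Agent.TH133
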