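import Pool.Agent.TH133.Defs

/-!
# Algebraic correspondences: definitions
-/

open CategoryTheory AlgebraicGeometry

universe u v w

namespace Pool.Agent.TH133

open Pool.Agent.H914 Pool.Agent.H914.VarClass Pool.Agent.H914.VarClass.Obj Pool.Agent.W492.BB
  Pool.Agent.W550.Corr

variable {k : Type u} [Field k] {𝒱 : VarClass k}

/-- The powers `γ ∘ ⋯ ∘ γ` of a self-correspondence. -/
noncomputable def corPow (C : TheoryData.{u, v, 0} 𝒱 ℚ) {X : 𝒱.Obj} (γ : C.A (X.prod X)) :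
    ℕ → C.A (X.prod X)
  | 0 => dg C X
  | n + 1 => C.comp (corPow C γ n) γ

/-- The self-correspondence `γ` is algebraic over `ℚ`: there are rational numbers `c_0, …, c_n`, not
all zero, with `c_0 Δ + c_1 γ + c_2 γ ∘ γ + ⋯ + c_n γ^n = 0`. -/
def IsAlgebraicCor (C : TheoryData.{u, v, 0} 𝒱 ℚ) {X : 𝒱.Obj} (γ : C.A (X.prod X)) : Prop :=
  ∃ (n : ℕ) (c : ℕ → ℚ), (∃ i ≤ n, c i ≠ 0) ∧
    ∑ i ∈ Finset.range (n + 1), c i • corPow C γ i = 0

/-- The Kunneth components of the diagonal of `X` are algebraic: for each `m` some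
self-correspondence of degree zero of `X` acts as the identity on `H^m(X)` and as zero on `H^l(X)`,
`l ≠ m`. -/
def HasKunneth {C : TheoryData.{u, v, 0} 𝒱 ℚ} {K : Type w} [Field K]
    (H : WeilTheoryData.{u, v, w} C K) (X : 𝒱.Obj) : Prop :=
  ∀ m : ℕ, ∃ π : C.A (X.prod X), C.Deg X.dim π ∧ ∀ (l : ℤ) (a : H.A X),
    H.Deg l a → H.act (H.cl π) a = if l = m then a else 0

end Pool.Agent.TH133
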