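import Mathlib.RingTheory.Algebraic.Basic
import Mathlib.Algebra.Polynomial.RingDivision
import Mathlib.RingTheory.PrincipalIdealDomain
import Mathlib.Tactic

/-!
# The exchange property for corners whose elements are algebraic
-/

namespace Pool.Agent.TH133

open Polynomial

section exchange

variable {F A : Type*} [Field F] [Ring A] [Algebra F A]

/-- Fitting's lemma for an algebraic element of a corner. -/
lemma exists_fitting {e x : A} (hex : e * x = x) (hxe : x * e = x)
    (he : e * e = e) (hx : IsAlgebraic F x) :
    ∃ g s t : A, g * g = g ∧ e * g = g ∧ g * e = g ∧ s * x = g ∧ g * s = s ∧ s * e = s ∧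
      e * s = s ∧ t * (e - x) = e - g ∧ (e - g) * t = t ∧ t * e = t := by
  obtain ⟨P, hP0, hP⟩ := hx
  obtain ⟨Q, hPQ, hQ⟩ := exists_eq_pow_rootMultiplicity_mul_and_not_dvd P hP0 0
  rw [map_zero, sub_zero] at hPQ hQ
  set a := P.rootMultiplicity 0 with ha
  have hcop : IsCoprime (X ^ (a + 1) : F[X]) Q :=
    (irreducible_X.coprime_iff_not_dvd.2 hQ).pow_left
  obtain ⟨U, V, hUV⟩ := hcop
  let φ : F[X] →ₐ[F] A := aeval x
  have hφX : φ X = x := aeval_X x
  have hφP : φ P = 0 := hP
  let u : A := φ (U * X ^ a)
  let g : A := φ (U * X ^ (a + 1))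
  have hgu : g = u * x := by
    change φ _ = φ _ * x
    rw [← hφX, ← map_mul, mul_assoc, ← pow_succ]
  have hgu' : g = x * u := by
    change φ _ = x * φ _
    rw [← hφX, ← map_mul, mul_left_comm, ← pow_succ']
  have hgg : g * g = g := by
    have h1 : U * X ^ (a + 1) * (U * X ^ (a + 1)) = U * X ^ (a + 1) - P * (U * V * X) := by
      have h2 : U * X ^ (a + 1) = 1 - V * Q := by rw [← hUV]; ring
      calc U * X ^ (a + 1) * (U * X ^ (a + 1)) = U * X ^ (a + 1) * (1 - V * Q) := by rw [← h2]
        _ = U * X ^ (a + 1) - (X ^ a * Q) * (U * V * X) := by ring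
        _ = _ := by rw [← hPQ]
    change φ _ * φ _ = φ _
    rw [← map_mul, h1, map_sub, map_mul φ P, hφP, zero_mul, sub_zero]
  have heg : e * g = g := by rw [hgu', ← mul_assoc, hex]
  have hge : g * e = g := by rw [hgu, mul_assoc, hxe]
  have hx0 : (e - g) * x ^ (a + 1) = 0 := by
    have h1 : e * x ^ (a + 1) = x ^ (a + 1) := by rw [pow_succ', ← mul_assoc, hex]
    have h2 : g * x ^ (a + 1) = x ^ (a + 1) := by
      have h3 : U * X ^ (a + 1) * X ^ (a + 1) = X ^ (a + 1) - P * (V * X) := by
        have h2 : U * X ^ (a + 1) = 1 - V * Q := by rw [← hUV]; ring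
        calc U * X ^ (a + 1) * X ^ (a + 1) = (1 - V * Q) * X ^ (a + 1) := by rw [← h2]
          _ = X ^ (a + 1) - (X ^ a * Q) * (V * X) := by ring
          _ = _ := by rw [← hPQ]
      have h4 : φ (X ^ (a + 1)) = x ^ (a + 1) := by rw [map_pow, hφX]
      rw [← h4]
      change φ _ * φ _ = φ _
      rw [← map_mul, h3, map_sub, map_mul φ P, hφP, zero_mul, sub_zero]
    rw [sub_mul, h1, h2, sub_self]
  have hee : (e - g) * (e - g) = e - g := by
    rw [mul_sub, sub_mul, sub_mul, he, hge, heg, hgg, sub_self, sub_zero]
  have hege : (e - g) * e = e - g := by rw [sub_mul, he, hge]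
  refine ⟨g, g * u * e, (e - g) * (∑ i ∈ Finset.range (a + 1), x ^ i) * e, hgg, heg, hge, ?_, ?_,
    ?_, ?_, ?_, ?_, ?_⟩
  · rw [mul_assoc, hex, mul_assoc, ← hgu, hgg]
  · rw [← mul_assoc, ← mul_assoc, hgg]
  · rw [mul_assoc, he]
  · rw [← mul_assoc, ← mul_assoc, heg]
  · have h1 : e * (e - x) = (1 - x) * e := by
      rw [mul_sub, he, hex, sub_mul, one_mul, hxe]
    rw [mul_assoc, h1, ← mul_assoc, mul_assoc (e - g), geom_sum_mul_neg, mul_sub, mul_one, hx0,
      sub_zero, hege]
  · rw [← mul_assoc, ← mul_assoc, hee]
  · rw [mul_assoc, he]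

/-- The exchange property for finitely many summands. -/
theorem exists_exchange (n : ℕ) : ∀ (e : A), e * e = e → (∀ a : A, IsAlgebraic F (e * a * e)) →
    ∀ x : ℕ → A, (∀ i < n, e * x i = x i) → (∀ i < n, x i * e = x i) →
      ∑ i ∈ Finset.range n, x i = e →
      ∃ g s : ℕ → A, (∀ i < n, s i * x i = g i) ∧ (∀ i < n, g i * s i = s i) ∧
        (∀ i < n, s i * e = s i) ∧ (∀ i < n, e * s i = s i) ∧
        (∀ i < n, ∀ j < n, g i * g j = if i = j then g i else 0) ∧
        ∑ i ∈ Finset.range n, g i = e := by
  induction n with
  | zero =>
    intro e _ _ x _ _ hs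
    exact ⟨fun _ => 0, fun _ => 0, by simp, by simp, by simp, by simp, by simp, by simpa using hs⟩
  | succ n ih =>
    intro e he halg x hex hxe hsum
    have hxa : IsAlgebraic F (x n) := by
      have := halg (x n)
      rwa [hex n (by omega), hxe n (by omega)] at this
    obtain ⟨g, s, t, hgg, heg, hge, hsx, hgs, hse, hes, htx, hgt, hte⟩ :=
      exists_fitting (hex n (by omega)) (hxe n (by omega)) he hxa
    set e' := e - g with he'
    have hee' : e' * e' = e' := by
      rw [he', mul_sub, sub_mul, sub_mul, he, hge, heg, hgg, sub_self, sub_zero]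
    have hee1 : e * e' = e' := by rw [he', mul_sub, he, heg]
    have hee2 : e' * e = e' := by rw [he', sub_mul, he, hge]
    have hsumn : ∑ i ∈ Finset.range n, x i = e - x n := by
      rw [← hsum, Finset.sum_range_succ, add_sub_cancel_right]
    obtain ⟨g', s', h1, h2, h3, h4, h5, h6⟩ := ih e' hee' (fun a => by
        have := halg (e' * a * e')
        have e1 : e * (e' * a * e') * e = e' * a * e' := by
          calc e * (e' * a * e') * e = (e * e') * a * (e' * e) := by simp only [mul_assoc]
            _ = _ := by rw [hee1, hee2]
        rwa [e1] at this) (fun i => t * x i * e') (fun i _ => by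
          rw [← mul_assoc, ← mul_assoc, hgt]) (fun i _ => by rw [mul_assoc, hee'])
        (by rw [← Finset.sum_mul, ← Finset.mul_sum, hsumn, htx, hee'])
    -- the idempotents `h i`
    have key : ∀ i < n, ∀ j < n, s' i * t * x i * s' j = if i = j then s' j else 0 := by
      intro i hi j hj
      calc s' i * t * x i * s' j = (s' i * (t * x i * e')) * s' j := by
            rw [← h4 j hj]
            simp only [mul_assoc]
            rw [h4 j hj, h4 j hj]
        _ = g' i * s' j := by rw [h1 i hi]
        _ = g' i * (g' j * s' j) := by rw [h2 j hj]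
        _ = _ := by
          rw [← mul_assoc, h5 i hi j hj]
          split_ifs with hij
          · subst hij
            exact h2 i hi
          · exact zero_mul _
    let h : A := ∑ i ∈ Finset.range n, s' i * t * x i
    have hhi : ∀ j < n, h * (s' j * t * x j) = s' j * t * x j := by
      intro j hj
      simp only [h]
      rw [Finset.sum_mul, Finset.sum_eq_single j]
      · rw [← mul_assoc, ← mul_assoc, key j hj j hj, if_pos rfl]
      · intro i hi hij
        rw [Finset.mem_range] at hi
        rw [← mul_assoc, ← mul_assoc, key i hi j hj, if_neg hij, zero_mul, zero_mul]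
      · intro hj'
        exact absurd (Finset.mem_range.2 hj) hj'
    have hih : ∀ j < n, (s' j * t * x j) * h = s' j * t * x j := by
      intro j hj
      simp only [h]
      rw [Finset.mul_sum, Finset.sum_eq_single j]
      · rw [← mul_assoc, ← mul_assoc, key j hj j hj, if_pos rfl]
      · intro i hi hij
        rw [Finset.mem_range] at hi
        rw [← mul_assoc, ← mul_assoc, key j hj i hi, if_neg (Ne.symm hij), zero_mul, zero_mul]
      · intro hj'
        exact absurd (Finset.mem_range.2 hj) hj'
    have hhh : h * h = h := by
      conv_lhs => rw [show h = ∑ i ∈ Finset.range n, s' i * t * x i from rfl]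
      rw [Finset.sum_mul]
      exact Finset.sum_congr rfl fun i hi => hih i (Finset.mem_range.1 hi)
    have heh : e * h = h := by
      simp only [h]
      rw [Finset.mul_sum]
      refine Finset.sum_congr rfl fun i hi => ?_
      rw [Finset.mem_range] at hi
      rw [← h4 i hi]
      simp only [← mul_assoc]
      rw [hee1]
    have hhe : h * e = h := by
      simp only [h]
      rw [Finset.sum_mul]
      refine Finset.sum_congr rfl fun i hi => ?_
      rw [Finset.mem_range] at hi
      rw [mul_assoc, hxe i (by omega)]
    have hhe' : h * e' = e' := by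
      simp only [h]
      rw [Finset.sum_mul]
      refine (Finset.sum_congr rfl fun i hi => ?_).trans h6
      rw [Finset.mem_range] at hi
      rw [← h1 i hi]
      simp only [mul_assoc]
    have hlast : (e - h) * s * x n = e - h := by
      rw [mul_assoc, hsx]
      have e1 : g = e - e' := by rw [he']; abel
      rw [e1, mul_sub, sub_mul, sub_mul, he, hee1, hhe, hhe']
      abel
    have hee3 : (e - h) * (e - h) = e - h := by
      rw [mul_sub, sub_mul, sub_mul, he, heh, hhe, hhh]
      abel
    refine ⟨fun i => if i < n then s' i * t * x i else e - h,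
      fun i => if i < n then s' i * t else (e - h) * s, ?_, ?_, ?_, ?_, ?_, ?_⟩
    · intro i hi
      by_cases hin : i < n
      · simp only [if_pos hin]
      · obtain rfl : i = n := by omega
        simp only [if_neg hin]
        exact hlast
    · intro i hi
      by_cases hin : i < n
      · simp only [if_pos hin]
        rw [← mul_assoc, key i hin i hin, if_pos rfl]
      · simp only [if_neg hin]
        rw [← mul_assoc, hee3]
    · intro i hi
      by_cases hin : i < n
      · simp only [if_pos hin]
        rw [mul_assoc, hte]
      · simp only [if_neg hin]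
        rw [mul_assoc, hse]
    · intro i hi
      by_cases hin : i < n
      · simp only [if_pos hin]
        rw [← h4 i hin, ← mul_assoc, ← mul_assoc, hee1, h4 i hin]
      · simp only [if_neg hin]
        rw [← mul_assoc, mul_sub, he, heh]
    · intro i hi j hj
      by_cases hin : i < n
      · by_cases hjn : j < n
        · simp only [if_pos hin, if_pos hjn]
          rw [← mul_assoc, ← mul_assoc, key i hin j hjn]
          split_ifs with hij
          · subst hij
            rfl
          · rw [zero_mul, zero_mul]
        · simp only [if_pos hin, if_neg hjn]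
          rw [mul_sub, hih i hin, mul_assoc, hxe i (by omega), sub_self, if_neg (by omega)]
      · by_cases hjn : j < n
        · simp only [if_neg hin, if_pos hjn]
          rw [sub_mul, hhi j hjn, if_neg (by omega)]
          have e1 : e * (s' j * t * x j) = s' j * t * x j := by
            rw [← mul_assoc, ← mul_assoc]
            have : e * s' j = s' j := by rw [← h4 j hjn, ← mul_assoc, hee1]
            rw [this]
          rw [e1, sub_self]
        · simp only [if_neg hin, if_neg hjn]
          rw [if_pos (by omega)]
          exact hee3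
    · rw [Finset.sum_range_succ, if_neg (lt_irrefl n)]
      rw [Finset.sum_congr rfl fun i hi => if_pos (Finset.mem_range.1 hi)]
      change h + (e - h) = e
      abel

/-- **Cancellation.** If `e` is an idempotent such that all elements of the corner `e A e` are
algebraic, then each decomposition of `1` into orthogonal idempotents `π i` induces a decomposition
of `1 - e` into orthogonal idempotents in `(1 - e) A π i A`. -/
theorem exists_cancel (n : ℕ) (e : A) (he : e * e = e) (halg : ∀ a : A, IsAlgebraic F (e * a * e))
    (π : ℕ → A) (hπ : ∀ i < n, ∀ j < n, π i * π j = if i = j then π i else 0)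
    (hsum : ∑ i ∈ Finset.range n, π i = 1) :
    ∃ m d : ℕ → A, (∀ i < n, m i = (1 - e) * π i * d i) ∧ (∀ i < n, (1 - e) * m i = m i) ∧
      (∀ i < n, m i * (1 - e) = m i) ∧
      (∀ i < n, ∀ j < n, m i * m j = if i = j then m i else 0) ∧
      ∑ i ∈ Finset.range n, m i = 1 - e := by
  obtain ⟨g, s, h1, h2, h3, h4, h5, h6⟩ := exists_exchange (F := F) n e he halg
    (fun i => e * π i * e) (fun i _ => by rw [← mul_assoc, ← mul_assoc, he])
    (fun i _ => by rw [mul_assoc, he]) (by
      rw [← Finset.sum_mul, ← Finset.mul_sum, hsum, mul_one, he])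
  have key : ∀ i < n, ∀ j < n, s i * π i * s j = if i = j then s j else 0 := by
    intro i hi j hj
    calc s i * π i * s j = (s i * e) * π i * (e * s j) := by rw [h3 i hi, h4 j hj]
      _ = s i * (e * π i * e) * s j := by simp only [mul_assoc]
      _ = g i * (g j * s j) := by rw [h1 i hi, h2 j hj]
      _ = _ := by
        rw [← mul_assoc, h5 i hi j hj]
        split_ifs with hij
        · subst hij
          exact h2 i hi
        · exact zero_mul _
  let q : A := ∑ i ∈ Finset.range n, s i * π i
  have heq : e * q = q := by
    simp only [q]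
    rw [Finset.mul_sum]
    refine Finset.sum_congr rfl fun i hi => ?_
    rw [← mul_assoc, h4 i (Finset.mem_range.1 hi)]
  have hqe : q * e = e := by
    simp only [q]
    rw [Finset.sum_mul]
    refine (Finset.sum_congr rfl fun i hi => ?_).trans h6
    rw [Finset.mem_range] at hi
    rw [← h1 i hi]
    simp only [← mul_assoc]
    rw [h3 i hi]
  have hqp : ∀ j < n, q * (π j - π j * s j * π j) = 0 := by
    intro j hj
    simp only [q]
    rw [Finset.sum_mul]
    apply Finset.sum_eq_zero
    intro i hi
    rw [Finset.mem_range] at hi
    by_cases hij : i = j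
    · subst hij
      have e1 : s i * π i * (π i - π i * s i * π i) = s i * (π i * π i) -
          s i * (π i * π i) * s i * π i := by rw [mul_sub]; simp only [mul_assoc]
      rw [e1, hπ i hi i hi, if_pos rfl, key i hi i hi, if_pos rfl, sub_self]
    · have e1 : s i * π i * (π j - π j * s j * π j) = s i * (π i * π j) -
          s i * (π i * π j) * s j * π j := by rw [mul_sub]; simp only [mul_assoc]
      rw [e1, hπ i hi j hj, if_neg hij, mul_zero, zero_mul, zero_mul, sub_self]
  have hqe' : (1 - q) * (1 - e) = 1 - q := by
    rw [mul_sub, mul_one, sub_mul, one_mul, hqe]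
    abel
  have hpp : ∀ i < n, ∀ j < n, (π i - π i * s i * π i) * (π j - π j * s j * π j) =
      if i = j then π i - π i * s i * π i else 0 := by
    intro i hi j hj
    by_cases hij : i = j
    · subst hij
      rw [if_pos rfl]
      have hpi : π i * π i = π i := by rw [hπ i hi i hi, if_pos rfl]
      have e0 : (π i - π i * s i * π i) * (π i - π i * s i * π i) =
          π i * π i - (π i * π i) * s i * π i - π i * s i * (π i * π i) +
            π i * (s i * (π i * π i) * s i) * π i := by
        rw [mul_sub, sub_mul, sub_mul]
        simp only [mul_assoc]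
        abel
      rw [e0, hpi, key i hi i hi, if_pos rfl]
      abel
    · rw [if_neg hij]
      have hpi : π i * π j = 0 := by rw [hπ i hi j hj, if_neg hij]
      have e0 : (π i - π i * s i * π i) * (π j - π j * s j * π j) =
          π i * π j - (π i * π j) * s j * π j - π i * s i * (π i * π j) +
            π i * s i * (π i * π j) * s j * π j := by
        rw [mul_sub, sub_mul, sub_mul]
        simp only [mul_assoc]
        abel
      rw [e0, hpi]
      simp
  let m : ℕ → A := fun i => (1 - e) * (π i - π i * s i * π i) * (1 - q)
  have hee : (1 - e) * (1 - e) = 1 - e := by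
    rw [mul_sub, mul_one, sub_mul, one_mul, he]
    abel
  refine ⟨m, fun i => (1 - s i * π i) * (1 - q), ?_, ?_, ?_, ?_, ?_⟩
  · intro i _
    simp only [m]
    have e1 : π i - π i * s i * π i = π i * (1 - s i * π i) := by
      rw [mul_sub, mul_one, ← mul_assoc]
    rw [e1]
    simp only [mul_assoc]
  · intro i _
    simp only [m]
    rw [← mul_assoc, ← mul_assoc, hee]
  · intro i _
    simp only [m]
    rw [mul_assoc, hqe']
  · intro i hi j hj
    have e1 : (1 - q) * (π j - π j * s j * π j) = π j - π j * s j * π j := by
      rw [sub_mul, one_mul, hqp j hj, sub_zero]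
    have e2 : m i * m j = (1 - e) * ((π i - π i * s i * π i) * (π j - π j * s j * π j)) *
        (1 - q) := by
      simp only [m]
      calc _ = (1 - e) * (π i - π i * s i * π i) * (((1 - q) * (1 - e)) *
            (π j - π j * s j * π j)) * (1 - q) := by simp only [mul_assoc]
        _ = _ := by rw [hqe', e1]; simp only [mul_assoc]
    rw [e2, hpp i hi j hj]
    split_ifs with hij
    · rfl
    · rw [mul_zero, zero_mul]
  · simp only [m]
    rw [← Finset.sum_mul, ← Finset.mul_sum, Finset.sum_sub_distrib, hsum]
    have e1 : (1 - ∑ i ∈ Finset.range n, π i * s i * π i) * (1 - q) = 1 - q := by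
      have e2 : (∑ i ∈ Finset.range n, π i * s i * π i) * q =
          ∑ i ∈ Finset.range n, π i * s i * π i := by
        rw [Finset.sum_mul]
        refine Finset.sum_congr rfl fun i hi => ?_
        rw [Finset.mem_range] at hi
        simp only [q]
        rw [Finset.mul_sum, Finset.sum_eq_single i]
        · have : π i * s i * π i * (s i * π i) = π i * (s i * π i * s i) * π i := by
            simp only [mul_assoc]
          rw [this, key i hi i hi, if_pos rfl]
        · intro j hj hij
          rw [Finset.mem_range] at hj
          have : π i * s i * π i * (s j * π j) = π i * (s i * π i * s j) * π j := by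
            simp only [mul_assoc]
          rw [this, key i hi j hj, if_neg (Ne.symm hij), mul_zero, zero_mul]
        · intro hi'
          exact absurd (Finset.mem_range.2 hi) hi'
      rw [mul_sub, mul_one, sub_mul, one_mul, e2]
      abel
    rw [mul_assoc, e1, mul_sub, mul_one, sub_mul, one_mul, heq]
    abel

end exchange

end Pool.Agent.TH133
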