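import Pool.Agent.TH133.Murre
import Pool.Agent.TH133.DefsCancel
import Pool.Agent.TH133.Exchange

/-!
# Cancellation for Chow-Kunneth decompositions
-/

open CategoryTheory AlgebraicGeometry

universe u v w

namespace Pool.Agent.TH133

open Pool.Agent.H914 Pool.Agent.H914.VarClass Pool.Agent.H914.VarClass.Obj Pool.Agent.W492.BB
  Pool.Agent.W550.Corr

set_option linter.unusedSectionVars false

variable {k : Type u} [Field k] {𝒱 : VarClass k} {C : TheoryData.{u, v, 0} 𝒱 ℚ}
  [hC : IsChowProj C] {K : Type w} [Field K]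
  {H : WeilTheoryData.{u, v, w} C K} [hH : IsWeilProj H] {X Y Z W : 𝒱.Obj}

section chow

include hC

lemma corPow_eq (γ : Cor C X) (n : ℕ) : corPow C γ n = (γ ^ n : Cor C X) := by
  induction n with
  | zero => rfl
  | succ n ih =>
    rw [pow_succ' γ n]
    change C.comp (corPow C γ n) γ = C.comp (γ ^ n : Cor C X) γ
    rw [ih]

lemma isAlgebraic_of_cor {γ : cor0 C X} (h : IsAlgebraicCor C (X := X) (γ : Cor C X)) :
    IsAlgebraic ℚ γ := by
  obtain ⟨n, c, ⟨i, hi, hci⟩, hs⟩ := h
  refine ⟨∑ i ∈ Finset.range (n + 1), Polynomial.monomial i (c i), ?_, ?_⟩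
  · intro h0
    have h1 := congrArg (fun p => Polynomial.coeff p i) h0
    simp only [Polynomial.finsetSum_coeff, Polynomial.coeff_monomial, Polynomial.coeff_zero] at h1
    rw [Finset.sum_ite_eq' (Finset.range (n + 1)) i c, if_pos (Finset.mem_range.2 (by omega))] at h1
    exact hci h1
  · apply Subtype.ext
    rw [map_sum]
    simp only [Polynomial.aeval_monomial]
    rw [AddSubmonoidClass.coe_finsetSum]
    have h2 : ∀ j ∈ Finset.range (n + 1),
        (((algebraMap ℚ (cor0 C X)) (c j) * γ ^ j : cor0 C X) : Cor C X) =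
        (c j • (γ : Cor C X) ^ j : Cor C X) := by
      intro j _
      rw [← Algebra.smul_def]
      rfl
    rw [Finset.sum_congr rfl h2]
    have h3 : ∀ j ∈ Finset.range (n + 1), (c j • (γ : Cor C X) ^ j : Cor C X) =
        (c j • corPow C (X := X) (γ : Cor C X) j : C.A (X.prod X)) := by
      intro j _
      rw [corPow_eq]
      rfl
    exact (Finset.sum_congr rfl h3).trans hs

/-- The map `a ↦ Ψ ∘ a ∘ Φ` from self-correspondences of `Y` to self-correspondences of `X`. -/
noncomputable def sand (Φ : C.A (X.prod Y)) (Ψ : C.A (Y.prod X)) (a : Cor C Y) : Cor C X :=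
  C.comp (C.comp (Z := Y) Φ a) Ψ

lemma sand_mem {r : ℤ} {Φ : C.A (X.prod Y)} {Ψ : C.A (Y.prod X)} (hΦ : Φ ∈ C.gr _ (X.dim + r))
    (hΨ : Ψ ∈ C.gr _ (Y.dim - r)) {a : Cor C Y} (ha : a ∈ cor0 C Y) :
    sand Φ Ψ a ∈ cor0 C X := by
  have h1 := comp_mem C (e := r) (e' := 0) hΦ (Z := Y) (Δ := a) (by
    rw [add_zero]
    exact ha)
  have h2 := comp_mem C (e := r + 0) (e' := -r) h1 (Δ := Ψ) (by rwa [← sub_eq_add_neg])
  have e1 : (X.dim : ℤ) + (r + 0 + -r) = X.dim := by ring
  rwa [e1] at h2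

lemma sand_mul (Φ : C.A (X.prod Y)) (Ψ : C.A (Y.prod X)) (E : Cor C Y) (hE : E = C.comp Ψ Φ)
    (a b : Cor C Y) : sand Φ Ψ a * sand Φ Ψ b = sand Φ Ψ (a * (E * b)) := by
  subst hE
  have h : ∀ a b : C.A (Y.prod Y), C.comp (C.comp (C.comp Φ b) Ψ) (C.comp (C.comp Φ a) Ψ) =
      C.comp (C.comp Φ (C.comp (C.comp b (C.comp Ψ Φ)) a)) Ψ := by
    intro a b
    simp only [comp_assoc]
  exact h a b

lemma sand_sum {ι : Type*} (s : Finset ι) (Φ : C.A (X.prod Y)) (Ψ : C.A (Y.prod X))
    (a : ι → Cor C Y) : sand Φ Ψ (∑ i ∈ s, a i) = ∑ i ∈ s, sand Φ Ψ (a i) := by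
  have h : ∀ a : ι → C.A (Y.prod Y), C.comp (C.comp Φ (∑ i ∈ s, a i)) Ψ =
      ∑ i ∈ s, C.comp (C.comp Φ (a i)) Ψ := by
    intro a
    rw [comp_sum, sum_comp]
  exact h a

lemma sand_zero (Φ : C.A (X.prod Y)) (Ψ : C.A (Y.prod X)) :
    sand Φ Ψ 0 = 0 := by
  have h : C.comp (C.comp Φ (0 : C.A (Y.prod Y))) Ψ = 0 := by rw [comp_zero, zero_comp]
  exact h

lemma sand_one {Φ : C.A (X.prod Y)} {Ψ : C.A (Y.prod X)} (h1 : C.comp Φ Ψ = dg C X)
    (E : Cor C Y) (hE : E = C.comp Ψ Φ) : sand Φ Ψ E = 1 := by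
  subst hE
  change C.comp (C.comp Φ (C.comp Ψ Φ)) Ψ = dg C X
  rw [← comp_assoc C Φ Ψ Φ, h1, dg_comp, h1]

end chow

include hC hH

lemma actH_sand (Φ : C.A (X.prod Y)) (Ψ : C.A (Y.prod X)) (a : Cor C Y) (x : H.A X) :
    actH C X H (sand Φ Ψ a) x = H.act (H.cl Ψ) (actH C Y H a (H.act (H.cl Φ) x)) := by
  have h : ∀ a : C.A (Y.prod Y), H.act (H.cl (C.comp (C.comp Φ a) Ψ)) x =
      H.act (H.cl Ψ) (H.act (H.cl a) (H.act (H.cl Φ) x)) := by
    intro a
    rw [actH_comp, actH_comp]
  exact h a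

/-- **Cancellation.** -/
theorem exists_CK_of_summand {r : ℕ} (hr : X.dim + r ≤ Y.dim) {Φ : C.A (X.prod Y)}
    {Ψ : C.A (Y.prod X)} (hΦ : C.Deg ((X.dim : ℤ) + r) Φ) (hΨ : C.Deg ((Y.dim : ℤ) - r) Ψ)
    (h1 : C.comp Φ Ψ = dg C X)
    (halg : ∀ γ : C.A (Y.prod Y), C.Deg Y.dim γ → IsAlgebraicCor C
      (C.comp (C.comp (dg C Y - C.comp Ψ Φ) γ) (dg C Y - C.comp Ψ Φ)))
    {π : ℕ → C.A (Y.prod Y)} (hπ : IsCK H Y π) : ∃ ρ : ℕ → C.A (X.prod X), IsCK H X ρ := by
  let E : Cor C Y := C.comp Ψ Φ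
  have hE : E ∈ cor0 C Y := by
    have h2 := comp_mem C (e := -r) (e' := r) (Γ := Ψ) (Δ := Φ) (by rwa [← sub_eq_add_neg]) hΦ
    have e1 : (Y.dim : ℤ) + (-r + r) = Y.dim := by ring
    rwa [e1] at h2
  have hEE : E * E = E := by
    change C.comp (C.comp Ψ Φ) (C.comp Ψ Φ) = C.comp Ψ Φ
    rw [comp_assoc, ← comp_assoc C Φ, h1, dg_comp]
  let e : cor0 C Y := ⟨1 - E, (cor0 C Y).sub_mem (cor0 C Y).one_mem hE⟩
  have he : e * e = e := by
    apply Subtype.ext
    change (1 - E) * (1 - E) = 1 - E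
    rw [mul_sub, mul_one, sub_mul, one_mul, hEE]
    abel
  let P : ℕ → cor0 C Y := fun i => ⟨π i, hπ.deg i⟩
  have hPc : ∀ i, ((P i : cor0 C Y) : Cor C Y) = π i := fun _ => rfl
  have hP' : IsCK H Y (fun i => (P i : Cor C Y)) := hπ
  have halg' : ∀ γ : C.A (Y.prod Y), C.Deg Y.dim γ → IsAlgebraicCor C
      (C.comp (dg C Y - C.comp Ψ Φ) (C.comp γ (dg C Y - C.comp Ψ Φ))) := by
    intro γ hγ
    have := halg γ hγ
    rwa [comp_assoc] at this
  obtain ⟨m, d, hm1, hm2, hm3, hm4, hm5⟩ := exists_cancel (F := ℚ) (2 * Y.dim + 1) e he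
    (fun a => isAlgebraic_of_cor (halg' (a : Cor C Y) a.2)) P
    (fun i _ j _ => by
      apply Subtype.ext
      have := hP'.mul_eq i j
      split_ifs with hij
      · rw [if_pos hij] at this
        exact this
      · rw [if_neg hij] at this
        exact this)
    (by
      apply Subtype.ext
      rw [AddSubmonoidClass.coe_finsetSum]
      exact hP'.sum_eq)
  have hsub : ((1 - e : cor0 C Y) : Cor C Y) = E := by
    change (1 : Cor C Y) - (1 - E) = E
    abel
  let M : ℕ → Cor C Y := fun i => m i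
  have hM0 : ∀ i, M i ∈ cor0 C Y := fun i => (m i).2
  have hM2 : ∀ i < 2 * Y.dim + 1, E * M i = M i := by
    intro i hi
    have := congrArg (fun x : cor0 C Y => (x : Cor C Y)) (hm2 i hi)
    rw [← hsub]
    exact this
  have hM4 : ∀ i < 2 * Y.dim + 1, ∀ j < 2 * Y.dim + 1, M i * M j = if i = j then M i else 0 := by
    intro i hi j hj
    have := congrArg (fun x : cor0 C Y => (x : Cor C Y)) (hm4 i hi j hj)
    split_ifs with hij
    · rw [if_pos hij] at this
      exact this
    · rw [if_neg hij] at this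
      exact this
  have hM5 : ∑ i ∈ Finset.range (2 * Y.dim + 1), M i = E := by
    rw [← hsub, ← hm5, AddSubmonoidClass.coe_finsetSum]
  -- the idempotents on `X`
  let p : ℕ → Cor C X := fun i => sand Φ Ψ (M i)
  have hp0 : ∀ i, p i ∈ cor0 C X := fun i => sand_mem hΦ hΨ (hM0 i)
  have hpp : ∀ i < 2 * Y.dim + 1, ∀ j < 2 * Y.dim + 1, p i * p j = if i = j then p i else 0 := by
    intro i hi j hj
    simp only [p]
    rw [sand_mul Φ Ψ E rfl, hM2 j hj, hM4 i hi j hj]
    split_ifs with hij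
    · rfl
    · exact sand_zero _ _
  have hps : ∑ i ∈ Finset.range (2 * Y.dim + 1), p i = 1 := by
    have h2 : ∑ i ∈ Finset.range (2 * Y.dim + 1), p i =
        sand Φ Ψ (∑ i ∈ Finset.range (2 * Y.dim + 1), M i) := (sand_sum _ _ _ _).symm
    rw [h2, hM5]
    exact sand_one h1 E rfl
  have hpact0 : ∀ i < 2 * Y.dim + 1, ∀ (l : ℤ) (a : H.A X), a ∈ H.gr X l → l + 2 * r ≠ i →
      actH C X H (p i) a = 0 := by
    intro i hi l a ha hl
    simp only [p]
    rw [actH_sand]
    have h2 : H.act (H.cl Φ) a ∈ H.gr Y (l + 2 * r) := actH_mem H hΦ ha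
    have h3 : actH C Y H (M i) (H.act (H.cl Φ) a) = 0 := by
      have h4 : M i = E * (P i : Cor C Y) * (d i : Cor C Y) := by
        have := congrArg (fun x : cor0 C Y => (x : Cor C Y)) (hm1 i hi)
        rw [← hsub]
        exact this
      rw [h4, map_mul, map_mul, Module.End.mul_apply, Module.End.mul_apply]
      have h5 : actH C Y H (P i : Cor C Y) (actH C Y H (d i : Cor C Y) (H.act (H.cl Φ) a)) = 0 :=
        hπ.act_ne i (l + 2 * r) _ hl (actH_mem0 (d i).2 h2)
      rw [h5, map_zero]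
    rw [h3, TheoryData.act_map_zero]
  have hpact1 : ∀ i < 2 * Y.dim + 1, ∀ (l : ℤ) (a : H.A X), a ∈ H.gr X l → l + 2 * r = i →
      actH C X H (p i) a = a := by
    intro i hi l a ha hl
    have h2 : actH C X H (∑ j ∈ Finset.range (2 * Y.dim + 1), p j) a = a := by
      rw [hps, map_one]
      rfl
    rw [map_sum, LinearMap.sum_apply, Finset.sum_eq_single i] at h2
    · exact h2
    · intro j hj hij
      rw [Finset.mem_range] at hj
      exact hpact0 j hj l a ha (by omega)
    · intro h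
      exact absurd (Finset.mem_range.2 hi) h
  let S : Cor C X := ∑ j ∈ Finset.Icc 1 (2 * X.dim), p (j + 2 * r)
  let ρ : ℕ → Cor C X := fun n => if n = 0 then 1 - S else if n ≤ 2 * X.dim then p (n + 2 * r) else 0
  have hρ0 : ρ 0 = 1 - S := if_pos rfl
  have hρ1 : ∀ n, n ≠ 0 → n ≤ 2 * X.dim → ρ n = p (n + 2 * r) := fun n h h' => by
    simp only [ρ]
    rw [if_neg h, if_pos h']
  have hρ2 : ∀ n, 2 * X.dim < n → ρ n = 0 := fun n h => by
    simp only [ρ]
    rw [if_neg (by omega), if_neg (by omega)]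
  have hpS : ∀ n, n ≠ 0 → n ≤ 2 * X.dim → p (n + 2 * r) * S = p (n + 2 * r) := by
    intro n hn hn'
    simp only [S]
    rw [Finset.mul_sum, Finset.sum_eq_single n]
    · rw [hpp _ (by omega) _ (by omega), if_pos rfl]
    · intro j hj hjn
      rw [Finset.mem_Icc] at hj
      rw [hpp _ (by omega) _ (by omega), if_neg (by omega)]
    · intro h
      exact absurd (Finset.mem_Icc.2 ⟨by omega, hn'⟩) h
  have hSp : ∀ n, n ≠ 0 → n ≤ 2 * X.dim → S * p (n + 2 * r) = p (n + 2 * r) := by
    intro n hn hn'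
    simp only [S]
    rw [Finset.sum_mul, Finset.sum_eq_single n]
    · rw [hpp _ (by omega) _ (by omega), if_pos rfl]
    · intro j hj hjn
      rw [Finset.mem_Icc] at hj
      rw [hpp _ (by omega) _ (by omega), if_neg (by omega)]
    · intro h
      exact absurd (Finset.mem_Icc.2 ⟨by omega, hn'⟩) h
  have hSS : S * S = S := by
    conv_lhs => rw [show S = ∑ j ∈ Finset.Icc 1 (2 * X.dim), p (j + 2 * r) from rfl]
    rw [Finset.sum_mul]
    refine Finset.sum_congr rfl fun j hj => ?_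
    rw [Finset.mem_Icc] at hj
    exact hpS j (by omega) hj.2
  have hS0 : S ∈ cor0 C X := (cor0 C X).sum_mem fun j _ => hp0 _
  refine ⟨ρ, isCK_of ?_ hρ2 ?_ ?_ ?_⟩
  · intro n
    by_cases hn : n = 0
    · rw [hn, hρ0]
      exact (cor0 C X).sub_mem (cor0 C X).one_mem hS0
    · by_cases hn' : n ≤ 2 * X.dim
      · rw [hρ1 n hn hn']
        exact hp0 _
      · rw [hρ2 n (by omega)]
        exact (cor0 C X).zero_mem
  · intro i j
    by_cases hi : i = 0
    · by_cases hj : j = 0
      · rw [hi, hj, if_pos rfl, hρ0, mul_sub, mul_one, sub_mul, one_mul, hSS]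
        abel
      · rw [hi, if_neg (Ne.symm hj), hρ0]
        by_cases hj' : j ≤ 2 * X.dim
        · rw [hρ1 j hj hj', sub_mul, one_mul, hSp j hj hj', sub_self]
        · rw [hρ2 j (by omega), mul_zero]
    · by_cases hi' : i ≤ 2 * X.dim
      · rw [hρ1 i hi hi']
        by_cases hj : j = 0
        · rw [hj, if_neg hi, hρ0, mul_sub, mul_one, hpS i hi hi', sub_self]
        · by_cases hj' : j ≤ 2 * X.dim
          · rw [hρ1 j hj hj', hpp _ (by omega) _ (by omega)]
            by_cases hij : i = j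
            · rw [if_pos hij, if_pos (by omega)]
            · rw [if_neg hij, if_neg (by omega)]
          · rw [hρ2 j (by omega), mul_zero, if_neg (by omega)]
      · rw [hρ2 i (by omega), zero_mul]
        split_ifs <;> rfl
  · have h2 : Finset.range (2 * X.dim + 1) = insert 0 (Finset.Icc 1 (2 * X.dim)) := by
      ext j
      simp only [Finset.mem_range, Finset.mem_insert, Finset.mem_Icc]
      omega
    rw [h2, Finset.sum_insert (by simp), hρ0]
    have h3 : ∑ j ∈ Finset.Icc 1 (2 * X.dim), ρ j = S := by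
      refine Finset.sum_congr rfl fun j hj => ?_
      rw [Finset.mem_Icc] at hj
      exact hρ1 j (by omega) hj.2
    rw [h3]
    abel
  · intro i l a ha
    by_cases ha0 : a = 0
    · subst ha0
      rw [map_zero]
      split_ifs <;> rfl
    have hl0 := nonneg_of_mem H ha ha0
    have hl1 : l ≤ 2 * X.dim := by
      by_contra hcon
      rw [gr_top H (by omega)] at ha
      exact ha0 ((Submodule.mem_bot _).1 ha)
    have hact : ∀ n, n ≠ 0 → n ≤ 2 * X.dim → actH C X H (p (n + 2 * r)) a =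
        if l = n then a else 0 := by
      intro n hn hn'
      split_ifs with hln
      · exact hpact1 _ (by omega) l a ha (by push_cast; omega)
      · exact hpact0 _ (by omega) l a ha (by push_cast; omega)
    by_cases hi : i = 0
    · rw [hi, hρ0, map_sub, map_one, LinearMap.sub_apply]
      have h2 : actH C X H S a = if l = 0 then 0 else a := by
        simp only [S]
        rw [map_sum, LinearMap.sum_apply]
        have h3 : ∀ j ∈ Finset.Icc 1 (2 * X.dim), actH C X H (p (j + 2 * r)) a =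
            if l = j then a else 0 := by
          intro j hj
          rw [Finset.mem_Icc] at hj
          exact hact j (by omega) hj.2
        rw [Finset.sum_congr rfl h3]
        obtain ⟨l', rfl⟩ := Int.eq_ofNat_of_zero_le hl0
        split_ifs with hl
        · apply Finset.sum_eq_zero
          intro j hj
          rw [Finset.mem_Icc] at hj
          rw [if_neg (by omega)]
        · rw [Finset.sum_eq_single l']
          · rw [if_pos rfl]
          · intro j _ hj
            rw [if_neg (by omega)]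
          · intro h
            rw [Finset.mem_Icc] at h
            omega
      rw [h2]
      by_cases hl : l = 0
      · rw [if_pos hl, sub_zero, if_pos (by simpa using hl)]
        rfl
      · rw [if_neg hl, if_neg (by simpa using hl)]
        change a - a = 0
        rw [sub_self]
    · by_cases hi' : i ≤ 2 * X.dim
      · rw [hρ1 i hi hi']
        exact hact i hi hi'
      · rw [hρ2 i (by omega), map_zero, LinearMap.zero_apply, if_neg (by omega)]

/-- The converse: a Chow-Kunneth decomposition of the big motive from one of the summand. -/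
theorem exists_CK_of_part {r : ℕ} (hr : X.dim + r ≤ Y.dim) {Φ : C.A (X.prod Y)}
    {Ψ : C.A (Y.prod X)} (hΦ : C.Deg ((X.dim : ℤ) + r) Φ) (hΨ : C.Deg ((Y.dim : ℤ) - r) Ψ)
    (h1 : C.comp Φ Ψ = dg C X)
    (halg : ∀ γ : C.A (Y.prod Y), C.Deg Y.dim γ → IsAlgebraicCor C
      (C.comp (C.comp (dg C Y - C.comp Ψ Φ) γ) (dg C Y - C.comp Ψ Φ)))
    (hK : HasKunneth H Y) {ρ : ℕ → C.A (X.prod X)} (hρ : IsCK H X ρ) :
    ∃ π : ℕ → C.A (Y.prod Y), IsCK H Y π := by
  let E : Cor C Y := C.comp Ψ Φ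
  have hE : E ∈ cor0 C Y := by
    have h2 := comp_mem C (e := -r) (e' := r) (Γ := Ψ) (Δ := Φ) (by rwa [← sub_eq_add_neg]) hΦ
    have e1 : (Y.dim : ℤ) + (-r + r) = Y.dim := by ring
    rwa [e1] at h2
  have hEE : E * E = E := by
    change C.comp (C.comp Ψ Φ) (C.comp Ψ Φ) = C.comp Ψ Φ
    rw [comp_assoc, ← comp_assoc C Φ, h1, dg_comp]
  let e : cor0 C Y := ⟨1 - E, (cor0 C Y).sub_mem (cor0 C Y).one_mem hE⟩
  have he : e * e = e := by
    apply Subtype.ext
    change (1 - E) * (1 - E) = 1 - E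
    rw [mul_sub, mul_one, sub_mul, one_mul, hEE]
    abel
  have halg' : ∀ γ : C.A (Y.prod Y), C.Deg Y.dim γ → IsAlgebraicCor C
      (C.comp (dg C Y - C.comp Ψ Φ) (C.comp γ (dg C Y - C.comp Ψ Φ))) := by
    intro γ hγ
    have := halg γ hγ
    rwa [comp_assoc] at this
  choose p hp hact using hK
  let p' : ℕ → cor0 C Y := fun i => ⟨p i, hp i⟩
  have hp'act : ∀ (i : ℕ) (l : ℤ) (a : H.A Y), a ∈ H.gr Y l →
      actH C Y H (p' i : Cor C Y) a = if l = i then a else 0 := fun i l a ha => hact i l a ha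
  let x : ℕ → cor0 C Y := fun i => if i = 0 then e - ∑ j ∈ Finset.Icc 1 (2 * Y.dim), e * p' j * e
    else e * p' i * e
  have hx0 : x 0 = e - ∑ j ∈ Finset.Icc 1 (2 * Y.dim), e * p' j * e := if_pos rfl
  have hx1 : ∀ i, i ≠ 0 → x i = e * p' i * e := fun i hi => if_neg hi
  have hex : ∀ i, e * x i = x i := by
    intro i
    by_cases hi : i = 0
    · rw [hi, hx0, mul_sub, he, Finset.mul_sum]
      congr 1
      refine Finset.sum_congr rfl fun j _ => ?_
      rw [← mul_assoc, ← mul_assoc, he]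
    · rw [hx1 i hi, ← mul_assoc, ← mul_assoc, he]
  have hxe : ∀ i, x i * e = x i := by
    intro i
    by_cases hi : i = 0
    · rw [hi, hx0, sub_mul, he, Finset.sum_mul]
      congr 1
      refine Finset.sum_congr rfl fun j _ => ?_
      rw [mul_assoc, he]
    · rw [hx1 i hi, mul_assoc, he]
  have hxs : ∑ i ∈ Finset.range (2 * Y.dim + 1), x i = e := by
    have h2 : Finset.range (2 * Y.dim + 1) = insert 0 (Finset.Icc 1 (2 * Y.dim)) := by
      ext j
      simp only [Finset.mem_range, Finset.mem_insert, Finset.mem_Icc]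
      omega
    rw [h2, Finset.sum_insert (by simp), hx0]
    have h3 : ∑ j ∈ Finset.Icc 1 (2 * Y.dim), x j =
        ∑ j ∈ Finset.Icc 1 (2 * Y.dim), e * p' j * e := by
      refine Finset.sum_congr rfl fun j hj => ?_
      rw [Finset.mem_Icc] at hj
      exact hx1 j (by omega)
    rw [h3]
    abel
  obtain ⟨g, s, hg1, hg2, hg3, hg4, hg5, hg6⟩ := exists_exchange (F := ℚ) (2 * Y.dim + 1) e he
    (fun a => isAlgebraic_of_cor (halg' (a : Cor C Y) a.2)) x (fun i _ => hex i)
    (fun i _ => hxe i) hxs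
  let e0 : Cor C Y := 1 - E
  have hecoe : (e : Cor C Y) = e0 := rfl
  have he0 : e0 * e0 = e0 := congrArg (fun x : cor0 C Y => (x : Cor C Y)) he
  have hexact : ∀ (i : ℕ) (l : ℤ) (a : H.A Y), a ∈ H.gr Y l →
      actH C Y H (e0 * (p' i : Cor C Y) * e0) a = if l = i then actH C Y H e0 a else 0 := by
    intro i l a ha
    rw [map_mul, map_mul, Module.End.mul_apply, Module.End.mul_apply,
      hp'act i l _ (actH_mem0 e.2 ha)]
    split_ifs with hl
    · have h2 : actH C Y H (e0 * e0) a = actH C Y H e0 a := by rw [he0]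
      rw [map_mul, Module.End.mul_apply] at h2
      exact h2
    · rw [map_zero]
  let g' : ℕ → Cor C Y := fun i => g i
  have hg0 : ∀ i, g' i ∈ cor0 C Y := fun i => (g i).2
  have hgact0 : ∀ i < 2 * Y.dim + 1, ∀ (l : ℤ) (a : H.A Y), a ∈ H.gr Y l → l ≠ i →
      actH C Y H (g' i) a = 0 := by
    intro i hi l a ha hl
    have h2 : g' i = (s i : Cor C Y) * (x i : Cor C Y) := by
      have := congrArg (fun x : cor0 C Y => (x : Cor C Y)) (hg1 i hi)
      exact this.symm
    have h3 : actH C Y H (x i : Cor C Y) a = 0 := by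
      by_cases hi0 : i = 0
      · subst hi0
        by_cases ha0 : a = 0
        · rw [ha0, map_zero]
        have hl0 := nonneg_of_mem H ha ha0
        have hl1 : l ≤ 2 * Y.dim := by
          by_contra hcon
          rw [gr_top H (by omega)] at ha
          exact ha0 ((Submodule.mem_bot _).1 ha)
        obtain ⟨l', rfl⟩ := Int.eq_ofNat_of_zero_le hl0
        rw [hx0]
        have h4 : ((e - ∑ j ∈ Finset.Icc 1 (2 * Y.dim), e * p' j * e : cor0 C Y) : Cor C Y) =
            e0 - ∑ j ∈ Finset.Icc 1 (2 * Y.dim), e0 * (p' j : Cor C Y) * e0 := by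
          rw [AddSubgroupClass.coe_sub, AddSubmonoidClass.coe_finsetSum]
          rfl
        rw [h4, map_sub, map_sum, LinearMap.sub_apply, LinearMap.sum_apply,
          Finset.sum_eq_single l']
        · rw [hexact l' l' a ha, if_pos rfl, sub_self]
        · intro j _ hj
          rw [hexact j l' a ha, if_neg (by omega)]
        · intro h
          rw [Finset.mem_Icc] at h
          omega
      · rw [hx1 i hi0]
        change actH C Y H (e0 * (p' i : Cor C Y) * e0) a = 0
        rw [hexact i l a ha, if_neg hl]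
    rw [h2, map_mul, Module.End.mul_apply, h3, map_zero]
  have hgsum : ∑ i ∈ Finset.range (2 * Y.dim + 1), g' i = e0 := by
    rw [← hecoe, ← hg6, AddSubmonoidClass.coe_finsetSum]
  have hgg : ∀ i < 2 * Y.dim + 1, ∀ j < 2 * Y.dim + 1, g' i * g' j = if i = j then g' i else 0 := by
    intro i hi j hj
    have := congrArg (fun x : cor0 C Y => (x : Cor C Y)) (hg5 i hi j hj)
    split_ifs with hij
    · rw [if_pos hij] at this
      exact this
    · rw [if_neg hij] at this
      exact this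
  have hge : ∀ i < 2 * Y.dim + 1, g' i * e0 = g' i := by
    intro i hi
    have h2 : g i * e = g i := by rw [← hg1 i hi, mul_assoc, hxe]
    exact congrArg (fun x : cor0 C Y => (x : Cor C Y)) h2
  have heg : ∀ i < 2 * Y.dim + 1, e0 * g' i = g' i := by
    intro i hi
    have h2 : e * g i = g i := by rw [← hg1 i hi, ← mul_assoc, hg4 i hi]
    exact congrArg (fun x : cor0 C Y => (x : Cor C Y)) h2
  have hgact1 : ∀ i < 2 * Y.dim + 1, ∀ (a : H.A Y), a ∈ H.gr Y i →
      actH C Y H (g' i) a = actH C Y H e0 a := by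
    intro i hi a ha
    rw [← hgsum, map_sum, LinearMap.sum_apply, Finset.sum_eq_single i]
    · intro j hj hij
      rw [Finset.mem_range] at hj
      exact hgact0 j hj i a ha (by omega)
    · intro h
      exact absurd (Finset.mem_range.2 hi) h
  -- the part coming from `X`
  let Rr : ℕ → Cor C Y := fun j => sand Ψ Φ (ρ j)
  let ρ' : ℕ → Cor C X := ρ
  have hρ' : IsCK H X ρ' := hρ
  have hR0 : ∀ j, Rr j ∈ cor0 C Y := by
    intro j
    have h2 : sand Ψ Φ (ρ' j) ∈ cor0 C Y := sand_mem (r := -r) (by rwa [← sub_eq_add_neg])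
      (by rwa [sub_neg_eq_add]) (hρ'.deg j)
    exact h2
  have hone : (1 : Cor C X) = C.comp Φ Ψ := h1.symm
  have hRR : ∀ i j, Rr i * Rr j = if i = j then Rr i else 0 := by
    intro i j
    have h2 : sand Ψ Φ (ρ' i) * sand Ψ Φ (ρ' j) = sand Ψ Φ (ρ' i * (1 * ρ' j)) :=
      sand_mul Ψ Φ 1 hone _ _
    rw [one_mul, hρ'.mul_eq] at h2
    have h3 : Rr i * Rr j = sand Ψ Φ (if i = j then ρ' i else 0) := h2
    rw [h3]
    split_ifs with hij
    · rfl
    · exact sand_zero _ _
  have hRs : ∀ N, 2 * X.dim + 1 ≤ N → ∑ j ∈ Finset.range N, Rr j = E := by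
    intro N hN
    have h2 : ∑ j ∈ Finset.range N, Rr j = sand Ψ Φ (∑ j ∈ Finset.range N, ρ' j) :=
      (sand_sum _ _ _ _).symm
    have h3 : ∑ j ∈ Finset.range N, ρ' j = 1 := hρ.sum_of_le hN
    rw [h2, h3]
    change C.comp (C.comp Ψ (dg C X)) Φ = C.comp Ψ Φ
    rw [comp_dg]
  have hER : ∀ j, E * Rr j = Rr j := by
    intro j
    change C.comp (C.comp (C.comp Ψ (ρ j)) Φ) (C.comp Ψ Φ) = C.comp (C.comp Ψ (ρ j)) Φ
    rw [comp_assoc, ← comp_assoc C Φ, h1, dg_comp]
  have hRE : ∀ j, Rr j * E = Rr j := by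
    intro j
    change C.comp (C.comp Ψ Φ) (C.comp (C.comp Ψ (ρ j)) Φ) = C.comp (C.comp Ψ (ρ j)) Φ
    rw [comp_assoc C Ψ (ρ j) Φ, comp_assoc C Ψ Φ, ← comp_assoc C Φ Ψ, h1, dg_comp]
  have hRact : ∀ (j : ℕ) (l : ℤ) (a : H.A Y), a ∈ H.gr Y l → l - 2 * r ≠ j →
      actH C Y H (Rr j) a = 0 := by
    intro j l a ha hl
    have h2 : actH C Y H (Rr j) a = H.act (H.cl Φ) (actH C X H (ρ' j) (H.act (H.cl Ψ) a)) :=
      actH_sand Ψ Φ (ρ' j) a
    have h3 : H.act (H.cl Ψ) a ∈ H.gr X (l + 2 * (-r)) :=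
      actH_mem H (e := -r) (by rwa [← sub_eq_add_neg]) ha
    have h4 : actH C X H (ρ' j) (H.act (H.cl Ψ) a) = 0 :=
      hρ.act_ne j _ _ (by omega) h3
    rw [h2, h4, TheoryData.act_map_zero]
  have hRout : ∀ j, 2 * X.dim < j → Rr j = 0 := by
    intro j hj
    have h2 : sand Ψ Φ (ρ' j) = 0 := by
      have : ρ' j = 0 := hρ.out j hj
      rw [this, sand_zero]
    exact h2
  let Q : ℕ → Cor C Y := fun i => if 2 * r ≤ i then Rr (i - 2 * r) else 0
  have hQ1 : ∀ i, 2 * r ≤ i → Q i = Rr (i - 2 * r) := fun i h => if_pos h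
  have hQ0 : ∀ i, i < 2 * r → Q i = 0 := fun i h => if_neg (by omega)
  have hQm : ∀ i, Q i ∈ cor0 C Y := by
    intro i
    by_cases h : 2 * r ≤ i
    · rw [hQ1 i h]
      exact hR0 _
    · rw [hQ0 i (by omega)]
      exact (cor0 C Y).zero_mem
  have hQQ : ∀ i j, Q i * Q j = if i = j then Q i else 0 := by
    intro i j
    by_cases hi : 2 * r ≤ i
    · by_cases hj : 2 * r ≤ j
      · rw [hQ1 i hi, hQ1 j hj, hRR]
        by_cases hij : i = j
        · rw [if_pos hij, if_pos (by omega)]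
        · rw [if_neg hij, if_neg (by omega)]
      · rw [hQ0 j (by omega), mul_zero, if_neg (by omega)]
    · rw [hQ0 i (by omega), zero_mul]
      split_ifs <;> rfl
  have hEQ : ∀ j, E * Q j = Q j := by
    intro j
    by_cases h : 2 * r ≤ j
    · rw [hQ1 j h, hER]
    · rw [hQ0 j (by omega), mul_zero]
  have hQE : ∀ j, Q j * E = Q j := by
    intro j
    by_cases h : 2 * r ≤ j
    · rw [hQ1 j h, hRE]
    · rw [hQ0 j (by omega), zero_mul]
  have hQs : ∑ i ∈ Finset.range (2 * Y.dim + 1), Q i = E := by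
    have h2 : 2 * Y.dim + 1 = 2 * r + (2 * Y.dim + 1 - 2 * r) := by omega
    rw [h2, Finset.sum_range_add]
    have h3 : ∑ i ∈ Finset.range (2 * r), Q i = 0 :=
      Finset.sum_eq_zero fun i hi => hQ0 i (Finset.mem_range.1 hi)
    rw [h3, zero_add, ← hRs (2 * Y.dim + 1 - 2 * r) (by omega)]
    refine Finset.sum_congr rfl fun i _ => ?_
    rw [hQ1 _ (by omega)]
    congr 1
    omega
  have hQact0 : ∀ (i : ℕ) (l : ℤ) (a : H.A Y), a ∈ H.gr Y l → l ≠ i →
      actH C Y H (Q i) a = 0 := by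
    intro i l a ha hl
    by_cases h : 2 * r ≤ i
    · rw [hQ1 i h]
      exact hRact _ l a ha (by omega)
    · rw [hQ0 i (by omega), map_zero]
      rfl
  have hQact1 : ∀ i < 2 * Y.dim + 1, ∀ (a : H.A Y), a ∈ H.gr Y i →
      actH C Y H (Q i) a = actH C Y H E a := by
    intro i hi a ha
    rw [← hQs, map_sum, LinearMap.sum_apply, Finset.sum_eq_single i]
    · intro j _ hij
      exact hQact0 j i a ha (by omega)
    · intro h
      exact absurd (Finset.mem_range.2 hi) h
  have hgQ : ∀ i < 2 * Y.dim + 1, ∀ j, g' i * Q j = 0 := by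
    intro i hi j
    rw [← hge i hi, ← hEQ j, mul_assoc, ← mul_assoc e0]
    have : e0 * E = 0 := by
      change (1 - E) * E = 0
      rw [sub_mul, one_mul, hEE, sub_self]
    rw [this, zero_mul, mul_zero]
  have hQg : ∀ i < 2 * Y.dim + 1, ∀ j, Q j * g' i = 0 := by
    intro i hi j
    rw [← heg i hi, ← hQE j, mul_assoc, ← mul_assoc E]
    have : E * e0 = 0 := by
      change E * (1 - E) = 0
      rw [mul_sub, mul_one, hEE, sub_self]
    rw [this, zero_mul, mul_zero]
  let T : ℕ → Cor C Y := fun i => if i < 2 * Y.dim + 1 then g' i + Q i else 0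
  have hT1 : ∀ i < 2 * Y.dim + 1, T i = g' i + Q i := fun i hi => if_pos hi
  have hT0 : ∀ i, 2 * Y.dim < i → T i = 0 := fun i hi => if_neg (by omega)
  refine ⟨T, isCK_of ?_ hT0 ?_ ?_ ?_⟩
  · intro i
    by_cases hi : i < 2 * Y.dim + 1
    · rw [hT1 i hi]
      exact (cor0 C Y).add_mem (hg0 i) (hQm i)
    · rw [hT0 i (by omega)]
      exact (cor0 C Y).zero_mem
  · intro i j
    by_cases hi : i < 2 * Y.dim + 1
    · by_cases hj : j < 2 * Y.dim + 1
      · rw [hT1 i hi, hT1 j hj, add_mul, mul_add, mul_add, hgg i hi j hj, hgQ i hi j, hQg j hj i,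
          hQQ]
        split_ifs with hij
        · rw [add_zero, zero_add]
        · rw [add_zero, add_zero]
      · rw [hT0 j (by omega), mul_zero, if_neg (by omega)]
    · rw [hT0 i (by omega), zero_mul]
      split_ifs <;> rfl
  · rw [Finset.sum_congr rfl fun i hi => hT1 i (Finset.mem_range.1 hi), Finset.sum_add_distrib,
      hgsum, hQs]
    change (1 - E) + E = 1
    abel
  · intro i l a ha
    by_cases hi : i < 2 * Y.dim + 1
    · rw [hT1 i hi, map_add, LinearMap.add_apply]
      split_ifs with hl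
      · subst hl
        rw [hgact1 i hi a ha, hQact1 i hi a ha, ← LinearMap.add_apply, ← map_add]
        have : e0 + E = 1 := by
          change (1 - E) + E = 1
          abel
        rw [this, map_one]
        rfl
      · rw [hgact0 i hi l a ha hl, hQact0 i l a ha hl, add_zero]
    · rw [hT0 i (by omega), map_zero, LinearMap.zero_apply]
      split_ifs with hl
      · rw [gr_top H (by omega)] at ha
        exact ((Submodule.mem_bot _).1 ha).symm
      · rfl

/-- A Chow-Kunneth decomposition gives algebraic Kunneth components. -/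
lemma IsCK.hasKunneth {π : ℕ → C.A (X.prod X)} (h : IsCK H X π) : HasKunneth H X :=
  fun m => ⟨π m, h.deg m, fun _ _ ha => h.actH_eq m _ ha⟩

end Pool.Agent.TH133
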