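import Pool.Agent.W550.Corr.Basic

/-!
# Chow-Kunneth decompositions and the conjectures of Murre: definitions
-/

open CategoryTheory AlgebraicGeometry

universe u v w

namespace Pool.Agent.TH133

open Pool.Agent.H914 Pool.Agent.H914.VarClass Pool.Agent.H914.VarClass.Obj Pool.Agent.W492.BB
  Pool.Agent.W550.Corr

variable {k : Type u} [Field k] {𝒱 : VarClass k}

/-- The formal properties of the Chow groups with rational coefficients of smooth projective
(geometrically irreducible) varieties: those of `IsChow`, and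

* push-forwards along isomorphisms preserve fundamental classes (`HasIso`);
* `CH^0(X)` is generated by the fundamental class, and `CH^i(X) = 0` for `i > dim X`;
* a zero-cycle `x` on `X` has a degree `q`: for all `Y` the push-forward of `x × Y` to `Y` is
  `q` times the fundamental class of `Y`;
* the self-intersection number `h ^ dim X` of some divisor class `h` is not zero (`h` is the class
  of a hyperplane section). -/
class IsChowProj (C : TheoryData.{u, v, 0} 𝒱 ℚ) : Prop extends IsChow C, HasIso C where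
  gr_zero : ∀ (X : 𝒱.Obj) (x : C.A X), C.Deg 0 x → ∃ q : ℚ, x = q • (1 : C.A X)
  gr_top : ∀ (X : 𝒱.Obj) (i : ℤ) (x : C.A X), C.Deg i x → (X.dim : ℤ) < i → x = 0
  degree : ∀ (X : 𝒱.Obj) (x : C.A X), C.Deg X.dim x → ∃ q : ℚ, ∀ Y : 𝒱.Obj,
    C.down (snd X Y) (C.up (fst X Y) x) = q • (1 : C.A Y) ∧
      C.down (fst Y X) (C.up (snd Y X) x) = q • (1 : C.A Y)
  polarized : ∀ X : 𝒱.Obj, ∃ h : C.A X, C.Deg 1 h ∧ ∃ q : ℚ, q ≠ 0 ∧
    C.down (snd X X) (C.up (fst X X) (h ^ X.dim)) = q • (1 : C.A X)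

section tp

variable {F : Type w} [Field F] (T : TheoryData.{u, v, w} 𝒱 F) {X Y : 𝒱.Obj}

/-- The transpose of a correspondence: the pull-back under the exchange of the factors. -/
noncomputable def tp (Γ : T.A (X.prod Y)) : T.A (Y.prod X) := T.pull (sw Y X) Γ

end tp

/-- The zero-cycle `x` on `X` has degree `q`: for all `Y` the push-forward of `x × Y` to `Y` is `q`
times the fundamental class of `Y`. -/
def HasDegree (C : TheoryData.{u, v, 0} 𝒱 ℚ) {X : 𝒱.Obj} (x : C.A X) (q : ℚ) : Prop :=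
  ∀ Y : 𝒱.Obj, C.push (snd X Y) (C.pull (fst X Y) x) = q • (1 : C.A Y) ∧
      C.push (fst Y X) (C.pull (snd Y X) x) = q • (1 : C.A Y)

/-- The family `π` is self-dual: the transpose of `π i` is `π (2 dim X - i)`. -/
def IsSelfDual (C : TheoryData.{u, v, 0} 𝒱 ℚ) {X : 𝒱.Obj} (π : ℕ → C.A (X.prod X)) : Prop :=
  ∀ i ≤ 2 * X.dim, tp C (π i) = π (2 * X.dim - i)

/-- The diagonal of `P` has a hyperbolic decomposition: there are classes `a s ∈ CH^(r s)(P)` and
`b s ∈ CH^(dim P - r s)(P)`, for `s` in a finite set, with intersection numbers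
`(a s, b t) = δ_{st}`, `(a s, a t) = 0`, `(b s, b t) = 0`, and
`[Δ_P] = ∑ (a s × b s + b s × a s)` in `CH^(dim P)(P × P)`. -/
def HyperbolicDiagonal (C : TheoryData.{u, v, 0} 𝒱 ℚ) (P : 𝒱.Obj) : Prop :=
  ∃ (m : ℕ) (r : Fin m → ℕ) (a b : Fin m → C.A P),
    (∀ s, r s ≤ P.dim ∧ C.Deg (r s) (a s) ∧ C.Deg ((P.dim : ℤ) - r s) (b s)) ∧
    (∀ s t, HasDegree C (a s * b t) (if s = t then 1 else 0)) ∧
    (∀ s t, HasDegree C (a s * a t) 0) ∧ (∀ s t, HasDegree C (b s * b t) 0) ∧
    dg C P = ∑ s, (C.ext (a s) (b s) + C.ext (b s) (a s))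

/-- `CurveCycle C s Y y`: the variety `Y` is a product `T_1 × (T_2 × ⋯ × T_s)` of `s ≥ 1` curves,
and `y = c_1 × ⋯ × c_s` with `c_i ∈ CH^1(T_i)` a zero-cycle of degree zero. -/
inductive CurveCycle (C : TheoryData.{u, v, 0} 𝒱 ℚ) : ℕ → (Y : 𝒱.Obj) → C.A Y → Prop
  | one (T : 𝒱.Obj) (c : C.A T) (hT : T.dim = 1) (hc : C.Deg 1 c) (hd : HasDegree C c 0) :
      CurveCycle C 1 T c
  | cons (s : ℕ) (T Y : 𝒱.Obj) (c : C.A T) (y : C.A Y) (hT : T.dim = 1) (hc : C.Deg 1 c)
      (hd : HasDegree C c 0) (hy : CurveCycle C s Y y) : CurveCycle C (s + 1) (T.prod Y) (C.ext c y)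

/-- The `s`-th power of algebraic equivalence: the subspace of `CH^l(X)` spanned by the classes
`Γ_* (c_1 × ⋯ × c_s)` where the `c_i` are zero-cycles of degree zero on curves `T_i` and
`Γ ∈ CH^l(T_1 × ⋯ × T_s × X)`. For `s = 1` it is the space of algebraically trivial cycles. -/
def algPower (C : TheoryData.{u, v, 0} 𝒱 ℚ) (X : 𝒱.Obj) (s l : ℕ) : Submodule ℚ (C.A X) :=
  Submodule.span ℚ {z | ∃ (Y : 𝒱.Obj) (y : C.A Y) (Γ : C.A (Y.prod X)), CurveCycle C s Y y ∧
    C.Deg l Γ ∧ z = C.act Γ y}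

section Weil

variable {C : TheoryData.{u, v, 0} 𝒱 ℚ} {K : Type w} [Field K] (H : WeilTheoryData.{u, v, w} C K)

/-- A Weil cohomology theory in the sense of `IsWeil` with the usual normalisations: `H^0(X)` is
spanned by `1 ≠ 0`, and the orientation vanishes outside the top degree `2 dim X`. -/
class IsWeilProj : Prop extends IsWeil H where
  gr_zero : ∀ (X : 𝒱.Obj) (a : H.A X), H.Deg 0 a → ∃ c : K, a = c • (1 : H.A X)
  one_ne_zero : ∀ X : 𝒱.Obj, (1 : H.A X) ≠ 0
  tr_eq_zero : ∀ (X : 𝒱.Obj) (i : ℤ) (a : H.A X), H.Deg i a → i ≠ 2 * X.dim → H.tr X a = 0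

/-- A Chow-Kunneth decomposition of `X`: self-correspondences `π 0, …, π (2 dim X)` of degree zero
(`π i = 0` for `i > 2 dim X`) which are mutually orthogonal idempotents with sum the diagonal, and
such that `π i` acts as the identity on `H^i(X)` and as zero on `H^m(X)` for `m ≠ i`. -/
structure IsCK (X : 𝒱.Obj) (π : ℕ → C.A (X.prod X)) : Prop where
  deg : ∀ i, C.Deg X.dim (π i)
  out : ∀ i, 2 * X.dim < i → π i = 0
  idem : ∀ i, C.comp (π i) (π i) = π i
  orth : ∀ i j, i ≠ j → C.comp (π i) (π j) = 0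
  sum : ∑ i ∈ Finset.range (2 * X.dim + 1), π i = dg C X
  act_self : ∀ (i : ℕ) (a : H.A X), H.Deg i a → H.act (H.cl (π i)) a = a
  act_ne : ∀ (i : ℕ) (m : ℤ) (a : H.A X), m ≠ i → H.Deg m a → H.act (H.cl (π i)) a = 0

/-- The step `F^n CH^i(X) = (π_{2i-n} + ⋯ + π_0)_* CH^i(X)` of the filtration attached to the
Chow-Kunneth decomposition `π`; it is zero if `n > 2 i`. -/
noncomputable def ckFil (C : TheoryData.{u, v, 0} 𝒱 ℚ) {X : 𝒱.Obj} (π : ℕ → C.A (X.prod X))
    (i n : ℕ) : Submodule ℚ (C.A X) :=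
  (C.gr X i).map (C.actL (∑ j ∈ Finset.range (2 * i + 1 - n), π j))

/-- The first half of Murre's conjecture (B) for `X` and all its Chow-Kunneth decompositions:
`F^0 CH^i(X) = CH^i(X)`, that is, `π j` acts as zero on `CH^i(X)` for `j > 2 i`. -/
def MurreB0 (X : 𝒱.Obj) : Prop :=
  ∀ π, IsCK H X π → ∀ i : ℕ, ckFil C π i 0 = C.gr X i

/-- The second half of Murre's conjecture (B) for `X` and all its Chow-Kunneth decompositions:
`F^(i+1) CH^i(X) = 0`, that is, `π j` acts as zero on `CH^i(X)` for `j < i`. -/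
def MurreB1 (X : 𝒱.Obj) : Prop :=
  ∀ π, IsCK H X π → ∀ i : ℕ, ckFil C π i (i + 1) = ⊥

/-- Murre's conjecture (C) for `X`: the filtration does not depend on the Chow-Kunneth
decomposition. -/
def MurreC (X : 𝒱.Obj) : Prop :=
  ∀ π π', IsCK H X π → IsCK H X π' → ∀ i n : ℕ, ckFil C π i n = ckFil C π' i n

/-- The part of Murre's conjecture (C) for `X` concerning only the step `F^0`. -/
def MurreC0 (X : 𝒱.Obj) : Prop :=
  ∀ π π', IsCK H X π → IsCK H X π' → ∀ i : ℕ, ckFil C π i 0 = ckFil C π' i 0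

/-- Murre's conjecture (D) for `X` and all its Chow-Kunneth decompositions: `F^1 CH^i(X)` is the
group of homologically trivial cycles. -/
def MurreD (X : 𝒱.Obj) : Prop :=
  ∀ π, IsCK H X π → ∀ (i : ℕ) (x : C.A X), x ∈ ckFil C π i 1 ↔ C.Deg i x ∧ H.cl x = 0

/-- Homologically trivial self-correspondences of degree zero of `X` strictly lower the weights:
`π_b ∘ γ ∘ π_a = 0` for `b ≥ a`, all Chow-Kunneth decompositions `π` and all homologically trivial
`γ ∈ CH^(dim X)(X × X)`. -/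
def StrictlyLowers (H : WeilTheoryData.{u, v, w} C K) (X : 𝒱.Obj) : Prop :=
  ∀ π, IsCK H X π → ∀ γ : C.A (X.prod X), C.Deg X.dim γ → H.cl γ = 0 →
    ∀ a b : ℕ, a ≤ b → C.comp (C.comp (π a) γ) (π b) = 0

/-- The composition `Γ_1, Γ_2, …` (applied in this order) of a list of self-correspondences. -/
noncomputable def compList (C : TheoryData.{u, v, 0} 𝒱 ℚ) (X : 𝒱.Obj) :
    List (C.A (X.prod X)) → C.A (X.prod X)
  | [] => dg C X
  | γ :: l => C.comp γ (compList C X l)

/-- Any composition of `n` homologically trivial self-correspondences of degree zero of `X` is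
zero. -/
def NilpotentOfIndex (H : WeilTheoryData.{u, v, w} C K) (X : 𝒱.Obj) (n : ℕ) : Prop :=
  ∀ l : List (C.A (X.prod X)), l.length = n → (∀ γ ∈ l, C.Deg X.dim γ ∧ H.cl γ = 0) →
    compList C X l = 0

/-- Any two Chow-Kunneth decompositions of `X` are conjugate by a unit `s` (with inverse `t`) of the
ring of self-correspondences of degree zero which acts as the identity on the cohomology. -/
def UniqueUpToConjugation (H : WeilTheoryData.{u, v, w} C K) (X : 𝒱.Obj) : Prop :=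
  ∀ π π', IsCK H X π → IsCK H X π' → ∃ s t : C.A (X.prod X), C.Deg X.dim s ∧ C.Deg X.dim t ∧
    C.comp s t = dg C X ∧ C.comp t s = dg C X ∧ (∀ a : H.A X, H.act (H.cl s) a = a) ∧
    ∀ i, π' i = C.comp (C.comp t (π i)) s

end Weil

end Pool.Agent.TH133
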