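import Pool.Agent.TH133.DefsHodge

/-!
# Surfaces without holomorphic two-forms: definitions
-/

open CategoryTheory AlgebraicGeometry

universe u v w

namespace Pool.Agent.TH133

open Pool.Agent.H914 Pool.Agent.H914.VarClass Pool.Agent.H914.VarClass.Obj Pool.Agent.W492.BB
  Pool.Agent.W550.Corr

variable {k : Type u} [Field k] {𝒱 : VarClass k} {C : TheoryData.{u, v, 0} 𝒱 ℚ}
  {H : WeilTheoryData.{u, v, 0} C ℂ}

/-- The surface `S` has geometric genus zero: `H^{2,0}(S) = 0`. -/
structure HodgeData.IsGenusZero (D : HodgeData H) (S : 𝒱.Obj) : Prop where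
  dim : S.dim = 2
  genus : ∀ a : H.A S, D.hodge S 2 0 a → a = 0

/-- The classical facts which are used on the surface `S`: its cohomology is finite-dimensional; a
self-correspondence of degree zero which acts as zero on `H^3(S)` acts as zero on the Albanese
variety (with rational coefficients), and one which acts as zero on `H^1(S)` acts as zero on the
Picard variety `CH^1(S)_hom`; and `S` has a Chow-Kunneth decomposition whose component of weight two
acts as the identity on the kernel of the Albanese map (Murre). -/
structure HasMurreTheory (H : WeilTheoryData.{u, v, 0} C ℂ) (S : 𝒱.Obj) : Prop where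
  finite : Module.Finite ℂ (H.A S)
  albanese : ∀ γ : C.A (S.prod S), C.Deg 2 γ → Kills H γ 3 → ∀ x : C.A S, HomTrivial H 2 x →
    AlbaneseKer H (C.act γ x)
  picard : ∀ γ : C.A (S.prod S), C.Deg 2 γ → Kills H γ 1 → ∀ x : C.A S, HomTrivial H 1 x →
    C.act γ x = 0
  murre : ∃ π : ℕ → C.A (S.prod S), IsCK H S π ∧ ∀ z : C.A S, AlbaneseKer H z →
    C.act (π 2) z = z

/-- The kernel of the Albanese map of `S` is zero (rational coefficients). -/
def AlbaneseInjective (H : WeilTheoryData.{u, v, 0} C ℂ) (S : 𝒱.Obj) : Prop :=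
  ∀ z : C.A S, AlbaneseKer H z → z = 0

/-- Each homologically trivial self-correspondence of degree zero of the surface `S` acts locally
nilpotently on the kernel of the Albanese map. -/
def HomTrivialNilpotentOnKer (H : WeilTheoryData.{u, v, 0} C ℂ) (S : 𝒱.Obj) : Prop :=
  ∀ γ : C.A (S.prod S), C.Deg 2 γ → H.cl γ = 0 → ∀ z : C.A S, AlbaneseKer H z →
    ∃ m : ℕ, (C.act γ)^[m] z = 0

end Pool.Agent.TH133
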