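import Pool.Agent.TH133.DefsHodge

/-!
# Correspondences between surfaces: definitions
-/

open CategoryTheory AlgebraicGeometry

universe u v w

namespace Pool.Agent.TH133

open Pool.Agent.H914 Pool.Agent.H914.VarClass Pool.Agent.H914.VarClass.Obj Pool.Agent.W492.BB
  Pool.Agent.W550.Corr

variable {k : Type u} [Field k] {𝒱 : VarClass k} {C : TheoryData.{u, v, 0} 𝒱 ℚ}

/-- `t ∈ CH^2(S × S)` has the properties of the projector onto the transcendental part of the motive
of the surface `S` (Murre; Kahn, Murre and Pedrini): it is symmetric, acts as the identity on the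
kernel of the Albanese map, as zero on `CH^1(S)` and as zero on `H^m(S)` for `m ≠ 2`. -/
structure IsTranscendental {K : Type w} [Field K] (H : WeilTheoryData.{u, v, w} C K) {S : 𝒱.Obj}
    (t : C.A (S.prod S)) : Prop where
  deg : C.Deg 2 t
  symm : tp C t = t
  albanese : ∀ x : C.A S, AlbaneseKer H x → C.act t x = x
  divisor : ∀ z : C.A S, C.Deg 1 z → C.act t z = 0
  kills : ∀ (m : ℤ) (a : H.A S), m ≠ 2 → H.Deg m a → actCoh H t a = 0

/-- Complete intersections of dimension two in the products of two surfaces: for surfaces `S`, `T`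
there are a surface `U` with morphisms `f : U → S`, `g : U → T` and divisor classes `h` on `S` and
`h'` on `T` with non-zero self-intersection numbers such that the image `(f, g)_* [U]` in
`CH^2(S × T)` is `(h × T + S × h')^2`. (Take very ample `h` and `h'`, and for `U` the intersection of
two general divisors in the class `h × T + S × h'`; it is smooth and connected by the theorem of
Bertini.) -/
def HasSections (C : TheoryData.{u, v, 0} 𝒱 ℚ) : Prop :=
  ∀ S T : 𝒱.Obj, S.dim = 2 → T.dim = 2 → ∃ (U : 𝒱.Obj) (f : U ⟶ S) (g : U ⟶ T) (h : C.A S)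
    (h' : C.A T) (m n : ℚ), U.dim = 2 ∧ C.Deg 1 h ∧ C.Deg 1 h' ∧ m ≠ 0 ∧ n ≠ 0 ∧
    HasDegree C (h * h) m ∧ HasDegree C (h' * h') n ∧
    C.down (Obj.lift f g) 1 = (C.up (fst S T) h + C.up (snd S T) h') ^ 2

variable {H : WeilTheoryData.{u, v, 0} C ℂ}

/-- The classical facts on smooth projective complex surfaces which are used. -/
structure HasSurfaceTheory (D : HodgeData H) : Prop where
  hodge : D.IsHodge
  functorial : D.IsFunctorial
  transcendental : ∀ S : 𝒱.Obj, S.dim = 2 → ∃ t : C.A (S.prod S), IsTranscendental H t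
  sections : HasSections C

/-- Bloch's conjecture for correspondences between surfaces: for all surfaces `S`, `T` and all
`Z ∈ CH^2(S × T)` such that `[Z]^* : H^{2,0}(T) → H^{2,0}(S)` is zero, `Z_*` is zero on the kernel of
the Albanese map of `S`. -/
def BlochSurfaces (D : HodgeData H) : Prop :=
  ∀ S T : 𝒱.Obj, S.dim = 2 → T.dim = 2 → ∀ Z : C.A (S.prod T), C.Deg 2 Z →
    D.KillsHolomorphic Z 2 → ∀ x : C.A S, AlbaneseKer H x → C.act Z x = 0

/-- All homologically trivial self-correspondences `Z ∈ CH^2(U × U)` of surfaces `U` with the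
property `P` act as zero on the kernel of the Albanese map of `U`. -/
def VanishFor (H : WeilTheoryData.{u, v, 0} C ℂ) (P : ∀ U : 𝒱.Obj, C.A (U.prod U) → Prop) : Prop :=
  ∀ U : 𝒱.Obj, U.dim = 2 → ∀ Z : C.A (U.prod U), C.Deg 2 Z → H.cl Z = 0 → P U Z →
    ∀ x : C.A U, AlbaneseKer H x → C.act Z x = 0

end Pool.Agent.TH133
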