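import Pool.Agent.TH133.Murre

/-!
# Decomposable correspondences
-/

open CategoryTheory AlgebraicGeometry

universe u v w

namespace Pool.Agent.TH133

open Pool.Agent.H914 Pool.Agent.H914.VarClass Pool.Agent.H914.VarClass.Obj Pool.Agent.W492.BB
  Pool.Agent.W550.Corr

set_option linter.unusedSectionVars false

variable {k : Type u} [Field k] {𝒱 : VarClass k}

section chow

variable {C : TheoryData.{u, v, 0} 𝒱 ℚ} [hC : IsChowProj C] {X Y Z W : 𝒱.Obj}

include hC

lemma exists_hasDegree {x : C.A X} (hx : x ∈ C.gr X X.dim) : ∃ q, HasDegree C x q :=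
  hC.degree X x hx

lemma comp_ext_ext {v : C.A X} {α v' : C.A Y} {α' : C.A Z} {q : ℚ}
    (hq : HasDegree C (α * v') q) :
    C.comp (C.ext v α) (C.ext v' α') = q • C.ext v α' := by
  have h1 : C.push (t13 X Y Z) (C.pull (fst (X.prod Y) Z) (C.pull (snd X Y) (α * v'))) =
      q • (1 : C.A (X.prod Z)) := by
    change C.push (prodMap (fst X Y) (𝟙 Z)) _ = _
    rw [← C.base_fst, (hq X).2, map_smul, map_one]
  have e1 : t23 X Y Z ≫ fst Y Z = fst (X.prod Y) Z ≫ snd X Y := t23_fst
  have e2 : t13 X Y Z ≫ fst X Z = fst (X.prod Y) Z ≫ fst X Y := t13_fst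
  have e3 : t23 X Y Z ≫ snd Y Z = t13 X Y Z ≫ snd X Z := by rw [t23_snd, t13_snd]
  have h2 : C.pull (t23 X Y Z) (C.ext v' α') * C.pull (fst (X.prod Y) Z) (C.ext v α) =
      C.pull (fst (X.prod Y) Z) (C.pull (snd X Y) (α * v')) *
        C.pull (t13 X Y Z) (C.ext v α') := by
    simp only [TheoryData.ext, map_mul]
    rw [← C.pull_comp (t23 X Y Z), ← C.pull_comp (t23 X Y Z), ← C.pull_comp (t13 X Y Z),
      ← C.pull_comp (t13 X Y Z), e1, e2, e3, C.pull_comp (fst (X.prod Y) Z) (snd X Y),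
      C.pull_comp (fst (X.prod Y) Z) (fst X Y)]
    generalize C.pull (fst (X.prod Y) Z) (C.pull (snd X Y) v') = a
    generalize C.pull (fst (X.prod Y) Z) (C.pull (snd X Y) α) = b
    generalize C.pull (fst (X.prod Y) Z) (C.pull (fst X Y) v) = c
    generalize C.pull (t13 X Y Z ≫ snd X Z) α' = d
    have e : ∀ a b c d : C.A ((X.prod Y).prod Z), a * d * (c * b) = b * a * (c * d) := by
      intro a b c d
      rw [mul_assoc a, ch_comm C d, mul_assoc c, ch_comm C c, ← mul_assoc a, ← mul_assoc a,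
        ch_comm C a b, mul_assoc (b * a), ch_comm C d c]
    exact e a b c d
  rw [TheoryData.comp, h2, C.proj_right, h1, smul_mul_assoc, one_mul]

lemma tp_ext (v : C.A X) (α : C.A Y) : tp C (C.ext v α) = C.ext α v := by
  have e1 : sw Y X ≫ fst X Y = snd Y X := lift_fst _ _
  have e2 : sw Y X ≫ snd X Y = fst Y X := lift_snd _ _
  rw [tp, TheoryData.ext, map_mul, ← C.pull_comp, ← C.pull_comp, e1, e2, ch_comm C]
  rfl

lemma tp_tens (Γ : C.A (X.prod Y)) (Δ : C.A (Z.prod W)) :
    tp C (tens C Γ Δ) = tens C (tp C Γ) (tp C Δ) := by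
  have e1 : sw (Y.prod W) (X.prod Z) ≫ prodMap (fst X Z) (fst Y W) =
      prodMap (fst Y W) (fst X Z) ≫ sw Y X := by
    apply prod_ext <;> simp [sw, prodMap, comp_lift]
  have e2 : sw (Y.prod W) (X.prod Z) ≫ prodMap (snd X Z) (snd Y W) =
      prodMap (snd Y W) (snd X Z) ≫ sw W Z := by
    apply prod_ext <;> simp [sw, prodMap, comp_lift]
  rw [tp, tens, map_mul, ← C.pull_comp, ← C.pull_comp, e1, e2, C.pull_comp, C.pull_comp]
  rfl

lemma ext_mem' {i j : ℤ} {v : C.A X} {α : C.A Y} (hv : v ∈ C.gr X i) (hα : α ∈ C.gr Y j) :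
    C.ext v α ∈ C.gr (X.prod Y) (i + j) := C.mul_mem (C.pull_mem _ hv) (C.pull_mem _ hα)

lemma act_ext' {v x : C.A X} {α : C.A Y} {q : ℚ} (hq : HasDegree C (v * x) q) :
    C.act (C.ext v α) x = q • α := by
  rw [TheoryData.act_apply, TheoryData.ext]
  have h1 : C.pull (fst X Y) v * C.pull (snd X Y) α * C.pull (fst X Y) x =
      C.pull (fst X Y) (v * x) * C.pull (snd X Y) α := by
    rw [mul_assoc, ch_comm C (C.pull (snd X Y) α), ← mul_assoc, map_mul]
  rw [h1, C.proj_right, (hq Y).1, smul_mul_assoc, one_mul]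

/-- Cycles of negative codimension after push-forward vanish. -/
lemma act_ext_zero_of_lt {v x : C.A X} {α : C.A Y} {i : ℤ} (hx : v * x ∈ C.gr X i)
    (hi : i ≠ X.dim) : C.act (C.ext v α) x = 0 := by
  have h1 : C.push (snd X Y) (C.pull (fst X Y) (v * x)) = 0 := by
    rcases lt_or_gt_of_ne hi with h | h
    · have h2 := C.push_mem (snd X Y) (C.pull_mem (fst X Y) hx)
      rw [C.gr_neg Y _ (by rw [dim_prod]; push_cast; omega)] at h2
      exact (Submodule.mem_bot _).1 h2
    · rw [hC.gr_top X i _ hx h, map_zero, map_zero]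
  rw [TheoryData.act_apply, TheoryData.ext]
  have h2 : C.pull (fst X Y) v * C.pull (snd X Y) α * C.pull (fst X Y) x =
      C.pull (fst X Y) (v * x) * C.pull (snd X Y) α := by
    rw [mul_assoc, ch_comm C (C.pull (snd X Y) α), ← mul_assoc, map_mul]
  rw [h2, C.proj_right, h1, zero_mul]

lemma hasDegree_zero : HasDegree C (0 : C.A X) 0 := by
  intro Y
  rw [map_zero, map_zero, map_zero, map_zero, zero_smul]
  exact ⟨rfl, rfl⟩

end chow

section weil

variable {C : TheoryData.{u, v, 0} 𝒱 ℚ} [hC : IsChowProj C] {K : Type w} [Field K]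
  (H : WeilTheoryData.{u, v, w} C K) [hH : IsWeilProj H] {X Y Z W : 𝒱.Obj}

include hC hH

/-- Homologically trivial zero-cycles have degree zero. -/
lemma hasDegree_zero_of_cl {x : C.A X} (hx : x ∈ C.gr X X.dim) (h : H.cl x = 0) :
    HasDegree C x 0 := by
  obtain ⟨q, hq⟩ := exists_hasDegree hx
  have h1 := deg_eq_of_cl (H := H) hx (Submodule.zero_mem _) (h.trans (map_zero H.cl).symm) X
  rw [map_zero, map_zero, (hq X).1] at h1
  have h2 : q = 0 := by
    by_contra hne
    have h3 : (1 : C.A X) = 0 := by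
      rw [← one_smul ℚ (1 : C.A X), ← inv_mul_cancel₀ hne, mul_smul, h1, smul_zero]
    have h4 : (1 : H.A X) = 0 := by rw [← map_one H.cl, h3, map_zero]
    exact hH.one_ne_zero X h4
  rwa [h2] at hq

/-- The degree is unique. -/
lemma hasDegree_unique {x : C.A X} {q r : ℚ} (hq : HasDegree C x q) (hr : HasDegree C x r) :
    q = r := by
  have h1 := (hq X).1
  rw [(hr X).1] at h1
  by_contra hne
  have h3 : (1 : C.A X) = 0 := by
    have h5 : (q - r) • (1 : C.A X) = 0 := by rw [sub_smul, h1, sub_self]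
    rw [← one_smul ℚ (1 : C.A X), ← inv_mul_cancel₀ (sub_ne_zero.2 hne), mul_smul, h5, smul_zero]
  have h4 : (1 : H.A X) = 0 := by rw [← map_one H.cl, h3, map_zero]
  exact hH.one_ne_zero X h4

end weil

end Pool.Agent.TH133
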