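import Pool.Agent.TH133.AJAlg
import Pool.Agent.TH133.DefsHodge

/-!
# The generalized Bloch conjecture for zero-cycles in low degrees
-/

open CategoryTheory AlgebraicGeometry

universe u v w

namespace Pool.Agent.TH133

open Pool.Agent.H914 Pool.Agent.H914.VarClass Pool.Agent.H914.VarClass.Obj Pool.Agent.W492.BB
  Pool.Agent.W550.Corr

set_option linter.unusedSectionVars false

variable {k : Type u} [Field k] {𝒱 : VarClass k} {C : TheoryData.{u, v, 0} 𝒱 ℚ}
  [hC : IsChowProj C] {X Y Z W : 𝒱.Obj}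

section hodge

variable {H : WeilTheoryData.{u, v, 0} C ℂ} [hH : IsWeilProj H] {D : HodgeData H}

include hC hH

lemma conj_zero (hD : D.IsHodge) (X : 𝒱.Obj) : D.conj X 0 = 0 := by
  have h := hD.conj_add X 0 0
  rw [add_zero] at h
  simpa using h

/-- A correspondence killing `H^{p,q}` kills `H^{q,p}`. -/
lemma kills_conj (hD : D.IsHodge) (hF : D.IsFunctorial) {Γ : C.A (X.prod Y)} {p q : ℤ}
    (h : ∀ a, D.hodge X p q a → H.act (H.cl Γ) a = 0) : ∀ a, D.hodge X q p a →
      H.act (H.cl Γ) a = 0 := by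
  intro a ha
  have h1 := h _ (hD.conj_hodge X q p a ha)
  have h2 := hF.conj X Y Γ a
  unfold actCoh at h2
  rw [h2] at h1
  rw [← hD.conj_conj Y (H.act (H.cl Γ) a), h1, conj_zero hD]

lemma kills_gr_zero (hD : D.IsHodge) {Γ : C.A (X.prod Y)}
    (h : ∀ a, D.hodge X 0 0 a → H.act (H.cl Γ) a = 0) : Kills H Γ 0 := by
  intro a ha
  obtain ⟨f, hf, rfl⟩ := hD.decomp X 0 a (by exact_mod_cast ha)
  have h1 := hf 0 le_rfl
  rw [Finset.sum_range_one]
  exact h _ (by simpa using h1)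

lemma kills_gr_one (hD : D.IsHodge) (hF : D.IsFunctorial) {Γ : C.A (X.prod Y)}
    (h : ∀ a, D.hodge X 1 0 a → H.act (H.cl Γ) a = 0) : Kills H Γ 1 := by
  intro a ha
  obtain ⟨f, hf, rfl⟩ := hD.decomp X 1 a (by exact_mod_cast ha)
  have h0 := hf 0 (by omega)
  have h1 := hf 1 le_rfl
  rw [Finset.sum_range_succ, Finset.sum_range_one, act_map_add,
    kills_conj hD hF h (f 0) (by simpa using h0), h (f 1) (by simpa using h1), add_zero]

/-- The theorem of Lefschetz on `(1,1)`-classes for correspondences: if a correspondence of degree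
zero kills `H^{2,0}`, then the image of `H^2` is spanned by classes of divisors. -/
lemma act_mem_span (hD : D.IsHodge) (hF : D.IsFunctorial) {Γ : C.A (X.prod Y)}
    (hΓ : C.Deg X.dim Γ) (h : ∀ a, D.hodge X 2 0 a → H.act (H.cl Γ) a = 0) {b : H.A X}
    (hb : b ∈ H.gr X 2) :
    H.act (H.cl Γ) b ∈ Submodule.span ℂ {c | ∃ z : C.A Y, C.Deg 1 z ∧ H.cl z = c} := by
  have h0 : Submodule.span ℂ {b : H.A X | D.rat X b ∧ H.Deg ((2 : ℕ) : ℤ) b} ≤
      (Submodule.span ℂ {c | ∃ z : C.A Y, C.Deg 1 z ∧ H.cl z = c}).comap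
        (H.actL (H.cl Γ)) := by
    rw [Submodule.span_le]
    rintro b ⟨hr, hb⟩
    apply Submodule.subset_span
    rw [TheoryData.actL_apply]
    obtain ⟨f, hf, rfl⟩ := hD.decomp X 2 b hb
    have hb0 := hf 0 (by omega)
    have hb1 := hf 1 (by omega)
    have hb2 := hf 2 (by omega)
    have e1 : (((2 : ℕ) : ℤ) - ((1 : ℕ) : ℤ)) = 1 := by norm_num
    rw [e1] at hb1
    have h4 : H.act (H.cl Γ) (∑ p ∈ Finset.range (2 + 1), f p) = H.act (H.cl Γ) (f 1) := by
      rw [Finset.sum_range_succ, Finset.sum_range_succ, Finset.sum_range_one, act_map_add,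
        act_map_add, h (f 2) (by simpa using hb2),
        kills_conj hD hF h (f 0) (by simpa using hb0), zero_add, add_zero]
    have h5 : D.rat Y (H.act (H.cl Γ) _) := hF.rat X Y Γ _ hr
    have h6 := hF.hodge X Y X.dim Γ hΓ 1 1 (f 1) (by exact_mod_cast hb1)
    rw [sub_self, add_zero] at h6
    rw [h4] at h5 ⊢
    exact hD.lefschetz Y _ h5 h6
  exact h0 (hD.span_rat X 2 b (by exact_mod_cast hb))

end hodge

section filtration

variable {K : Type w} [Field K] {H : WeilTheoryData.{u, v, w} C K} [hH : IsWeilProj H]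

include hC hH

/-- A class on `X × Y` is zero if its transpose kills the cohomology of `Y`. -/
lemma cl_zero_of_tp {Γ : C.A (X.prod Y)} (h : ∀ m : ℤ, Kills H (tp C Γ) m) : H.cl Γ = 0 := by
  have h1 : H.actL (H.cl (tp C Γ)) = 0 := by
    apply ext_gr H
    intro m a ha
    rw [TheoryData.actL_apply, h m a ha, LinearMap.zero_apply]
  have h2 : H.cl (tp C Γ) = 0 := hom_zero_of_act H fun a => LinearMap.congr_fun h1 a
  rw [← tp_tp C Γ, cl_tp, h2]
  exact map_zero _

/-- A class on `X × Y` is zero if it kills the cohomology of `X`. -/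
lemma cl_zero_of_kills {Γ : C.A (X.prod Y)} (h : ∀ m : ℤ, Kills H Γ m) : H.cl Γ = 0 := by
  have h1 : H.actL (H.cl Γ) = 0 := by
    apply ext_gr H
    intro m a ha
    rw [TheoryData.actL_apply, h m a ha, LinearMap.zero_apply]
  exact hom_zero_of_act H fun a => LinearMap.congr_fun h1 a

/-- A correspondence of degree zero preserves the degrees in cohomology. -/
lemma act_mem_gr {n : ℕ} {Γ : C.A (X.prod Y)} (hΓ : C.Deg n Γ) (hn : n = X.dim) {m : ℤ}
    {a : H.A X} (ha : a ∈ H.gr X m) : H.act (H.cl Γ) a ∈ H.gr Y m := by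
  subst hn
  have h2 : Γ ∈ C.gr (X.prod Y) (X.dim + 0) := by rw [add_zero]; exact hΓ
  have := actH_mem H h2 ha
  rwa [mul_zero, add_zero] at this

/-- The kernel of the Albanese map is contained in `F^2` (using curves). -/
lemma two_of_albaneseKer (hCu : HasCurves H) {F : Filtration C} (hF : IsBBHom H F)
    (hX : 1 ≤ X.dim) {x : C.A X} (hx : AlbaneseKer H x) : F.Mem X.dim 2 x := by
  obtain ⟨B, c, Γ, hB, hc, hΓ, rfl⟩ := hCu.support X hX x hx.1
  obtain ⟨e, he, hec, hkill⟩ := hCu.poincare B X c Γ hB hc hΓ hx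
  obtain ⟨τ, hτ, hτ'⟩ := exists_CK_curve (C := C) H B hB
  have hc1 : c ∈ C.gr B B.dim := by rw [hB]; exact_mod_cast hc.1
  have hτc : C.act (τ 1) c = c := by
    rw [hτ' c (by exact_mod_cast hc.1) (hasDegree_zero_of_cl H hc1 hc.2) 1, if_pos rfl]
  have hG : C.act (C.comp (τ 1) (C.comp e Γ)) c = C.act Γ c := by
    rw [C.act_comp, C.act_comp, hτc, hec]
  have hGm : C.comp (τ 1) (C.comp e Γ) ∈ C.gr (B.prod X) X.dim := by
    have h5 : Γ ∈ C.gr (B.prod X) (B.dim + ((X.dim : ℤ) - B.dim)) := by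
      have e1 : (B.dim : ℤ) + ((X.dim : ℤ) - B.dim) = X.dim := by ring
      rw [e1]; exact hΓ
    have h6 : e ∈ C.gr (B.prod B) (B.dim + 0) := by
      rw [add_zero, hB]; exact_mod_cast he
    have h7 : τ 1 ∈ C.gr (B.prod B) (B.dim + 0) := by
      rw [add_zero]; exact hτ.deg 1
    have h8 := comp_mem C h7 (comp_mem C h6 h5)
    have e3 : (B.dim : ℤ) + (0 + (0 + ((X.dim : ℤ) - B.dim))) = X.dim := by ring
    rwa [e3] at h8
  have hG0 : H.cl (C.comp (τ 1) (C.comp e Γ)) = 0 := by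
    apply cl_zero_of_kills
    intro m a ha
    rw [actH_comp, hτ.actH_eq 1 m ha]
    split_ifs with hm
    · rw [actH_comp]
      exact hkill a (by rw [← (by exact_mod_cast hm : m = 1)]; exact ha)
    · exact TheoryData.act_map_zero _ _
  rw [← hG]
  refine hF.shift B X 1 X.dim X.dim _ hGm (by rw [hB, add_comm]) hG0 1 c ?_
  exact (hF.one B 1 c).2 ⟨by exact_mod_cast hc.1, hc.2⟩

/-- `F^2 CH_0(X)` is contained in the kernel of the Albanese map. -/
lemma albaneseKer_of_two {F : Filtration C} (hF : IsBBHom H F) {x : C.A X}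
    (hx : F.Mem X.dim 2 x) : AlbaneseKer H x := by
  refine ⟨(hF.one X X.dim x).1 (F.anti X X.dim 1 hx), fun B Γ hB hΓ => ?_⟩
  have h1 := hF.act X B X.dim 1 1 Γ (by exact_mod_cast hΓ) (add_comm _ _) 2 x hx
  exact hF.top B 1 _ h1

/-- The case `i = 1`: a correspondence whose transpose kills `H^1` acts as zero on `Gr^1 CH_0`. -/
lemma shift_one (hCu : HasCurves H) {F : Filtration C} (hF : IsBBHom H F) {n : ℕ}
    (hX : X.dim = n) (hY : Y.dim = n) (hn : 1 ≤ n) {Γ : C.A (X.prod Y)} (hΓ : C.Deg n Γ)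
    (h : Kills H (tp C Γ) 1) {x : C.A X} (hx : F.Mem n 1 x) : F.Mem n 2 (C.act Γ x) := by
  have hx' : HomTrivial H X.dim x := by
    rw [hX]; exact (hF.one X n x).1 hx
  obtain ⟨B, c, Δ, hB, hc, hΔ, rfl⟩ := hCu.support X (by omega) x hx'
  obtain ⟨τ, hτ, hτ'⟩ := exists_CK_curve (C := C) H B hB
  have hc1 : c ∈ C.gr B B.dim := by rw [hB]; exact_mod_cast hc.1
  have hτc : C.act (τ 1) c = c := by
    rw [hτ' c (by exact_mod_cast hc.1) (hasDegree_zero_of_cl H hc1 hc.2) 1, if_pos rfl]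
  have hG : C.act (C.comp (τ 1) (C.comp Δ Γ)) c = C.act Γ (C.act Δ c) := by
    rw [C.act_comp, C.act_comp, hτc]
  have hGm : C.comp (τ 1) (C.comp Δ Γ) ∈ C.gr (B.prod Y) n := by
    have h5 : Δ ∈ C.gr (B.prod X) (B.dim + ((n : ℤ) - B.dim)) := by
      have e1 : (B.dim : ℤ) + ((n : ℤ) - B.dim) = X.dim := by rw [hX]; ring
      rw [e1]; exact hΔ
    have h6 : Γ ∈ C.gr (X.prod Y) (X.dim + 0) := by
      rw [add_zero, hX]; exact hΓ
    have h7 : τ 1 ∈ C.gr (B.prod B) (B.dim + 0) := by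
      rw [add_zero]; exact hτ.deg 1
    have h8 := comp_mem C h7 (comp_mem C h5 h6)
    have e3 : (B.dim : ℤ) + (0 + (((n : ℤ) - B.dim) + 0)) = n := by ring
    rwa [e3] at h8
  have hG0 : H.cl (C.comp (τ 1) (C.comp Δ Γ)) = 0 := by
    apply cl_zero_of_tp
    intro m a ha
    rw [tp_comp C (ch_comm C), tp_comp C (ch_comm C), actH_comp, actH_comp]
    have h9 : H.act (H.cl (tp C Γ)) a ∈ H.gr X m :=
      act_mem_gr (n := n) (tp_mem C hΓ) hY.symm ha
    have h10 : H.act (H.cl (tp C Δ)) (H.act (H.cl (tp C Γ)) a) ∈ H.gr B m :=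
      act_mem_gr (n := X.dim) (tp_mem C hΔ) rfl h9
    have h11 : tp C (τ 1) = dualCK C τ 1 := by
      unfold dualCK
      rw [if_pos (by omega), hB]
    rw [h11, hτ.dual.actH_eq 1 m h10]
    split_ifs with hm
    · have h12 : H.act (H.cl (tp C Γ)) a = 0 :=
        h a (by rw [← (by exact_mod_cast hm : m = 1)]; exact ha)
      rw [h12, TheoryData.act_map_zero]
    · rfl
  rw [← hG]
  refine hF.shift B Y 1 n n _ hGm (by rw [hB, add_comm]) hG0 1 c ?_
  exact (hF.one B 1 c).2 ⟨by exact_mod_cast hc.1, hc.2⟩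

/-- The case `i = 2`: a correspondence whose transpose maps `H^2` to divisor classes on surfaces
acts as zero on `Gr^2 CH_0`. -/
lemma shift_two (hCu : HasCurves H) (hSu : HasSurfaces H) {F : Filtration C} (hF : IsBBHom H F)
    {n : ℕ} (hX : X.dim = n) (hY : Y.dim = n) (hn : 2 ≤ n) {Γ : C.A (X.prod Y)} (hΓ : C.Deg n Γ)
    (h : ∀ (S : 𝒱.Obj) (Φ : C.A (S.prod X)), S.dim = 2 → C.Deg n Φ → ∀ a ∈ H.gr Y 2,
      H.act (H.cl (tp C (C.comp Φ Γ))) a ∈
        Submodule.span K {c | ∃ z : C.A S, C.Deg 1 z ∧ H.cl z = c})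
    {x : C.A X} (hx : F.Mem n 2 x) : F.Mem n 3 (C.act Γ x) := by
  have hx' : AlbaneseKer H x := albaneseKer_of_two hF (by rw [hX]; exact hx)
  obtain ⟨S, y, Φ, hS, hy, hΦ, rfl⟩ := hSu.support X (by omega) x hx'
  obtain ⟨t, ht, hty, ht1, ht2⟩ := hSu.murre S hS
  have htm : t ∈ C.gr (S.prod S) (S.dim + 0) := by rw [add_zero, hS]; exact_mod_cast ht
  let G : C.A (S.prod Y) := C.comp t (C.comp Φ Γ)
  have hG : C.act G y = C.act Γ (C.act Φ y) := by
    simp only [G]
    rw [C.act_comp, C.act_comp, hty y hy]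
  have hΦm : Φ ∈ C.gr (S.prod X) (S.dim + ((n : ℤ) - S.dim)) := by
    have e1 : (S.dim : ℤ) + ((n : ℤ) - S.dim) = X.dim := by rw [hX]; ring
    rw [e1]; exact hΦ
  have hΓm : Γ ∈ C.gr (X.prod Y) (X.dim + 0) := by rw [add_zero, hX]; exact hΓ
  have hGm : G ∈ C.gr (S.prod Y) n := by
    have h8 := comp_mem C htm (comp_mem C hΦm hΓm)
    have e3 : (S.dim : ℤ) + (0 + (((n : ℤ) - S.dim) + 0)) = n := by ring
    rwa [e3] at h8
  have hG0 : H.cl G = 0 := by
    apply cl_zero_of_tp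
    intro l a ha
    simp only [G]
    rw [tp_comp C (ch_comm C), actH_comp]
    have h10 : H.act (H.cl (tp C (C.comp Φ Γ))) a ∈ H.gr S l := by
      rw [tp_comp C (ch_comm C), actH_comp]
      exact act_mem_gr (n := X.dim) (tp_mem C hΦ) rfl
        (act_mem_gr (n := n) (tp_mem C hΓ) hY.symm ha)
    by_cases hl : l = 2
    · subst hl
      have h12 := h S Φ hS (by rw [← hX]; exact hΦ) a ha
      have h13 : (Submodule.span K {c | ∃ z : C.A S, C.Deg 1 z ∧ H.cl z = c}) ≤
          LinearMap.ker (H.actL (H.cl (tp C t))) := by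
        rw [Submodule.span_le]
        rintro _ ⟨z, hz, rfl⟩
        exact ht2 z hz
      exact h13 h12
    · exact ht1 l _ hl h10
  rw [← hG]
  have hyF : F.Mem 2 2 y := by
    have := two_of_albaneseKer hCu hF (by omega) hy
    rwa [hS] at this
  exact hF.shift S Y 2 n n G hGm (by rw [hS, add_comm]) hG0 2 y hyF

end filtration

section main

variable {H : WeilTheoryData.{u, v, 0} C ℂ} [hH : IsWeilProj H] {D : HodgeData H}

include hC hH

/-- **The generalized Bloch conjecture for zero-cycles holds for `i ≤ 2`.** -/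
theorem bloch_low_degrees (hD : IsComplex D) {F : Filtration C} (hF : IsBBHom H F) {n i : ℕ}
    (hi : i ≤ n) (hi2 : i ≤ 2) : GenBloch D F n i := by
  obtain ⟨hD, hDF, hCu, hSu⟩ := hD
  intro X Y hX hY Γ hΓ h x hx
  have hi3 : i = 0 ∨ i = 1 ∨ i = 2 := by omega
  rcases hi3 with rfl | rfl | rfl
  · have h0 : Kills H (tp C Γ) 0 := kills_gr_zero hD (fun a ha => h a (by exact_mod_cast ha))
    have hx' := (hF.zero X n x).1 hx
    refine (hF.one Y n _).2 ⟨?_, ?_⟩
    · have h2 : Γ ∈ C.gr (X.prod Y) (X.dim + 0) := by rw [add_zero, hX]; exact hΓ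
      have := act_mem' C h2 hx'
      rwa [add_zero] at this
    · apply H.nondeg
      have h1 : H.tr Y ∘ₗ LinearMap.mulLeft ℂ (H.cl (C.act Γ x)) = 0 := by
        apply ext_gr H
        intro j b hb
        rw [LinearMap.comp_apply, LinearMap.mulLeft_apply, LinearMap.zero_apply, cl_act H,
          ← tr_act]
        by_cases hj : j = 0
        · subst hj
          rw [h0 b hb, mul_zero, map_zero]
        · have h3 : H.act (H.cl (tp C Γ)) b ∈ H.gr X j :=
            act_mem_gr (n := n) (tp_mem C hΓ) hY.symm hb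
          have h4 := H.mul_mem (H.cl_mem hx') h3
          exact tr_zero H h4 (by rw [hX]; omega)
      intro b
      exact LinearMap.congr_fun h1 b
  · exact shift_one hCu hF hX hY (by omega) hΓ
      (kills_gr_one hD hDF (fun a ha => h a (by exact_mod_cast ha))) hx
  · refine shift_two hCu hSu hF hX hY (by omega) hΓ ?_ hx
    intro S Φ hS hΦ a ha
    have h1 : C.Deg Y.dim (tp C (C.comp Φ Γ)) := by
      rw [hY]
      apply tp_mem
      have hΦm : Φ ∈ C.gr (S.prod X) (S.dim + ((n : ℤ) - S.dim)) := by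
        have e1 : (S.dim : ℤ) + ((n : ℤ) - S.dim) = n := by ring
        rw [e1]; exact hΦ
      have hΓm : Γ ∈ C.gr (X.prod Y) (X.dim + 0) := by rw [add_zero, hX]; exact hΓ
      have h8 := comp_mem C hΦm hΓm
      have e3 : (S.dim : ℤ) + (((n : ℤ) - S.dim) + 0) = n := by ring
      rwa [e3] at h8
    refine act_mem_span hD hDF h1 ?_ ha
    intro ω hω
    have h2 : H.act (H.cl (tp C Γ)) ω = 0 := h ω (by exact_mod_cast hω)
    rw [tp_comp C (ch_comm C), actH_comp, h2, TheoryData.act_map_zero]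

end main

end Pool.Agent.TH133
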