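import Pool.Agent.TH133.SelfDual

/-!
# Products with varieties with a hyperbolic decomposition of the diagonal
-/

open CategoryTheory AlgebraicGeometry

universe u v w

namespace Pool.Agent.TH133

open Pool.Agent.H914 Pool.Agent.H914.VarClass Pool.Agent.H914.VarClass.Obj Pool.Agent.W492.BB
  Pool.Agent.W550.Corr

set_option linter.unusedSectionVars false

variable {k : Type u} [Field k] {𝒱 : VarClass k}

variable {C : TheoryData.{u, v, 0} 𝒱 ℚ} [hC : IsChowProj C] {K : Type w} [Field K]
  {H : WeilTheoryData.{u, v, w} C K} [hH : IsWeilProj H] {X Y Z W P : 𝒱.Obj}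

/-- The shift of a family. -/
noncomputable def sh (p : ℕ → C.A (X.prod X)) (c n : ℕ) : C.A (X.prod X) :=
  if c ≤ n then p (n - c) else 0

include hC

lemma tens_mul (Γ Γ' : C.A (X.prod X)) (Δ Δ' : C.A (P.prod P)) :
    C.comp (tens C Γ Δ) (tens C Γ' Δ') = tens C (C.comp Γ Γ') (C.comp Δ Δ') :=
  tens_comp' _ _ _ _

lemma tens_add_right (Γ : C.A (X.prod Y)) (Δ Δ' : C.A (Z.prod W)) :
    tens C Γ (Δ + Δ') = tens C Γ Δ + tens C Γ Δ' := map_add (tensL Γ) _ _

lemma tens_sum_right {ι : Type*} (s : Finset ι) (Γ : C.A (X.prod Y)) (Δ : ι → C.A (Z.prod W)) :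
    tens C Γ (∑ i ∈ s, Δ i) = ∑ i ∈ s, tens C Γ (Δ i) := map_sum (tensL Γ) _ _

lemma tens_sum_left {ι : Type*} (s : Finset ι) (Γ : ι → C.A (X.prod Y)) (Δ : C.A (Z.prod W)) :
    tens C (∑ i ∈ s, Γ i) Δ = ∑ i ∈ s, tens C (Γ i) Δ := by
  rw [← tensL_apply, map_sum, LinearMap.sum_apply]
  rfl

lemma tens_smul_right (q : ℚ) (Γ : C.A (X.prod Y)) (Δ : C.A (Z.prod W)) :
    tens C Γ (q • Δ) = q • tens C Γ Δ := map_smul (tensL Γ) _ _

include hH

lemma sh_comp {p : ℕ → C.A (X.prod X)} (h : IsCK H X p) (c m n : ℕ) :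
    C.comp (sh p c m) (sh p c n) = if m = n then sh p c m else 0 := by
  unfold sh
  by_cases hm : c ≤ m
  · by_cases hn : c ≤ n
    · rw [if_pos hm, if_pos hn, h.comp_eq]
      by_cases hmn : m = n
      · rw [if_pos (by omega), if_pos hmn]
      · rw [if_neg (by omega), if_neg hmn]
    · rw [if_neg hn, comp_zero, if_neg (by omega)]
  · rw [if_neg hm, zero_comp]
    split_ifs <;> rfl

lemma sh_mem {p : ℕ → C.A (X.prod X)} (h : IsCK H X p) (c n : ℕ) :
    sh p c n ∈ C.gr (X.prod X) X.dim := by
  unfold sh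
  split_ifs
  · exact h.deg _
  · exact Submodule.zero_mem _

lemma sh_out {p : ℕ → C.A (X.prod X)} (h : IsCK H X p) (c n : ℕ) (hn : 2 * X.dim + c < n) :
    sh p c n = 0 := by
  unfold sh
  rw [if_pos (by omega), h.out _ (by omega)]

lemma sh_sum {p : ℕ → C.A (X.prod X)} (h : IsCK H X p) (c N : ℕ) (hN : 2 * X.dim + c + 1 ≤ N) :
    ∑ n ∈ Finset.range N, sh p c n = dg C X := by
  obtain ⟨M, rfl⟩ := Nat.exists_eq_add_of_le (show c ≤ N by omega)
  rw [Finset.sum_range_add, Finset.sum_eq_zero, zero_add]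
  · rw [← h.sum_of_le (N := M) (by omega)]
    apply Finset.sum_congr rfl
    intro i _
    unfold sh
    rw [if_pos (by omega)]
    congr 1
    omega
  · intro i hi
    rw [Finset.mem_range] at hi
    unfold sh
    rw [if_neg (by omega)]

lemma sh_act {p : ℕ → C.A (X.prod X)} (h : IsCK H X p) (c n : ℕ) (m : ℤ) {a : H.A X}
    (ha : a ∈ H.gr X m) : H.act (H.cl (sh p c n)) a = if m + c = n then a else 0 := by
  unfold sh
  split_ifs with h1 h2 h2
  · rw [h.actH_eq _ _ ha, if_pos (by omega)]
  · rw [h.actH_eq _ _ ha, if_neg (by omega)]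
  · rw [actH_zero]
    by_contra hne
    have := nonneg_of_mem H ha (Ne.symm hne)
    omega
  · rw [actH_zero]

lemma sh_tp {p : ℕ → C.A (X.prod X)} (h : IsCK H X p) (c e n : ℕ) (hc : c ≤ 2 * e)
    (hn : n ≤ 2 * (X.dim + e)) :
    tp C (sh p c n) = sh (dualCK C p) (2 * e - c) (2 * (X.dim + e) - n) := by
  unfold sh dualCK
  by_cases h1 : c ≤ n
  · rw [if_pos h1]
    by_cases h2 : n ≤ 2 * X.dim + c
    · rw [if_pos (by omega), if_pos (by omega)]
      congr 2
      omega
    · rw [if_neg (by omega), h.out _ (by omega), tp_zero]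
  · rw [if_neg h1, tp_zero, if_pos (by omega), if_neg (by omega)]

lemma act_ext_ne {r : ℕ} {a b : C.A P} (_ha : a ∈ C.gr P r) (hb : b ∈ C.gr P ((P.dim : ℤ) - r))
    {j : ℤ} (hj : j ≠ 2 * r) {y : H.A P} (hy : y ∈ H.gr P j) :
    H.act (H.cl (C.ext b a)) y = 0 := by
  have h1 : H.cl (C.ext b a) = H.ext (H.cl b) (H.cl a) := by
    rw [TheoryData.ext, map_mul, H.cl_pull, H.cl_pull]
    rfl
  have h2 : H.cl b * y ∈ H.gr P (2 * ((P.dim : ℤ) - r) + j) := H.mul_mem (H.cl_mem hb) hy
  have h3 : H.push (snd P P) (H.pull (fst P P) (H.cl b * y)) = 0 := by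
    rcases lt_or_gt_of_ne hj with h | h
    · have h4 := H.push_mem (snd P P) (H.pull_mem (fst P P) h2)
      rw [H.gr_neg P _ (by rw [dim_prod]; push_cast; omega)] at h4
      exact (Submodule.mem_bot _).1 h4
    · rw [gr_top H (by omega)] at h2
      rw [(Submodule.mem_bot _).1 h2, map_zero, map_zero]
  rw [TheoryData.act_apply, h1, TheoryData.ext, mul_assoc, ← H.cl_pull, ← H.cl_pull,
    H.cl_central (C.pull (snd P P) a), ← mul_assoc, H.cl_pull, H.cl_pull, ← map_mul, H.proj_right,
    h3, zero_mul]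

/-- **Products with varieties with a hyperbolic decomposition of the diagonal have self-dual
decompositions.** -/
theorem exists_selfDual_prod (X P : 𝒱.Obj) (hP : HyperbolicDiagonal C P)
    {p : ℕ → C.A (X.prod X)} (hp : IsCK H X p) :
    ∃ π, IsCK H (X.prod P) π ∧ IsSelfDual C π := by
  obtain ⟨M, r, a, b, hab, hab1, haa, hbb, hdg⟩ := hP
  set e := P.dim with he
  have hp' := hp.dual
  set p' := dualCK C p with hp'def
  have hEE : ∀ s t, C.comp (C.ext (b s) (a s)) (C.ext (b t) (a t)) =
      if s = t then C.ext (b s) (a s) else 0 := by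
    intro s t
    rw [comp_ext_ext (hab1 s t)]
    split_ifs with h
    · rw [one_smul, h]
    · rw [zero_smul]
  have hFF : ∀ s t, C.comp (C.ext (a s) (b s)) (C.ext (a t) (b t)) =
      if s = t then C.ext (a s) (b s) else 0 := by
    intro s t
    have h1 : HasDegree C (b s * a t) (if t = s then 1 else 0) := by
      rw [ch_comm C]; exact hab1 t s
    rw [comp_ext_ext h1]
    by_cases h : s = t
    · rw [if_pos h.symm, if_pos h, one_smul, h]
    · rw [if_neg (Ne.symm h), if_neg h, zero_smul]
  have hEF : ∀ s t, C.comp (C.ext (b s) (a s)) (C.ext (a t) (b t)) = 0 := by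
    intro s t
    rw [comp_ext_ext (haa s t), zero_smul]
  have hFE : ∀ s t, C.comp (C.ext (a s) (b s)) (C.ext (b t) (a t)) = 0 := by
    intro s t
    rw [comp_ext_ext (hbb s t), zero_smul]
  let A : Fin M → ℕ → C.A ((X.prod P).prod (X.prod P)) := fun s n =>
    tens C (sh p (2 * r s) n) (C.ext (b s) (a s))
  let B : Fin M → ℕ → C.A ((X.prod P).prod (X.prod P)) := fun s n =>
    tens C (sh p' (2 * e - 2 * r s) n) (C.ext (a s) (b s))
  have hAA : ∀ s t m n, C.comp (A s m) (A t n) = if s = t ∧ m = n then A s m else 0 := by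
    intro s t m n
    simp only [A]
    rw [tens_mul, hEE]
    by_cases hst : s = t
    · subst hst
      rw [if_pos rfl, sh_comp hp]
      by_cases hmn : m = n
      · rw [if_pos hmn, if_pos ⟨rfl, hmn⟩]
      · rw [if_neg hmn, if_neg (fun h => hmn h.2), tens_zero_left]
    · rw [if_neg hst, if_neg (fun h => hst h.1), tens_zero_right]
  have hBB : ∀ s t m n, C.comp (B s m) (B t n) = if s = t ∧ m = n then B s m else 0 := by
    intro s t m n
    simp only [B]
    rw [tens_mul, hFF]
    by_cases hst : s = t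
    · subst hst
      rw [if_pos rfl, sh_comp hp']
      by_cases hmn : m = n
      · rw [if_pos hmn, if_pos ⟨rfl, hmn⟩]
      · rw [if_neg hmn, if_neg (fun h => hmn h.2), tens_zero_left]
    · rw [if_neg hst, if_neg (fun h => hst h.1), tens_zero_right]
  have hAB : ∀ s t m n, C.comp (A s m) (B t n) = 0 := by
    intro s t m n
    simp only [A, B]
    rw [tens_mul, hEF, tens_zero_right]
  have hBA : ∀ s t m n, C.comp (B s m) (A t n) = 0 := by
    intro s t m n
    simp only [A, B]
    rw [tens_mul, hFE, tens_zero_right]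
  let Q : ℕ → C.A ((X.prod P).prod (X.prod P)) := fun n => ∑ s, (A s n + B s n)
  have hQQ : ∀ m n, C.comp (Q m) (Q n) = if m = n then Q m else 0 := by
    intro m n
    simp only [Q]
    rw [comp_sum]
    simp_rw [sum_comp, comp_add, add_comp, hAA, hBB, hAB, hBA, add_zero, zero_add]
    split_ifs with hmn
    · apply Finset.sum_congr rfl
      intro s _
      rw [Finset.sum_eq_single s]
      · rw [if_pos ⟨rfl, hmn⟩, if_pos ⟨rfl, hmn⟩]
      · intro t _ hts
        rw [if_neg (fun h => hts h.1), if_neg (fun h => hts h.1), add_zero]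
      · intro h
        exact absurd (Finset.mem_univ s) h
    · apply Finset.sum_eq_zero
      intro s _
      apply Finset.sum_eq_zero
      intro t _
      rw [if_neg (fun h => hmn h.2), if_neg (fun h => hmn h.2), add_zero]
  have hdimr : ∀ s, 2 * r s ≤ 2 * e := fun s => by have := (hab s).1; omega
  have hact : ∀ (n : ℕ) (m : ℤ), ∀ c ∈ H.gr (X.prod P) m,
      H.act (H.cl (Q n)) c = if m = n then c else 0 := by
    intro n m c hc
    have h1 := H.kunneth X P m hc
    clear hc
    induction h1 using Submodule.span_induction with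
    | mem z hz =>
      obtain ⟨l, x, y, hx, hy, rfl⟩ := hz
      have e0 : H.pull (fst X P) x * H.pull (snd X P) y = H.ext x y := rfl
      rw [e0]
      simp only [Q, A, B]
      rw [map_sum, act_sum]
      simp_rw [map_add, TheoryData.act_add, actH_tens_ext, sh_act hp _ _ _ hx,
        sh_act hp' _ _ _ hx]
      -- the components of `y`
      have hy1 : ∀ s, m - l ≠ 2 * r s → H.act (H.cl (C.ext (b s) (a s))) y = 0 := fun s hs =>
        act_ext_ne (hab s).2.1 (hab s).2.2 hs hy
      have hy2 : ∀ s, m - l ≠ ((2 * e - 2 * r s : ℕ) : ℤ) →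
          H.act (H.cl (C.ext (a s) (b s))) y = 0 := fun s hs => by
        have hr := (hab s).1
        have hb' : b s ∈ C.gr P ((e - r s : ℕ) : ℤ) := by
          rw [Nat.cast_sub hr]; exact (hab s).2.2
        have ha' : a s ∈ C.gr P ((P.dim : ℤ) - ((e - r s : ℕ) : ℤ)) := by
          rw [Nat.cast_sub hr, ← he, sub_sub_cancel]; exact (hab s).2.1
        exact act_ext_ne hb' ha' (by omega) hy
      have hysum : ∑ s, (H.act (H.cl (C.ext (b s) (a s))) y +
          H.act (H.cl (C.ext (a s) (b s))) y) = y := by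
        have h2 : H.act (H.cl (dg C P)) y = y := actH_dg H y
        rw [hdg, map_sum, act_sum] at h2
        simp_rw [map_add, TheoryData.act_add] at h2
        conv_rhs => rw [← h2]
        exact Finset.sum_congr rfl fun s _ => add_comm _ _
      have hextsum : H.ext x y = ∑ s, (H.ext x (H.act (H.cl (C.ext (b s) (a s))) y) +
          H.ext x (H.act (H.cl (C.ext (a s) (b s))) y)) := by
        conv_lhs => rw [← hysum]
        simp only [TheoryData.ext, map_sum, map_add, Finset.mul_sum, mul_add]
      by_cases hmn : m = n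
      · rw [if_pos hmn]
        conv_rhs => rw [hextsum]
        apply Finset.sum_congr rfl
        intro s _
        congr 1
        · by_cases hs : m - l = 2 * r s
          · rw [if_pos (by push_cast; omega)]
          · rw [hy1 s hs, TheoryData.ext_zero_right, TheoryData.ext_zero_right]
        · by_cases hs : m - l = ((2 * e - 2 * r s : ℕ) : ℤ)
          · rw [if_pos (by omega)]
          · rw [hy2 s hs, TheoryData.ext_zero_right, TheoryData.ext_zero_right]
      · rw [if_neg hmn]
        apply Finset.sum_eq_zero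
        intro s _
        have e1 : H.ext (if l + ((2 * r s : ℕ) : ℤ) = n then x else 0)
            (H.act (H.cl (C.ext (b s) (a s))) y) = 0 := by
          by_cases hs : m - l = 2 * r s
          · rw [if_neg (by push_cast; omega), TheoryData.ext_zero_left]
          · rw [hy1 s hs, TheoryData.ext_zero_right]
        have e2 : H.ext (if l + ((2 * e - 2 * r s : ℕ) : ℤ) = n then x else 0)
            (H.act (H.cl (C.ext (a s) (b s))) y) = 0 := by
          by_cases hs : m - l = ((2 * e - 2 * r s : ℕ) : ℤ)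
          · rw [if_neg (by omega), TheoryData.ext_zero_left]
          · rw [hy2 s hs, TheoryData.ext_zero_right]
        rw [e1, e2, add_zero]
    | zero =>
      rw [TheoryData.act_map_zero]
      split_ifs <;> rfl
    | add x y _ _ hx hy =>
      rw [act_map_add, hx, hy]
      split_ifs
      · rfl
      · exact add_zero 0
    | smul r x _ hx =>
      rw [act_map_smul, hx]
      split_ifs
      · rfl
      · exact smul_zero r
  refine ⟨Q, ⟨fun n => ?_, fun n hn => ?_, fun n => ?_, fun m n hmn => ?_, ?_, fun n c hc => ?_,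
    fun n m c hm hc => ?_⟩, fun n hn => ?_⟩
  · simp only [Q, A, B]
    apply Submodule.sum_mem
    intro s _
    have e1 : (((X.prod P).dim : ℕ) : ℤ) = X.dim + (((P.dim : ℤ) - r s) + r s) := by
      rw [dim_prod]; push_cast; ring
    have e2 : (((X.prod P).dim : ℕ) : ℤ) = X.dim + ((r s : ℤ) + ((P.dim : ℤ) - r s)) := by
      rw [dim_prod]; push_cast; ring
    apply Submodule.add_mem
    · have := tens_mem C (sh_mem hp (2 * r s) n) (ext_mem' (hab s).2.2 (hab s).2.1)
      change _ ∈ C.gr _ (((X.prod P).dim : ℕ) : ℤ)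
      rw [e1]
      exact this
    · have := tens_mem C (sh_mem hp' (2 * e - 2 * r s) n) (ext_mem' (hab s).2.1 (hab s).2.2)
      change _ ∈ C.gr _ (((X.prod P).dim : ℕ) : ℤ)
      rw [e2]
      exact this
  · simp only [Q, A, B]
    rw [dim_prod] at hn
    apply Finset.sum_eq_zero
    intro s _
    have hs := hdimr s
    rw [sh_out hp _ _ (by omega), sh_out hp' _ _ (by omega), tens_zero_left, tens_zero_left,
      add_zero]
  · rw [hQQ, if_pos rfl]
  · rw [hQQ, if_neg hmn]
  · simp only [Q, A, B]
    rw [Finset.sum_comm, ← tens_dg C, hdg, tens_sum_right]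
    apply Finset.sum_congr rfl
    intro s _
    have hs := hdimr s
    rw [Finset.sum_add_distrib, ← tens_sum_left, ← tens_sum_left,
      sh_sum hp _ _ (by rw [dim_prod]; omega), sh_sum hp' _ _ (by rw [dim_prod]; omega),
      tens_add_right, add_comm]
  · rw [hact _ _ _ hc, if_pos rfl]
  · rw [hact _ _ _ hc, if_neg hm]
  · simp only [Q, A, B]
    rw [dim_prod] at hn ⊢
    rw [tp_sum]
    apply Finset.sum_congr rfl
    intro s _
    have hs := hdimr s
    rw [tp_add, tp_tens, tp_tens, tp_ext, tp_ext, sh_tp hp _ e _ hs hn,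
      sh_tp hp' _ e _ (by omega) hn, dualCK_dualCK hp, add_comm]
    congr 3
    omega

end Pool.Agent.TH133
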