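import Pool.Agent.TH133.Base

/-!
# The filtrations attached to Chow-Kunneth decompositions
-/

open CategoryTheory AlgebraicGeometry

universe u v w

namespace Pool.Agent.TH133

open Pool.Agent.H914 Pool.Agent.H914.VarClass Pool.Agent.H914.VarClass.Obj Pool.Agent.W492.BB
  Pool.Agent.W550.Corr

set_option linter.unusedSectionVars false

variable {k : Type u} [Field k] {𝒱 : VarClass k} {C : TheoryData.{u, v, 0} 𝒱 ℚ}
  [hC : IsChowProj C] {K : Type w} [Field K]
  {H : WeilTheoryData.{u, v, w} C K} [hH : IsWeilProj H] {X Y Z W : 𝒱.Obj}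

include hC hH

lemma IsCK.mem_ckFil {π : ℕ → C.A (X.prod X)} (h : IsCK H X π) (i n : ℕ) (x : C.A X) :
    x ∈ ckFil C π i n ↔ x ∈ C.gr X i ∧ ∀ j, 2 * i + 1 - n ≤ j → C.act (π j) x = 0 := by
  have hact : ∀ j m (y : C.A X), C.act (π m) (C.act (π j) y) =
      if j = m then C.act (π j) y else 0 := by
    intro j m y
    rw [← C.act_comp, h.comp_eq]
    split_ifs
    · rfl
    · exact C.act_zero y
  constructor
  · rintro ⟨y, hy, rfl⟩
    rw [TheoryData.actL_apply, act_sum]
    refine ⟨Submodule.sum_mem _ fun j _ => act_mem0 C (h.deg j) hy, fun m hm => ?_⟩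
    rw [act_map_sum]
    apply Finset.sum_eq_zero
    intro j hj
    rw [Finset.mem_range] at hj
    rw [hact, if_neg (by omega)]
  · rintro ⟨hx, hx'⟩
    refine ⟨x, hx, ?_⟩
    rw [TheoryData.actL_apply]
    have h1 : C.act (∑ j ∈ Finset.range (2 * X.dim + 1 + (2 * i + 1 - n)), π j) x = x := by
      rw [h.sum_of_le (by omega), act_dg]
    rw [act_sum] at h1 ⊢
    rw [← h1]
    have h2 : ∀ j ∈ Finset.range (2 * i + 1 - n), C.act (π j) (∑ i ∈ Finset.range
        (2 * X.dim + 1 + (2 * i + 1 - n)), C.act (π i) x) = C.act (π j) x := by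
      intro j _
      rw [h1]
    rw [Finset.sum_congr rfl h2]
    apply Finset.sum_subset
    · intro j hj
      rw [Finset.mem_range] at *
      omega
    · intro j _ hj
      rw [Finset.mem_range] at hj
      exact hx' j (by omega)

lemma murreB0_iff (X : 𝒱.Obj) : MurreB0 H X ↔ ∀ π, IsCK H X π → ∀ (i j : ℕ) (x : C.A X),
    x ∈ C.gr X i → 2 * i < j → C.act (π j) x = 0 := by
  constructor
  · intro h π hπ i j x hx hj
    have h1 := h π hπ i
    rw [← h1, hπ.mem_ckFil] at hx
    exact hx.2 j (by omega)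
  · intro h π hπ i
    ext x
    rw [hπ.mem_ckFil]
    exact ⟨fun h' => h'.1, fun hx => ⟨hx, fun j hj => h π hπ i j x hx (by omega)⟩⟩

lemma IsCK.mul_eq {P : ℕ → Cor C X} (h : IsCK H X P) (i j : ℕ) :
    P i * P j = if i = j then P i else 0 := by
  have h1 : P i * P j = if j = i then P j else (0 : Cor C X) := h.comp_eq j i
  rw [h1]
  by_cases h2 : i = j
  · subst h2
    rfl
  · rw [if_neg h2, if_neg (Ne.symm h2)]

lemma IsCK.sum_eq {P : ℕ → Cor C X} (h : IsCK H X P) :
    ∑ i ∈ Finset.range (2 * X.dim + 1), P i = 1 := h.sum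

lemma IsCK.actH_eq' {P : ℕ → Cor C X} (h : IsCK H X P) (i : ℕ) (m : ℤ) {a : H.A X}
    (ha : a ∈ H.gr X m) : actH C X H (P i) a = if m = i then a else 0 := h.actH_eq i m ha

lemma actH_mem0 {a : Cor C X} (ha : a ∈ cor0 C X) {m : ℤ} {x : H.A X} (hx : x ∈ H.gr X m) :
    actH C X H a x ∈ H.gr X m := by
  have h2 : (a : C.A (X.prod X)) ∈ C.gr (X.prod X) (X.dim + 0) := by rw [add_zero]; exact ha
  have := actH_mem H h2 hx
  rwa [mul_zero, add_zero] at this

/-- A criterion for Chow-Kunneth decompositions in terms of the ring of correspondences. -/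
lemma isCK_of {P : ℕ → Cor C X} (hm : ∀ i, P i ∈ cor0 C X) (hout : ∀ i, 2 * X.dim < i → P i = 0)
    (hmul : ∀ i j, P i * P j = if i = j then P i else 0)
    (hsum : ∑ i ∈ Finset.range (2 * X.dim + 1), P i = 1)
    (hact : ∀ (i : ℕ) (m : ℤ) (a : H.A X), a ∈ H.gr X m →
      actH C X H (P i) a = if m = i then a else 0) : IsCK H X P where
  deg := hm
  out := hout
  idem i := by
    have h1 := hmul i i
    rw [if_pos rfl] at h1
    exact h1
  orth i j hij := by
    have h1 := hmul j i
    rw [if_neg hij.symm] at h1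
    exact h1
  sum := hsum
  act_self i a ha := by
    have h1 := hact i i a ha
    rw [if_pos rfl] at h1
    exact h1
  act_ne i m a hm ha := by
    have h1 := hact i m a ha
    rw [if_neg hm] at h1
    exact h1

/-- Conjugation of a Chow-Kunneth decomposition by a unit acting as the identity on the
cohomology. -/
lemma IsCK.conj {P : ℕ → Cor C X} (h : IsCK H X P) {u v : Cor C X} (hu : u ∈ cor0 C X)
    (hv : v ∈ cor0 C X) (huv : u * v = 1) (hvu : v * u = 1)
    (hact : ∀ a : H.A X, actH C X H u a = a) :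
    IsCK H X (fun i => (u * P i * v : Cor C X)) := by
  have hact' : ∀ a : H.A X, actH C X H v a = a := by
    intro a
    have h1 : actH C X H (v * u) a = a := by rw [hvu, map_one]; rfl
    rw [map_mul, Module.End.mul_apply, hact] at h1
    exact h1
  have hπ : ∀ i, P i ∈ cor0 C X := h.deg
  have hcomp : ∀ i j, (u * P i * v) * (u * P j * v) = u * (P i * P j) * v := by
    intro i j
    calc (u * P i * v) * (u * P j * v) = u * P i * (v * u) * P j * v := by
          simp only [mul_assoc]
      _ = _ := by rw [hvu, mul_one, mul_assoc u]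
  have hcoh : ∀ i, ∀ a : H.A X, actH C X H (u * P i * v) a = actH C X H (P i) a := by
    intro i a
    rw [map_mul, map_mul, Module.End.mul_apply, Module.End.mul_apply, hact', hact]
  apply isCK_of
  · exact fun i => (cor0 C X).mul_mem ((cor0 C X).mul_mem hu (hπ i)) hv
  · intro i hi
    have h1 : P i = 0 := h.out i hi
    rw [h1, mul_zero, zero_mul]
  · intro i j
    rw [hcomp, h.mul_eq]
    split_ifs
    · rfl
    · rw [mul_zero, zero_mul]
  · rw [← Finset.sum_mul, ← Finset.mul_sum, h.sum_eq, mul_one, huv]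
  · intro i m a ha
    rw [hcoh, h.actH_eq' i m ha]

/-- The degree of a zero-cycle depends only on its cohomology class. -/
lemma deg_eq_of_cl {x y : C.A X} (hx : x ∈ C.gr X X.dim) (hy : y ∈ C.gr X X.dim)
    (h : H.cl x = H.cl y) (Y : 𝒱.Obj) :
    C.push (snd X Y) (C.pull (fst X Y) x) = C.push (snd X Y) (C.pull (fst X Y) y) := by
  obtain ⟨q, hq⟩ := hC.degree X x hx
  obtain ⟨r, hr⟩ := hC.degree X y hy
  have h1 := (hq Y).1
  have h2 := (hr Y).1
  have h3 : H.cl (C.push (snd X Y) (C.pull (fst X Y) x)) =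
      H.cl (C.push (snd X Y) (C.pull (fst X Y) y)) := by
    rw [H.cl_push, H.cl_pull, H.cl_push, H.cl_pull, h]
  change C.push (snd X Y) (C.pull (fst X Y) x) = q • (1 : C.A Y) at h1
  change C.push (snd X Y) (C.pull (fst X Y) y) = r • (1 : C.A Y) at h2
  rw [h1, h2] at h3 ⊢
  by_cases hqr : q = r
  · rw [hqr]
  · exfalso
    have h4 : H.cl ((q - r) • (1 : C.A Y)) = 0 := by rw [sub_smul, map_sub, h3, sub_self]
    have h5 : (1 : C.A Y) = ((q - r)⁻¹ • (1 : C.A Y)) * ((q - r) • (1 : C.A Y)) := by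
      rw [smul_mul_smul_comm, inv_mul_cancel₀ (sub_ne_zero.2 hqr), one_smul, one_mul]
    have h6 : (1 : H.A Y) = 0 := by
      rw [← map_one H.cl, h5, map_mul, h4, mul_zero]
    exact hH.one_ne_zero Y h6

/-- The action of an external product. -/
lemma act_ext (v x : C.A X) (α : C.A Y) :
    C.act (C.ext v α) x = C.push (snd X Y) (C.pull (fst X Y) (v * x)) * α := by
  rw [TheoryData.act_apply, TheoryData.ext, map_mul (C.pull (fst X Y)), ← C.proj_right]
  congr 1
  rw [mul_assoc, ch_comm C (C.pull (snd X Y) α), mul_assoc]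

lemma ext_mem {i j : ℤ} {v : C.A X} {α : C.A Y} (hv : v ∈ C.gr X i) (hα : α ∈ C.gr Y j) :
    C.ext v α ∈ C.gr (X.prod Y) (i + j) := C.mul_mem (C.pull_mem _ hv) (C.pull_mem _ hα)

/-- Classes of complementary degrees with intersection number one. -/
lemma exists_dual_pair (X : 𝒱.Obj) {l : ℕ} (hl : l ≤ X.dim) :
    ∃ u ∈ C.gr X l, ∃ v ∈ C.gr X ((X.dim : ℤ) - l),
      C.push (snd X X) (C.pull (fst X X) (v * u)) = 1 := by
  obtain ⟨h, hh, q, hq, hhq⟩ := hC.polarized X
  have hpow : ∀ n : ℕ, h ^ n ∈ C.gr X n := by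
    intro n
    induction n with
    | zero =>
      rw [pow_zero]
      exact C.one_mem X
    | succ n ih =>
      rw [pow_succ]
      have := C.mul_mem ih hh
      exact_mod_cast this
  refine ⟨h ^ l, hpow l, q⁻¹ • h ^ (X.dim - l), ?_, ?_⟩
  · apply Submodule.smul_mem
    have := hpow (X.dim - l)
    rwa [Nat.cast_sub hl] at this
  · rw [smul_mul_assoc, map_smul, map_smul, ← pow_add, Nat.sub_add_cancel hl]
    change q⁻¹ • C.down (snd X X) (C.up (fst X X) (h ^ X.dim)) = 1
    rw [hhq, smul_smul, inv_mul_cancel₀ hq, one_smul]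

/-- **Independence of `F^0` implies that `F^0` is everything.** -/
theorem murreB0_of_C0 (X : 𝒱.Obj) (hX : MurreC0 H X) : MurreB0 H X := by
  rw [murreB0_iff]
  intro π hπ l j x hx hj
  by_cases hjd : 2 * X.dim < j
  · rw [hπ.out j hjd, TheoryData.act_zero]
  obtain ⟨u0, hu0, v0, hv0, huv⟩ := exists_dual_pair (C := C) (H := H) X (l := l) (by omega)
  set α := C.act (π j) x with hα
  have hαm : α ∈ C.gr X l := act_mem0 C (hπ.deg j) hx
  have hαj : C.act (π j) α = α := by rw [hα, ← C.act_comp, hπ.idem]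
  let P : ℕ → Cor C X := π
  have hP : IsCK H X P := hπ
  have hPm : ∀ i, P i ∈ cor0 C X := hπ.deg
  have hPo : ∀ i j, i ≠ j → P i * P j = 0 := fun i j hij => by rw [hP.mul_eq, if_neg hij]
  have hPi : ∀ i, P i * P i = P i := fun i => by rw [hP.mul_eq, if_pos rfl]
  let E : Cor C X := C.ext v0 α
  have hE : E ∈ cor0 C X := by
    have := ext_mem (C := C) (H := H) hv0 hαm
    rwa [sub_add_cancel] at this
  let n : Cor C X := P j * E * P (2 * l)
  have hn : n ∈ cor0 C X := (cor0 C X).mul_mem ((cor0 C X).mul_mem (hPm _) hE) (hPm _)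
  have hnn : n * n = 0 := by
    have : n * n = P j * E * (P (2 * l) * P j) * E * P (2 * l) := by
      simp only [n, mul_assoc]
    rw [this, hPo _ _ (by omega), mul_zero, zero_mul, zero_mul]
  have hnact : ∀ a : H.A X, actH C X H n a = 0 := by
    have h0 : actH C X H n = 0 := by
      apply ext_gr H
      intro m a ha
      rw [LinearMap.zero_apply]
      simp only [n]
      rw [map_mul, map_mul, Module.End.mul_apply, Module.End.mul_apply, hP.actH_eq' _ _ ha]
      split_ifs with hm
      · rw [hP.actH_eq' _ _ (actH_mem0 hE ha), if_neg (by omega)]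
      · rw [map_zero, map_zero]
    intro a
    rw [h0, LinearMap.zero_apply]
  have huv' : (1 + n) * (1 - n) = 1 := by
    rw [mul_sub, mul_one, add_mul, one_mul, hnn]; abel
  have hvu' : (1 - n) * (1 + n) = 1 := by
    rw [mul_add, mul_one, sub_mul, one_mul, hnn]; abel
  have hconj := hP.conj (u := 1 + n) (v := 1 - n) ((cor0 C X).add_mem (cor0 C X).one_mem hn)
    ((cor0 C X).sub_mem (cor0 C X).one_mem hn) huv' hvu'
    (fun a => by rw [map_add, map_one, LinearMap.add_apply, hnact, add_zero]; rfl)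
  have hF := hX _ _ hconj hπ l
  -- the class `y = (1 + n)_* (π_{2l})_* u0`
  set w := C.act (π (2 * l)) u0 with hw
  have hwm : w ∈ C.gr X l := act_mem0 C (hπ.deg _) hu0
  have hact : ∀ (a b : Cor C X) (z : C.A X), actC C X (a * b) z = actC C X a (actC C X b z) :=
    fun a b z => by rw [map_mul]; rfl
  have hPw : ∀ i, actC C X (P i) w = if i = 2 * l then w else 0 := by
    intro i
    have h1 : w = actC C X (P (2 * l)) u0 := rfl
    split_ifs with hi
    · rw [h1, ← hact, hi, hPi]
    · rw [h1, ← hact, hPo _ _ hi, map_zero]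
      rfl
  have hnw : actC C X n w = α := by
    simp only [n]
    rw [hact, hact, hPw, if_pos rfl]
    have h1 : actC C X E w = α := by
      change C.act (C.ext v0 α) w = α
      rw [act_ext (H := H)]
      have h2 : C.push (snd X X) (C.pull (fst X X) (v0 * w)) = 1 := by
        rw [← huv]
        apply deg_eq_of_cl (H := H)
        · have := C.mul_mem hv0 hwm
          rwa [sub_add_cancel] at this
        · have := C.mul_mem hv0 hu0
          rwa [sub_add_cancel] at this
        · rw [map_mul, map_mul, hw, cl_act H]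
          congr 1
          have h3 := H.cl_mem hu0
          exact hπ.act_self (2 * l) _ (by exact_mod_cast h3)
      rw [h2, one_mul]
    rw [h1]
    exact hαj
  have hy : w + α ∈ ckFil C (fun i => ((1 + n) * P i * (1 - n) : Cor C X)) l 0 := by
    rw [hconj.mem_ckFil]
    refine ⟨Submodule.add_mem _ hwm hαm, fun i hi => ?_⟩
    have h1 : w + α = actC C X (1 + n) w := by
      rw [map_add, map_one, LinearMap.add_apply, hnw]
      rfl
    have h2 : actC C X ((1 + n) * P i * (1 - n)) (w + α) = 0 := by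
      rw [h1, ← hact]
      have h3 : (1 + n) * P i * (1 - n) * (1 + n) = (1 + n) * P i := by
        rw [mul_assoc, hvu', mul_one]
      rw [h3, hact, hPw, if_neg (by omega), map_zero]
    exact h2
  rw [hF, hπ.mem_ckFil] at hy
  have h1 := hy.2 j (by omega)
  rw [act_map_add, hαj] at h1
  have h2 : C.act (π j) w = 0 := by
    have := hPw j
    rw [if_neg (by omega)] at this
    exact this
  rw [h2, zero_add] at h1
  exact h1

/-- The vanishing of the components of a correspondence. -/
lemma comp_zero_of_prod {π : ℕ → C.A (X.prod X)} {ρ : ℕ → C.A (Z.prod Z)} (h : IsCK H X π)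
    (h' : IsCK H Z ρ) {j b : ℕ} (hj : j ≤ 2 * X.dim) {γ : C.A (X.prod Z)}
    (hγ : C.act (prodCK C (dualCK C π) ρ (2 * X.dim - j + b)) γ = 0) :
    C.comp (C.comp (π j) γ) (ρ b) = 0 := by
  have h1 : C.comp (prodCK C (dualCK C π) ρ (2 * X.dim - j + b))
      (tens C (dualCK C π (2 * X.dim - j)) (ρ b)) =
      tens C (dualCK C π (2 * X.dim - j)) (ρ b) := by
    unfold prodCK
    rw [sum_comp]
    simp_rw [tens_comp', h.dual.comp_eq, h'.comp_eq]
    rw [Finset.sum_eq_single (2 * X.dim - j)]
    · rw [if_pos rfl, if_pos (by omega)]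
      congr 2
      omega
    · intro q _ hq
      rw [if_neg hq, tens_zero_left]
    · intro h2
      rw [Finset.mem_range] at h2
      omega
  have h2 : C.act (tens C (dualCK C π (2 * X.dim - j)) (ρ b)) γ = 0 := by
    rw [← h1, C.act_comp, hγ, TheoryData.act_map_zero]
  rw [act_tens C (ch_comm C)] at h2
  have h3 : tp C (dualCK C π (2 * X.dim - j)) = π j := by
    unfold dualCK
    rw [if_pos (by omega), tp_tp]
    congr 1
    omega
  rwa [h3] at h2

/-- Under the first half of (B) for `X × Z`, correspondences do not raise the weights. -/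
lemma comp_zero_of_B0 (hXZ : MurreB0 H (X.prod Z)) {π : ℕ → C.A (X.prod X)}
    {ρ : ℕ → C.A (Z.prod Z)} (h : IsCK H X π) (h' : IsCK H Z ρ) {i j b : ℕ}
    {γ : C.A (X.prod Z)} (hγ : γ ∈ C.gr (X.prod Z) i) (hij : 2 * i + j < 2 * X.dim + b) :
    C.comp (C.comp (π j) γ) (ρ b) = 0 := by
  by_cases hj : j ≤ 2 * X.dim
  · apply comp_zero_of_prod (H := H) h h' hj
    rw [murreB0_iff] at hXZ
    exact hXZ _ (h.dual.prod h') i _ γ hγ (by omega)
  · rw [h.out j (by omega), zero_comp, zero_comp]

/-- **The first half of (B) for `X × X` implies (C) for `X`.** -/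
theorem murreC_of_B0 (X : 𝒱.Obj) (hX : MurreB0 H (X.prod X)) : MurreC H X := by
  have key : ∀ π π', IsCK H X π → IsCK H X π' → ∀ i n : ℕ, ckFil C π i n ≤ ckFil C π' i n := by
    intro π π' h h' i n x hx
    rw [h.mem_ckFil] at hx
    rw [h'.mem_ckFil]
    refine ⟨hx.1, fun m hm => ?_⟩
    have h1 : x = ∑ j ∈ Finset.range (2 * X.dim + 1), C.act (π j) x := by
      rw [← act_sum, h.sum, act_dg]
    rw [h1, act_map_sum]
    apply Finset.sum_eq_zero
    intro j _
    by_cases hj : 2 * i + 1 - n ≤ j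
    · rw [hx.2 j hj, TheoryData.act_map_zero]
    · have h2 := comp_zero_of_B0 hX h h' (i := X.dim) (j := j) (b := m) (γ := dg C X)
        (dg_mem C X) (by omega)
      rw [comp_dg] at h2
      rw [← C.act_comp, h2, TheoryData.act_zero]
  intro π π' h h' i n
  exact le_antisymm (key π π' h h' i n) (key π' π h' h i n)

end Pool.Agent.TH133
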