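import Pool.Agent.TH133.BBNil
import Pool.Agent.TH133.Cancel
import Pool.Agent.TH133.DefsNil

/-!
# Murre's conjecture (B) and nilpotence on Chow groups
-/

open CategoryTheory AlgebraicGeometry

universe u v w

namespace Pool.Agent.TH133

open Pool.Agent.H914 Pool.Agent.H914.VarClass Pool.Agent.H914.VarClass.Obj Pool.Agent.W492.BB
  Pool.Agent.W550.Corr

set_option linter.unusedSectionVars false

variable {k : Type u} [Field k] {𝒱 : VarClass k} {C : TheoryData.{u, v, 0} 𝒱 ℚ}
  [hC : IsChowProj C] {K : Type w} [Field K]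
  {H : WeilTheoryData.{u, v, w} C K} [hH : IsWeilProj H] {X Y Z W : 𝒱.Obj}

include hC hH

lemma homTrivialNilpotent_of_cond (hX : NilpotentOnChow H (X.prod X) X.dim) :
    HomTrivialNilpotent H X := by
  have main : ∀ γ : Cor C X, γ ∈ cor0 C X → H.cl (X := X.prod X) γ = 0 → ∃ m : ℕ, γ ^ m = 0 := by
    intro γ hγ hcl
    have hG : H.cl (tens C (dg C X) γ) = 0 := cl_tens_zero (Y := X) (W := X) hcl
    obtain ⟨m, hm⟩ := hX (tens C (dg C X) γ) (by
        have := tens_mem C (dg_mem C X) hγ
        have e1 : ((X.prod X).dim : ℤ) = X.dim + X.dim := by rw [dim_prod]; push_cast; ring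
        change _ ∈ C.gr _ _
        rw [e1]
        exact this)
      (fun j _ _ a _ => by rw [hG, TheoryData.act_zero]) γ hγ
    refine ⟨m + 1, ?_⟩
    rw [← iterate_mul γ (fun z => C.act (tens C (dg C X) γ) z) (fun z => act_tens_dg (H := H) γ z)]
    exact hm
  intro γ hγ hcl
  obtain ⟨m, hm⟩ := main γ hγ hcl
  exact ⟨m, (corPow_eq γ m).trans hm⟩

theorem murreB_of_cond (hX : ∀ i, NilpotentOnChow H X i) : MurreB0 H X ∧ MurreB1 H X := by
  constructor
  · rw [murreB0_iff]
    intro π hπ i j x hx hj
    obtain ⟨m, hm⟩ := hX i (π j) (hπ.deg j) (fun l _ _ a ha => hπ.act_ne j l a (by omega) ha) x hx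
    exact act_zero_of_iterate (H := H) (hπ.idem j) hm
  · intro π hπ i
    rw [eq_bot_iff]
    intro x hx
    rw [hπ.mem_ckFil] at hx
    rw [Submodule.mem_bot]
    have h1 : x = ∑ j ∈ Finset.range (2 * X.dim + 1), C.act (π j) x := by
      rw [← act_sum, hπ.sum, act_dg]
    rw [h1]
    apply Finset.sum_eq_zero
    intro j _
    by_cases hj : i ≤ j
    · exact hx.2 j (by omega)
    · obtain ⟨m, hm⟩ := hX i (π j) (hπ.deg j) (fun l _ _ a ha => hπ.act_ne j l a (by omega) ha) x
        hx.1
      exact act_zero_of_iterate (H := H) (hπ.idem j) hm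

omit hC hH in
lemma corPow_iterate (hT : IsTheory C 1) (γ : C.A (X.prod X)) (m : ℕ) (z : C.A X) :
    C.act (corPow C γ m) z = (C.act γ)^[m] z := by
  induction m with
  | zero => exact act_dg C z
  | succ m ih =>
    rw [Function.iterate_succ_apply', ← ih]
    exact C.act_comp _ _ _

/-- The components of a class in `CH^i(X)` of weight less than `i` vanish under the second half
of (B). -/
lemma act_zero_of_B1 (hB : MurreB1 H X) {π : ℕ → C.A (X.prod X)} (hπ : IsCK H X π) {i j : ℕ}
    (hj : j < i) {x : C.A X} (hx : x ∈ C.gr X i) : C.act (π j) x = 0 := by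
  have h1 : C.act (π j) x ∈ ckFil C π i (i + 1) := by
    rw [hπ.mem_ckFil]
    refine ⟨act_mem0 C (hπ.deg j) hx, fun l hl => ?_⟩
    rw [← C.act_comp, hπ.orth j l (by omega), TheoryData.act_zero]
  rw [hB π hπ i] at h1
  exact (Submodule.mem_bot _).1 h1

theorem cond_of_murreB (hA : ∃ π : ℕ → C.A (X.prod X), IsCK H X π) (hB0 : MurreB0 H X)
    (hB0' : MurreB0 H (X.prod X)) (hB1 : MurreB1 H X) (hN : HomTrivialNilpotent H X) (i : ℕ) :
    NilpotentOnChow H X i := by
  obtain ⟨π, hπ⟩ := hA
  intro γ hγ hkill
  have hdeg : ∀ (n : ℕ) (z : C.A X), z ∈ C.gr X i → (C.act γ)^[n] z ∈ C.gr X i := by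
    intro n z hz
    induction n with
    | zero => exact hz
    | succ n ih =>
      rw [Function.iterate_succ_apply']
      exact act_mem0 C hγ ih
  -- correspondences do not raise weights
  have hdown : ∀ (b : ℕ) (z : C.A X), (∀ j, b < j → C.act (π j) z = 0) →
      (∀ j, b < j → C.act (π j) (C.act γ z) = 0) ∧
        C.act (π b) (C.act γ z) = C.act (C.comp (C.comp (π b) γ) (π b)) (C.act (π b) z) := by
    intro b z hz
    have h1 : z = ∑ j ∈ Finset.range (2 * X.dim + 1), C.act (π j) z := by
      rw [← act_sum, hπ.sum, act_dg]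
    have h3 : ∀ l j : ℕ, j < l → C.act (π l) (C.act γ (C.act (π j) z)) = 0 := by
      intro l j hjl
      rw [← C.act_comp (π j) γ, ← C.act_comp, comp_zero_of_B0 hB0' hπ hπ (i := X.dim) hγ (by omega),
        TheoryData.act_zero]
    constructor
    · intro l hl
      rw [h1, act_map_sum, act_map_sum]
      apply Finset.sum_eq_zero
      intro j _
      by_cases hj : j < l
      · exact h3 l j hj
      · rw [hz j (by omega), TheoryData.act_map_zero, TheoryData.act_map_zero]
    · have h2 : C.act (π b) (C.act γ z) = C.act (π b) (C.act γ (C.act (π b) z)) := by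
        conv_lhs => rw [h1]
        rw [act_map_sum, act_map_sum]
        by_cases hb : b ∈ Finset.range (2 * X.dim + 1)
        · rw [Finset.sum_eq_single_of_mem b hb]
          intro j _ hjb
          rcases lt_or_gt_of_ne hjb with h | h
          · exact h3 b j h
          · rw [hz j h, TheoryData.act_map_zero, TheoryData.act_map_zero]
        · rw [Finset.mem_range] at hb
          rw [hπ.out b (by omega), TheoryData.act_zero]
          apply Finset.sum_eq_zero
          intro j _
          exact C.act_zero _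
      rw [h2, C.act_comp, C.act_comp, ← C.act_comp (π b) (π b), hπ.idem]
  have hiter : ∀ (b n : ℕ) (z : C.A X), (∀ j, b < j → C.act (π j) z = 0) →
      (∀ j, b < j → C.act (π j) ((C.act γ)^[n] z) = 0) ∧ C.act (π b) ((C.act γ)^[n] z) =
        (C.act (C.comp (C.comp (π b) γ) (π b)))^[n] (C.act (π b) z) := by
    intro b n z hz
    induction n with
    | zero => exact ⟨hz, rfl⟩
    | succ n ih =>
      rw [Function.iterate_succ_apply', Function.iterate_succ_apply', ← ih.2]
      exact hdown b _ ih.1
  have key : ∀ b : ℕ, b ≤ 2 * i + 1 → ∀ z : C.A X, z ∈ C.gr X i →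
      (∀ j, b ≤ j → C.act (π j) z = 0) → ∃ m : ℕ, (C.act γ)^[m] z = 0 := by
    intro b
    induction b with
    | zero =>
      intro _ z _ hz'
      refine ⟨0, ?_⟩
      have h1 : z = ∑ j ∈ Finset.range (2 * X.dim + 1), C.act (π j) z := by
        rw [← act_sum, hπ.sum, act_dg]
      rw [Function.iterate_zero_apply, h1]
      exact Finset.sum_eq_zero fun j _ => hz' j (Nat.zero_le j)
    | succ b ih =>
      intro hb z hz hz'
      by_cases hbi : b < i
      · exact ih (by omega) z hz fun j hj => by
          by_cases hjb : j = b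
          · rw [hjb]
            exact act_zero_of_B1 hB1 hπ hbi hz
          · exact hz' j (by omega)
      · have hν : H.cl (C.comp (C.comp (π b) γ) (π b)) = 0 := by
          apply hom_zero_of_act H
          intro y
          have h4 : H.actL (X := X) (Y := X) (H.cl (C.comp (C.comp (π b) γ) (π b))) = 0 := by
            apply ext_gr H
            intro l a ha
            rw [TheoryData.actL_apply, actH_comp, actH_comp, hπ.actH_eq b l ha,
              LinearMap.zero_apply]
            split_ifs with hl
            · rw [hkill l (by omega) (by omega) a ha, TheoryData.act_map_zero]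
            · rw [TheoryData.act_map_zero, TheoryData.act_map_zero]
          exact LinearMap.congr_fun h4 y
        have hνm : C.Deg (X := X.prod X) X.dim (C.comp (C.comp (π b) γ) (π b)) :=
          comp_mem0 C (comp_mem0 C (hπ.deg b) hγ) (hπ.deg b)
        obtain ⟨n, hn⟩ := hN _ hνm hν
        have h5 := hiter b n z (fun j hj => hz' j (by omega))
        have h6 : (C.act (C.comp (C.comp (π b) γ) (π b)))^[n] (C.act (π b) z) = 0 := by
          rw [← corPow_iterate inferInstance, hn, TheoryData.act_zero]
        obtain ⟨m, hm⟩ := ih (by omega) ((C.act γ)^[n] z) (hdeg n z hz) fun j hj => by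
          by_cases hjb : j = b
          · rw [hjb, h5.2, h6]
          · exact h5.1 j (by omega)
        exact ⟨m + n, by rw [Function.iterate_add_apply, hm]⟩
  intro z hz
  rw [murreB0_iff] at hB0
  exact key (2 * i + 1) le_rfl z hz fun j hj => hB0 π hπ i j z hz (by omega)

/-- **(A), (B) and nilpotence are equivalent to nilpotence on Chow groups.** -/
theorem murreB_iff (hK : KunnethConjecture H) : (∀ (X : 𝒱.Obj) (i : ℕ), NilpotentOnChow H X i) ↔
    ∀ X : 𝒱.Obj, (∃ π : ℕ → C.A (X.prod X), IsCK H X π) ∧ (MurreB0 H X ∧ MurreB1 H X) ∧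
      HomTrivialNilpotent H X := by
  constructor
  · intro h X
    have hN : HomTrivialNilpotent H X := homTrivialNilpotent_of_cond (h _ _)
    refine ⟨?_, murreB_of_cond (h X), hN⟩
    apply exists_CK_of_nil X
    · intro m
      obtain ⟨p, hp, hp'⟩ := hK X m
      exact ⟨p, hp, hp'⟩
    · intro γ hγ h0
      obtain ⟨m, hm⟩ := hN γ hγ ((homTrivial_iff H γ).2 h0)
      exact ⟨m, by rw [← corPow_eq]; exact hm⟩
  · intro h X i
    exact cond_of_murreB (h X).1 (h X).2.1.1 (h _).2.1.1 (h X).2.1.2 (h X).2.2 i

end Pool.Agent.TH133
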