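import Pool.Agent.TH133.DefsSq
import Pool.Agent.TH133.Hodge
import Pool.Agent.TH133.Ext
import Pool.Agent.TH133.AlgCoh

/-!
# Correspondences between surfaces
-/

open CategoryTheory AlgebraicGeometry

universe u v w

namespace Pool.Agent.TH133

open Pool.Agent.H914 Pool.Agent.H914.VarClass Pool.Agent.H914.VarClass.Obj Pool.Agent.W492.BB
  Pool.Agent.W550.Corr

set_option linter.unusedSectionVars false

variable {k : Type u} [Field k] {𝒱 : VarClass k}

section chow

variable {C : TheoryData.{u, v, 0} 𝒱 ℚ} [hC : IsChowProj C] {X Y Z W U S T : 𝒱.Obj}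

include hC

/-- Composition of a decomposable correspondence with a correspondence. -/
lemma ext_comp' (v : C.A X) (α : C.A Y) (Δ : C.A (Y.prod Z)) :
    C.comp (C.ext v α) Δ = C.ext v (C.act Δ α) := by
  rw [comp_eq_extR]
  exact C.extR_ext Δ (fun c => ch_comm C _ _) v α

/-- Composition of a correspondence with a decomposable correspondence. -/
lemma comp_ext' (Γ : C.A (X.prod Y)) (α : C.A Y) (β : C.A Z) :
    C.comp Γ (C.ext α β) = C.ext (C.act (tp C Γ) α) β := by
  have h : tp C (C.comp Γ (C.ext α β)) = tp C (C.ext (C.act (tp C Γ) α) β) := by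
    rw [tp_comp C (fun a b => ch_comm C a b), tp_ext, tp_ext, ext_comp']
  rw [← tp_tp C (C.comp Γ (C.ext α β)), h, tp_tp]

lemma tp_graph (f : X ⟶ Y) : tp C (C.graph f) = C.cograph f := by
  rw [tp_eq_push, TheoryData.graph, TheoryData.cograph, ← C.push_comp]
  congr 2
  apply prod_ext <;> simp [sw, comp_lift]

lemma tp_cograph (f : X ⟶ Y) : tp C (C.cograph f) = C.graph f := by
  rw [← tp_graph, tp_tp]

/-- `f_* g^*` is given by the class of the image of `U`. -/
lemma cograph_comp_graph (f : U ⟶ S) (g : U ⟶ T) :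
    C.comp (C.cograph g) (C.graph f) = C.push (Obj.lift g f) 1 := by
  rw [comp_eq_extR, extR_graph, TheoryData.cograph, ← C.push_comp]
  congr 2
  apply prod_ext <;> simp

lemma graph_mem (f : X ⟶ Y) : C.graph f ∈ C.gr (X.prod Y) Y.dim := by
  have h := C.push_mem (Obj.lift (𝟙 X) f) (C.one_mem X)
  rw [dim_prod] at h
  have e : (0 : ℤ) + 1 * (((X.dim + Y.dim : ℕ) : ℤ) - X.dim) = Y.dim := by push_cast; ring
  rwa [e] at h

lemma cograph_mem (f : X ⟶ Y) : C.cograph f ∈ C.gr (Y.prod X) Y.dim := by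
  rw [← tp_graph]
  exact tp_mem C (graph_mem f)

/-- The push-forward of the class `1 × y` to the first factor. -/
lemma push_fst_snd_of_lt {i : ℤ} {y : C.A Y} (hy : y ∈ C.gr Y i) (hi : i < Y.dim) :
    C.push (fst X Y) (C.pull (snd X Y) y) = 0 := by
  have h := C.push_mem (fst X Y) (C.pull_mem (snd X Y) hy)
  rw [C.gr_neg X _ (by rw [dim_prod]; push_cast; omega)] at h
  exact (Submodule.mem_bot ℚ).1 h

/-- The degree of the projection of the complete intersection onto `S`. -/
lemma push_one_of_section {f : U ⟶ S} {g : U ⟶ T} {h : C.A S} {h' : C.A T} {n : ℚ}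
    (hT : T.dim = 2) (hh' : C.Deg 1 h') (hn : HasDegree C (h' * h') n)
    (hU : C.push (Obj.lift f g) 1 = (C.pull (fst S T) h + C.pull (snd S T) h') ^ 2) :
    C.push f 1 = n • (1 : C.A S) := by
  have e1 : Obj.lift f g ≫ fst S T = f := lift_fst _ _
  rw [← e1, C.push_comp, hU, sq, mul_add, add_mul, add_mul, map_add, map_add, map_add,
    ← map_mul (C.pull (fst S T)), ← map_mul (C.pull (snd S T)), (hn S).2,
    ch_comm C (C.pull (snd S T) h'), C.proj_left, push_fst_snd_of_lt hh' (by omega), mul_zero]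
  have h2 : C.push (fst S T) (C.pull (fst S T) (h * h)) = 0 := by
    rw [← mul_one (C.pull (fst S T) (h * h)), C.proj_left]
    have h3 := push_fst_snd_of_lt (X := S) (Y := T) (C.one_mem T) (by omega)
    rw [map_one] at h3
    rw [h3, mul_zero]
  rw [h2, zero_add, zero_add, zero_add]

/-- The expansion of the class of the complete intersection. -/
lemma sq_eq (h : C.A S) (h' : C.A T) :
    (C.pull (fst S T) h + C.pull (snd S T) h') ^ 2 =
      C.ext (h * h) 1 + (2 : ℚ) • C.ext h h' + C.ext 1 (h' * h') := by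
  rw [TheoryData.ext, TheoryData.ext, TheoryData.ext, map_one, map_one, mul_one, one_mul,
    map_mul, map_mul, sq, mul_add, add_mul, add_mul, ch_comm C (C.pull (snd S T) h'), two_smul]
  abel

end chow

section weil

variable {C : TheoryData.{u, v, 0} 𝒱 ℚ} [hC : IsChowProj C] {H : WeilTheoryData.{u, v, 0} C ℂ}
  [hH : IsWeilProj H] {X Y Z W U S T : 𝒱.Obj}

include hC hH

/-- Transcendental projectors act as zero on the fundamental class. -/
lemma IsTranscendental.act_one {t : C.A (S.prod S)} (ht : IsTranscendental H t)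
    (hS : S.dim = 2) : C.act t 1 = 0 := by
  have h1 : t ∈ C.gr (S.prod S) S.dim := by rw [hS]; exact_mod_cast ht.deg
  have h2 := act_mem0 C h1 (C.one_mem S)
  have h3 : H.cl (C.act t 1) = 0 := by
    rw [cl_act H, map_one]
    exact ht.kills 0 1 (by norm_num) (H.one_mem S)
  exact eq_zero_of_codim_zero h2 h3

/-- Correspondences of degree zero respect the kernels of the Albanese maps. -/
lemma albaneseKer_act {Γ : C.A (X.prod Y)} (hXY : X.dim = Y.dim) (hΓ : C.Deg X.dim Γ) {x : C.A X}
    (hx : AlbaneseKer H x) : AlbaneseKer H (C.act Γ x) := by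
  have hΓ0 : Γ ∈ C.gr (X.prod Y) (X.dim + 0) := by rw [add_zero]; exact hΓ
  refine ⟨⟨?_, ?_⟩, fun B Δ hB hΔ => ?_⟩
  · have := act_mem' C hΓ0 hx.1.1
    rw [add_zero, hXY] at this
    exact this
  · rw [cl_act H, hx.1.2]
    exact TheoryData.act_map_zero _ _
  · rw [← C.act_comp]
    refine hx.2 B _ hB ?_
    have h1 : Δ ∈ C.gr (Y.prod B) (Y.dim + (1 - (Y.dim : ℤ))) := by
      have e : (Y.dim : ℤ) + (1 - (Y.dim : ℤ)) = 1 := by ring
      rw [e]; exact_mod_cast hΔ
    have h2 := comp_mem C hΓ0 h1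
    have e : (X.dim : ℤ) + (0 + (1 - (Y.dim : ℤ))) = 1 := by rw [hXY]; ring
    rw [e] at h2
    exact h2

/-- The class of the complete intersection is degenerate. -/
lemma trans_section_trans {s : C.A (S.prod S)} {t : C.A (T.prod T)} (hs : IsTranscendental H s)
    (ht : IsTranscendental H t) (hS : S.dim = 2) (hT : T.dim = 2) {h : C.A S} {h' : C.A T}
    (hh : C.Deg 1 h) :
    C.comp (C.comp s ((C.pull (fst S T) h + C.pull (snd S T) h') ^ 2)) t = 0 := by
  rw [sq_eq, comp_add, comp_add, add_comp, add_comp, comp_ext', ext_comp', comp_ext', ext_comp',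
    hs.symm, ht.act_one hT, hs.act_one hS, TheoryData.ext_zero_right, TheoryData.ext_zero_left,
    zero_add, add_zero]
  have e1 : C.comp s ((2 : ℚ) • C.ext h h') = (2 : ℚ) • C.comp s (C.ext h h') :=
    map_smul (compL C s) _ _
  have e2 : C.comp ((2 : ℚ) • C.comp s (C.ext h h')) t =
      (2 : ℚ) • C.comp (C.comp s (C.ext h h')) t := by
    have := LinearMap.map_smul₂ (compL C (X := S) (Y := T) (Z := T)) (2 : ℚ)
      (C.comp s (C.ext h h')) t
    exact this
  rw [e1, e2, comp_ext', hs.symm, hs.divisor h hh, TheoryData.ext_zero_left, zero_comp, smul_zero]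

/-- The transcendental part of a correspondence which kills `H^{2,0}` is homologically trivial. -/
lemma cl_trans_zero {D : HodgeData H} (hD : D.IsHodge) (hF : D.IsFunctorial)
    {s : C.A (S.prod S)} {t : C.A (T.prod T)} (hs : IsTranscendental H s)
    (ht : IsTranscendental H t) (hT : T.dim = 2) {Z : C.A (S.prod T)}
    (hZ : C.Deg 2 Z) (hZ0 : D.KillsHolomorphic Z 2) : H.cl (C.comp (C.comp s Z) t) = 0 := by
  apply cl_zero_of_tp
  intro m a ha
  rw [tp_comp C (ch_comm C), tp_comp C (ch_comm C), hs.symm, ht.symm, actH_comp, actH_comp]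
  by_cases hm : m = 2
  · subst hm
    have ht' : t ∈ C.gr (T.prod T) T.dim := by rw [hT]; exact_mod_cast ht.deg
    have h1 : H.act (H.cl t) a ∈ H.gr T 2 := act_mem_gr ht' rfl ha
    have hZ' : C.Deg T.dim (tp C Z) := by rw [hT]; exact tp_mem C (by exact_mod_cast hZ)
    have h2 := act_mem_span hD hF hZ' (fun b hb => hZ0 b hb) h1
    have h3 : Submodule.span ℂ {c | ∃ z : C.A S, C.Deg 1 z ∧ H.cl z = c} ≤
        LinearMap.ker (H.actL (H.cl s)) := by
      rw [Submodule.span_le]
      rintro c ⟨z, hz, rfl⟩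
      change H.actL (H.cl s) (H.cl z) = 0
      rw [TheoryData.actL_apply, ← cl_act H, hs.divisor z hz, map_zero]
    exact h3 h2
  · have h1 : H.act (H.cl t) a = 0 := ht.kills m a hm ha
    rw [h1, TheoryData.act_map_zero, TheoryData.act_map_zero]

/-- The reduction of Bloch's conjecture. -/
theorem bloch_sq_tfae {D : HodgeData H} (hD : HasSurfaceTheory D) :
    List.TFAE [BlochSurfaces D, VanishFor H fun _ Z => C.comp Z Z = 0,
      VanishFor H fun _ Z => tp C Z = Z] := by
  have key : ∀ P : ∀ U : 𝒱.Obj, C.A (U.prod U) → Prop, BlochSurfaces D → VanishFor H P := by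
    intro P hB U hU Z hZ hZ0 _ x hx
    refine hB U U hU hU Z hZ (fun a _ => ?_) x hx
    rw [actCoh, cl_tp, hZ0]
    change H.act (H.pull (sw U U) 0) a = 0
    rw [map_zero]
    exact H.act_zero a
  have main : ∀ S T : 𝒱.Obj, S.dim = 2 → T.dim = 2 → ∀ Z : C.A (S.prod T), C.Deg 2 Z →
      D.KillsHolomorphic Z 2 → ∀ x : C.A S, AlbaneseKer H x → ∃ (U : 𝒱.Obj) (f : U ⟶ S)
        (g : U ⟶ T) (W : C.A (S.prod T)) (m n : ℚ), U.dim = 2 ∧ m ≠ 0 ∧ n ≠ 0 ∧
        C.Deg 2 W ∧ H.cl W = 0 ∧ C.act W x = C.act Z x ∧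
        (∀ y : C.A S, C.push f (C.pull f y) = n • y) ∧
        (∀ y : C.A T, C.push g (C.pull g y) = m • y) ∧
        C.comp (C.comp W (C.comp (C.cograph g) (C.graph f))) W = 0 ∧
        C.act (tp C W) (C.push g (C.pull f x)) = 0 := by
    intro S T hS hT Z hZ hZ0 x hx
    obtain ⟨U, f, g, h, h', m, n, hU, hh, hh', hm, hn, hdm, hdn, hUc⟩ := hD.sections S T hS hT
    obtain ⟨s, hs⟩ := hD.transcendental S hS
    obtain ⟨t, ht⟩ := hD.transcendental T hT
    have hUc' : C.push (Obj.lift g f) 1 = (C.pull (fst T S) h' + C.pull (snd T S) h) ^ 2 := by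
      have e1 : Obj.lift g f = Obj.lift f g ≫ sw S T := by
        apply prod_ext <;> simp [sw, comp_lift]
      have e2 : C.push (Obj.lift f g) 1 = (C.pull (fst S T) h + C.pull (snd S T) h') ^ 2 := hUc
      rw [e1, C.push_comp, e2, ← tp_eq_push, tp, map_pow, map_add, ← C.pull_comp,
        ← C.pull_comp]
      have e3 : sw T S ≫ fst S T = snd T S := lift_fst _ _
      have e4 : sw T S ≫ snd S T = fst T S := lift_snd _ _
      rw [e3, e4, add_comm]
    have hZS : C.act Z x = C.act t (C.act Z x) := by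
      refine (ht.albanese _ (albaneseKer_act (by rw [hS, hT]) ?_ hx)).symm
      rw [hS]; exact_mod_cast hZ
    have hWdeg : C.Deg 2 (C.comp (C.comp s Z) t) := by
      have h1 : s ∈ C.gr (S.prod S) (S.dim + 0) := by
        rw [hS]; exact_mod_cast hs.deg
      have h2 : Z ∈ C.gr (S.prod T) (S.dim + 0) := by
        rw [hS]; exact_mod_cast hZ
      have h3 : t ∈ C.gr (T.prod T) (T.dim + 0) := by
        rw [hT]; exact_mod_cast ht.deg
      have h4 := comp_mem C (comp_mem C h1 h2) h3
      rw [hS] at h4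
      exact_mod_cast h4
    refine ⟨U, f, g, C.comp (C.comp s Z) t, m, n, hU, hm, hn, hWdeg,
      cl_trans_zero hD.hodge hD.functorial hs ht hT hZ hZ0, ?_, ?_, ?_, ?_, ?_⟩
    · rw [C.act_comp, C.act_comp, hs.albanese x hx, ← hZS]
    · intro y
      have h1 := push_one_of_section hT hh' hdn hUc
      rw [← mul_one (C.pull f y), C.proj_left, h1, mul_smul_comm, mul_one]
    · intro y
      have h1 := push_one_of_section hS hh hdm hUc'
      rw [← mul_one (C.pull g y), C.proj_left, h1, mul_smul_comm, mul_one]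
    · have h1 := trans_section_trans ht hs hT hS (h' := h) hh'
      rw [← hUc', ← cograph_comp_graph] at h1
      have e : C.comp (C.comp (C.comp (C.comp s Z) t) (C.comp (C.cograph g) (C.graph f)))
          (C.comp (C.comp s Z) t) = C.comp (C.comp (C.comp (C.comp s Z)
          (C.comp (C.comp t (C.comp (C.cograph g) (C.graph f))) s)) Z) t := by
        simp only [comp_assoc]
      rw [e, h1, comp_zero, zero_comp, zero_comp]
    · have h1 := trans_section_trans hs ht hS hT (h' := h') hh
      have e2 : C.push (Obj.lift f g) 1 = (C.pull (fst S T) h + C.pull (snd S T) h') ^ 2 := hUc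
      rw [← e2, ← cograph_comp_graph] at h1
      have h2 : C.act t (C.push g (C.pull f x)) = 0 := by
        have h3 : C.act (C.comp (C.comp s (C.comp (C.cograph f) (C.graph g))) t) x = 0 := by
          rw [h1]; exact C.act_zero x
        rw [C.act_comp, C.act_comp, C.act_comp, C.act_graph, C.act_cograph,
          hs.albanese x hx] at h3
        exact h3
      rw [tp_comp C (ch_comm C), ht.symm, C.act_comp, h2]
      exact TheoryData.act_map_zero _ _
  tfae_have 1 → 2 := key _
  tfae_have 1 → 3 := key _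
  have props : ∀ (S T U : 𝒱.Obj) (f : U ⟶ S) (g : U ⟶ T) (W : C.A (S.prod T)), S.dim = 2 →
      T.dim = 2 → U.dim = 2 → C.Deg 2 W → H.cl W = 0 →
      C.Deg 2 (C.comp (C.comp (C.graph f) W) (C.cograph g)) ∧
      H.cl (C.comp (C.comp (C.graph f) W) (C.cograph g)) = 0 ∧
      ∀ x : C.A S, AlbaneseKer H x → AlbaneseKer H (C.pull f x) := by
    intro S T U f g W hS hT hU hWd hW0
    refine ⟨?_, ?_, fun x hx => ?_⟩
    · have h2 : C.graph f ∈ C.gr (U.prod S) (U.dim + 0) := by
        have := graph_mem (C := C) f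
        rwa [hS, ← hU, ← add_zero ((U.dim : ℕ) : ℤ)] at this
      have h3 : W ∈ C.gr (S.prod T) (S.dim + 0) := by rw [hS]; exact_mod_cast hWd
      have h4 : C.cograph g ∈ C.gr (T.prod U) (T.dim + 0) := by
        rw [add_zero]; exact cograph_mem g
      have h5 := comp_mem C (comp_mem C h2 h3) h4
      rw [hU] at h5
      exact_mod_cast h5
    · rw [cl_comp, cl_comp, hW0]
      have h1 : H.comp (H.cl (C.graph f)) (0 : H.A (S.prod T)) = 0 :=
        comp_zero H.toTheoryData (H.cl (C.graph f))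
      rw [h1]
      exact zero_comp H.toTheoryData (H.cl (C.cograph g))
    · rw [← C.act_cograph]
      exact albaneseKer_act (by rw [hS, hU]) (cograph_mem f) hx
  have fin : ∀ (S T U : 𝒱.Obj) (f : U ⟶ S) (g : U ⟶ T) (W : C.A (S.prod T)) (m n : ℚ)
      (x z : C.A S), C.act (C.comp (C.comp (C.graph f) W) (C.cograph g)) (C.pull f x) = 0 →
      m ≠ 0 → n ≠ 0 → (∀ y : C.A S, C.push f (C.pull f y) = n • y) →
      (∀ y : C.A T, C.push g (C.pull g y) = m • y) → C.act W x = 0 := by
    intro S T U f g W m n x z h4 hm hn hf hg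
    rw [C.act_comp, C.act_comp, C.act_graph, C.act_cograph, hf, act_map_smul] at h4
    have h5 := hg (n • C.act W x)
    rw [h4, map_zero, smul_smul] at h5
    exact (smul_eq_zero.1 h5.symm).resolve_left (mul_ne_zero hm hn)
  tfae_have 2 → 1 := by
    intro hV S T hS hT Z hZ hZ0 x hx
    obtain ⟨U, f, g, W, m, n, hU, hm, hn, hWd, hW0, hWx, hf, hg, hWW, -⟩ :=
      main S T hS hT Z hZ hZ0 x hx
    obtain ⟨h1, h2, h5⟩ := props S T U f g W hS hT hU hWd hW0
    have h3 : C.comp (C.comp (C.comp (C.graph f) W) (C.cograph g))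
        (C.comp (C.comp (C.graph f) W) (C.cograph g)) = 0 := by
      have e : C.comp (C.comp (C.comp (C.graph f) W) (C.cograph g))
        (C.comp (C.comp (C.graph f) W) (C.cograph g)) = C.comp (C.comp (C.graph f)
          (C.comp (C.comp W (C.comp (C.cograph g) (C.graph f))) W)) (C.cograph g) := by
        simp only [comp_assoc]
      rw [e, hWW, comp_zero, zero_comp]
    have h4 := hV U hU _ h1 h2 h3 (C.pull f x) (h5 x hx)
    rw [← hWx]
    exact fin S T U f g W m n x x h4 hm hn hf hg
  tfae_have 3 → 1 := by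
    intro hV S T hS hT Z hZ hZ0 x hx
    obtain ⟨U, f, g, W, m, n, hU, hm, hn, hWd, hW0, hWx, hf, hg, -, hWt⟩ :=
      main S T hS hT Z hZ hZ0 x hx
    obtain ⟨h1, h2, h5⟩ := props S T U f g W hS hT hU hWd hW0
    have h6 : H.cl (tp C (C.comp (C.comp (C.graph f) W) (C.cograph g))) = 0 := by
      rw [cl_tp, h2]
      exact map_zero _
    have h3 := hV U hU (C.comp (C.comp (C.graph f) W) (C.cograph g) +
      tp C (C.comp (C.comp (C.graph f) W) (C.cograph g)))
      (Submodule.add_mem _ h1 (tp_mem C h1)) (by rw [map_add, h2, h6, add_zero])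
      (by
        change tp C (_ + _) = _ + _
        rw [tp_add, tp_tp, add_comm]) (C.pull f x) (h5 x hx)
    have h7 : C.act (tp C (C.comp (C.comp (C.graph f) W) (C.cograph g))) (C.pull f x) = 0 := by
      rw [tp_comp C (ch_comm C), tp_comp C (ch_comm C), tp_graph, tp_cograph, C.act_comp,
        C.act_comp, C.act_graph, hWt]
      exact C.act_map_zero _
    rw [C.act_add, h7, add_zero] at h3
    rw [← hWx]
    exact fin S T U f g W m n x x h3 hm hn hf hg
  tfae_finish

end weil

end Pool.Agent.TH133
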