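import Pool.Agent.TH133.DefsPg
import Pool.Agent.TH133.AJAlg
import Pool.Agent.TH133.Hodge
import Pool.Agent.TH133.Sq
import Mathlib.LinearAlgebra.Matrix.ToLin
import Mathlib.LinearAlgebra.Matrix.Nondegenerate

/-!
# Surfaces without holomorphic two-forms
-/

open CategoryTheory AlgebraicGeometry

universe u v w

namespace Pool.Agent.TH133

open Pool.Agent.H914 Pool.Agent.H914.VarClass Pool.Agent.H914.VarClass.Obj Pool.Agent.W492.BB
  Pool.Agent.W550.Corr

set_option linter.unusedSectionVars false

variable {k : Type u} [Field k] {𝒱 : VarClass k}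

section chow

variable {C : TheoryData.{u, v, 0} 𝒱 ℚ} [hC : IsChowProj C] {X : 𝒱.Obj}

include hC

lemma hasDegree_add {x y : C.A X} {p q : ℚ} (hx : HasDegree C x p) (hy : HasDegree C y q) :
    HasDegree C (x + y) (p + q) := by
  intro Y
  rw [map_add, map_add, map_add, map_add, (hx Y).1, (hx Y).2, (hy Y).1, (hy Y).2, add_smul]
  exact ⟨rfl, rfl⟩

lemma hasDegree_smul {x : C.A X} {p : ℚ} (q : ℚ) (hx : HasDegree C x p) :
    HasDegree C (q • x) (q * p) := by
  intro Y
  rw [map_smul, map_smul, map_smul, map_smul, (hx Y).1, (hx Y).2, smul_smul]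
  exact ⟨rfl, rfl⟩

lemma hasDegree_sum {ι : Type*} (s : Finset ι) {x : ι → C.A X} {p : ι → ℚ}
    (hx : ∀ i ∈ s, HasDegree C (x i) (p i)) : HasDegree C (∑ i ∈ s, x i) (∑ i ∈ s, p i) := by
  classical
  induction s using Finset.induction_on with
  | empty => exact hasDegree_zero
  | insert a s ha ih =>
    rw [Finset.sum_insert ha, Finset.sum_insert ha]
    exact hasDegree_add (hx a (Finset.mem_insert_self a s))
      (ih fun i hi => hx i (Finset.mem_insert_of_mem hi))

end chow

section move

variable {C : TheoryData.{u, v, 0} 𝒱 ℚ} [hC : IsChowProj C] {K : Type w} [Field K]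
  {H : WeilTheoryData.{u, v, w} C K} [hH : IsWeilProj H] {X : 𝒱.Obj}

include hC hH

lemma hasDegree_of_cl {x y : C.A X} {q : ℚ} (hx : x ∈ C.gr X X.dim) (hy : y ∈ C.gr X X.dim)
    (h : H.cl x = H.cl y) (hq : HasDegree C x q) : HasDegree C y q := by
  obtain ⟨r, hr⟩ := exists_hasDegree hy
  have h1 : HasDegree C (x - y) 0 := by
    apply hasDegree_zero_of_cl H (Submodule.sub_mem _ hx hy)
    rw [map_sub, h, sub_self]
  have h2 := hasDegree_add h1 hr
  rw [sub_add_cancel, zero_add] at h2
  rw [hasDegree_unique H hq h2]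
  exact hr

/-- A homologically trivial part `q` of the component of weight `c` of a Chow-Kunneth decomposition
can be moved to the component of weight `p`. -/
lemma IsCK.move {P : ℕ → Cor C X} (h : IsCK H X P) {c p : ℕ} (hcp : c ≠ p) (hp : p ≤ 2 * X.dim)
    (hc : c ≤ 2 * X.dim) {A q : Cor C X} (hA : A ∈ cor0 C X) (hq : q ∈ cor0 C X)
    (hAq : A + q = P c) (hAA : A * A = A) (hqq : q * q = q) (hAq0 : A * q = 0) (hqA0 : q * A = 0)
    (hact : ∀ a : H.A X, actH C X H q a = 0) :
    IsCK H X (fun i => ((if i = c then A else P i) + (if i = p then q else 0) : Cor C X)) := by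
  have hAP : A * P c = A := by rw [← hAq, mul_add, hAA, hAq0, add_zero]
  have hPA : P c * A = A := by rw [← hAq, add_mul, hAA, hqA0, add_zero]
  have hqP : q * P c = q := by rw [← hAq, mul_add, hqq, hqA0, zero_add]
  have hPq : P c * q = q := by rw [← hAq, add_mul, hqq, hAq0, zero_add]
  have hAi : ∀ i, i ≠ c → A * P i = 0 := fun i hi => by
    rw [← hAP, mul_assoc, h.mul_eq, if_neg hi.symm, mul_zero]
  have hiA : ∀ i, i ≠ c → P i * A = 0 := fun i hi => by
    rw [← hPA, ← mul_assoc, h.mul_eq, if_neg hi, zero_mul]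
  have hqi : ∀ i, i ≠ c → q * P i = 0 := fun i hi => by
    rw [← hqP, mul_assoc, h.mul_eq, if_neg hi.symm, mul_zero]
  have hiq : ∀ i, i ≠ c → P i * q = 0 := fun i hi => by
    rw [← hPq, ← mul_assoc, h.mul_eq, if_neg hi, zero_mul]
  have hx1 : ∀ i j, (if i = c then A else P i) * (if j = c then A else P j) =
      if i = j then (if i = c then A else P i) else 0 := by
    intro i j
    by_cases hi : i = c
    · by_cases hj : j = c
      · rw [if_pos hi, if_pos hj, if_pos (hi.trans hj.symm), hAA]
      · rw [if_pos hi, if_neg hj, if_neg (show ¬ i = j from fun e => hj (e ▸ hi)), hAi j hj]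
    · by_cases hj : j = c
      · rw [if_neg hi, if_pos hj, if_neg (show ¬ i = j from fun e => hi (e ▸ hj)), hiA i hi]
      · rw [if_neg hi, if_neg hj, h.mul_eq]
  have hx2 : ∀ i j, (if i = c then A else P i) * (if j = p then q else 0) = 0 := by
    intro i j
    by_cases hj : j = p
    · rw [if_pos hj]
      by_cases hi : i = c
      · rw [if_pos hi, hAq0]
      · rw [if_neg hi, hiq i hi]
    · rw [if_neg hj, mul_zero]
  have hx3 : ∀ i j, (if i = p then q else 0) * (if j = c then A else P j) = 0 := by
    intro i j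
    by_cases hi : i = p
    · rw [if_pos hi]
      by_cases hj : j = c
      · rw [if_pos hj, hqA0]
      · rw [if_neg hj, hqi j hj]
    · rw [if_neg hi, zero_mul]
  have hx4 : ∀ i j, (if i = p then q else 0) * (if j = p then q else 0) =
      if i = j then (if i = p then q else 0) else 0 := by
    intro i j
    by_cases hi : i = p
    · by_cases hj : j = p
      · rw [if_pos hi, if_pos hj, if_pos (hi.trans hj.symm), hqq]
      · rw [if_pos hi, if_neg hj, if_neg (show ¬ i = j from fun e => hj (e ▸ hi)), mul_zero]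
    · rw [if_neg hi, zero_mul]
      split_ifs <;> rfl
  apply isCK_of
  · intro i
    refine (cor0 C X).add_mem ?_ ?_
    · split_ifs
      · exact hA
      · exact h.deg i
    · split_ifs
      · exact hq
      · exact (cor0 C X).zero_mem
  · intro i hi
    have h1 : i ≠ c := by omega
    have h2 : i ≠ p := by omega
    simp only [if_neg h1, if_neg h2, add_zero]
    exact h.out i hi
  · intro i j
    rw [add_mul, mul_add, mul_add, hx1, hx2, hx3, hx4]
    split_ifs <;> simp
  · rw [Finset.sum_add_distrib, Finset.sum_ite_eq', if_pos (by rw [Finset.mem_range]; omega)]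
    have h1 : ∀ i, (if i = c then A else P i) = P i + if i = c then A - P c else 0 := by
      intro i
      by_cases hi : i = c
      · rw [if_pos hi, if_pos hi, hi, add_sub_cancel]
      · rw [if_neg hi, if_neg hi, add_zero]
    rw [Finset.sum_congr rfl fun i _ => h1 i, Finset.sum_add_distrib, Finset.sum_ite_eq',
      if_pos (by rw [Finset.mem_range]; omega), h.sum_eq, ← hAq]
    abel
  · intro i m a ha
    rw [map_add, LinearMap.add_apply]
    have h1 : actH C X H (if i = p then q else 0) a = 0 := by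
      split_ifs
      · exact hact a
      · rw [map_zero]; rfl
    rw [h1, add_zero]
    by_cases hi : i = c
    · rw [if_pos hi, ← h.actH_eq' i m ha, hi, ← hAq, map_add, LinearMap.add_apply, hact,
        add_zero]
    · rw [if_neg hi, h.actH_eq' i m ha]

lemma cl_rat_smul [CharZero K] (q : ℚ) (x : C.A X) : H.cl (q • x) = (q : K) • H.cl x := by
  have h : H.cl.comp (algebraMap ℚ (C.A X)) = (algebraMap K (H.A X)).comp (Rat.castHom K) :=
    RingHom.ext_rat _ _
  rw [Algebra.smul_def, map_mul, Algebra.smul_def]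
  congr 1
  exact RingHom.congr_fun h q

variable (H) in
/-- The orientation of a zero-cycle is its degree, up to a non-zero constant. -/
lemma exists_tr_const [CharZero K] (X : 𝒱.Obj) :
    ∃ c : K, c ≠ 0 ∧ ∀ (x : C.A X) (q : ℚ), x ∈ C.gr X X.dim → HasDegree C x q →
      H.tr X (H.cl x) = (q : K) * c := by
  obtain ⟨e, he, he1, he2⟩ := exists_deg_one C X
  have hed : HasDegree C e 1 := fun Y => ⟨by
    change C.push (snd X Y) (C.pull (fst X Y) e) = _
    rw [he2, one_smul], by
    change C.push (fst Y X) (C.pull (snd Y X) e) = _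
    rw [he1, one_smul]⟩
  refine ⟨H.tr X (H.cl e), ?_, ?_⟩
  · intro h0
    have h1 : H.cl e = 0 := by
      apply H.nondeg
      intro b
      have h2 : (H.tr X) ∘ₗ (LinearMap.mulLeft K (H.cl e)) = 0 := by
        apply ext_gr H
        intro i a ha
        rw [LinearMap.comp_apply, LinearMap.mulLeft_apply, LinearMap.zero_apply]
        by_cases hi : i = 0
        · subst hi
          obtain ⟨c, rfl⟩ := hH.gr_zero X a ha
          rw [mul_smul_comm, mul_one, map_smul, h0, smul_zero]
        · apply tr_zero H (H.mul_mem (H.cl_mem he) ha)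
          omega
      exact LinearMap.congr_fun h2 b
    have h2 := hasDegree_zero_of_cl H he h1
    have h3 := hasDegree_unique H hed h2
    exact one_ne_zero h3
  · intro x q hx hq
    have h1 : H.cl (x - q • e) = 0 := by
      apply cl_zero_of_degree (Submodule.sub_mem _ hx (Submodule.smul_mem _ _ he))
      have h2 := hasDegree_add hq (hasDegree_smul (-q) hed)
      have e1 : x - q • e = x + (-q) • e := by rw [neg_smul, sub_eq_add_neg]
      rw [e1]
      have e2 : q + -q * 1 = 0 := by ring
      rwa [e2] at h2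
    rw [map_sub, sub_eq_zero, cl_rat_smul] at h1
    rw [h1, map_smul, smul_eq_mul]

end move

section dual

variable {C : TheoryData.{u, v, 0} 𝒱 ℚ} [hC : IsChowProj C] {H : WeilTheoryData.{u, v, 0} C ℂ}
  [hH : IsWeilProj H] {S : 𝒱.Obj}

include hC hH

/-- If `H^{2,0}(S) = 0` then `H^2(S)` is spanned by classes of divisors. -/
lemma gr_two_le_span {D : HodgeData H} (hD : D.IsHodge) (hS : D.IsGenusZero S) :
    H.gr S 2 ≤ Submodule.span ℂ {c | ∃ z : C.A S, C.Deg 1 z ∧ H.cl z = c} := by
  have h0 : Submodule.span ℂ {b : H.A S | D.rat S b ∧ H.Deg ((2 : ℕ) : ℤ) b} ≤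
      Submodule.span ℂ {c | ∃ z : C.A S, C.Deg 1 z ∧ H.cl z = c} := by
    rw [Submodule.span_le]
    rintro b ⟨hr, hb⟩
    apply Submodule.subset_span
    obtain ⟨f, hf, rfl⟩ := hD.decomp S 2 b hb
    have hb0 := hf 0 (by omega)
    have hb1 := hf 1 (by omega)
    have hb2 := hf 2 (by omega)
    have e1 : (((2 : ℕ) : ℤ) - ((1 : ℕ) : ℤ)) = 1 := by norm_num
    rw [e1] at hb1
    have h2 : f 2 = 0 := hS.genus _ (by simpa using hb2)
    have h3 : f 0 = 0 := by
      have h4 := hD.conj_hodge S 0 2 (f 0) (by simpa using hb0)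
      have h5 := hS.genus _ h4
      rw [← hD.conj_conj S (f 0), h5, conj_zero hD]
    have h6 : ∑ p ∈ Finset.range (2 + 1), f p = f 1 := by
      rw [Finset.sum_range_succ, Finset.sum_range_succ, Finset.sum_range_one, h2, h3, zero_add,
        add_zero]
    rw [h6] at hr ⊢
    exact hD.lefschetz S _ hr (by exact_mod_cast hb1)
  intro b hb
  exact h0 (hD.span_rat S 2 b (by exact_mod_cast hb))

/-- Dual bases of divisor classes on a surface with `H^{2,0}(S) = 0`. -/
lemma exists_dual_divisors {D : HodgeData H} (hD : D.IsHodge) (hS : D.IsGenusZero S)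
    (hfin : Module.Finite ℂ (H.A S)) : ∃ (m : ℕ) (a b : Fin m → C.A S),
      (∀ s, C.Deg 1 (a s) ∧ C.Deg 1 (b s)) ∧
      (∀ s t, HasDegree C (a s * b t) (if s = t then 1 else 0)) ∧
      H.gr S 2 ≤ Submodule.span ℂ (Set.range fun s => H.cl (a s)) := by
  classical
  obtain ⟨B, hB, hBs, hBli⟩ := exists_linearIndependent ℂ
    {c : H.A S | ∃ z : C.A S, C.Deg 1 z ∧ H.cl z = c}
  have hBf : Finite B := by
    haveI := hfin
    exact hBli.finite
  obtain ⟨m, ⟨e⟩⟩ := Finite.exists_equiv_fin B
  choose z hz hz' using fun x : B => hB x.2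
  let a : Fin m → C.A S := fun s => z (e.symm s)
  have ha : ∀ s, C.Deg 1 (a s) := fun s => hz _
  have hac : ∀ s, H.cl (a s) = ((e.symm s : B) : H.A S) := fun s => hz' _
  have hali : LinearIndependent ℂ fun s => H.cl (a s) := by
    have h1 : (fun s => H.cl (a s)) = (Subtype.val : B → H.A S) ∘ e.symm := funext hac
    rw [h1]
    exact hBli.comp _ e.symm.injective
  have hspan : H.gr S 2 ≤ Submodule.span ℂ (Set.range fun s => H.cl (a s)) := by
    refine (gr_two_le_span hD hS).trans ?_
    rw [← hBs]
    apply Submodule.span_mono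
    intro x hx
    exact ⟨e ⟨x, hx⟩, by simp [hac]⟩
  have hdeg2 : ∀ s t, a s * a t ∈ C.gr S S.dim := by
    intro s t
    have := C.mul_mem (ha s) (ha t)
    rw [hS.dim]
    exact this
  choose M hM using fun s t => exists_hasDegree (hdeg2 s t)
  obtain ⟨c, hc, htr⟩ := exists_tr_const H S
  have hMsymm : ∀ s t, M s t = M t s := by
    intro s t
    have h1 := hM s t
    rw [ch_comm C] at h1
    exact hasDegree_unique H h1 (hM t s)
  let M' : Matrix (Fin m) (Fin m) ℚ := Matrix.of M
  have hinj : ∀ x : Fin m → ℂ, (M'.map (algebraMap ℚ ℂ)).mulVec x = 0 → x = 0 := by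
    intro x hx
    have h0 : ∑ t, x t • H.cl (a t) = 0 := by
      apply H.nondeg
      intro b
      have h2 : (H.tr S) ∘ₗ (LinearMap.mulLeft ℂ (∑ t, x t • H.cl (a t))) = 0 := by
        apply ext_gr H
        intro i y hy
        rw [LinearMap.comp_apply, LinearMap.mulLeft_apply, LinearMap.zero_apply]
        by_cases hi : i = 2
        · subst hi
          have h3 : Submodule.span ℂ (Set.range fun s => H.cl (a s)) ≤
              LinearMap.ker ((H.tr S) ∘ₗ (LinearMap.mulLeft ℂ (∑ t, x t • H.cl (a t)))) := by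
            rw [Submodule.span_le]
            rintro _ ⟨s, rfl⟩
            rw [SetLike.mem_coe, LinearMap.mem_ker, LinearMap.comp_apply,
              LinearMap.mulLeft_apply, Finset.sum_mul, map_sum]
            have h4 := congrFun hx s
            have h5 : ∀ t, H.tr S (x t • H.cl (a t) * H.cl (a s)) = (M s t : ℂ) * x t * c := by
              intro t
              rw [smul_mul_assoc, map_smul, ← map_mul, htr _ _ (hdeg2 t s) (hM t s), hMsymm t s,
                smul_eq_mul]
              ring
            rw [Finset.sum_congr rfl fun t _ => h5 t, ← Finset.sum_mul]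
            have h6 : ∑ t, (M s t : ℂ) * x t = 0 := by
              simpa [Matrix.mulVec, dotProduct, M'] using h4
            rw [h6, zero_mul]
          exact h3 (hspan hy)
        · have h7 : (∑ t, x t • H.cl (a t)) ∈ H.gr S 2 :=
            Submodule.sum_mem _ fun t _ => Submodule.smul_mem _ _ (H.cl_mem (ha t))
          apply tr_zero H (H.mul_mem h7 hy)
          rw [hS.dim]
          push_cast
          omega
      exact LinearMap.congr_fun h2 b
    have h1 := Fintype.linearIndependent_iff.1 hali x h0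
    exact funext h1
  have hdet : M'.det ≠ 0 := by
    intro h0
    have h1 : (M'.map (algebraMap ℚ ℂ)).det = 0 := by
      rw [← RingHom.mapMatrix_apply, ← RingHom.map_det, h0, map_zero]
    obtain ⟨x, hx, hx'⟩ := Matrix.exists_mulVec_eq_zero_iff.2 h1
    exact hx (hinj x hx')
  have hMM : M' * M'⁻¹ = 1 := Matrix.mul_nonsing_inv _ (isUnit_iff_ne_zero.2 hdet)
  refine ⟨m, a, fun t => ∑ j, M'⁻¹ j t • a j, fun s => ⟨ha s, ?_⟩, fun s t => ?_, hspan⟩
  · exact Submodule.sum_mem _ fun t _ => Submodule.smul_mem _ _ (ha t)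
  · rw [Finset.mul_sum]
    have h1 : HasDegree C (∑ j, a s * M'⁻¹ j t • a j) (∑ j, M'⁻¹ j t * M s j) := by
      apply hasDegree_sum
      intro j _
      rw [mul_smul_comm]
      exact hasDegree_smul _ (hM s j)
    have h2 : ∑ j, M'⁻¹ j t * M s j = if s = t then 1 else 0 := by
      have h3 := congrFun (congrFun hMM s) t
      rw [Matrix.mul_apply, Matrix.one_apply] at h3
      rw [← h3]
      exact Finset.sum_congr rfl fun j _ => mul_comm _ _
    rw [h2] at h1
    exact h1

/-- On a surface with `H^{2,0}(S) = 0` there are Chow-Kunneth decompositions for which the component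
of weight `p ≠ 2` acts as the identity on the kernel of the Albanese map; and there is a
homologically trivial self-correspondence with this property. -/
lemma exists_CK_moved {D : HodgeData H} (hD : D.IsHodge) (hS : D.IsGenusZero S)
    (hM : HasMurreTheory H S) :
    ∃ q : C.A (S.prod S), C.Deg 2 q ∧ H.cl q = 0 ∧ (∀ z : C.A S, AlbaneseKer H z → C.act q z = z) ∧
      ∀ p : ℕ, p ≤ 4 → ∃ π : ℕ → C.A (S.prod S), IsCK H S π ∧
        ∀ z : C.A S, AlbaneseKer H z → C.act (π p) z = z := by
  obtain ⟨π, hπ, hker⟩ := hM.murre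
  obtain ⟨m, a, b, hab, hdeg, hspan⟩ := exists_dual_divisors hD hS hM.finite
  let P : ℕ → Cor C S := π
  let E : Fin m → Cor C S := fun s => C.ext (b s) (a s)
  have hPm : P 2 ∈ cor0 C S := hπ.deg 2
  have hEm : ∀ s, E s ∈ cor0 C S := by
    intro s
    have := ext_mem' (hab s).2 (hab s).1
    rw [mem_cor0, hS.dim]
    exact this
  have hEPE : ∀ s t, E s * P 2 * E t = if s = t then E s else 0 := by
    intro s t
    have h1 : C.comp (C.ext (b t) (a t)) (π 2) = C.ext (b t) (C.act (π 2) (a t)) :=
      ext_comp' _ _ _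
    have h3 : HasDegree C (C.act (π 2) (a t) * b s) (if t = s then 1 else 0) := by
      have h4 := hdeg t s
      refine hasDegree_of_cl (H := H) ?_ ?_ ?_ h4
      · rw [hS.dim]; exact C.mul_mem (hab t).1 (hab s).2
      · rw [hS.dim]; exact C.mul_mem (act_mem0 C (hπ.deg 2) (hab t).1) (hab s).2
      · rw [map_mul, map_mul, cl_act H]
        congr 1
        have h5 := hπ.act_self 2 (H.cl (a t)) (by exact_mod_cast H.cl_mem (hab t).1)
        exact h5.symm
    have h4 : C.comp (C.ext (b t) (C.act (π 2) (a t))) (C.ext (b s) (a s)) =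
        (if t = s then (1 : ℚ) else 0) • C.ext (b t) (a s) := comp_ext_ext h3
    have h2 : E s * P 2 * E t = (if t = s then (1 : ℚ) else 0) • (C.ext (b t) (a s) : Cor C S) := by
      rw [mul_assoc]
      change C.comp (C.comp (C.ext (b t) (a t)) (π 2)) (C.ext (b s) (a s)) = _
      rw [h1, h4]
    rw [h2]
    by_cases hst : s = t
    · subst hst
      rw [if_pos rfl, if_pos rfl, one_smul]
    · rw [if_neg (Ne.symm hst), if_neg hst, zero_smul]
      rfl
  let Sg : Cor C S := ∑ s, E s
  have hSgm : Sg ∈ cor0 C S := (cor0 C S).sum_mem fun s _ => hEm s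
  have hSgSg : Sg * P 2 * Sg = Sg := by
    simp only [Sg]
    rw [Finset.sum_mul, Finset.sum_mul]
    refine Finset.sum_congr rfl fun s _ => ?_
    rw [Finset.mul_sum, Finset.sum_eq_single s]
    · rw [hEPE, if_pos rfl]
    · intro t _ hts
      rw [hEPE, if_neg (Ne.symm hts)]
    · intro h
      exact absurd (Finset.mem_univ _) h
  have hPP : P 2 * P 2 = P 2 := by
    have := IsCK.mul_eq (P := P) hπ 2 2
    rwa [if_pos rfl] at this
  let A : Cor C S := P 2 * Sg * P 2
  have hAm : A ∈ cor0 C S := (cor0 C S).mul_mem ((cor0 C S).mul_mem hPm hSgm) hPm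
  have hAA : A * A = A := by
    change P 2 * Sg * P 2 * (P 2 * Sg * P 2) = P 2 * Sg * P 2
    have e : P 2 * Sg * P 2 * (P 2 * Sg * P 2) = P 2 * (Sg * (P 2 * P 2) * Sg) * P 2 := by
      simp only [mul_assoc]
    rw [e, hPP, hSgSg]
  have hPA : P 2 * A = A := by
    change P 2 * (P 2 * Sg * P 2) = P 2 * Sg * P 2
    rw [mul_assoc (P 2) Sg, ← mul_assoc (P 2) (P 2), hPP]
  have hAP : A * P 2 = A := by
    change P 2 * Sg * P 2 * P 2 = P 2 * Sg * P 2
    rw [mul_assoc (P 2 * Sg), hPP]
  let q : Cor C S := P 2 - A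
  have hqm : q ∈ cor0 C S := (cor0 C S).sub_mem hPm hAm
  have hAq : A + q = P 2 := by
    change A + (P 2 - A) = P 2
    abel
  have hAq0 : A * q = 0 := by
    change A * (P 2 - A) = 0
    rw [mul_sub, hAP, hAA, sub_self]
  have hqA0 : q * A = 0 := by
    change (P 2 - A) * A = 0
    rw [sub_mul, hPA, hAA, sub_self]
  have hqq : q * q = q := by
    change q * (P 2 - A) = q
    rw [mul_sub, hqA0, sub_zero]
    change (P 2 - A) * P 2 = P 2 - A
    rw [sub_mul, hPP, hAP]
  have hSg2 : ∀ y ∈ H.gr S 2, actH C S H Sg y = y := by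
    intro y hy
    have h0 := hspan hy
    clear hy
    induction h0 using Submodule.span_induction with
    | mem y hy =>
      obtain ⟨t, rfl⟩ := hy
      simp only [Sg]
      rw [map_sum, LinearMap.sum_apply, Finset.sum_eq_single t]
      · have h1 : C.act (C.ext (b t) (a t)) (a t) = (1 : ℚ) • a t := by
          apply act_ext'
          rw [ch_comm C]
          have := hdeg t t
          rwa [if_pos rfl] at this
        have h2 : actH C S H (E t) (H.cl (a t)) = H.cl (C.act (C.ext (b t) (a t)) (a t)) :=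
          (cl_act H _ _).symm
        rw [h2, h1, one_smul]
      · intro s _ hst
        have h1 : C.act (C.ext (b s) (a s)) (a t) = (0 : ℚ) • a s := by
          apply act_ext'
          rw [ch_comm C]
          have := hdeg t s
          rwa [if_neg (Ne.symm hst)] at this
        have h2 : actH C S H (E s) (H.cl (a t)) = H.cl (C.act (C.ext (b s) (a s)) (a t)) :=
          (cl_act H _ _).symm
        rw [h2, h1, zero_smul, map_zero]
      · intro h
        exact absurd (Finset.mem_univ _) h
    | zero => rw [map_zero]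
    | add y z _ _ hy hz => rw [map_add, hy, hz]
    | smul c y _ hy => rw [map_smul, hy]
  have hqact : ∀ y : H.A S, actH C S H q y = 0 := by
    intro y
    have h1 : actH C S H q = 0 := by
      apply ext_gr H
      intro i y hy
      rw [LinearMap.zero_apply]
      change actH C S H (P 2 - P 2 * Sg * P 2) y = 0
      rw [map_sub, map_mul, map_mul, LinearMap.sub_apply]
      change actH C S H (P 2) y - actH C S H (P 2) (actH C S H Sg (actH C S H (P 2) y)) = 0
      rw [IsCK.actH_eq' (P := P) hπ 2 i hy]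
      by_cases hi : i = 2
      · subst hi
        rw [if_pos (by norm_num), hSg2 y hy, IsCK.actH_eq' (P := P) hπ 2 2 hy,
          if_pos (by norm_num), sub_self]
      · rw [if_neg (by exact_mod_cast hi), map_zero, map_zero, sub_zero]
    exact LinearMap.congr_fun h1 y
  have hSgz : ∀ z : C.A S, C.Deg 2 z → actC C S Sg z = 0 := by
    intro z hz
    simp only [Sg]
    rw [map_sum, LinearMap.sum_apply]
    apply Finset.sum_eq_zero
    intro s _
    have h1 : b s * z ∈ C.gr S (1 + 2) := C.mul_mem (hab s).2 hz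
    exact act_ext_zero_of_lt h1 (by rw [hS.dim]; norm_num)
  have hqz : ∀ z : C.A S, AlbaneseKer H z → C.act q z = z := by
    intro z hz
    have hzd : C.Deg 2 z := by
      have := hz.1.1
      rw [hS.dim] at this
      exact this
    change actC C S (P 2 - P 2 * Sg * P 2) z = z
    rw [map_sub, map_mul, map_mul, LinearMap.sub_apply]
    change actC C S (P 2) z - actC C S (P 2) (actC C S Sg (actC C S (P 2) z)) = z
    have h1 : actC C S (P 2) z = z := hker z hz
    rw [h1, hSgz z hzd, map_zero, sub_zero]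
  refine ⟨q, ?_, ?_, hqz, ?_⟩
  · have := (mem_cor0).1 hqm
    rw [hS.dim] at this
    exact this
  · exact hom_zero_of_act H hqact
  · intro p hp
    by_cases hp2 : p = 2
    · subst hp2
      exact ⟨π, hπ, hker⟩
    · refine ⟨_, IsCK.move (P := P) hπ (c := 2) (p := p) (Ne.symm hp2) (by rw [hS.dim]; omega)
        (by rw [hS.dim]; omega) hAm hqm hAq hAA hqq hAq0 hqA0 hqact, fun z hz => ?_⟩
      change actC C S ((if p = 2 then A else P p) + if p = p then q else 0) z = z
      rw [if_neg hp2, if_pos rfl, map_add, LinearMap.add_apply]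
      have h1 : actC C S (P p) z = 0 := by
        have h2 : z = C.act (π 2) z := (hker z hz).symm
        have h3 : P p * P 2 = 0 := by
          rw [IsCK.mul_eq (P := P) hπ, if_neg hp2]
        rw [h2]
        change (actC C S (P p) * actC C S (P 2)) z = 0
        rw [← map_mul, h3, map_zero]
        rfl
      rw [h1, zero_add]
      exact hqz z hz

/-- If the Albanese map is injective, the components of weight `j ≠ 2 i - 1` of a Chow-Kunneth
decomposition act as zero on homologically trivial cycles. -/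
lemma act_zero_of_albanese (hM : HasMurreTheory H S) (hS : S.dim = 2)
    (hA : AlbaneseInjective H S) {π : ℕ → C.A (S.prod S)} (hπ : IsCK H S π) {i j : ℕ}
    (hj : (j : ℤ) ≠ 2 * i - 1) {x : C.A S} (hx : C.Deg i x) (hx0 : H.cl x = 0) :
    C.act (π j) x = 0 := by
  have hd : C.Deg 2 (π j) := by
    have := hπ.deg j
    rw [hS] at this
    exact this
  have hk : Kills H (π j) (2 * i - 1) := fun a ha => hπ.act_ne j _ a (by omega) ha
  rcases Nat.lt_or_ge 2 i with hi | hi
  · exact hC.gr_top S i _ (act_mem0 C (hπ.deg j) hx) (by rw [hS]; exact_mod_cast hi)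
  · interval_cases i
    · refine eq_zero_of_codim_zero (H := H) (act_mem0 C (hπ.deg j) hx) ?_
      rw [cl_act H, hx0]
      exact H.act_map_zero _
    · exact hM.picard _ hd hk x ⟨hx, hx0⟩
    · exact hA _ (hM.albanese _ hd hk x ⟨hx, hx0⟩)

/-- **For a surface with `H^{2,0}(S) = 0`, Bloch's conjecture is equivalent to each one of the
conjectures (B), (C), (D) of Murre for all Chow-Kunneth decompositions of `S`.** -/
theorem bloch_murre_tfae {D : HodgeData H} (hD : D.IsHodge) (hS : D.IsGenusZero S)
    (hM : HasMurreTheory H S) :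
    List.TFAE [AlbaneseInjective H S, MurreB1 H S, MurreC H S, MurreD H S,
      HomTrivialNilpotentOnKer H S] := by
  have hdim : ∀ z : C.A S, AlbaneseKer H z → C.Deg 2 z := by
    intro z hz
    have := hz.1.1
    rw [hS.dim] at this
    exact this
  have hself : ∀ π : ℕ → C.A (S.prod S), IsCK H S π → ∀ (i : ℕ) (x : C.A S), C.Deg i x →
      C.act (π (2 * i)) x = 0 → H.cl x = 0 := by
    intro π hπ i x hx h0
    rw [← cl_act_self hπ hx, h0, map_zero]
  have hsum : ∀ π : ℕ → C.A (S.prod S), IsCK H S π → ∀ x : C.A S, (∀ j, C.act (π j) x = 0) →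
      x = 0 := by
    intro π hπ x hx
    have h3 : x = ∑ a ∈ Finset.range (2 * S.dim + 1), C.act (π a) x := by
      rw [← act_sum, hπ.sum, act_dg]
    rw [h3]
    exact Finset.sum_eq_zero fun j _ => hx j
  have hD1 : AlbaneseInjective H S → MurreD H S := by
    intro hA π hπ i x
    rw [hπ.mem_ckFil]
    constructor
    · rintro ⟨hx, hx'⟩
      exact ⟨hx, hself π hπ i x hx (hx' (2 * i) (by omega))⟩
    · rintro ⟨hx, hx'⟩
      exact ⟨hx, fun j hj => act_zero_of_albanese hM hS.dim hA hπ (by omega) hx hx'⟩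
  have hF2 : AlbaneseInjective H S → ∀ π, IsCK H S π → ∀ i n : ℕ, ckFil C π i (n + 2) = ⊥ := by
    intro hA π hπ i n
    rw [eq_bot_iff]
    intro x hx
    rw [hπ.mem_ckFil] at hx
    rw [Submodule.mem_bot]
    have h0 : H.cl x = 0 := hself π hπ i x hx.1 (hx.2 (2 * i) (by omega))
    apply hsum π hπ
    intro j
    by_cases hj : (j : ℤ) = 2 * i - 1
    · exact hx.2 j (by omega)
    · exact act_zero_of_albanese hM hS.dim hA hπ hj hx.1 h0
  have hF0 : AlbaneseInjective H S → ∀ π, IsCK H S π → ∀ i : ℕ, ckFil C π i 0 = C.gr S i := by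
    intro hA π hπ i
    apply le_antisymm
    · intro x hx
      rw [hπ.mem_ckFil] at hx
      exact hx.1
    · intro x hx
      rw [hπ.mem_ckFil]
      refine ⟨hx, fun j hj => ?_⟩
      have h1 : C.act (π j) x = C.act (π j) (C.act (π j) x) := by
        rw [← C.act_comp, hπ.idem]
      rw [h1]
      apply act_zero_of_albanese hM hS.dim hA hπ (i := i) (by omega)
        (act_mem0 C (hπ.deg j) hx)
      rw [cl_act H]
      exact hπ.act_ne j (2 * i) _ (by omega) (H.cl_mem hx)
  obtain ⟨q, hq, hq0, hqz, hmove⟩ := exists_CK_moved hD hS hM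
  tfae_have 1 → 2 := by
    intro hA π hπ i
    rcases i with _ | i
    · rw [eq_bot_iff]
      intro x hx
      rw [hπ.mem_ckFil] at hx
      rw [Submodule.mem_bot]
      exact hsum π hπ x fun j => hx.2 j (by omega)
    · exact hF2 hA π hπ (i + 1) i
  tfae_have 1 → 3 := by
    intro hA π π' hπ hπ' i n
    rcases n with _ | _ | n
    · rw [hF0 hA π hπ, hF0 hA π' hπ']
    · ext x
      rw [hD1 hA π hπ, hD1 hA π' hπ']
    · rw [hF2 hA π hπ, hF2 hA π' hπ']
  tfae_have 1 → 4 := hD1
  tfae_have 1 → 5 := fun hA γ _ _ z hz => ⟨0, hA z hz⟩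
  tfae_have 2 → 1 := by
    intro h z hz
    obtain ⟨π, hπ, hact⟩ := hmove 0 (by omega)
    have h1 : z ∈ ckFil C π 2 (2 + 1) := by
      rw [hπ.mem_ckFil]
      refine ⟨(hdim z hz), fun j hj => ?_⟩
      rw [← hact z hz, ← C.act_comp, hπ.orth 0 j (by omega), TheoryData.act_zero]
    rw [h π hπ 2] at h1
    exact (Submodule.mem_bot _).1 h1
  tfae_have 3 → 1 := by
    intro h z hz
    obtain ⟨π, hπ, hact⟩ := hmove 0 (by omega)
    obtain ⟨π', hπ', hact'⟩ := hmove 4 (by omega)
    have h1 : z ∈ ckFil C π 2 1 := by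
      rw [hπ.mem_ckFil]
      refine ⟨(hdim z hz), fun j hj => ?_⟩
      rw [← hact z hz, ← C.act_comp, hπ.orth 0 j (by omega), TheoryData.act_zero]
    rw [h π π' hπ hπ' 2 1, hπ'.mem_ckFil] at h1
    rw [← hact' z hz]
    exact h1.2 4 (by omega)
  tfae_have 4 → 1 := by
    intro h z hz
    obtain ⟨π, hπ, hact⟩ := hmove 4 (by omega)
    have h1 : z ∈ ckFil C π 2 1 := (h π hπ 2 z).2 ⟨hdim z hz, hz.1.2⟩
    rw [hπ.mem_ckFil] at h1
    rw [← hact z hz]
    exact h1.2 4 (by omega)
  tfae_have 5 → 1 := by
    intro h z hz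
    obtain ⟨m, hm⟩ := h q hq hq0 z hz
    have h1 : ∀ n : ℕ, (C.act q)^[n] z = z := by
      intro n
      induction n with
      | zero => rfl
      | succ n ih => rw [Function.iterate_succ_apply', ih, hqz z hz]
    rw [← h1 m, hm]
  tfae_finish

end dual

end Pool.Agent.TH133
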